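import Pool.Agent.Lib.MP_a3a416_nt.QS.Square

/-! QS-LVal: the half character sum and the truncated L-value. -/

set_option autoImplicit false

open Finset

namespace Pool.QS

theorem coprime_six_iff (n : ℕ) : n.Coprime 6 ↔ n % 2 = 1 ∧ n % 3 ≠ 0 := by
  have h : n.Coprime 6 ↔ (n % 6).Coprime 6 := by
    unfold Nat.Coprime
    rw [Nat.gcd_comm n 6, Nat.gcd_rec 6 n]
  rw [h]
  have h6 : n % 6 < 6 := Nat.mod_lt _ (by norm_num)
  have h2 : n % 2 = (n % 6) % 2 := by omega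
  have h3 : n % 3 = (n % 6) % 3 := by omega
  rw [h2, h3]
  generalize n % 6 = r at *
  interval_cases r <;> decide

theorem sum_coprime_six (f : ℕ → ℂ) (N : ℕ) :
    ∑ n ∈ (Icc 1 N).filter (fun n => n.Coprime 6), f n =
      ∑ j ∈ range ((N + 1) / 2), f (2 * j + 1) - ∑ j ∈ range ((N / 3 + 1) / 2), f (3 * (2 * j + 1)) := by
  have h1 : ∑ j ∈ range ((N + 1) / 2), f (2 * j + 1) =
      ∑ n ∈ (Icc 1 N).filter (fun n => n % 2 = 1), f n := by
    refine sum_nbij' (fun j => 2 * j + 1) (fun n => n / 2) ?_ ?_ ?_ ?_ ?_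
    · intro j hj
      rw [mem_range] at hj
      rw [mem_filter, mem_Icc]
      omega
    · intro n hn
      rw [mem_filter, mem_Icc] at hn
      rw [mem_range]
      omega
    · intro j hj
      beta_reduce
      omega
    · intro n hn
      rw [mem_filter, mem_Icc] at hn
      beta_reduce
      omega
    · intro j hj
      rfl
  have h2 : ∑ j ∈ range ((N / 3 + 1) / 2), f (3 * (2 * j + 1)) =
      ∑ n ∈ (Icc 1 N).filter (fun n => n % 2 = 1 ∧ n % 3 = 0), f n := by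
    refine sum_nbij' (fun j => 3 * (2 * j + 1)) (fun n => n / 6) ?_ ?_ ?_ ?_ ?_
    · intro j hj
      rw [mem_range] at hj
      rw [mem_filter, mem_Icc]
      omega
    · intro n hn
      rw [mem_filter, mem_Icc] at hn
      rw [mem_range]
      omega
    · intro j hj
      beta_reduce
      omega
    · intro n hn
      rw [mem_filter, mem_Icc] at hn
      beta_reduce
      omega
    · intro j hj
      rfl
  rw [h1, h2, eq_sub_iff_add_eq, ← sum_union]
  · apply sum_congr _ (fun _ _ => rfl)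
    ext n
    simp only [mem_union, mem_filter, mem_Icc, coprime_six_iff]
    omega
  · rw [disjoint_left]
    intro n hn hn'
    rw [mem_filter, coprime_six_iff] at hn
    rw [mem_filter] at hn'
    omega

/-- sums of even functions over `ZMod p` -/
theorem sum_even {p : ℕ} [hFp : Fact p.Prime] (hp : p.Prime) (h5 : 5 ≤ p) (f : ZMod p → ℂ) (h0 : f 0 = 0)
    (he : ∀ x, f (-x) = f x) :
    ∑ x : ZMod p, f x = 2 * ∑ a ∈ Icc 1 ((p - 1) / 2), f ((a : ℕ) : ZMod p) := by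
  have hodd : p % 2 = 1 := by
    rcases hp.eq_two_or_odd with h | h
    · omega
    · exact h
  have h1 : ∑ x : ZMod p, f x = ∑ a ∈ Ico 0 p, f ((a : ℕ) : ZMod p) := by
    refine sum_nbij' (fun x => x.val) (fun a => ((a : ℕ) : ZMod p)) ?_ ?_ ?_ ?_ ?_
    · intro x _
      rw [mem_Ico]
      exact ⟨Nat.zero_le _, ZMod.val_lt x⟩
    · intro a _
      exact mem_univ _
    · intro x _
      beta_reduce
      exact ZMod.natCast_zmod_val x
    · intro a ha
      rw [mem_Ico] at ha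
      beta_reduce
      exact ZMod.val_natCast_of_lt ha.2
    · intro x _
      beta_reduce
      rw [ZMod.natCast_zmod_val]
  have h2 : ∑ a ∈ Ico ((p - 1) / 2 + 1) p, f ((a : ℕ) : ZMod p) =
      ∑ a ∈ Ico 1 ((p - 1) / 2 + 1), f ((a : ℕ) : ZMod p) := by
    refine sum_nbij' (fun a => p - a) (fun a => p - a) ?_ ?_ ?_ ?_ ?_
    · intro a ha
      rw [mem_Ico] at ha ⊢
      omega
    · intro a ha
      rw [mem_Ico] at ha ⊢
      omega
    · intro a ha
      rw [mem_Ico] at ha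
      beta_reduce
      omega
    · intro a ha
      rw [mem_Ico] at ha
      beta_reduce
      omega
    · intro a ha
      rw [mem_Ico] at ha
      beta_reduce
      rw [Nat.cast_sub (by omega), ZMod.natCast_self, zero_sub, he]
  rw [h1, ← sum_Ico_consecutive _ (by omega : 0 ≤ (p - 1) / 2 + 1) (by omega : (p - 1) / 2 + 1 ≤ p),
    h2, sum_eq_sum_Ico_succ_bot (by omega), Nat.cast_zero, h0, zero_add]
  have h3 : Icc 1 ((p - 1) / 2) = Ico 1 ((p - 1) / 2 + 1) := by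
    ext a; simp only [mem_Icc, mem_Ico]; omega
  rw [h3, zero_add]
  ring

/-- The twisted sine sum. -/
theorem sine_sum {p : ℕ} (hp : p.Prime) (h5 : 5 ≤ p) (χ : DirichletCharacter ℂ p)
    (hodd : χ (-1) = -1) :
    ∃ G : ℂ, ‖G‖ = Real.sqrt p / 2 ∧ ∀ n : ℕ,
      ∑ a ∈ Icc 1 ((p - 1) / 2), χ ((a : ℕ) : ZMod p) * ((Real.sin (n * (2 * Real.pi * a / p)) : ℝ) : ℂ) =
        χ⁻¹ ((n : ℕ) : ZMod p) * G := by
  have : Fact p.Prime := ⟨hp⟩
  set e := ZMod.stdAddChar (N := p) with he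
  set τ := gaussSum χ e with hτ
  have hχ1 : χ ≠ 1 := by
    rintro rfl
    have h1 : ((1 : DirichletCharacter ℂ p) (-1)) = 1 := by
      have := MulChar.one_apply_coe (R' := ℂ) (-1 : (ZMod p)ˣ)
      simpa using this
    rw [h1] at hodd
    norm_num at hodd
  have hinvodd : χ⁻¹ (-1) = -1 := by
    rw [MulChar.inv_apply', inv_neg_one, hodd]
  have hnorm : ‖τ‖ = Real.sqrt p := by
    have h1 : τ * star τ = p := by
      rw [hτ, star_gaussSum_eq, gaussSum_mul_gaussSum_eq_card hχ1 (ZMod.isPrimitive_stdAddChar p),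
        ZMod.card]
    have h2 : ‖τ‖ ^ 2 = p := by
      have h3 : ((‖τ‖ ^ 2 : ℝ) : ℂ) = ((p : ℝ) : ℂ) := by
        push_cast
        rw [← h1]
        rw [← Complex.mul_conj']
        rfl
      exact_mod_cast h3
    rw [← h2, Real.sqrt_sq (norm_nonneg _)]
  refine ⟨τ / (2 * Complex.I), ?_, fun n => ?_⟩
  · rw [norm_div, hnorm, norm_mul, Complex.norm_I]
    simp
  · -- the full sum
    set N : ZMod p := ((n : ℕ) : ZMod p) with hN
    have hsin : ∀ a : ℕ, ((Real.sin (n * (2 * Real.pi * a / p)) : ℝ) : ℂ) =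
        (e (((a : ℕ) : ZMod p) * N) - e (((a : ℕ) : ZMod p) * (-N))) / (2 * Complex.I) := by
      intro a
      have e1 : e (((a : ℕ) : ZMod p) * N) = Complex.exp (2 * Real.pi * Complex.I * ((a * n : ℤ) : ℂ) / p) := by
        rw [← ZMod.stdAddChar_coe]
        push_cast
        rfl
      have e2 : e (((a : ℕ) : ZMod p) * (-N)) = Complex.exp (2 * Real.pi * Complex.I * ((-(a * n) : ℤ) : ℂ) / p) := by
        rw [← ZMod.stdAddChar_coe]
        push_cast
        rw [mul_neg]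
      rw [e1, e2, Complex.ofReal_sin, Complex.sin]
      have h2 : -(((n * (2 * Real.pi * a / p) : ℝ) : ℂ)) * Complex.I =
          2 * Real.pi * Complex.I * ((-(a * n) : ℤ) : ℂ) / p := by
        push_cast; ring
      have h3 : (((n * (2 * Real.pi * a / p) : ℝ) : ℂ)) * Complex.I =
          2 * Real.pi * Complex.I * ((a * n : ℤ) : ℂ) / p := by
        push_cast; ring
      rw [h2, h3, div_mul_eq_div_div, div_eq_mul_inv _ Complex.I, Complex.inv_I]
      ring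
    have hfull : ∑ x : ZMod p, χ x * ((e (x * N) - e (x * (-N))) / (2 * Complex.I)) =
        2 * (χ⁻¹ N * (τ / (2 * Complex.I))) := by
      by_cases hN0 : N = 0
      · rw [hN0]
        have : (χ⁻¹ (0 : ZMod p)) = 0 := MulChar.map_zero _
        rw [this]
        simp
      · have h1 : ∀ M : (ZMod p)ˣ, ∑ x : ZMod p, χ x * e (x * (M : ZMod p)) = χ⁻¹ (M : ZMod p) * τ := by
          intro M
          rw [← gaussSum_mulShift_eq, gaussSum]
          refine sum_congr rfl fun x _ => ?_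
          rw [AddChar.mulShift_apply, mul_comm x]
        have h2 := h1 (Units.mk0 N hN0)
        have h3 := h1 (Units.mk0 (-N) (neg_ne_zero.mpr hN0))
        rw [Units.val_mk0] at h2 h3
        have h4 : χ⁻¹ (-N) = - χ⁻¹ N := by
          rw [← neg_one_mul N, map_mul, hinvodd, neg_one_mul]
        rw [h4] at h3
        calc ∑ x : ZMod p, χ x * ((e (x * N) - e (x * (-N))) / (2 * Complex.I))
            = (∑ x : ZMod p, χ x * e (x * N) - ∑ x : ZMod p, χ x * e (x * (-N))) / (2 * Complex.I) := by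
              rw [← sum_sub_distrib, sum_div]
              refine sum_congr rfl fun x _ => by ring
          _ = _ := by rw [h2, h3]; ring
    have hhalf := sum_even hp h5 (fun x => χ x * ((e (x * N) - e (x * (-N))) / (2 * Complex.I)))
      (by simp) (by
        intro x
        beta_reduce
        have : χ (-x) = - χ x := by rw [← neg_one_mul x, map_mul, hodd, neg_one_mul]
        rw [this, neg_mul_neg x N, neg_mul x N, ← mul_neg x N]
        ring)
    beta_reduce at hhalf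
    rw [hfull] at hhalf
    have h2 : (2 : ℂ) ≠ 0 := two_ne_zero
    have h3 := mul_left_cancel₀ h2 hhalf
    rw [h3]
    refine sum_congr rfl fun a _ => ?_
    rw [hsin]

theorem sin_lower {p a : ℕ} (h5 : 5 ≤ p) (hodd : p % 2 = 1) (ha : a ∈ Icc 1 ((p - 1) / 2)) :
    0 < 2 * Real.pi * a / p ∧ 2 * Real.pi * a / p < Real.pi ∧
      2 / (p : ℝ) ≤ Real.sin (2 * Real.pi * a / p) := by
  rw [mem_Icc] at ha
  have hpi := Real.pi_pos
  have hp0 : (0 : ℝ) < p := by exact_mod_cast (by omega : 0 < p)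
  have ha1 : (1 : ℝ) ≤ a := by exact_mod_cast ha.1
  have ha2 : 2 * (a : ℝ) + 1 ≤ p := by
    have : 2 * a + 1 ≤ p := by omega
    exact_mod_cast this
  have h1 : 0 < 2 * Real.pi * a / p := by positivity
  have h2 : 2 * Real.pi * a / p < Real.pi := by
    rw [div_lt_iff₀ hp0]
    nlinarith
  refine ⟨h1, h2, ?_⟩
  rcases le_or_gt (2 * Real.pi * a / p) (Real.pi / 2) with h | h
  · have h3 := Real.mul_le_sin h1.le h
    refine le_trans ?_ h3
    rw [div_mul_div_comm, div_le_div_iff₀ hp0 (by positivity)]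
    nlinarith [mul_pos hpi hp0]
  · rw [← Real.sin_pi_sub]
    have h3 := Real.mul_le_sin (x := Real.pi - 2 * Real.pi * a / p) (by linarith) (by linarith)
    refine le_trans ?_ h3
    have h4 : 2 / Real.pi * (Real.pi - 2 * Real.pi * a / p) = 2 * (p - 2 * a) / p := by
      field_simp
    rw [h4, div_le_div_iff_of_pos_right hp0]
    nlinarith

/-- The partial sums over odd `n`. -/
theorem odd_sum_bound {p : ℕ} (hp : p.Prime) (h5 : 5 ≤ p) (χ : DirichletCharacter ℂ p) (G : ℂ)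
    (hG : ∀ n : ℕ,
      ∑ a ∈ Icc 1 ((p - 1) / 2), χ ((a : ℕ) : ZMod p) * ((Real.sin (n * (2 * Real.pi * a / p)) : ℝ) : ℂ) =
        χ⁻¹ ((n : ℕ) : ZMod p) * G) (J : ℕ) (hJ : 1 ≤ J) :
    ‖((Real.pi / 4 : ℝ) : ℂ) * ∑ a ∈ Icc 1 ((p - 1) / 2), χ ((a : ℕ) : ZMod p) -
      G * ∑ j ∈ range J, χ⁻¹ (((2 * j + 1 : ℕ)) : ZMod p) / ((2 * j + 1 : ℕ) : ℂ)‖ ≤
      (p : ℝ) ^ 2 / (4 * J) := by
  have : Fact p.Prime := ⟨hp⟩
  have hodd : p % 2 = 1 := by
    rcases hp.eq_two_or_odd with h | h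
    · omega
    · exact h
  have h1 : G * ∑ j ∈ range J, χ⁻¹ (((2 * j + 1 : ℕ)) : ZMod p) / ((2 * j + 1 : ℕ) : ℂ) =
      ∑ a ∈ Icc 1 ((p - 1) / 2), χ ((a : ℕ) : ZMod p) *
        ((∑ j ∈ range J, Real.sin ((2 * j + 1) * (2 * Real.pi * a / p)) / (2 * j + 1) : ℝ) : ℂ) := by
    simp_rw [Complex.ofReal_sum, mul_sum]
    rw [sum_comm]
    refine sum_congr rfl fun j _ => ?_
    have := hG (2 * j + 1)
    calc G * (χ⁻¹ (((2 * j + 1 : ℕ)) : ZMod p) / ((2 * j + 1 : ℕ) : ℂ))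
        = (χ⁻¹ (((2 * j + 1 : ℕ)) : ZMod p) * G) / ((2 * j + 1 : ℕ) : ℂ) := by ring
      _ = _ := by
        rw [← this, sum_div]
        refine sum_congr rfl fun a _ => ?_
        push_cast
        ring
  rw [h1, mul_sum, ← sum_sub_distrib]
  refine (norm_sum_le _ _).trans ?_
  have h2 : ∀ a ∈ Icc 1 ((p - 1) / 2), ‖((Real.pi / 4 : ℝ) : ℂ) * χ ((a : ℕ) : ZMod p) -
      χ ((a : ℕ) : ZMod p) *
        ((∑ j ∈ range J, Real.sin ((2 * j + 1) * (2 * Real.pi * a / p)) / (2 * j + 1) : ℝ) : ℂ)‖ ≤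
      (p : ℝ) / (2 * J) := by
    intro a ha
    obtain ⟨s1, s2, s3⟩ := sin_lower h5 hodd ha
    have hsq := square_wave J hJ s1 s2
    have h3 : ((Real.pi / 4 : ℝ) : ℂ) * χ ((a : ℕ) : ZMod p) -
      χ ((a : ℕ) : ZMod p) *
        ((∑ j ∈ range J, Real.sin ((2 * j + 1) * (2 * Real.pi * a / p)) / (2 * j + 1) : ℝ) : ℂ) =
      χ ((a : ℕ) : ZMod p) * ((Real.pi / 4 - ∑ j ∈ range J, Real.sin ((2 * j + 1) * (2 * Real.pi * a / p)) / (2 * j + 1) : ℝ) : ℂ) := by
      push_cast; ring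
    rw [h3, norm_mul, Complex.norm_real, Real.norm_eq_abs]
    have h4 : ‖χ ((a : ℕ) : ZMod p)‖ ≤ 1 := DirichletCharacter.norm_le_one χ _
    have hp0 : (0 : ℝ) < p := by exact_mod_cast (by omega : 0 < p)
    have hJ0 : (0 : ℝ) < J := by exact_mod_cast (by omega : 0 < J)
    have h5' : 1 / ((J : ℝ) * Real.sin (2 * Real.pi * a / p)) ≤ (p : ℝ) / (2 * J) := by
      rw [div_le_div_iff₀ (mul_pos hJ0 (lt_of_lt_of_le (by positivity) s3)) (by positivity)]
      rw [div_le_iff₀ hp0] at s3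
      nlinarith
    calc ‖χ ((a : ℕ) : ZMod p)‖ * _ ≤ 1 * (1 / ((J : ℝ) * Real.sin (2 * Real.pi * a / p))) := by
          apply mul_le_mul h4 hsq (abs_nonneg _) zero_le_one
      _ ≤ _ := by rw [one_mul]; exact h5'
  refine (sum_le_card_nsmul _ _ _ h2).trans ?_
  rw [Nat.card_Icc, nsmul_eq_mul]
  have hJ0 : (0 : ℝ) < J := by exact_mod_cast (by omega : 0 < J)
  have h6 : (((p - 1) / 2 + 1 - 1 : ℕ) : ℝ) ≤ (p : ℝ) / 2 := by
    have h7 : 2 * ((p - 1) / 2 + 1 - 1) ≤ p := by omega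
    have h8 : (2 : ℝ) * (((p - 1) / 2 + 1 - 1 : ℕ) : ℝ) ≤ p := by exact_mod_cast h7
    linarith
  calc (((p - 1) / 2 + 1 - 1 : ℕ) : ℝ) * ((p : ℝ) / (2 * J)) ≤ (p : ℝ) / 2 * ((p : ℝ) / (2 * J)) := by
        apply mul_le_mul_of_nonneg_right h6 (by positivity)
    _ = _ := by field_simp; norm_num

theorem tl_formula {p : ℕ} (hp : p.Prime) (h5 : 5 ≤ p) (χ : DirichletCharacter ℂ p)
    (hodd : χ (-1) = -1) (N : ℕ) (hN : 12 ≤ N) :
    |‖TL χ N‖ - Real.pi / 2 * ‖∑ a ∈ Icc 1 ((p - 1) / 2), χ ((a : ℕ) : ZMod p)‖ *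
      ‖1 - χ 3 / 3‖ / Real.sqrt p| ≤ 100 * (p : ℝ) ^ 2 / N := by
  have : Fact p.Prime := ⟨hp⟩
  obtain ⟨G, hGn, hG⟩ := sine_sum hp h5 χ hodd
  set S := ∑ a ∈ Icc 1 ((p - 1) / 2), χ ((a : ℕ) : ZMod p) with hS
  set J1 := (N + 1) / 2 with hJ1
  set J2 := (N / 3 + 1) / 2 with hJ2
  have b1 := odd_sum_bound hp h5 χ G hG J1 (by omega)
  have b2 := odd_sum_bound hp h5 χ G hG J2 (by omega)
  set O1 := ∑ j ∈ range J1, χ⁻¹ (((2 * j + 1 : ℕ)) : ZMod p) / ((2 * j + 1 : ℕ) : ℂ) with hO1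
  set O2 := ∑ j ∈ range J2, χ⁻¹ (((2 * j + 1 : ℕ)) : ZMod p) / ((2 * j + 1 : ℕ) : ℂ) with hO2
  have hconj : ∀ x : ZMod p, χ⁻¹ x = star (χ x) := fun x => (MulChar.star_apply' χ x).symm
  have hTL : TL χ⁻¹ N = O1 - χ⁻¹ 3 / 3 * O2 := by
    unfold TL
    rw [sum_coprime_six (fun n => χ⁻¹ n / (n : ℂ)) N, hO1, hO2, mul_sum]
    congr 1
    refine sum_congr rfl fun j _ => ?_
    have h3 : ((3 * (2 * j + 1) : ℕ) : ZMod p) = 3 * ((2 * j + 1 : ℕ) : ZMod p) := by push_cast; ring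
    rw [h3, map_mul]
    have h4 : ((2 * j + 1 : ℕ) : ℂ) ≠ 0 := by exact_mod_cast (by omega : 2 * j + 1 ≠ 0)
    have h5 : ((3 * (2 * j + 1) : ℕ) : ℂ) = 3 * ((2 * j + 1 : ℕ) : ℂ) := by push_cast; ring
    rw [h5]
    field_simp
  have hTLn : ‖TL χ N‖ = ‖TL χ⁻¹ N‖ := by
    have : TL χ⁻¹ N = star (TL χ N) := by
      unfold TL
      rw [star_sum]
      refine sum_congr rfl fun n _ => ?_
      rw [hconj, star_div₀]
      simp
    rw [this, norm_star]
  have h3n : ‖1 - χ 3 / 3‖ = ‖1 - χ⁻¹ 3 / 3‖ := by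
    have : 1 - χ⁻¹ 3 / 3 = star (1 - χ 3 / 3) := by
      rw [hconj, star_sub, star_div₀]
      simp
    rw [this, norm_star]
  rw [hTLn, h3n]
  set c := χ⁻¹ (3 : ZMod p) with hc
  have hc1 : ‖c‖ ≤ 1 := DirichletCharacter.norm_le_one χ⁻¹ _
  have key : ‖G * TL χ⁻¹ N - ((Real.pi / 4 : ℝ) : ℂ) * S * (1 - c / 3)‖ ≤
      (p : ℝ) ^ 2 / (4 * J1) + (p : ℝ) ^ 2 / (4 * J2) := by
    have h1 : G * TL χ⁻¹ N - ((Real.pi / 4 : ℝ) : ℂ) * S * (1 - c / 3) =
        -(((Real.pi / 4 : ℝ) : ℂ) * S - G * O1) + (c / 3) * (((Real.pi / 4 : ℝ) : ℂ) * S - G * O2) := by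
      rw [hTL]; ring
    rw [h1]
    refine (norm_add_le _ _).trans ?_
    rw [norm_neg]
    refine add_le_add b1 ?_
    rw [norm_mul]
    have h2 : ‖c / 3‖ ≤ 1 := by
      rw [norm_div]
      have : ‖(3 : ℂ)‖ = 3 := by simp
      rw [this]
      linarith
    calc ‖c / 3‖ * _ ≤ 1 * ((p : ℝ) ^ 2 / (4 * J2)) :=
          mul_le_mul h2 b2 (norm_nonneg _) zero_le_one
      _ = _ := one_mul _
  have hp0 : (0 : ℝ) < p := by exact_mod_cast (by omega : 0 < p)
  have hN0 : (0 : ℝ) < N := by exact_mod_cast (by omega : 0 < N)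
  have hsq : 1 ≤ Real.sqrt p := by
    rw [Real.one_le_sqrt]; exact_mod_cast (by omega : 1 ≤ p)
  have hJ1' : (p : ℝ) ^ 2 / (4 * J1) ≤ (p : ℝ) ^ 2 / N := by
    apply div_le_div_of_nonneg_left (by positivity) hN0
    have : N ≤ 4 * J1 := by omega
    exact_mod_cast this
  have hJ2' : (p : ℝ) ^ 2 / (4 * J2) ≤ 10 * (p : ℝ) ^ 2 / N := by
    have h1 : (N : ℝ) / 10 ≤ 4 * J2 := by
      have : N ≤ 10 * (4 * J2) := by omega
      have h2 : (N : ℝ) ≤ 10 * (4 * J2) := by exact_mod_cast this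
      linarith
    calc (p : ℝ) ^ 2 / (4 * J2) ≤ (p : ℝ) ^ 2 / (N / 10) := by
          apply div_le_div_of_nonneg_left (by positivity) (by positivity) h1
      _ = _ := by field_simp
  have habs : |Real.sqrt p / 2 * ‖TL χ⁻¹ N‖ - Real.pi / 4 * ‖S‖ * ‖1 - c / 3‖| ≤ 11 * (p : ℝ) ^ 2 / N := by
    have h1 := abs_norm_sub_norm_le (G * TL χ⁻¹ N) (((Real.pi / 4 : ℝ) : ℂ) * S * (1 - c / 3))
    rw [norm_mul, norm_mul, norm_mul, hGn, Complex.norm_real, Real.norm_eq_abs,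
      abs_of_pos (by positivity : 0 < Real.pi / 4)] at h1
    refine h1.trans (key.trans ?_)
    have : 11 * (p : ℝ) ^ 2 / N = (p : ℝ) ^ 2 / N + 10 * (p : ℝ) ^ 2 / N := by ring
    rw [this]
    linarith
  have hfin : ‖TL χ⁻¹ N‖ - Real.pi / 2 * ‖S‖ * ‖1 - c / 3‖ / Real.sqrt p =
      (2 / Real.sqrt p) * (Real.sqrt p / 2 * ‖TL χ⁻¹ N‖ - Real.pi / 4 * ‖S‖ * ‖1 - c / 3‖) := by
    have : Real.sqrt p ≠ 0 := by positivity
    field_simp
    ring
  rw [hfin, abs_mul, abs_of_pos (by positivity)]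
  have h2 : 2 / Real.sqrt p ≤ 2 := by
    rw [div_le_iff₀ (by positivity)]
    linarith
  calc 2 / Real.sqrt p * _ ≤ 2 * (11 * (p : ℝ) ^ 2 / N) :=
        mul_le_mul h2 habs (abs_nonneg _) (by norm_num)
    _ = 22 * (p : ℝ) ^ 2 / N := by ring
    _ ≤ _ := by
      apply div_le_div_of_nonneg_right _ hN0.le
      nlinarith [sq_nonneg (p : ℝ)]

end Pool.QS
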