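import Pool.Agent.Lib.MP_a3a416_nt.QS.Defs

/-! QS-NormDiv: if the half power sum vanishes mod `p`, then `p` divides the norm of the half
character sum. -/

set_option autoImplicit false

open Finset

namespace Pool.QS

/-- coefficients of the powers of a root of `X² - s X + 1` -/
def pwc (s : ℤ) : ℕ → ℤ × ℤ
  | 0 => (1, 0)
  | l + 1 => (-(pwc s l).2, (pwc s l).1 + s * (pwc s l).2)

theorem pow_eq_pwc {R : Type*} [CommRing R] (s : ℤ) (r : R) (hr : r ^ 2 = s * r - 1) (l : ℕ) :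
    r ^ l = ((pwc s l).1 : R) + ((pwc s l).2 : R) * r := by
  induction l with
  | zero => simp [pwc]
  | succ l ih =>
    rw [pow_succ, ih]
    simp only [pwc]
    push_cast
    linear_combination ((pwc s l).2 : R) * hr

theorem root4 {F : Type*} [Field F] (r : F) (h4 : r ^ 4 = 1) (h2 : r ^ 2 ≠ 1) :
    r ^ 2 = ((0 : ℤ) : F) * r - 1 := by
  have h : (r ^ 2 - 1) * (r ^ 2 + 1) = 0 := by linear_combination h4
  rcases mul_eq_zero.mp h with h | h
  · exact absurd (sub_eq_zero.mp h) h2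
  · push_cast
    linear_combination h

theorem root6 {F : Type*} [Field F] (r : F) (h6 : r ^ 6 = 1) (h2 : r ^ 2 ≠ 1) (h3 : r ^ 3 ≠ 1) :
    r ^ 2 = ((1 : ℤ) : F) * r - 1 := by
  have h : (r ^ 3 - 1) * ((r + 1) * (r ^ 2 - r + 1)) = 0 := by linear_combination h6
  rcases mul_eq_zero.mp h with h | h
  · exact absurd (sub_eq_zero.mp h) h3
  · rcases mul_eq_zero.mp h with h | h
    · exfalso
      apply h2
      have : r = -1 := by linear_combination h
      rw [this]; ring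
    · push_cast
      linear_combination h

/-- `ζ + conj ζ = s` for a root of norm one. -/
theorem two_re (s : ℤ) (z : ℂ) (hn : ‖z‖ = 1) (hz : z ^ 2 = s * z - 1) : 2 * z.re = s := by
  have h1 : z * (starRingEnd ℂ) z = 1 := by
    rw [Complex.mul_conj, Complex.normSq_eq_norm_sq, hn]; simp
  have h0 : z ≠ 0 := by
    rintro rfl
    simp at hn
  have h2 : z * (z + (starRingEnd ℂ) z - s) = 0 := by linear_combination h1 + hz
  rcases mul_eq_zero.mp h2 with h | h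
  · exact absurd h h0
  · have h3 : z + (starRingEnd ℂ) z = ((2 * z.re : ℝ) : ℂ) := Complex.add_conj z
    have h4 : ((2 * z.re : ℝ) : ℂ) = ((s : ℝ) : ℂ) := by
      rw [← h3]; push_cast; linear_combination h
    exact_mod_cast h4

theorem norm_quad (s X Y : ℤ) (z : ℂ) (hn : ‖z‖ = 1) (hz : z ^ 2 = s * z - 1) :
    ‖(X : ℂ) + (Y : ℂ) * z‖ ^ 2 = ((X ^ 2 + s * X * Y + Y ^ 2 : ℤ) : ℝ) := by
  have h1 := two_re s z hn hz
  have h2 : z.re ^ 2 + z.im ^ 2 = 1 := by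
    have := Complex.sq_norm z
    rw [hn, Complex.normSq_apply] at this
    nlinarith
  rw [Complex.sq_norm, Complex.normSq_apply]
  simp only [Complex.add_re, Complex.add_im, Complex.mul_re, Complex.mul_im, Complex.intCast_re,
    Complex.intCast_im, zero_mul, sub_zero, add_zero, zero_add]
  push_cast
  rw [← h1]
  linear_combination (Y : ℝ) ^ 2 * h2

/-- The common argument. -/
theorem norm_div_aux {p : ℕ} (hp : p.Prime) (s : ℤ) (χ : DirichletCharacter ℂ p) (e : ℕ)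
    (g : (ZMod p)ˣ) (hg : ∀ x : (ZMod p)ˣ, x ∈ Subgroup.zpowers g)
    (hn : ‖χ (g : ZMod p)‖ = 1)
    (hz : (χ (g : ZMod p)) ^ 2 = s * χ (g : ZMod p) - 1)
    (ht : ((g : ZMod p) ^ e) ^ 2 = s * ((g : ZMod p) ^ e) - 1)
    (h : ∑ a ∈ Icc 1 ((p - 1) / 2), ((a : ℕ) : ZMod p) ^ e = 0) :
    ∃ m : ℕ, ‖∑ a ∈ Icc 1 ((p - 1) / 2), χ ((a : ℕ) : ZMod p)‖ ^ 2 = (p : ℝ) * m := by
  have : Fact p.Prime := ⟨hp⟩
  have hex : ∀ a ∈ Icc 1 ((p - 1) / 2), ∃ l : ℕ, (g : ZMod p) ^ l = ((a : ℕ) : ZMod p) := by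
    intro a ha
    rw [mem_Icc] at ha
    have hpp := hp.two_le
    have h0 : ((a : ℕ) : ZMod p) ≠ 0 := by
      rw [Ne, ZMod.natCast_eq_zero_iff]
      intro hd
      have := Nat.le_of_dvd (by omega) hd
      omega
    have h1 := hg (Units.mk0 _ h0)
    rw [mem_zpowers_iff_mem_range_orderOf] at h1
    rw [mem_image] at h1
    obtain ⟨l, -, hl⟩ := h1
    refine ⟨l, ?_⟩
    rw [← Units.val_pow_eq_pow_val, hl, Units.val_mk0]
  choose! l hl using hex
  set X : ℤ := ∑ a ∈ Icc 1 ((p - 1) / 2), (pwc s (l a)).1 with hX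
  set Y : ℤ := ∑ a ∈ Icc 1 ((p - 1) / 2), (pwc s (l a)).2 with hY
  have hS : ∑ a ∈ Icc 1 ((p - 1) / 2), χ ((a : ℕ) : ZMod p) = (X : ℂ) + (Y : ℂ) * χ (g : ZMod p) := by
    rw [hX, hY]
    push_cast
    rw [sum_mul, ← sum_add_distrib]
    refine sum_congr rfl fun a ha => ?_
    rw [← hl a ha, map_pow, pow_eq_pwc s _ hz]
  have hT : (X : ZMod p) + (Y : ZMod p) * (g : ZMod p) ^ e = 0 := by
    rw [← h, hX, hY]
    push_cast
    rw [sum_mul, ← sum_add_distrib]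
    refine sum_congr rfl fun a ha => ?_
    rw [← hl a ha, ← pow_eq_pwc s _ ht, ← pow_mul, ← pow_mul, mul_comm]
  have hd : (p : ℤ) ∣ X ^ 2 + s * X * Y + Y ^ 2 := by
    rw [← ZMod.intCast_zmod_eq_zero_iff_dvd]
    push_cast
    have hX' : (X : ZMod p) = -((Y : ZMod p) * (g : ZMod p) ^ e) := by linear_combination hT
    rw [hX']
    linear_combination (Y : ZMod p) ^ 2 * ht
  have hq := norm_quad s X Y _ hn hz
  obtain ⟨m, hm⟩ := hd
  have hm0 : 0 ≤ m := by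
    have h1 : (0 : ℝ) ≤ ((X ^ 2 + s * X * Y + Y ^ 2 : ℤ) : ℝ) := by rw [← hq]; positivity
    have h2 : 0 ≤ X ^ 2 + s * X * Y + Y ^ 2 := by exact_mod_cast h1
    rw [hm] at h2
    have h3 : (0 : ℤ) < p := by exact_mod_cast hp.pos
    exact nonneg_of_mul_nonneg_right h2 h3
  refine ⟨m.toNat, ?_⟩
  rw [hS, hq, hm]
  push_cast
  congr 1
  exact_mod_cast (Int.toNat_of_nonneg hm0).symm

theorem exists_gen {p : ℕ} (hp : p.Prime) :
    ∃ g : (ZMod p)ˣ, (∀ x : (ZMod p)ˣ, x ∈ Subgroup.zpowers g) ∧ orderOf g = p - 1 := by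
  have : Fact p.Prime := ⟨hp⟩
  obtain ⟨g, hg⟩ := IsCyclic.exists_generator (α := (ZMod p)ˣ)
  refine ⟨g, hg, ?_⟩
  rw [orderOf_eq_card_of_forall_mem_zpowers hg, Nat.card_eq_fintype_card, ZMod.card_units]

/-- a nontrivial power of the character is nontrivial at the generator -/
theorem chi_pow_ne {p : ℕ} (hp : p.Prime) (χ : DirichletCharacter ℂ p) (g : (ZMod p)ˣ)
    (hg : ∀ x : (ZMod p)ˣ, x ∈ Subgroup.zpowers g) (i : ℕ) (hi : χ ^ i ≠ 1) :
    (χ (g : ZMod p)) ^ i ≠ 1 := by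
  have : Fact p.Prime := ⟨hp⟩
  intro h
  apply hi
  ext x
  have h1 := hg x
  rw [mem_zpowers_iff_mem_range_orderOf, mem_image] at h1
  obtain ⟨l, -, hl⟩ := h1
  rw [MulChar.one_apply_coe, MulChar.pow_apply_coe, ← hl, Units.val_pow_eq_pow_val, map_pow,
    ← pow_mul, mul_comm, pow_mul, h, one_pow]

theorem gen_pow_ne {p : ℕ} (hp : p.Prime) (g : (ZMod p)ˣ) (ho : orderOf g = p - 1) {d q : ℕ}
    (hd : d ∣ p - 1) (hq : 1 < q) (hqd : q ∣ d) (j : ℕ) (hj : j.Coprime d) :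
    ((g : ZMod p) ^ (j * ((p - 1) / d))) ^ (d / q) ≠ 1 := by
  have : Fact p.Prime := ⟨hp⟩
  intro h
  rw [← pow_mul, ← Units.val_pow_eq_pow_val, Units.val_eq_one, ← orderOf_dvd_iff_pow_eq_one, ho] at h
  obtain ⟨e, he⟩ := hd
  obtain ⟨f, hf⟩ := hqd
  have hp1 : 0 < p - 1 := by have := hp.two_le; omega
  have hd0 : 0 < d := Nat.pos_of_ne_zero (by rintro rfl; simp at he; omega)
  have he0 : 0 < e := Nat.pos_of_ne_zero (by rintro rfl; simp at he; omega)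
  have hf0 : 0 < f := Nat.pos_of_ne_zero (by rintro rfl; simp at hf; omega)
  rw [he, Nat.mul_div_cancel_left _ hd0, hf, Nat.mul_div_cancel_left _ (by omega)] at h
  have h2 : q * (f * e) ∣ j * (f * e) := by
    convert h using 1 <;> ring
  have h3 : q ∣ j := Nat.dvd_of_mul_dvd_mul_right (by positivity) h2
  have h4 : q ∣ Nat.gcd j d := Nat.dvd_gcd h3 (hf ▸ Dvd.intro _ rfl)
  rw [hj] at h4
  have := Nat.le_of_dvd one_pos h4
  omega

theorem gen_pow_eq {p : ℕ} (hp : p.Prime) (g : (ZMod p)ˣ) (ho : orderOf g = p - 1) {d : ℕ}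
    (hd : d ∣ p - 1) (j : ℕ) :
    ((g : ZMod p) ^ (j * ((p - 1) / d))) ^ d = 1 := by
  rw [← pow_mul, mul_assoc, Nat.div_mul_cancel hd, mul_comm, pow_mul, ← Units.val_pow_eq_pow_val,
    ← ho, pow_orderOf_eq_one, Units.val_one, one_pow]

theorem chi_gen_pow {p : ℕ} (χ : DirichletCharacter ℂ p) {d : ℕ} (hχ : orderOf χ = d)
    (g : (ZMod p)ˣ) : (χ (g : ZMod p)) ^ d = 1 := by
  rw [← MulChar.pow_apply_coe, ← hχ, pow_orderOf_eq_one, MulChar.one_apply_coe]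

theorem chi_gen_norm {p : ℕ} (χ : DirichletCharacter ℂ p) {d : ℕ} (hd : d ≠ 0) (hχ : orderOf χ = d)
    (g : (ZMod p)ˣ) : ‖χ (g : ZMod p)‖ = 1 :=
  Complex.norm_eq_one_of_pow_eq_one (chi_gen_pow χ hχ g) hd

theorem norm_div4 {p : ℕ} (hp : p.Prime) (hdp : 4 ∣ p - 1) (χ : DirichletCharacter ℂ p)
    (hχ : orderOf χ = 4) (j : ℕ) (hj : j.Coprime 4)
    (h : ∑ a ∈ Icc 1 ((p - 1) / 2), ((a : ℕ) : ZMod p) ^ (j * ((p - 1) / 4)) = 0) :
    ∃ m : ℕ, ‖∑ a ∈ Icc 1 ((p - 1) / 2), χ ((a : ℕ) : ZMod p)‖ ^ 2 = (p : ℝ) * m := by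
  have : Fact p.Prime := ⟨hp⟩
  obtain ⟨g, hg, ho⟩ := exists_gen hp
  refine norm_div_aux hp 0 χ (j * ((p - 1) / 4)) g hg (chi_gen_norm χ (by norm_num) hχ g)
    (root4 _ (chi_gen_pow χ hχ g) ?_)
    (root4 _ (gen_pow_eq hp g ho hdp j) (gen_pow_ne hp g ho hdp (q := 2) (by norm_num) (by norm_num) j hj)) h
  apply chi_pow_ne hp χ g hg
  intro h2
  have := orderOf_dvd_of_pow_eq_one h2
  rw [hχ] at this
  norm_num at this

theorem norm_div6 {p : ℕ} (hp : p.Prime) (hdp : 6 ∣ p - 1) (χ : DirichletCharacter ℂ p)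
    (hχ : orderOf χ = 6) (j : ℕ) (hj : j.Coprime 6)
    (h : ∑ a ∈ Icc 1 ((p - 1) / 2), ((a : ℕ) : ZMod p) ^ (j * ((p - 1) / 6)) = 0) :
    ∃ m : ℕ, ‖∑ a ∈ Icc 1 ((p - 1) / 2), χ ((a : ℕ) : ZMod p)‖ ^ 2 = (p : ℝ) * m := by
  have : Fact p.Prime := ⟨hp⟩
  obtain ⟨g, hg, ho⟩ := exists_gen hp
  refine norm_div_aux hp 1 χ (j * ((p - 1) / 6)) g hg (chi_gen_norm χ (by norm_num) hχ g)
    (root6 _ (chi_gen_pow χ hχ g) ?_ ?_)
    (root6 _ (gen_pow_eq hp g ho hdp j) (gen_pow_ne hp g ho hdp (q := 3) (by norm_num) (by norm_num) j hj)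
      (gen_pow_ne hp g ho hdp (q := 2) (by norm_num) (by norm_num) j hj)) h
  · apply chi_pow_ne hp χ g hg
    intro h2
    have := orderOf_dvd_of_pow_eq_one h2
    rw [hχ] at this
    norm_num at this
  · apply chi_pow_ne hp χ g hg
    intro h2
    have := orderOf_dvd_of_pow_eq_one h2
    rw [hχ] at this
    norm_num at this

/-- `9 ‖1 - c/3‖²` is a natural number for `c ∈ μ_4 ∪ μ_6`. -/
theorem norm_three (d : ℕ) (hd : d = 4 ∨ d = 6) (c : ℂ) (hc : c ^ d = 1) :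
    ∃ m : ℕ, ‖1 - c / 3‖ ^ 2 = (m : ℝ) / 9 := by
  have hn : ‖c‖ = 1 := Complex.norm_eq_one_of_pow_eq_one hc (by omega)
  have key : ∀ u : ℤ, -2 ≤ u → u ≤ 2 → 2 * c.re = u → ∃ m : ℕ, ‖1 - c / 3‖ ^ 2 = (m : ℝ) / 9 := by
    intro u hu1 hu2 hu
    refine ⟨(10 - 3 * u).toNat, ?_⟩
    have h1 : (((10 - 3 * u).toNat : ℕ) : ℝ) = 10 - 3 * (u : ℝ) := by
      have : (((10 - 3 * u).toNat : ℕ) : ℤ) = 10 - 3 * u := Int.toNat_of_nonneg (by omega)
      exact_mod_cast this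
    have h2 : c.re ^ 2 + c.im ^ 2 = 1 := by
      have := Complex.sq_norm c
      rw [hn, Complex.normSq_apply] at this
      nlinarith
    have h3 : c / 3 = ((1 / 3 : ℝ) : ℂ) * c := by push_cast; ring
    rw [h1, Complex.sq_norm, Complex.normSq_apply, h3]
    simp only [Complex.sub_re, Complex.sub_im, Complex.one_re, Complex.one_im, Complex.re_ofReal_mul,
      Complex.im_ofReal_mul]
    rw [← hu]
    linear_combination (1 / 9 : ℝ) * h2
  have hp1 : c = 1 → ∃ m : ℕ, ‖1 - c / 3‖ ^ 2 = (m : ℝ) / 9 := by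
    intro h
    exact key 2 (by norm_num) (by norm_num) (by rw [h]; simp)
  have hm1 : c = -1 → ∃ m : ℕ, ‖1 - c / 3‖ ^ 2 = (m : ℝ) / 9 := by
    intro h
    exact key (-2) (by norm_num) (by norm_num) (by rw [h]; simp)
  rcases hd with rfl | rfl
  · by_cases h2 : c ^ 2 = 1
    · rcases sq_eq_one_iff.mp h2 with h | h
      · exact hp1 h
      · exact hm1 h
    · exact key 0 (by norm_num) (by norm_num) (two_re 0 c hn (root4 c hc h2))
  · have h : (c - 1) * ((c + 1) * ((c ^ 2 + c + 1) * (c ^ 2 - c + 1))) = 0 := by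
      linear_combination hc
    rcases mul_eq_zero.mp h with h | h
    · exact hp1 (sub_eq_zero.mp h)
    rcases mul_eq_zero.mp h with h | h
    · exact hm1 (by linear_combination h)
    rcases mul_eq_zero.mp h with h | h
    · exact key (-1) (by norm_num) (by norm_num) (two_re (-1) c hn (by push_cast; linear_combination h))
    · exact key 1 (by norm_num) (by norm_num) (two_re 1 c hn (by push_cast; linear_combination h))

end Pool.QS
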