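import Pool.Agent.Lib.MP_a3a416_nt.QS.PowSum
import Pool.Agent.Lib.MP_a3a416_nt.QS.NormDiv
import Pool.Agent.Lib.MP_a3a416_nt.QS.LVal

/-! QS-Bad: an irregular quartic or sextic index puts the L-value near a multiple of `π²/36`.

PROOF.
bad4: k = (p+3)/4 = 2t+2 (p = 8t+5), k-1 = (p-1)/4, or k = (3p+1)/4 = 6t+4, k-1 = 3(p-1)/4; both even, 2 <= k <= p-3 (p >= 13).
 half_sum_zero + norm_div4 (j = 1 or 3): |S|² = p m₀. χ is odd: χ(-1) = -1 because χ has order 4 and (p-1)/4 is odd (χ(-1) = χ(g)^{(p-1)/2} = (χ(g)^2)^{(p-1)/4} = -1).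
 norm_three: |1-χ3/3|² = m₁/9 (χ 3 ^ 4 = 1 as 3 is a unit). tl_formula with N = X^4: | |TL| - A | <= e, A² = (π²/4) m₀ m₁/9 = kap m₀ m₁, e = 100 p²/X^4 <= 100/X².
 | |TL|² - A² | <= e (2|TL| + e), |TL| <= 1 + log(X^4) <= 1 + 4 log X. bad6 is the same with k = (p+5)/6, (5p+1)/6, j = 1, 5, (p-1)/6 odd.
-/

set_option autoImplicit false

open Finset

namespace Pool.QS

theorem TL_norm_le {p : ℕ} (χ : DirichletCharacter ℂ p) (N : ℕ) : ‖TL χ N‖ ≤ 1 + Real.log N := by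
  have h1 : ‖TL χ N‖ ≤ ∑ n ∈ Icc 1 N, ((n : ℝ))⁻¹ := by
    rw [TL]
    refine (norm_sum_le _ _).trans ?_
    refine (Finset.sum_le_sum_of_subset_of_nonneg (Finset.filter_subset _ _)
      fun n _ _ => norm_nonneg _).trans ?_
    refine Finset.sum_le_sum fun n _ => ?_
    rw [norm_div, Complex.norm_natCast, div_eq_mul_inv]
    calc ‖χ n‖ * (n : ℝ)⁻¹ ≤ 1 * (n : ℝ)⁻¹ :=
          mul_le_mul_of_nonneg_right (χ.norm_le_one _) (by positivity)
      _ = (n : ℝ)⁻¹ := one_mul _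
  have h2 := harmonic_le_one_add_log N
  rw [harmonic_eq_sum_Icc] at h2
  push_cast at h2
  exact h1.trans h2

/-- a character of order `2m` with `(p-1)/(2m)` odd is odd -/
theorem odd_chi {p : ℕ} (hp : p.Prime) (h2p : 2 < p) {m : ℕ} (hm : 0 < m) (hdp : 2 * m ∣ p - 1)
    (hodd : Odd ((p - 1) / (2 * m))) (χ : DirichletCharacter ℂ p) (hχ : orderOf χ = 2 * m) :
    χ (-1) = -1 := by
  have : Fact p.Prime := ⟨hp⟩
  obtain ⟨g, hg⟩ := IsCyclic.exists_generator (α := (ZMod p)ˣ)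
  have hog : orderOf g = p - 1 := by
    rw [orderOf_eq_card_of_forall_mem_zpowers hg, Nat.card_eq_fintype_card, ZMod.card_units]
  obtain ⟨e, he⟩ := hdp
  have he' : (p - 1) / (2 * m) = e := by
    rw [he]; exact Nat.mul_div_cancel_left _ (by positivity)
  rw [he'] at hodd
  have hepos : 0 < e := by
    rcases Nat.eq_zero_or_pos e with h | h
    · rw [h] at he; simp at he; omega
    · exact h
  -- `g ^ (m e) = -1`
  have hgm : g ^ (m * e) = -1 := by
    have hsq : (g ^ (m * e)) ^ 2 = 1 := by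
      rw [← pow_mul, show m * e * 2 = 2 * m * e by ring, ← he, ← hog, pow_orderOf_eq_one]
    have hne : g ^ (m * e) ≠ 1 := by
      intro h
      have hd := orderOf_dvd_of_pow_eq_one h
      rw [hog, he] at hd
      have := Nat.le_of_dvd (by positivity) hd
      have h3 : 0 < m * e := by positivity
      nlinarith
    have h4 : ((g ^ (m * e) : (ZMod p)ˣ) : ZMod p) ^ 2 = 1 := by
      have := congrArg (fun u : (ZMod p)ˣ => (u : ZMod p)) hsq
      simpa using this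
    rcases sq_eq_one_iff.1 h4 with h | h
    · exact absurd (Units.ext h) hne
    · apply Units.ext
      simpa using h
  -- `χ g ^ m = -1`
  have hcg : χ (g : ZMod p) ^ m = -1 := by
    have hsq : (χ (g : ZMod p) ^ m) ^ 2 = 1 := by
      rw [← pow_mul, show m * 2 = 2 * m by ring, ← MulChar.pow_apply_coe, ← hχ, pow_orderOf_eq_one,
        MulChar.one_apply_coe]
    rcases sq_eq_one_iff.1 hsq with h | h
    · exfalso
      have h1 : χ ^ m = 1 := by
        apply MulChar.ext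
        intro u
        obtain ⟨n', hn'⟩ : ∃ n' : ℕ, g ^ n' = u := mem_powers_iff_mem_zpowers.2 (hg u)
        rw [MulChar.pow_apply_coe, MulChar.one_apply_coe, ← hn', Units.val_pow_eq_pow_val, map_pow,
          ← pow_mul, mul_comm, pow_mul, h, one_pow]
      have hd := orderOf_dvd_of_pow_eq_one h1
      rw [hχ] at hd
      have := Nat.le_of_dvd hm hd
      omega
    · exact h
  have h5 : ((-1 : (ZMod p)ˣ) : ZMod p) = -1 := by simp
  rw [← h5, ← hgm, Units.val_pow_eq_pow_val, map_pow, pow_mul, hcg, hodd.neg_one_pow]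


theorem bad_core {p : ℕ} (hp : p.Prime) (h5 : 5 ≤ p) (χ : DirichletCharacter ℂ p)
    (hodd : χ (-1) = -1)
    (hS : ∃ m : ℕ, ‖∑ a ∈ Icc 1 ((p - 1) / 2), χ ((a : ℕ) : ZMod p)‖ ^ 2 = (p : ℝ) * m)
    (h3 : ∃ m : ℕ, ‖1 - χ 3 / 3‖ ^ 2 = (m : ℝ) / 9) (X : ℕ) (hpX : p ≤ X) (hX : 2 ≤ X) :
    ∃ m : ℕ, |‖TL χ (X ^ 4)‖ ^ 2 - kap * m| ≤ 100000 * Real.log X / X := by
  obtain ⟨m0, h0⟩ := hS
  obtain ⟨m1, h1⟩ := h3
  refine ⟨m0 * m1, ?_⟩
  set T := ‖TL χ (X ^ 4)‖ with hT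
  set S := ‖∑ a ∈ Icc 1 ((p - 1) / 2), χ ((a : ℕ) : ZMod p)‖ with hS
  set c := ‖1 - χ 3 / 3‖ with hc
  have hp0 : (0 : ℝ) < p := by exact_mod_cast hp.pos
  have hX2 : (2 : ℝ) ≤ X := by exact_mod_cast hX
  have hX0 : (0 : ℝ) < X := by linarith
  have hN : 12 ≤ X ^ 4 := by
    calc 12 ≤ 2 ^ 4 := by norm_num
      _ ≤ X ^ 4 := Nat.pow_le_pow_left hX 4
  have htl := tl_formula hp h5 χ hodd (X ^ 4) hN
  rw [← hT, ← hS, ← hc] at htl
  set A := Real.pi / 2 * S * c / Real.sqrt p with hA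
  have hA0 : 0 ≤ A := by positivity
  have hA2 : A ^ 2 = kap * ((m0 * m1 : ℕ) : ℝ) := by
    rw [hA, div_pow, Real.sq_sqrt hp0.le, mul_pow, mul_pow, h0, h1, kap]
    push_cast
    field_simp
    ring
  have he : 100 * (p : ℝ) ^ 2 / ((X ^ 4 : ℕ) : ℝ) ≤ 100 / X ^ 2 := by
    push_cast
    rw [div_le_div_iff₀ (by positivity) (by positivity)]
    have : (p : ℝ) ≤ X := by exact_mod_cast hpX
    have h2 : (p : ℝ) ^ 2 ≤ X ^ 2 := pow_le_pow_left₀ hp0.le this 2
    calc 100 * (p : ℝ) ^ 2 * X ^ 2 ≤ 100 * (X : ℝ) ^ 2 * X ^ 2 := by gcongr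
      _ = 100 * (X : ℝ) ^ 4 := by ring
  have hd : |T - A| ≤ 100 / (X : ℝ) ^ 2 := htl.trans he
  have hTb : T ≤ 1 + 4 * Real.log X := by
    have := TL_norm_le χ (X ^ 4)
    push_cast at this
    rw [Real.log_pow] at this
    push_cast at this
    exact this
  have hT0 : 0 ≤ T := norm_nonneg _
  have hlog : (1 / 2 : ℝ) ≤ Real.log X := by
    have h := Real.log_two_gt_d9
    have h' : Real.log 2 ≤ Real.log X := Real.log_le_log (by norm_num) hX2
    linarith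
  have hAT : A ≤ T + 100 / (X : ℝ) ^ 2 := by
    have := abs_le.1 hd
    linarith [this.1]
  have hx2 : 100 / (X : ℝ) ^ 2 ≤ 25 := by
    rw [div_le_iff₀ (by positivity)]
    nlinarith
  rw [← hA2]
  have hfac : T ^ 2 - A ^ 2 = (T - A) * (T + A) := by ring
  rw [hfac, abs_mul, abs_of_nonneg (by positivity : 0 ≤ T + A)]
  calc |T - A| * (T + A) ≤ 100 / (X : ℝ) ^ 2 * (2 * (1 + 4 * Real.log X) + 25) := by
        apply mul_le_mul hd (by linarith) (by positivity) (by positivity)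
    _ ≤ 100 / (X : ℝ) ^ 2 * (100 * Real.log X) := by
        apply mul_le_mul_of_nonneg_left (by linarith) (by positivity)
    _ = 10000 * Real.log X / X * (1 / X) := by field_simp; ring
    _ ≤ 10000 * Real.log X / X * 1 := by
        apply mul_le_mul_of_nonneg_left _ (by positivity)
        rw [div_le_one hX0]; linarith
    _ ≤ 100000 * Real.log X / X := by
        rw [mul_one]
        apply div_le_div_of_nonneg_right _ hX0.le
        nlinarith

theorem chi_three {p : ℕ} (hp : p.Prime) (h5 : 5 ≤ p) (χ : DirichletCharacter ℂ p) {d : ℕ}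
    (hχ : orderOf χ = d) : χ 3 ^ d = 1 := by
  have hu : IsUnit (3 : ZMod p) := by
    have h : ((3 : ℕ) : ZMod p) = 3 := by norm_cast
    rw [← h, ZMod.isUnit_iff_coprime]
    exact (Nat.coprime_primes Nat.prime_three hp).2 (by omega)
  obtain ⟨u, hu⟩ := hu
  rw [← hu, ← MulChar.pow_apply_coe, ← hχ, pow_orderOf_eq_one, MulChar.one_apply_coe]

theorem bad4 {p : ℕ} (hp : p.Prime) (h8 : p % 8 = 5) (h5 : 5 < p) (χ : DirichletCharacter ℂ p)
    (hχ : orderOf χ = 4)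
    (h : (p : ℤ) ∣ (bernoulli ((p + 3) / 4)).num ∨ (p : ℤ) ∣ (bernoulli ((3 * p + 1) / 4)).num) :
    ∀ X : ℕ, p ≤ X → 2 ≤ X →
      ∃ m : ℕ, |‖TL χ (X ^ 4)‖ ^ 2 - kap * m| ≤ 100000 * Real.log X / X := by
  intro X hpX hX
  obtain ⟨t, ht⟩ : ∃ t, p = 8 * t + 5 := ⟨p / 8, by omega⟩
  have ht1 : 1 ≤ t := by omega
  have hodd : χ (-1) = -1 := by
    refine odd_chi hp (by omega) (m := 2) (by norm_num) ⟨2 * t + 1, by omega⟩ ?_ χ (by rw [hχ])
    have : (p - 1) / (2 * 2) = 2 * t + 1 := by omega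
    rw [this]
    exact ⟨t, rfl⟩
  refine bad_core hp (by omega) χ hodd ?_ (norm_three 4 (Or.inl rfl) _ (chi_three hp (by omega) χ hχ))
    X hpX hX
  rcases h with h | h
  · have e1 : (p + 3) / 4 = 2 * t + 2 := by omega
    rw [e1] at h
    have hz := half_sum_zero hp (by omega) (k := 2 * t + 2) ⟨t + 1, by ring⟩ (by omega) (by omega) h
    refine norm_div4 hp ⟨2 * t + 1, by omega⟩ χ hχ 1 (by norm_num) ?_
    have e2 : 1 * ((p - 1) / 4) = 2 * t + 2 - 1 := by omega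
    rw [e2]
    exact hz
  · have e1 : (3 * p + 1) / 4 = 6 * t + 4 := by omega
    rw [e1] at h
    have hz := half_sum_zero hp (by omega) (k := 6 * t + 4) ⟨3 * t + 2, by ring⟩ (by omega)
      (by omega) h
    refine norm_div4 hp ⟨2 * t + 1, by omega⟩ χ hχ 3 (by norm_num) ?_
    have e2 : 3 * ((p - 1) / 4) = 6 * t + 4 - 1 := by omega
    rw [e2]
    exact hz

theorem bad6 {p : ℕ} (hp : p.Prime) (h12 : p % 12 = 7) (h5 : 7 < p) (χ : DirichletCharacter ℂ p)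
    (hχ : orderOf χ = 6)
    (h : (p : ℤ) ∣ (bernoulli ((p + 5) / 6)).num ∨ (p : ℤ) ∣ (bernoulli ((5 * p + 1) / 6)).num) :
    ∀ X : ℕ, p ≤ X → 2 ≤ X →
      ∃ m : ℕ, |‖TL χ (X ^ 4)‖ ^ 2 - kap * m| ≤ 100000 * Real.log X / X := by
  intro X hpX hX
  obtain ⟨t, ht⟩ : ∃ t, p = 12 * t + 7 := ⟨p / 12, by omega⟩
  have ht1 : 1 ≤ t := by omega
  have hodd : χ (-1) = -1 := by
    refine odd_chi hp (by omega) (m := 3) (by norm_num) ⟨2 * t + 1, by omega⟩ ?_ χ (by rw [hχ])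
    have : (p - 1) / (2 * 3) = 2 * t + 1 := by omega
    rw [this]
    exact ⟨t, rfl⟩
  refine bad_core hp (by omega) χ hodd ?_ (norm_three 6 (Or.inr rfl) _ (chi_three hp (by omega) χ hχ))
    X hpX hX
  rcases h with h | h
  · have e1 : (p + 5) / 6 = 2 * t + 2 := by omega
    rw [e1] at h
    have hz := half_sum_zero hp (by omega) (k := 2 * t + 2) ⟨t + 1, by ring⟩ (by omega) (by omega) h
    refine norm_div6 hp ⟨2 * t + 1, by omega⟩ χ hχ 1 (by norm_num) ?_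
    have e2 : 1 * ((p - 1) / 6) = 2 * t + 2 - 1 := by omega
    rw [e2]
    exact hz
  · have e1 : (5 * p + 1) / 6 = 10 * t + 6 := by omega
    rw [e1] at h
    have hz := half_sum_zero hp (by omega) (k := 10 * t + 6) ⟨5 * t + 3, by ring⟩ (by omega)
      (by omega) h
    refine norm_div6 hp ⟨2 * t + 1, by omega⟩ χ hχ 5 (by norm_num) ?_
    have e2 : 5 * ((p - 1) / 6) = 10 * t + 6 - 1 := by omega
    rw [e2]
    exact hz

end Pool.QS
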