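import Pool.Agent.Lib.MP_a3a416_nt.QS.Mean

/-! QS-Box: sums of periodic functions over a box.

PROOF.
One variable first: for u : ℤ → ℂ with u (a + M s) = u a, |u| <= B and m = (sum_{a<M} u a)/M:
   | sum_{a ∈ Ico (-K) K} u a - 2K m | <= 2 M B.
 (2K = t M + r, r < M; every block of M consecutive integers has sum M m; the last r terms contribute <= r B, and
 r |m| <= r B.)  e.g. induct on the number of blocks, or Finset.sum over Ico by Int.emod; shift by -K.
 Two variables: inner sum over b gives 2K m(a) + O(2MB), m(a) = (sum_{b<M} f a b)/M is periodic with |m(a)| <= B;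
 outer: 2K * (2K mean + O(2MB)/...) : total error <= 2K * 2MB + 2K * 2MB = 8 K M B.
 NOTE mean M f = (sum_{a<M} sum_{b<M} f a b)/M^2.
-/

set_option autoImplicit false

open Finset

namespace Pool.QS

private theorem bx_shift {M : ℕ} {u : ℤ → ℂ} (hu : ∀ a, u (a + M) = u a) (c : ℤ) :
    ∑ i ∈ range M, u (c + (i : ℤ)) = ∑ i ∈ range M, u (i : ℤ) := by
  have key : ∀ c : ℤ, ∑ i ∈ range M, u (c + 1 + (i : ℤ)) = ∑ i ∈ range M, u (c + (i : ℤ)) := by
    intro c
    have h1 := sum_range_succ (fun i : ℕ => u (c + (i : ℤ))) M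
    have h2 := sum_range_succ' (fun i : ℕ => u (c + (i : ℤ))) M
    rw [h1] at h2
    have h3 : u (c + (M : ℤ)) = u (c + ((0 : ℕ) : ℤ)) := by
      rw [hu c]
      simp
    rw [h3] at h2
    have h4 := add_right_cancel h2
    rw [h4]
    refine sum_congr rfl fun i _ => ?_
    congr 1
    push_cast
    ring
  induction c using Int.induction_on with
  | zero => simp
  | succ n ih =>
    rw [key, ih]
  | pred n ih =>
    rw [← ih, ← key]
    refine sum_congr rfl fun i _ => ?_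
    congr 1
    ring

private theorem bx_blocks {M : ℕ} {u : ℤ → ℂ} (hu : ∀ a, u (a + M) = u a) (t r : ℕ) (c : ℤ) :
    ∑ i ∈ range (M * t + r), u (c + (i : ℤ)) =
      t * (∑ i ∈ range M, u (i : ℤ)) + ∑ i ∈ range r, u (c + (i : ℤ)) := by
  induction t with
  | zero => simp
  | succ t ih =>
    have e : M * (t + 1) + r = M + (M * t + r) := by ring
    rw [e, sum_range_add]
    have h1 : ∑ i ∈ range (M * t + r), u (c + ((M + i : ℕ) : ℤ)) =
        ∑ i ∈ range (M * t + r), u (c + (i : ℤ)) := by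
      refine sum_congr rfl fun i _ => ?_
      rw [← hu (c + (i : ℤ))]
      congr 1
      push_cast
      ring
    rw [h1, ih, bx_shift hu c]
    push_cast
    ring

private theorem bx_one {M : ℕ} (hM : 1 ≤ M) (K : ℕ) {u : ℤ → ℂ} (hu : ∀ a, u (a + M) = u a) {B : ℝ}
    (hB : ∀ a, ‖u a‖ ≤ B) :
    ‖∑ a ∈ Ico (-(K : ℤ)) K, u a - 2 * (K : ℂ) * ((∑ i ∈ range M, u (i : ℤ)) / M)‖ ≤ 2 * M * B := by
  have hB0 : 0 ≤ B := (norm_nonneg _).trans (hB 0)
  have hMc : (M : ℂ) ≠ 0 := by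
    have : M ≠ 0 := by omega
    exact_mod_cast this
  have hMr : (0 : ℝ) < M := by exact_mod_cast hM
  have h1 : ∑ a ∈ Ico (-(K : ℤ)) K, u a = ∑ i ∈ range (2 * K), u (-(K : ℤ) + (i : ℤ)) := by
    refine sum_nbij' (fun a => (a + K).toNat) (fun i => -(K : ℤ) + (i : ℤ)) ?_ ?_ ?_ ?_ ?_
    · intro a ha
      rw [mem_Ico] at ha
      rw [mem_range]
      omega
    · intro i hi
      rw [mem_range] at hi
      rw [mem_Ico]
      omega
    · intro a ha
      rw [mem_Ico] at ha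
      omega
    · intro i hi
      omega
    · intro a ha
      rw [mem_Ico] at ha
      congr 1
      omega
  obtain ⟨r, t, hr, h2⟩ : ∃ r t : ℕ, r < M ∧ 2 * K = M * t + r :=
    ⟨2 * K % M, 2 * K / M, Nat.mod_lt _ (by omega), (Nat.div_add_mod _ _).symm⟩
  have h3 : (2 * (K : ℂ)) = M * t + r := by
    exact_mod_cast h2
  rw [h1, h2, bx_blocks hu, h3]
  have h4 : (t : ℂ) * (∑ i ∈ range M, u (i : ℤ)) + ∑ i ∈ range r, u (-(K : ℤ) + (i : ℤ)) -
      (M * t + r) * ((∑ i ∈ range M, u (i : ℤ)) / M) =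
      ∑ i ∈ range r, u (-(K : ℤ) + (i : ℤ)) - r * ((∑ i ∈ range M, u (i : ℤ)) / M) := by
    field_simp
    ring
  rw [h4]
  have h5 : ‖∑ i ∈ range r, u (-(K : ℤ) + (i : ℤ))‖ ≤ r * B := by
    refine (norm_sum_le _ _).trans ?_
    refine (sum_le_sum fun i _ => hB _).trans ?_
    rw [sum_const, card_range, nsmul_eq_mul]
  have h6 : ‖(∑ i ∈ range M, u (i : ℤ)) / (M : ℂ)‖ ≤ B := by
    rw [norm_div, Complex.norm_natCast, div_le_iff₀ hMr]
    refine (norm_sum_le _ _).trans ?_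
    refine (sum_le_sum fun i _ => hB _).trans ?_
    rw [sum_const, card_range, nsmul_eq_mul, mul_comm]
  have h7 : ‖(r : ℂ) * ((∑ i ∈ range M, u (i : ℤ)) / M)‖ ≤ r * B := by
    rw [norm_mul, Complex.norm_natCast]
    exact mul_le_mul_of_nonneg_left h6 (Nat.cast_nonneg r)
  have h8 : (r : ℝ) * B ≤ M * B := by
    refine mul_le_mul_of_nonneg_right ?_ hB0
    exact_mod_cast hr.le
  calc _ ≤ r * B + r * B := (norm_sub_le _ _).trans (add_le_add h5 h7)
    _ ≤ 2 * M * B := by linarith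

theorem box_sum {M : ℕ} (hM : 1 ≤ M) (K : ℕ) (f : ℤ → ℤ → ℂ) (hf : Per M f) (B : ℝ)
    (hB : ∀ a b, ‖f a b‖ ≤ B) :
    ‖box K f - (2 * (K : ℂ)) ^ 2 * mean M f‖ ≤ 8 * K * M * B := by
  have hB0 : 0 ≤ B := (norm_nonneg _).trans (hB 0 0)
  have hMr : (0 : ℝ) < M := by exact_mod_cast hM
  have hf1 : ∀ a b, f a (b + M) = f a b := by
    intro a b
    have := hf a b 0 1
    simpa using this
  have hf2 : ∀ a b, f (a + M) b = f a b := by
    intro a b
    have := hf a b 1 0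
    simpa using this
  obtain ⟨m, hm⟩ : ∃ m : ℤ → ℂ, m = fun a => (∑ b ∈ range M, f a (b : ℤ)) / M := ⟨_, rfl⟩
  have hm1 : ∀ a, m (a + M) = m a := by
    intro a
    rw [hm]
    simp only [hf2]
  have hm2 : ∀ a, ‖m a‖ ≤ B := by
    intro a
    rw [hm]
    simp only
    rw [norm_div, Complex.norm_natCast, div_le_iff₀ hMr]
    refine (norm_sum_le _ _).trans ?_
    refine (sum_le_sum fun i _ => hB _ _).trans ?_
    rw [sum_const, card_range, nsmul_eq_mul, mul_comm]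
  have hmean : mean M f = (∑ a ∈ range M, m (a : ℤ)) / M := by
    rw [mean, hm, ← sum_div, div_div, sq]
  have h1 := bx_one hM K hm1 hm2
  rw [← hmean] at h1
  have h2 : ∀ a, ‖∑ b ∈ Ico (-(K : ℤ)) K, f a b - 2 * (K : ℂ) * m a‖ ≤ 2 * M * B := by
    intro a
    have := bx_one hM K (hf1 a) (hB a)
    rw [hm]
    exact this
  have h3 : box K f - (2 * (K : ℂ)) ^ 2 * mean M f =
      ∑ a ∈ Ico (-(K : ℤ)) K, (∑ b ∈ Ico (-(K : ℤ)) K, f a b - 2 * (K : ℂ) * m a) +
        2 * (K : ℂ) * (∑ a ∈ Ico (-(K : ℤ)) K, m a - 2 * (K : ℂ) * mean M f) := by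
    rw [box, sum_sub_distrib, ← mul_sum]
    ring
  rw [h3]
  have h4 : ‖∑ a ∈ Ico (-(K : ℤ)) K, (∑ b ∈ Ico (-(K : ℤ)) K, f a b - 2 * (K : ℂ) * m a)‖ ≤
      2 * K * (2 * M * B) := by
    refine (norm_sum_le _ _).trans ?_
    refine (sum_le_sum fun a _ => h2 a).trans ?_
    rw [sum_const, Int.card_Ico, nsmul_eq_mul]
    have h5 : (((K : ℤ) - -(K : ℤ)).toNat : ℝ) = 2 * K := by
      have : ((K : ℤ) - -(K : ℤ)).toNat = 2 * K := by omega
      rw [this]
      push_cast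
      ring
    rw [h5]
  have h5 : ‖2 * (K : ℂ) * (∑ a ∈ Ico (-(K : ℤ)) K, m a - 2 * (K : ℂ) * mean M f)‖ ≤
      2 * K * (2 * M * B) := by
    rw [norm_mul]
    have h6 : ‖2 * (K : ℂ)‖ = 2 * K := by
      rw [norm_mul, Complex.norm_natCast]
      simp
    rw [h6]
    exact mul_le_mul_of_nonneg_left h1 (by positivity)
  calc _ ≤ 2 * K * (2 * M * B) + 2 * K * (2 * M * B) := (norm_add_le _ _).trans (add_le_add h4 h5)
    _ = 8 * K * M * B := by ring

end Pool.QS
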