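import Pool.Agent.Lib.MP_a3a416_nt.QS.Defs

/-! QS-Loc4: the quartic local symbols.

PROOF.
chi n: 1 if n%12 ∈ {1,5}, -1 if n%12 ∈ {7,11}, 0 otherwise (the character mod 4 restricted to (n,6)=1); chi_low: partial sums 1+1/5-1/7-1/11+1/13+... >= 1/2
 (group four consecutive terms: 1/(12k+1)+1/(12k+5)-1/(12k+7)-1/(12k+11) > 0; partial sums inside a block are >= the value 1/2 as well: 1/(12k+7)+1/(12k+11) <= 1/(12k+1)+1/(12k+5)).
 For a prime q >= 5 let F = AlgebraicClosure (ZMod q), I ∈ F with I² = -1 (choose). For (a,b): N = a²+b², u = a + b I ∈ F,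
   Θ(a,b) = (u² N)^{(q-1)/4}  if q ≡ 1 mod 4,   Θ(a,b) = -(u² N)^{(q+1)/4} N⁻¹  if q ≡ 3 mod 4.
 psi q a b = 0 if N = 0 in F, otherwise Complex.I ^ r for the r < 4 with Θ * I^r = 1 (q ≡ 1) resp. Θ = I^r (q ≡ 3).
   Θ^4 = 1 for N ≠ 0: if q ≡ 1, I ∈ F_q, u ∈ F_q: Θ^4 = (u² N)^{q-1} = 1; if q ≡ 3: I^q = -I, u^q = a - bI, N = u^{q+1}, Θ = - u^{(q²-1)/4}, u^{q²-1} = 1.
   If psi is defined by this r it is 4-periodic in r, so the two displayed implications hold for every r.
 per: the casts ℤ → F kill multiples of q.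
 cnt: multiplication by a fixed (a₀,b₀) (N ≠ 0) : (a,b) ↦ (a a₀ - b b₀, a b₀ + b a₀) permutes {N ≠ 0} ⊂ (ZMod q)² (inverse: the conjugate over N₀) and multiplies u, N and hence
   Θ (up to the sign -1 if q ≡ 3: Θ/(-1) is multiplicative) by the value at (a₀,b₀). If that value is a primitive 4th root of unity, the four fibres have equal size, so each has
   #{N ≠ 0}/4 elements; #{N ≠ 0} = q² - (2q-1) = (q-1)² if q ≡ 1 (N = (a+bI)(a-bI) over F_q), q² - 1 if q ≡ 3 (N = 0 only at (0,0)).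
   Existence of (a₀,b₀): q ≡ 1: a₀ + b₀ I = 1, a₀ - b₀ I = generator γ of F_q^*: u = 1, N = γ, Θ = γ^{(q-1)/4}. q ≡ 3: take u ∈ F of order q²-1 (IsAlgClosed, primitive root exists as q ∤ q²-1);
   a₀ = (u+u^q)/2, b₀ = (u-u^q)/(2I) are fixed by Frobenius, so they lie in ZMod q; u^{(q²-1)/4} is a primitive 4th root.
-/

set_option autoImplicit false
open Finset
namespace Pool.QS


theorem low_gen_loc4 (c : ℕ → ℤ) (hper : ∀ n, c (n + 12) = c n)
    (hc0 : ∀ n : ℕ, ¬ n.Coprime 6 → c n = 0)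
    (hstep : ∀ k r : ℕ, r ≤ 12 → (0 : ℝ) ≤ ∑ i ∈ range r, (c (i + 1) : ℝ) / (12 * k + i + 1))
    (hbase : ∀ r : ℕ, 1 ≤ r → r ≤ 12 → (1 / 2 : ℝ) ≤ ∑ i ∈ range r, (c (i + 1) : ℝ) / (i + 1))
    (N : ℕ) (hN : 1 ≤ N) :
    (1 / 2 : ℝ) ≤ ∑ n ∈ (Icc 1 N).filter (fun n => n.Coprime 6), (c n : ℝ) / n := by
  have hper' : ∀ k n : ℕ, c (12 * k + n) = c n := by
    intro k n
    induction k with
    | zero => simp
    | succ k ih => rw [show 12 * (k + 1) + n = (12 * k + n) + 12 by ring, hper, ih]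
  have e1 : ∑ n ∈ (Icc 1 N).filter (fun n => n.Coprime 6), (c n : ℝ) / n
      = ∑ n ∈ range N, (c (n + 1) : ℝ) / (n + 1) := by
    have h2 : ∀ n ∈ Icc 1 N, (if n.Coprime 6 then (c n : ℝ) / n else 0) = (c n : ℝ) / n := by
      intro n _
      split_ifs with h
      · rfl
      · rw [hc0 n h]; simp
    rw [sum_filter, sum_congr rfl h2, range_eq_Ico]
    have h3 := Finset.sum_Ico_add' (fun n : ℕ => (c n : ℝ) / n) 0 N 1
    rw [show Icc 1 N = Ico (0 + 1) (N + 1) by ext x; simp, ← h3]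
    refine sum_congr rfl fun n _ => ?_
    push_cast
    rfl
  rw [e1]
  have hT : ∀ k r : ℕ, ∑ n ∈ range (12 * k + r), (c (n + 1) : ℝ) / (n + 1)
      = ∑ n ∈ range (12 * k), (c (n + 1) : ℝ) / (n + 1)
        + ∑ i ∈ range r, (c (i + 1) : ℝ) / (12 * k + i + 1) := by
    intro k r
    rw [sum_range_add]
    congr 1
    refine sum_congr rfl fun i _ => ?_
    rw [show 12 * k + i + 1 = 12 * k + (i + 1) by ring, hper']
    push_cast
    ring_nf
  have hk : ∀ k : ℕ, (1 / 2 : ℝ) ≤ ∑ n ∈ range (12 * (k + 1)), (c (n + 1) : ℝ) / (n + 1) := by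
    intro k
    induction k with
    | zero => simpa using hbase 12 (by norm_num) (by norm_num)
    | succ k ih =>
      rw [show 12 * (k + 1 + 1) = 12 * (k + 1) + 12 by ring, hT]
      have := hstep (k + 1) 12 (le_refl _)
      linarith
  obtain ⟨k, r, hr, rfl⟩ : ∃ k r : ℕ, r < 12 ∧ N = 12 * k + r :=
    ⟨N / 12, N % 12, Nat.mod_lt _ (by norm_num), by omega⟩
  rcases Nat.eq_zero_or_pos k with rfl | hk0
  · have := hbase r (by omega) (by omega)
    simpa using this
  · obtain ⟨k, rfl⟩ : ∃ k', k = k' + 1 := ⟨k - 1, by omega⟩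
    rw [hT]
    have h1 := hk k
    have h2 := hstep (k + 1) r (by omega)
    linarith

theorem coprime_mod_loc4 (n : ℕ) : (n % 12).Coprime 6 ↔ n.Coprime 6 := by
  have h : n % 12 ≡ n [MOD 6] := by unfold Nat.ModEq; omega
  unfold Nat.Coprime
  rw [h.gcd_eq]

/-- the character -/
private def c4 (n : ℕ) : ℤ :=
  if n % 12 = 1 ∨ n % 12 = 5 then 1 else if n % 12 = 7 ∨ n % 12 = 11 then -1 else 0

private theorem c4_mod (n : ℕ) : c4 n = c4 (n % 12) := by
  simp [c4]

private theorem c4_per (n : ℕ) : c4 (n + 12) = c4 n := by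
  rw [c4_mod (n + 12), c4_mod n, Nat.add_mod_right]

private theorem c4_mul (m n : ℕ) : c4 (m * n) = c4 m * c4 n := by
  rw [c4_mod m, c4_mod n, c4_mod (m * n), Nat.mul_mod]
  have key : ∀ a < 12, ∀ b < 12, c4 (a * b % 12) = c4 a * c4 b := by decide
  exact key _ (Nat.mod_lt _ (by norm_num)) _ (Nat.mod_lt _ (by norm_num))

private theorem c4_val (n : ℕ) (h : n.Coprime 6) : c4 n = 1 ∨ c4 n = -1 := by
  rw [c4_mod]
  have h2 : (n % 12).Coprime 6 := (coprime_mod_loc4 n).mpr h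
  have key : ∀ a < 12, a.Coprime 6 → (c4 a = 1 ∨ c4 a = -1) := by decide
  exact key _ (Nat.mod_lt _ (by norm_num)) h2

private theorem c4_zero (n : ℕ) (h : ¬ n.Coprime 6) : c4 n = 0 := by
  rw [c4_mod]
  have h2 : ¬ (n % 12).Coprime 6 := fun h' => h ((coprime_mod_loc4 n).mp h')
  have key : ∀ a < 12, ¬ a.Coprime 6 → c4 a = 0 := by decide
  exact key _ (Nat.mod_lt _ (by norm_num)) h2

private theorem c4_step (k r : ℕ) (hr : r ≤ 12) :
    (0 : ℝ) ≤ ∑ i ∈ range r, (c4 (i + 1) : ℝ) / (12 * k + i + 1) := by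
  have hk : (0 : ℝ) ≤ k := Nat.cast_nonneg k
  have h1 : (1 : ℝ) / (12 * k + 7) ≤ 1 / (12 * k + 1) :=
    one_div_le_one_div_of_le (by positivity) (by linarith)
  have h2 : (1 : ℝ) / (12 * k + 11) ≤ 1 / (12 * k + 5) :=
    one_div_le_one_div_of_le (by positivity) (by linarith)
  have h3 : (0 : ℝ) ≤ 1 / (12 * k + 1) := by positivity
  have h4 : (0 : ℝ) ≤ 1 / (12 * k + 5) := by positivity
  have h5 : (0 : ℝ) ≤ 1 / (12 * k + 7) := by positivity
  have h6 : (0 : ℝ) ≤ 1 / (12 * k + 11) := by positivity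
  interval_cases r <;> simp [sum_range_succ, c4] <;> ring_nf at * <;> linarith

private theorem c4_base (r : ℕ) (h1 : 1 ≤ r) (hr : r ≤ 12) :
    (1 / 2 : ℝ) ≤ ∑ i ∈ range r, (c4 (i + 1) : ℝ) / (i + 1) := by
  interval_cases r <;> simp [sum_range_succ, c4] <;> norm_num



theorem fiber_card_loc4 {G F : Type*} [Group G] [Fintype G] [Field F] [DecidableEq F]
    (f : G →* F) (g0 : G) (d : ℕ) (hd : 0 < d) (h0 : IsPrimitiveRoot (f g0) d)
    (h : ∀ g, f g ^ d = 1) (c : F) (hc : c ^ d = 1) :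
    d * (univ.filter (fun g => f g = c)).card = Fintype.card G := by
  have : NeZero d := ⟨hd.ne'⟩
  have hr : ∀ x : F, x ^ d = 1 → x ∈ Set.range f := by
    intro x hx
    obtain ⟨i, -, hi⟩ := h0.eq_pow_of_pow_eq_one hx
    exact ⟨g0 ^ i, by rw [map_pow, hi]⟩
  have h1 := card_eq_sum_card_fiberwise (s := (univ : Finset G))
    (t := Polynomial.nthRootsFinset d (1 : F)) (f := f) (by
      intro g _
      simp only [Finset.mem_coe]
      rw [Polynomial.mem_nthRootsFinset hd]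
      exact h g)
  rw [← card_univ, h1, sum_congr rfl (fun b hb => MonoidHom.card_fiber_eq_of_mem_range f
    (hr b ((Polynomial.mem_nthRootsFinset hd _).mp hb)) (hr c hc)), sum_const,
    h0.card_nthRootsFinset, smul_eq_mul]

theorem card_box_loc4 (q : ℕ) [Fact q.Prime] (P : ZMod q → ZMod q → Prop)
    [DecidablePred fun z : ℕ × ℕ => P (z.1 : ZMod q) (z.2 : ZMod q)]
    [DecidablePred fun w : ZMod q × ZMod q => P w.1 w.2] :
    ((range q ×ˢ range q).filter fun z => P (z.1 : ZMod q) (z.2 : ZMod q)).card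
      = (univ.filter fun w : ZMod q × ZMod q => P w.1 w.2).card := by
  have hq : 0 < q := (Fact.out : q.Prime).pos
  refine card_nbij' (fun z => ((z.1 : ZMod q), (z.2 : ZMod q))) (fun w => (w.1.val, w.2.val))
    ?_ ?_ ?_ ?_
  · intro z hz
    simp only [coe_filter, mem_product, mem_range, Set.mem_ofPred_eq, mem_univ, true_and] at hz ⊢
    exact hz.2
  · intro w hw
    simp only [coe_filter, mem_product, mem_range, Set.mem_ofPred_eq, mem_univ, true_and] at hw ⊢
    refine ⟨⟨ZMod.val_lt _, ZMod.val_lt _⟩, ?_⟩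
    simpa using hw
  · intro z hz
    simp only [coe_filter, mem_product, mem_range, Set.mem_ofPred_eq] at hz
    ext
    · simp [ZMod.val_cast_of_lt hz.1.1]
    · simp [ZMod.val_cast_of_lt hz.1.2]
  · intro w _
    simp

open QuadraticAlgebra

theorem card_units_loc4 (q : ℕ) [Fact q.Prime] (α β : ZMod q)
    [Fintype (QuadraticAlgebra (ZMod q) α β)ˣ] (P : ZMod q → ZMod q → Prop)
    [DecidablePred fun w : ZMod q × ZMod q => P w.1 w.2]
    [DecidablePred fun g : (QuadraticAlgebra (ZMod q) α β)ˣ =>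
      P (g : QuadraticAlgebra (ZMod q) α β).re (g : QuadraticAlgebra (ZMod q) α β).im]
    (hP : ∀ a b, P a b → (⟨a, b⟩ : QuadraticAlgebra (ZMod q) α β).norm ≠ 0) :
    (univ.filter fun w : ZMod q × ZMod q => P w.1 w.2).card
      = (univ.filter fun g : (QuadraticAlgebra (ZMod q) α β)ˣ =>
        P (g : QuadraticAlgebra (ZMod q) α β).re (g : QuadraticAlgebra (ZMod q) α β).im).card := by
  symm
  refine card_bij (fun g _ => ((g : QuadraticAlgebra (ZMod q) α β).re,
    (g : QuadraticAlgebra (ZMod q) α β).im)) ?_ ?_ ?_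
  · intro g hg
    simpa using hg
  · intro g _ g' _ hgg
    apply Units.ext
    simp only [Prod.mk.injEq] at hgg
    exact QuadraticAlgebra.ext hgg.1 hgg.2
  · rintro ⟨a, b⟩ hw
    simp only [mem_filter, mem_univ, true_and] at hw
    have hu : IsUnit (⟨a, b⟩ : QuadraticAlgebra (ZMod q) α β) :=
      isUnit_iff_norm_isUnit.mpr (isUnit_iff_ne_zero.mpr (hP a b hw))
    refine ⟨hu.unit, ?_, ?_⟩
    · simpa using hw
    · simp

open scoped Classical in
/-- transport of roots of unity -/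
noncomputable def kap_loc4 {F : Type*} [Field F] (ξ : F) (ξC : ℂ) (t : F) : ℂ :=
  if h : ∃ r : ℕ, ξ ^ r = t then ξC ^ (Classical.choose h) else 0

theorem pp_loc4 {F : Type*} [Field F] {ξ : F} {d : ℕ} (hd : 0 < d) (h : IsPrimitiveRoot ξ d)
    (a b : ℕ) : ξ ^ a = ξ ^ b ↔ a ≡ b [MOD d] := by
  have h0 : ξ ≠ 0 := h.ne_zero hd.ne'
  rcases le_total a b with hab | hab
  · rw [Nat.modEq_iff_dvd' hab, ← h.pow_eq_one_iff_dvd]
    obtain ⟨c, rfl⟩ := Nat.exists_eq_add_of_le hab
    rw [Nat.add_sub_cancel_left, pow_add]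
    constructor
    · intro h1
      exact mul_left_cancel₀ (pow_ne_zero a h0) (by rw [← h1, mul_one])
    · intro h1
      rw [h1, mul_one]
  · rw [Nat.ModEq.comm, Nat.modEq_iff_dvd' hab, ← h.pow_eq_one_iff_dvd]
    obtain ⟨c, rfl⟩ := Nat.exists_eq_add_of_le hab
    rw [Nat.add_sub_cancel_left, pow_add]
    constructor
    · intro h1
      exact mul_left_cancel₀ (pow_ne_zero b h0) (by rw [h1, mul_one])
    · intro h1
      rw [h1, mul_one]

theorem kap_pow_loc4 {F : Type*} [Field F] {ξ : F} {ξC : ℂ} {d : ℕ} (hd : 0 < d)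
    (h : IsPrimitiveRoot ξ d) (hC : IsPrimitiveRoot ξC d) (r : ℕ) : kap_loc4 ξ ξC (ξ ^ r) = ξC ^ r := by
  have hex : ∃ s : ℕ, ξ ^ s = ξ ^ r := ⟨r, rfl⟩
  have h1 : ξ ^ (Classical.choose hex) = ξ ^ r := Classical.choose_spec hex
  rw [kap_loc4, dif_pos hex]
  exact (pp_loc4 hd hC _ _).mpr ((pp_loc4 hd h _ _).mp h1)

theorem gen_loc4 (q : ℕ) [Fact q.Prime] (α β : ZMod q) (F : Type*) [Field F] (d : ℕ) (hd : 0 < d)
    (f : (QuadraticAlgebra (ZMod q) α β)ˣ →* F) (g0 : (QuadraticAlgebra (ZMod q) α β)ˣ)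
    (h0 : IsPrimitiveRoot (f g0) d) (h : ∀ g, f g ^ d = 1) (ξ : F) (ξC s : ℂ)
    (hξ : IsPrimitiveRoot ξ d) (hC : IsPrimitiveRoot ξC d) (hs : s ^ d = 1) :
    ∃ ψ : ZMod q → ZMod q → ℂ,
      (∀ a b, (⟨a, b⟩ : QuadraticAlgebra (ZMod q) α β).norm = 0 → ψ a b = 0) ∧
      (∀ g : (QuadraticAlgebra (ZMod q) α β)ˣ, ∀ r : ℕ, f g = ξ ^ r →
        ψ (g : QuadraticAlgebra (ZMod q) α β).re (g : QuadraticAlgebra (ZMod q) α β).im
          = s * ξC ^ r) ∧
      (∀ a b, ψ a b = 0 ∨ ψ a b ^ d = 1) ∧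
      (∀ v : ℂ, v ^ d = 1 → ∀ [DecidablePred fun w : ZMod q × ZMod q => ψ w.1 w.2 = v],
        ∀ [DecidablePred fun w : ZMod q × ZMod q =>
          (⟨w.1, w.2⟩ : QuadraticAlgebra (ZMod q) α β).norm ≠ 0],
        d * (univ.filter fun w : ZMod q × ZMod q => ψ w.1 w.2 = v).card
          = (univ.filter fun w : ZMod q × ZMod q =>
            (⟨w.1, w.2⟩ : QuadraticAlgebra (ZMod q) α β).norm ≠ 0).card) := by
  classical
  have : NeZero d := ⟨hd.ne'⟩
  have : Finite (QuadraticAlgebra (ZMod q) α β) :=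
    Finite.of_equiv _ (QuadraticAlgebra.equivProd α β).symm
  have : Fintype (QuadraticAlgebra (ZMod q) α β)ˣ := Fintype.ofFinite _
  have hs0 : s ≠ 0 := by
    rintro rfl
    rw [zero_pow hd.ne'] at hs
    exact zero_ne_one hs
  have hu : ∀ a b, (⟨a, b⟩ : QuadraticAlgebra (ZMod q) α β).norm ≠ 0 →
      IsUnit (⟨a, b⟩ : QuadraticAlgebra (ZMod q) α β) := fun a b hab =>
    isUnit_iff_norm_isUnit.mpr (isUnit_iff_ne_zero.mpr hab)
  obtain ⟨ψ, hψ⟩ : ∃ ψ : ZMod q → ZMod q → ℂ, ψ = fun a b =>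
    if hab : (⟨a, b⟩ : QuadraticAlgebra (ZMod q) α β).norm ≠ 0 then
      s * kap_loc4 ξ ξC (f (hu a b hab).unit) else 0 := ⟨_, rfl⟩
  have hψ0 : ∀ a b, (⟨a, b⟩ : QuadraticAlgebra (ZMod q) α β).norm = 0 → ψ a b = 0 := by
    intro a b hab
    rw [hψ]
    simp only
    rw [dif_neg (by simpa using hab)]
  have hψg : ∀ g : (QuadraticAlgebra (ZMod q) α β)ˣ,
      ψ (g : QuadraticAlgebra (ZMod q) α β).re (g : QuadraticAlgebra (ZMod q) α β).im
          = s * kap_loc4 ξ ξC (f g) := by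
    intro g
    have hg : (⟨(g : QuadraticAlgebra (ZMod q) α β).re,
        (g : QuadraticAlgebra (ZMod q) α β).im⟩ : QuadraticAlgebra (ZMod q) α β).norm ≠ 0 := by
      rw [mk_eta]
      exact (isUnit_iff_norm_isUnit.mp g.isUnit).ne_zero
    rw [hψ]
    simp only
    rw [dif_pos hg]
    congr 3
    apply Units.ext
    simp
  have hfr : ∀ g, ∃ r : ℕ, r < d ∧ ξ ^ r = f g := fun g => hξ.eq_pow_of_pow_eq_one (h g)
  refine ⟨ψ, hψ0, ?_, ?_, ?_⟩
  · intro g r hr
    rw [hψg, hr, kap_pow_loc4 hd hξ hC]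
  · intro a b
    by_cases hab : (⟨a, b⟩ : QuadraticAlgebra (ZMod q) α β).norm = 0
    · exact Or.inl (hψ0 a b hab)
    · right
      obtain ⟨r, -, hr⟩ := hfr (hu a b hab).unit
      have h1 := hψg (hu a b hab).unit
      simp only [IsUnit.unit_spec] at h1
      rw [h1, ← hr, kap_pow_loc4 hd hξ hC, mul_pow, hs, one_mul, ← pow_mul, mul_comm, pow_mul,
        hC.pow_eq_one, one_pow]
  · intro v hv i1 i2
    obtain ⟨r0, -, hr0⟩ := hC.eq_pow_of_pow_eq_one (ξ := v / s) (by rw [div_pow, hv, hs, div_one])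
    have hv0 : v ≠ 0 := by
      rintro rfl
      rw [zero_pow hd.ne'] at hv
      exact zero_ne_one hv
    have e1 : ∀ g : (QuadraticAlgebra (ZMod q) α β)ˣ,
        ψ (g : QuadraticAlgebra (ZMod q) α β).re (g : QuadraticAlgebra (ZMod q) α β).im = v
          ↔ f g = ξ ^ r0 := by
      intro g
      rw [hψg]
      obtain ⟨r, -, hr⟩ := hfr g
      rw [← hr, kap_pow_loc4 hd hξ hC, pp_loc4 hd hξ, ← pp_loc4 hd hC, hr0, mul_comm,
        eq_div_iff hs0]
    have e2 := card_units_loc4 q α β (fun a b => ψ a b = v) (by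
      intro a b hab h0
      rw [hψ0 a b h0] at hab
      exact hv0 hab.symm)
    have e3 := card_units_loc4 q α β
      (fun a b => (⟨a, b⟩ : QuadraticAlgebra (ZMod q) α β).norm ≠ 0) (fun a b hab => hab)
    have e4 : (univ.filter fun g : (QuadraticAlgebra (ZMod q) α β)ˣ =>
        ψ (g : QuadraticAlgebra (ZMod q) α β).re (g : QuadraticAlgebra (ZMod q) α β).im = v)
        = univ.filter fun g => f g = ξ ^ r0 := filter_congr fun g _ => e1 g
    have e5 : (univ.filter fun g : (QuadraticAlgebra (ZMod q) α β)ˣ =>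
        (⟨(g : QuadraticAlgebra (ZMod q) α β).re,
        (g : QuadraticAlgebra (ZMod q) α β).im⟩ : QuadraticAlgebra (ZMod q) α β).norm ≠ 0)
        = univ := by
      apply filter_true_of_mem
      intro g _
      rw [mk_eta]
      exact (isUnit_iff_norm_isUnit.mp g.isUnit).ne_zero
    have e6 := fiber_card_loc4 f g0 d hd h0 h (ξ ^ r0) (by
      rw [← pow_mul, mul_comm, pow_mul, hξ.pow_eq_one, one_pow])
    rw [e4] at e2
    rw [e5, card_univ] at e3
    calc _ = d * (univ.filter fun w : ZMod q × ZMod q => ψ w.1 w.2 = v).card := by congr!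
      _ = Fintype.card (QuadraticAlgebra (ZMod q) α β)ˣ := by rw [← e6, ← e2]
      _ = _ := by rw [← e3]

theorem split_count_loc4 (q : ℕ) [Fact q.Prime] (s t : ZMod q) (hst : s ≠ t)
    (P : ZMod q × ZMod q → Prop) [DecidablePred P]
    (hP : ∀ w, P w ↔ (w.1 + s * w.2) * (w.1 + t * w.2) ≠ 0) :
    (univ.filter P).card = (q - 1) * (q - 1) := by
  classical
  have hst' : s - t ≠ 0 := sub_ne_zero.mpr hst
  have h1 : ((univ.erase (0 : ZMod q)) ×ˢ (univ.erase (0 : ZMod q))).card = (q - 1) * (q - 1) := by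
    rw [card_product, card_erase_of_mem (mem_univ _), card_univ, ZMod.card]
  rw [← h1]
  refine card_nbij' (fun w => (w.1 + s * w.2, w.1 + t * w.2))
    (fun z => (z.1 - s * ((z.1 - z.2) / (s - t)), (z.1 - z.2) / (s - t))) ?_ ?_ ?_ ?_
  · intro w hw
    simp only [coe_filter, Set.mem_ofPred_eq, mem_univ, true_and] at hw
    have := (hP w).mp hw
    simp only [coe_product, Set.mem_prod, Finset.mem_coe, mem_erase, mem_univ, and_true]
    exact ⟨left_ne_zero_of_mul this, right_ne_zero_of_mul this⟩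
  · intro z hz
    simp only [coe_product, Set.mem_prod, Finset.mem_coe, mem_erase, mem_univ, and_true] at hz
    simp only [coe_filter, Set.mem_ofPred_eq, mem_univ, true_and]
    rw [hP]
    have e1 : z.1 - s * ((z.1 - z.2) / (s - t)) + s * ((z.1 - z.2) / (s - t)) = z.1 := by ring
    have e2 : z.1 - s * ((z.1 - z.2) / (s - t)) + t * ((z.1 - z.2) / (s - t)) = z.2 := by
      field_simp
      ring
    simp only
    rw [e1, e2]
    exact mul_ne_zero hz.1 hz.2
  · intro w _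
    ext
    · simp only
      field_simp
      ring
    · simp only
      field_simp
      ring
  · intro z _
    ext
    · simp only
      ring
    · simp only
      field_simp
      ring

theorem inert_count_loc4 (q : ℕ) [Fact q.Prime] (P : ZMod q × ZMod q → Prop) [DecidablePred P]
    (hP : ∀ w, P w ↔ w ≠ 0) :
    (univ.filter P).card = q * q - 1 := by
  classical
  have h1 : univ.filter P = univ.erase (0 : ZMod q × ZMod q) := by
    ext w
    simp [hP w]
  rw [h1, card_erase_of_mem (mem_univ _), card_univ, Fintype.card_prod, ZMod.card]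

theorem prim4_loc4 {F : Type*} [Field F] (x : F) (h : x ^ 2 = -1) (h2 : (2 : F) ≠ 0) :
    IsPrimitiveRoot x 4 := by
  have h1 : ¬ x ^ 2 ^ 1 = 1 := by
    rw [pow_one, h]
    intro h3
    apply h2
    have : (1 : F) + 1 = 0 := by nth_rewrite 1 [← h3]; ring
    rw [← this]; norm_num
  have h4 : x ^ 2 ^ (1 + 1) = 1 := by
    rw [show 2 ^ (1 + 1) = 2 * 2 by norm_num, pow_mul, h]; ring
  have : Fact (Nat.Prime 2) := ⟨Nat.prime_two⟩
  have h5 := orderOf_eq_prime_pow h1 h4
  have h6 := IsPrimitiveRoot.orderOf x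
  rw [h5] at h6
  simpa using h6

theorem charF_loc4 (q : ℕ) [Fact q.Prime] (F : Type*) [Field F] [Algebra (ZMod q) F] :
    CharP F q := charP_of_injective_algebraMap (algebraMap (ZMod q) F).injective q

theorem two_ne_loc4 (q : ℕ) [Fact q.Prime] (h5 : 5 ≤ q) (F : Type*) [Field F]
    [Algebra (ZMod q) F] : (2 : F) ≠ 0 := by
  have := charF_loc4 q F
  intro h
  have h1 := (CharP.cast_eq_zero_iff F q 2).mp (by exact_mod_cast h)
  have := Nat.le_of_dvd (by norm_num) h1
  omega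

/-- a nonsquare has Euler power -1 -/
theorem euler_loc4 (q : ℕ) [Fact q.Prime] (a : ZMod q) (h : ¬ IsSquare a) :
    a ^ (q / 2) = -1 := by
  have h0 : a ≠ 0 := by
    rintro rfl
    exact h ⟨0, by simp⟩
  rcases ZMod.pow_div_two_eq_neg_one_or_one q h0 with h1 | h1
  · exact absurd ((ZMod.euler_criterion q h0).mpr h1) h
  · exact h1

theorem nonsq_loc4 (q : ℕ) [Fact q.Prime] (h5 : 5 ≤ q) : ∃ a : ZMod q, ¬ IsSquare a := by
  apply FiniteField.exists_nonsquare
  rw [ZMod.ringChar_zmod_n]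
  omega

private def D4 (q : ℕ) [Fact q.Prime] (F : Type*) [Field F] [Algebra (ZMod q) F] (I : F)
    (ψ : ZMod q → ZMod q → ℂ) : Prop :=
  I ^ 2 = -1 ∧
      (∀ a b, ψ a b = 0 ∨ ψ a b ^ 4 = 1) ∧
      (∀ v : ℂ, v ^ 4 = 1 → ∀ [DecidablePred fun w : ZMod q × ZMod q => ψ w.1 w.2 = v],
        (4 : ℤ) * ((univ.filter fun w : ZMod q × ZMod q => ψ w.1 w.2 = v).card : ℤ)
          = ((q : ℤ) - 1) * ((q : ℤ) - c4 q)) ∧
      (∀ a b : ZMod q, a ^ 2 + b ^ 2 ≠ 0 → ψ a b ≠ 0 ∧ ∀ r : ℕ,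
        (q % 4 = 1 →
          ((algebraMap (ZMod q) F a + algebraMap (ZMod q) F b * I) ^ 2
            * algebraMap (ZMod q) F (a ^ 2 + b ^ 2)) ^ ((q - 1) / 4)
            * I ^ r = 1 → ψ a b = Complex.I ^ r) ∧
        (q % 4 = 3 →
          ((algebraMap (ZMod q) F a + algebraMap (ZMod q) F b * I) ^ 2
            * algebraMap (ZMod q) F (a ^ 2 + b ^ 2)) ^ ((q + 1) / 4)
            = -I ^ r * algebraMap (ZMod q) F (a ^ 2 + b ^ 2) →
              ψ a b = Complex.I ^ r))

private theorem data4 (q : ℕ) [Fact q.Prime] (h5 : 5 ≤ q) (F : Type*) [Field F]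
    [Algebra (ZMod q) F] [IsAlgClosed F] :
    ∃ (I : F) (ψ : ZMod q → ZMod q → ℂ), D4 q F I ψ := by
  unfold D4
  classical
  have hqp : q.Prime := Fact.out
  have hodd : q % 2 = 1 := by
    rcases hqp.eq_two_or_odd with h | h <;> omega
  have hch : CharP F q := charF_loc4 q F
  have h2 : (2 : F) ≠ 0 := two_ne_loc4 q h5 F
  obtain ⟨A, hA⟩ : ∃ A : ZMod q →+* F, A = algebraMap (ZMod q) F := ⟨_, rfl⟩
  rw [← hA]
  obtain ⟨I, hI⟩ : ∃ z : F, z ^ 2 = -1 := IsAlgClosed.exists_pow_nat_eq (-1) (by norm_num)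
  have hI1 : I * I = (-1 : ZMod q) • (1 : F) + (0 : ZMod q) • I := by
    rw [← sq, hI]; simp
  obtain ⟨φ, hφ'⟩ : ∃ φ : QuadraticAlgebra (ZMod q) (-1) 0 →ₐ[ZMod q] F,
    φ = QuadraticAlgebra.lift ⟨I, hI1⟩ := ⟨_, rfl⟩
  have hφ : ∀ z, φ z = A z.re + A z.im * I := by
    intro z
    rw [hφ', hA]
    simp [QuadraticAlgebra.lift, Algebra.smul_def]
  have hIp : IsPrimitiveRoot I 4 := prim4_loc4 I hI h2
  have hCp : IsPrimitiveRoot Complex.I 4 := prim4_loc4 _ Complex.I_sq (by norm_num)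
  have frob : ∀ a, (A a) ^ q = A a := by
    intro a; rw [← map_pow, ZMod.pow_card]
  have hnorm : ∀ z : QuadraticAlgebra (ZMod q) (-1) 0, z.norm = z.re ^ 2 + z.im ^ 2 := by
    intro z; rw [norm_def]; ring
  have hN1 : ∀ g : (QuadraticAlgebra (ZMod q) (-1) 0)ˣ,
      (A (g : QuadraticAlgebra (ZMod q) (-1) 0).norm) ^ (q - 1) = 1 := by
    intro g
    rw [← map_pow, ZMod.pow_card_sub_one_eq_one, map_one]
    exact (isUnit_iff_norm_isUnit.mp g.isUnit).ne_zero
  have hφ0 : ∀ g : (QuadraticAlgebra (ZMod q) (-1) 0)ˣ, φ g ≠ 0 := by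
    intro g
    exact (g.isUnit.map φ).ne_zero
  obtain ⟨γ, hγ⟩ := nonsq_loc4 q h5
  obtain ⟨a0, b0, hab0⟩ := ZMod.sq_add_sq q γ
  have hγ0 : γ ≠ 0 := by
    rintro rfl
    exact hγ ⟨0, by simp⟩
  have hu0 : IsUnit (⟨a0, b0⟩ : QuadraticAlgebra (ZMod q) (-1) 0) := by
    rw [isUnit_iff_norm_isUnit, hnorm]
    simp only
    rw [hab0]
    exact isUnit_iff_ne_zero.mpr hγ0
  obtain ⟨g0, hg0⟩ : ∃ g0 : (QuadraticAlgebra (ZMod q) (-1) 0)ˣ,
    (g0 : QuadraticAlgebra (ZMod q) (-1) 0).norm = γ := ⟨hu0.unit, by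
      rw [IsUnit.unit_spec, hnorm]; exact hab0⟩
  have hunit : ∀ a b : ZMod q, a ^ 2 + b ^ 2 ≠ 0 → ∃ g : (QuadraticAlgebra (ZMod q) (-1) 0)ˣ,
      (g : QuadraticAlgebra (ZMod q) (-1) 0) = ⟨a, b⟩ := by
    intro a b hab
    have hu : IsUnit (⟨a, b⟩ : QuadraticAlgebra (ZMod q) (-1) 0) := by
      rw [isUnit_iff_norm_isUnit, hnorm]
      exact isUnit_iff_ne_zero.mpr hab
    exact ⟨hu.unit, rfl⟩
  have hcases : q % 4 = 1 ∨ q % 4 = 3 := by omega
  rcases hcases with h4 | h4
  · -- split case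
    obtain ⟨n, hn⟩ : ∃ n, q = 4 * n + 1 := ⟨q / 4, by omega⟩
    have hIq : I ^ q = I := by
      rw [hn, pow_succ, pow_mul, hIp.pow_eq_one, one_pow, one_mul]
    have huq : ∀ g : (QuadraticAlgebra (ZMod q) (-1) 0)ˣ, (φ g) ^ (q - 1) = 1 := by
      intro g
      have h1 : (φ g) ^ q = φ g := by
        rw [hφ, add_pow_char, mul_pow, frob, frob, hIq]
      have h3 : (φ g) ^ q = (φ g) ^ (q - 1) * φ g := by
        rw [← pow_succ, Nat.sub_add_cancel hqp.one_lt.le]
      rw [h3] at h1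
      exact mul_right_cancel₀ (hφ0 g) (by rw [h1, one_mul])
    obtain ⟨f, hf⟩ : ∃ f : (QuadraticAlgebra (ZMod q) (-1) 0)ˣ →* F,
        ∀ g, f g = (((φ g) ^ 2 * A (g : QuadraticAlgebra (ZMod q) (-1) 0).norm) ^ n)⁻¹ :=
      ⟨{ toFun := fun g => (((φ g) ^ 2 * A (g : QuadraticAlgebra (ZMod q) (-1) 0).norm) ^ n)⁻¹
         map_one' := by simp
         map_mul' := by
          intro g g'
          rw [Units.val_mul, map_mul, map_mul, map_mul, ← mul_inv, ← mul_pow]
          congr 2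
          ring }, fun g => rfl⟩
    have hf4 : ∀ g, f g ^ 4 = 1 := by
      intro g
      rw [hf, inv_pow, ← pow_mul, show n * 4 = q - 1 by omega, mul_pow, hN1, ← pow_mul,
        Nat.mul_comm 2, pow_mul, huq]
      simp
    have hf0 : f g0 ^ 2 = -1 := by
      have e3 := euler_loc4 q γ hγ
      rw [hf, inv_pow, ← pow_mul, mul_pow, hg0, show n * 2 = q / 2 by omega,
        ← map_pow A, e3, ← pow_mul, show 2 * (q / 2) = q - 1 by omega, huq]
      simp
    obtain ⟨ψ, hψ0, hψ1, hψ2, hψ3⟩ := gen_loc4 q (-1) 0 F 4 (by norm_num) f g0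
      (prim4_loc4 _ hf0 h2) hf4 I Complex.I 1 hIp hCp (by norm_num)
    refine ⟨I, ψ, hI, hψ2, ?_, ?_⟩
    · intro v hv _
      have h1 := hψ3 v hv
      obtain ⟨i0, hi0⟩ : ∃ i0 : ZMod q, i0 ^ 2 = -1 := by
        obtain ⟨i0, hi0⟩ := ZMod.exists_sq_eq_neg_one_iff.mpr (show q % 4 ≠ 3 by omega)
        exact ⟨i0, by rw [hi0, sq]⟩
      have hi1 : i0 ≠ -i0 := by
        intro h
        have h3 : 2 * i0 = 0 := by linear_combination h
        have h2' := two_ne_loc4 q h5 (ZMod q)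
        have h4 : i0 = 0 := by
          rcases mul_eq_zero.mp h3 with h5 | h5
          · exact absurd h5 h2'
          · exact h5
        rw [h4] at hi0
        have : (1 : ZMod q) = 0 := by
          have h6 : (0 : ZMod q) ^ 2 = 0 := by simp
          rw [h6] at hi0
          linear_combination hi0
        exact one_ne_zero this
      have h3 := split_count_loc4 q i0 (-i0) hi1
        (fun w => (⟨w.1, w.2⟩ : QuadraticAlgebra (ZMod q) (-1) 0).norm ≠ 0) (by
          intro w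
          rw [hnorm]
          simp only
          rw [show (w.1 + i0 * w.2) * (w.1 + -i0 * w.2) = w.1 ^ 2 + w.2 ^ 2 by
            linear_combination - w.2 ^ 2 * hi0])
      rw [h3] at h1
      have hc : c4 q = 1 := by
        unfold c4
        have h3 : q % 3 ≠ 0 := by
          intro h
          have := (Nat.prime_dvd_prime_iff_eq Nat.prime_three hqp).mp (Nat.dvd_of_mod_eq_zero h)
          omega
        rw [if_pos (by omega)]
      rw [hc]
      zify [hqp.one_lt.le] at h1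
      linarith
    · intro a b hab
      obtain ⟨g, hg⟩ := hunit a b hab
      constructor
      · obtain ⟨r, -, hr⟩ := hIp.eq_pow_of_pow_eq_one (hf4 g)
        have h1 := hψ1 g r hr.symm
        rw [hg] at h1
        rw [h1, one_mul]
        exact pow_ne_zero _ Complex.I_ne_zero
      · intro r
        refine ⟨fun _ h1 => ?_, fun h => by omega⟩
        have h3 : f g = I ^ r := by
          rw [hf, hφ, hnorm, hg]
          simp only
          rw [show n = (q - 1) / 4 by omega]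
          exact (eq_inv_of_mul_eq_one_right h1).symm
        have h4 := hψ1 g r h3
        rw [hg] at h4
        rw [h4, one_mul]
  · -- inert case
    obtain ⟨m, hm⟩ : ∃ m, q = 4 * m + 3 := ⟨q / 4, by omega⟩
    have hIq : I ^ q = -I := by
      rw [hm, show 4 * m + 3 = 4 * m + 2 + 1 by ring, pow_succ, pow_add, pow_mul, hIp.pow_eq_one,
        one_pow, hI]
      ring
    have huq : ∀ g : (QuadraticAlgebra (ZMod q) (-1) 0)ˣ, (φ g) ^ (q + 1)
        = A (g : QuadraticAlgebra (ZMod q) (-1) 0).norm := by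
      intro g
      have h1 : (φ g) ^ q = A (g : QuadraticAlgebra (ZMod q) (-1) 0).re
          - A (g : QuadraticAlgebra (ZMod q) (-1) 0).im * I := by
        rw [hφ, add_pow_char, mul_pow, frob, frob, hIq]
        ring
      rw [pow_succ, h1, hφ, hnorm, map_add, map_pow, map_pow]
      linear_combination - (A (g : QuadraticAlgebra (ZMod q) (-1) 0).im) ^ 2 * hI
    obtain ⟨f, hf⟩ : ∃ f : (QuadraticAlgebra (ZMod q) (-1) 0)ˣ →* F,
        ∀ g, f g = (φ g) ^ ((2 * m + 1) * (2 * m + 2)) :=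
      ⟨{ toFun := fun g => (φ g) ^ ((2 * m + 1) * (2 * m + 2))
         map_one' := by simp
         map_mul' := by
          intro g g'
          rw [Units.val_mul, map_mul, mul_pow] }, fun g => rfl⟩
    have hf2 : ∀ g, f g ^ 2 = (A (g : QuadraticAlgebra (ZMod q) (-1) 0).norm) ^ (q / 2) := by
      intro g
      rw [hf, ← pow_mul, ← huq, ← pow_mul]
      congr 1
      rw [show q / 2 = 2 * m + 1 by omega, hm]
      ring
    have hf4 : ∀ g, f g ^ 4 = 1 := by
      intro g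
      rw [show 4 = 2 * 2 by norm_num, pow_mul, hf2, ← pow_mul, show q / 2 * 2 = q - 1 by omega,
        hN1]
    have hf0 : f g0 ^ 2 = -1 := by
      rw [hf2, hg0, ← map_pow, euler_loc4 q γ hγ]
      simp
    obtain ⟨ψ, hψ0, hψ1, hψ2, hψ3⟩ := gen_loc4 q (-1) 0 F 4 (by norm_num) f g0
      (prim4_loc4 _ hf0 h2) hf4 I Complex.I (-1) hIp hCp (by norm_num)
    refine ⟨I, ψ, hI, hψ2, ?_, ?_⟩
    · intro v hv _
      have h1 := hψ3 v hv
      have hns : ¬ IsSquare (-1 : ZMod q) := by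
        rw [ZMod.exists_sq_eq_neg_one_iff]
        omega
      have h3 := inert_count_loc4 q
        (fun w => (⟨w.1, w.2⟩ : QuadraticAlgebra (ZMod q) (-1) 0).norm ≠ 0) (by
          intro w
          rw [hnorm]
          simp only
          constructor
          · rintro h rfl
            apply h
            simp
          · intro h h6
            by_cases hw : w.2 = 0
            · rw [hw] at h6
              apply h
              ext
              · simpa using h6
              · exact hw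
            · apply hns
              refine ⟨w.1 / w.2, ?_⟩
              field_simp
              linear_combination -h6)
      rw [h3] at h1
      have hc : c4 q = -1 := by
        unfold c4
        have h3 : q % 3 ≠ 0 := by
          intro h
          have := (Nat.prime_dvd_prime_iff_eq Nat.prime_three hqp).mp (Nat.dvd_of_mod_eq_zero h)
          omega
        rw [if_neg (by omega), if_pos (by omega)]
      rw [hc]
      have h7 : 1 ≤ q * q := by nlinarith
      zify [h7] at h1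
      linarith
    · intro a b hab
      obtain ⟨g, hg⟩ := hunit a b hab
      constructor
      · obtain ⟨r, -, hr⟩ := hIp.eq_pow_of_pow_eq_one (hf4 g)
        have h1 := hψ1 g r hr.symm
        rw [hg] at h1
        rw [h1]
        exact mul_ne_zero (by norm_num) (pow_ne_zero _ Complex.I_ne_zero)
      · intro r
        refine ⟨fun h => by omega, fun _ h1 => ?_⟩
        have hN0 : A (g : QuadraticAlgebra (ZMod q) (-1) 0).norm ≠ 0 := by
          rw [← huq]
          exact pow_ne_zero _ (hφ0 g)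
        have h3 : f g = I ^ (r + 2) := by
          have e1 : φ g = A a + A b * I := by rw [hφ, hg]
          have e2 : A (a ^ 2 + b ^ 2) = A (g : QuadraticAlgebra (ZMod q) (-1) 0).norm := by
            rw [hnorm, hg]
          rw [← e1, e2] at h1
          apply mul_right_cancel₀ hN0
          rw [pow_add, hI, show I ^ r * -1 = - I ^ r by ring, ← h1, hf, ← huq, ← pow_add,
            ← pow_add, ← pow_mul]
          congr 1
          rw [show (q + 1) / 4 = m + 1 by omega, hm]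
          ring
        have h4 := hψ1 g (r + 2) h3
        rw [hg] at h4
        rw [h4, pow_add, Complex.I_sq]
        ring

theorem exists_loc4 : ∃ L : Loc 4, ∀ (q : ℕ) [Fact q.Prime], 5 ≤ q →
    ∃ I : AlgebraicClosure (ZMod q), I ^ 2 = -1 ∧ ∀ a b : ℤ,
      ((a : AlgebraicClosure (ZMod q)) ^ 2 + (b : AlgebraicClosure (ZMod q)) ^ 2 ≠ 0 →
        L.psi q a b ≠ 0 ∧ ∀ r : ℕ,
        (q % 4 = 1 →
          (((a : AlgebraicClosure (ZMod q)) + b * I) ^ 2 * (a ^ 2 + b ^ 2)) ^ ((q - 1) / 4) * I ^ r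
            = 1 → L.psi q a b = Complex.I ^ r) ∧
        (q % 4 = 3 →
          (((a : AlgebraicClosure (ZMod q)) + b * I) ^ 2 * (a ^ 2 + b ^ 2)) ^ ((q + 1) / 4)
            = -I ^ r * (a ^ 2 + b ^ 2) → L.psi q a b = Complex.I ^ r)) := by
  classical
  have hD : ∀ (q : ℕ) (hq : Fact q.Prime), 5 ≤ q → ∃ (I : AlgebraicClosure (ZMod q))
      (ψ : ZMod q → ZMod q → ℂ), D4 q (AlgebraicClosure (ZMod q)) I ψ :=
    fun q hq h5 => @data4 q hq h5 (AlgebraicClosure (ZMod q)) _ _ _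
  choose Iq ψq hD using hD
  obtain ⟨psi, hpsi⟩ : ∃ psi : ℕ → ℤ → ℤ → ℂ, psi = fun (q : ℕ) (a b : ℤ) =>
    if h : q.Prime ∧ 5 ≤ q then ψq q ⟨h.1⟩ h.2 (a : ZMod q) (b : ZMod q) else 0 := ⟨_, rfl⟩
  have hp : ∀ (q : ℕ) (hq : Fact q.Prime) (h5 : 5 ≤ q) (a b : ℤ),
      psi q a b = ψq q hq h5 (a : ZMod q) (b : ZMod q) := by
    intro q hq h5 a b
    rw [hpsi]
    simp only
    rw [dif_pos ⟨hq.out, h5⟩]
  refine ⟨{ chi := c4
            psi := psi
            chi_one := by simp [c4]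
            chi_mul := c4_mul
            chi_val := c4_val
            chi_low := fun N hN => low_gen_loc4 c4 c4_per c4_zero c4_step c4_base N hN
            per := ?_
            val := ?_
            cnt := ?_ }, ?_⟩
  · intro q hq h5 a b s t
    rw [hp q ⟨hq⟩ h5, hp q ⟨hq⟩ h5]
    push_cast
    simp
  · intro q hq h5 a b
    rw [hp q ⟨hq⟩ h5]
    have : Fact q.Prime := ⟨hq⟩
    exact (hD q this h5).2.1 _ _
  · intro q hq h5 v hv
    have hF : Fact q.Prime := ⟨hq⟩
    have h1 := (hD q hF h5).2.2.1 v hv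
    have h2 := card_box_loc4 q (fun a b => ψq q hF h5 a b = v)
    rw [← h1, ← h2]
    congr 2
    apply congrArg
    ext z
    simp only [mem_filter]
    rw [hp q hF h5]
    push_cast
    rfl
  · intro q hq h5
    have h1 := hD q hq h5
    refine ⟨Iq q hq h5, h1.1, fun a b hab => ?_⟩
    have e1 : ∀ a : ℤ, algebraMap (ZMod q) (AlgebraicClosure (ZMod q)) (a : ZMod q) = a :=
      fun a => map_intCast _ a
    have e2 : algebraMap (ZMod q) (AlgebraicClosure (ZMod q)) ((a : ZMod q) ^ 2 + (b : ZMod q) ^ 2)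
        = (a : AlgebraicClosure (ZMod q)) ^ 2 + (b : AlgebraicClosure (ZMod q)) ^ 2 := by
      rw [map_add, map_pow, map_pow, e1, e1]
    have hab' : (a : ZMod q) ^ 2 + (b : ZMod q) ^ 2 ≠ 0 := by
      intro h
      rw [h, map_zero] at e2
      exact hab e2.symm
    have h2 := h1.2.2.2 (a : ZMod q) (b : ZMod q) hab'
    rw [e2, e1, e1] at h2
    simp only
    rw [hp q hq h5]
    exact h2
end Pool.QS
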