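import Pool.Agent.Lib.MP_a3a416_nt.QS.Gauss4
import Pool.Agent.Lib.MP_a3a416_nt.QS.Loc4

/-! QS-Dat4: the quartic family.

PROOF.
L from exists_loc4. PP = {p prime, 5 < p, p % 8 = 5}. For p ∈ PP take χ₀ : MulChar (ZMod p) GaussianInt of order 4 (MulChar.exists_mulChar_orderOf, i is a primitive 4th root in ℤ[i]),
 chr p = χ₀.ringHomComp (ℤ[i] → ℂ) (GaussianInt.toComplex), J = jacobiSum χ₀ χ₀ ∈ ℤ[i], ca = J.re, cb = J.im; for p ∉ PP anything.
 |J|² = p: jacobiSum_mul_jacobiSum_inv over ℂ (χ, χ² nontrivial) or norm; so ca²+cb² = p: size_a, size_b, inj (p is recovered from (ca, cb)).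
 order of chr p is 4 (injective ring hom), χ(-1) = -1 since p ≡ 5 mod 8: -1 = g^{(p-1)/2}, (p-1)/2 = 2·odd; χ(-1)² = 1 and χ(-1) = χ(g)^{(p-1)/2} = -1 because χ(g) is a primitive 4th root of 1
   ((χ g)^2 = -1, (p-1)/4 odd).
 loc: for a prime q >= 5, q ≠ p: F = AlgebraicClosure (ZMod q), I from exists_loc4, φ : ℤ[i] → F, i ↦ I (Zsqrtd.lift); χ_F = χ₀.ringHomComp φ (order 4: χ_F g = I^r with r odd, I primitive 4th root
   as q ≠ 2), jacobiSum χ_F χ_F = φ J = ca + cb I (jacobiSum_ringHomComp), N = p ≠ 0 in F; χ₀ q = i^r for some r; then χ_F q = I^r, chr p q = Complex.I^r, and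
   quartic_gauss gives exactly the hypotheses of the two implications of exists_loc4 (with a²+b² = p in F).
-/

set_option autoImplicit false

open Finset

namespace Pool.QS
/-- discrete logarithms and the characters of order dividing `4` -/
private theorem dat4_rho {p : ℕ} [Fact p.Prime] (h4 : 4 ∣ p - 1) :
    ∃ (l : ZMod p → ℕ) (g : ZMod p), g ≠ 0 ∧ orderOf g = p - 1 ∧ (∀ x : ZMod p, x ≠ 0 →
      g ^ (l x) = x) ∧ ∀ (K : Type) [Field K] (t : K), t ^ 4 = 1 →
      ∃ ρ : MulChar (ZMod p) K, ρ g = t ∧ ∀ x : ZMod p, x ≠ 0 → ρ x = t ^ (l x) := by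
  classical
  obtain ⟨g, hg⟩ := IsCyclic.exists_generator (α := (ZMod p)ˣ)
  have h1 : ∀ x : (ZMod p)ˣ, ∃ k : ℕ, g ^ k = x := by
    intro x
    have := hg x
    rw [← mem_powers_iff_mem_zpowers] at this
    obtain ⟨k, hk⟩ := this
    exact ⟨k, hk⟩
  choose L hL using h1
  refine ⟨fun x => if h : IsUnit x then L h.unit else 0, (g : ZMod p), g.ne_zero, ?_, ?_, ?_⟩
  · rw [orderOf_units, orderOf_eq_card_of_forall_mem_zpowers hg, Nat.card_eq_fintype_card,
      ZMod.card_units]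
  · intro x hx
    have hx' : IsUnit x := isUnit_iff_ne_zero.2 hx
    simp only [hx', dif_pos]
    rw [← Units.val_pow_eq_pow_val, hL]
    rfl
  intro K _ t ht
  have ht0 : t ≠ 0 := by
    rintro rfl
    norm_num at ht
  set u : Kˣ := Units.mk0 t ht0 with hu
  have hmem : u ∈ rootsOfUnity (Fintype.card (ZMod p)ˣ) K := by
    rw [mem_rootsOfUnity, ZMod.card_units]
    obtain ⟨k, hk⟩ := h4
    rw [hk, pow_mul]
    have : u ^ 4 = 1 := by
      ext
      simp [hu, ht]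
    rw [this, one_pow]
  refine ⟨MulChar.ofRootOfUnity hmem hg, ?_, ?_⟩
  · rw [MulChar.ofRootOfUnity_spec]
    rfl
  · intro x hx
    have hx' : IsUnit x := isUnit_iff_ne_zero.2 hx
    simp only [hx', dif_pos]
    have h2 : (x : ZMod p) = ((g ^ (L hx'.unit) : (ZMod p)ˣ) : ZMod p) := by
      rw [hL]
      rfl
    conv_lhs => rw [h2]
    rw [Units.val_pow_eq_pow_val, map_pow, MulChar.ofRootOfUnity_spec]
    rfl

/-- the coordinates of the Jacobi sum do not depend on the field -/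
private theorem dat4_jac {p : ℕ} [Fact p.Prime] (l : ZMod p → ℕ) :
    ∃ a b : ℤ, ∀ (K : Type) [Field K] (t : K), t ^ 2 = -1 →
      ∀ ρ : MulChar (ZMod p) K, (∀ x : ZMod p, x ≠ 0 → ρ x = t ^ (l x)) →
        jacobiSum ρ ρ = (a : K) + (b : K) * t := by
  classical
  set S : Finset (ZMod p) := univ.filter (fun x => x ≠ 0 ∧ x ≠ 1) with hS
  set m : ℕ → ℕ := fun r => (S.filter (fun x => (l x + l (1 - x)) % 4 = r)).card with hm
  refine ⟨(m 0 : ℤ) - m 2, (m 1 : ℤ) - m 3, ?_⟩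
  intro K _ t ht ρ hρ
  have ht4 : t ^ 4 = 1 := by linear_combination (t ^ 2 - 1) * ht
  have h1 : jacobiSum ρ ρ = ∑ x ∈ S, t ^ ((l x + l (1 - x)) % 4) := by
    rw [jacobiSum, ← Finset.sum_subset (Finset.subset_univ S)]
    · refine Finset.sum_congr rfl fun x hx => ?_
      rw [hS, mem_filter] at hx
      rw [hρ x hx.2.1, hρ (1 - x) (sub_ne_zero.2 (Ne.symm hx.2.2)), ← pow_add]
      conv_lhs => rw [← Nat.div_add_mod (l x + l (1 - x)) 4]
      rw [pow_add, pow_mul, ht4, one_pow, one_mul]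
    · intro x _ hx
      rw [hS, mem_filter] at hx
      simp only [mem_univ, true_and, not_and_or, not_not] at hx
      rcases hx with rfl | rfl
      · rw [MulChar.map_zero, zero_mul]
      · rw [sub_self, MulChar.map_zero, mul_zero]
  have h2 : ∑ x ∈ S, t ^ ((l x + l (1 - x)) % 4) = ∑ r ∈ range 4, (m r : K) * t ^ r := by
    rw [← Finset.sum_fiberwise_of_maps_to (s := S) (t := range 4)
      (g := fun x => (l x + l (1 - x)) % 4)
      (fun x _ => mem_range.2 (Nat.mod_lt _ (by norm_num)))]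
    refine Finset.sum_congr rfl fun r _ => ?_
    rw [Finset.sum_congr rfl (g := fun _ => t ^ r)]
    · rw [Finset.sum_const, nsmul_eq_mul]
    · intro x hx
      rw [(mem_filter.1 hx).2]
  rw [h1, h2]
  simp only [Finset.sum_range_succ, Finset.sum_range_zero]
  push_cast
  linear_combination ((m 2 : K) + (m 3 : K) * t) * ht

/-- order of a quartic character -/
private theorem dat4_order {p : ℕ} [Fact p.Prime] {K : Type} [Field K] {t : K}
    (ht : t ^ 2 = -1) (h2 : (2 : K) ≠ 0) {ρ : MulChar (ZMod p) K} {l : ZMod p → ℕ} {g : ZMod p}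
    (hg : ρ g = t) (hρ : ∀ x : ZMod p, x ≠ 0 → ρ x = t ^ (l x)) :
    orderOf ρ = 4 := by
  have : Fact (Nat.Prime 2) := ⟨Nat.prime_two⟩
  have ht4 : t ^ 4 = 1 := by linear_combination (t ^ 2 - 1) * ht
  have h4 : orderOf ρ = 2 ^ (1 + 1) := by
    apply orderOf_eq_prime_pow
    · intro h
      apply h2
      have h3 : (ρ ^ 2 ^ 1) g = t ^ 2 := by
        have : (2 : ℕ) ^ 1 = 2 := rfl
        rw [this, pow_two, MulChar.mul_apply, hg, sq]
      rw [h, ht] at h3
      have h5 : (1 : MulChar (ZMod p) K) g = 1 := by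
        by_cases hg1 : IsUnit g
        · exact MulChar.one_apply hg1
        · exfalso
          rw [MulChar.map_nonunit _ hg1] at hg
          rw [← hg] at ht4
          norm_num at ht4
      rw [h5] at h3
      linear_combination h3
    · ext x
      have : (2 : ℕ) ^ (1 + 1) = 4 := rfl
      rw [this, MulChar.pow_apply_coe, hρ _ x.ne_zero, MulChar.one_apply_coe, ← pow_mul, mul_comm,
        pow_mul, ht4, one_pow]
  rw [h4]
  norm_num

/-- the discrete logarithm of `-1` -/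
private theorem dat4_neg {p : ℕ} [Fact p.Prime] (hp : p % 8 = 5) {l : ZMod p → ℕ} {g : ZMod p}
    (hg : orderOf g = p - 1) (hl : ∀ x : ZMod p, x ≠ 0 → g ^ (l x) = x) : l (-1) % 4 = 2 := by
  have hp1 : p.Prime := Fact.out
  have h1 := hl (-1) (neg_ne_zero.2 one_ne_zero)
  have h2 : (p - 1) ∣ 2 * l (-1) := by
    rw [← hg]
    apply orderOf_dvd_of_pow_eq_one
    rw [mul_comm, pow_mul, h1]
    norm_num
  have h3 : ¬ (p - 1) ∣ l (-1) := by
    intro h
    rw [← hg] at h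
    have h4 := orderOf_dvd_iff_pow_eq_one.1 h
    rw [h1] at h4
    have h5 : (2 : ZMod p) = 0 := by linear_combination -h4
    have h6 : ((2 : ℕ) : ZMod p) = 0 := by exact_mod_cast h5
    rw [ZMod.natCast_eq_zero_iff] at h6
    have := Nat.le_of_dvd (by norm_num) h6
    omega
  obtain ⟨m, hm⟩ : ∃ m, p - 1 = 4 * m := ⟨(p - 1) / 4, by omega⟩
  have hmodd : m % 2 = 1 := by omega
  rw [hm] at h2 h3
  obtain ⟨k, hk⟩ := h2
  have hk2 : l (-1) = 2 * (m * k) := by
    have : 2 * l (-1) = 2 * (2 * (m * k)) := by rw [hk]; ring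
    omega
  have hkodd : k % 2 = 1 := by
    by_contra hne
    apply h3
    obtain ⟨j, hj⟩ : ∃ j, k = 2 * j := ⟨k / 2, by omega⟩
    refine ⟨j, ?_⟩
    rw [hk2, hj]
    ring
  have hmk : (m * k) % 2 = 1 := by
    rw [Nat.mul_mod, hmodd, hkodd]
  omega

/-- one prime -/
private theorem dat4_prime (L : Loc 4) (hL : ∀ (q : ℕ) [Fact q.Prime], 5 ≤ q →
    ∃ I : AlgebraicClosure (ZMod q), I ^ 2 = -1 ∧ ∀ a b : ℤ,
      ((a : AlgebraicClosure (ZMod q)) ^ 2 + (b : AlgebraicClosure (ZMod q)) ^ 2 ≠ 0 →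
        L.psi q a b ≠ 0 ∧ ∀ r : ℕ,
        (q % 4 = 1 →
          (((a : AlgebraicClosure (ZMod q)) + b * I) ^ 2 * (a ^ 2 + b ^ 2)) ^ ((q - 1) / 4) * I ^ r
            = 1 → L.psi q a b = Complex.I ^ r) ∧
        (q % 4 = 3 →
          (((a : AlgebraicClosure (ZMod q)) + b * I) ^ 2 * (a ^ 2 + b ^ 2)) ^ ((q + 1) / 4)
            = -I ^ r * (a ^ 2 + b ^ 2) → L.psi q a b = Complex.I ^ r)))
    (p : ℕ) (hp : p.Prime) (hp5 : 5 < p) (hp8 : p % 8 = 5) :
    ∃ (χ : DirichletCharacter ℂ p) (a b : ℤ), orderOf χ = 4 ∧ a ^ 2 + b ^ 2 = (p : ℤ) ∧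
      ∀ q : ℕ, q.Prime → 5 ≤ q → q ≠ p → χ q = L.psi q a b ∧ L.psi q a b ≠ 0 := by
  classical
  have : Fact p.Prime := ⟨hp⟩
  have h4 : 4 ∣ p - 1 := by omega
  obtain ⟨l, g, hg0, hgo, hgl, hrho⟩ := dat4_rho (p := p) h4
  obtain ⟨a, b, hab⟩ := dat4_jac (p := p) l
  have hneg := dat4_neg hp8 hgo hgl
  have hz : (Complex.I) ^ 2 = -1 := Complex.I_sq
  have hz4 : (Complex.I) ^ 4 = 1 := by linear_combination (Complex.I ^ 2 - 1) * hz
  obtain ⟨ρ, hρg, hρ⟩ := hrho ℂ Complex.I hz4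
  have hord4 : orderOf ρ = 4 := dat4_order hz two_ne_zero hρg hρ
  -- the norm
  have hJ : jacobiSum ρ ρ = (a : ℂ) + b * Complex.I := hab ℂ Complex.I hz ρ hρ
  have hJ' : jacobiSum ρ⁻¹ ρ⁻¹ = (a : ℂ) + b * (-Complex.I) := by
    refine hab ℂ (-Complex.I) (by rw [neg_sq, hz]) ρ⁻¹ fun x hx => ?_
    rw [MulChar.inv_apply_eq_inv, hρ x hx, Ring.inverse_eq_inv, ← inv_pow, Complex.inv_I]
  have hρ1 : ρ ≠ 1 := by
    intro h
    rw [h, orderOf_one] at hord4
    norm_num at hord4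
  have hρρ : ρ * ρ ≠ 1 := by
    intro h
    have : orderOf ρ ∣ 2 := orderOf_dvd_of_pow_eq_one (by rw [pow_two, h])
    rw [hord4] at this
    norm_num at this
  have hnorm : (a : ℂ) ^ 2 + b ^ 2 = p := by
    have h := jacobiSum_mul_jacobiSum_inv (F := ZMod p) (F' := ℂ)
      (by rw [ringChar.eq_zero, ZMod.ringChar_zmod_n]; exact hp.ne_zero.symm) hρ1 hρ1 hρρ
    rw [hJ, hJ', ZMod.card] at h
    linear_combination h + (b : ℂ) ^ 2 * hz
  have hnormZ : a ^ 2 + b ^ 2 = (p : ℤ) := by exact_mod_cast hnorm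
  refine ⟨ρ, a, b, hord4, hnormZ, ?_⟩
  intro q hq hq5 hqp
  have : Fact q.Prime := ⟨hq⟩
  obtain ⟨w, hw, hW⟩ := hL q hq5
  have : CharP (AlgebraicClosure (ZMod q)) q := charP_of_injective_algebraMap
    (algebraMap (ZMod q) (AlgebraicClosure (ZMod q))).injective q
  have hw4 : w ^ 4 = 1 := by linear_combination (w ^ 2 - 1) * hw
  have h2F : (2 : AlgebraicClosure (ZMod q)) ≠ 0 := by
    intro h
    have h20 : ((2 : ℕ) : AlgebraicClosure (ZMod q)) = 0 := by exact_mod_cast h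
    rw [CharP.cast_eq_zero_iff _ q] at h20
    have := Nat.le_of_dvd (by norm_num) h20
    omega
  obtain ⟨σ, hσg, hσ⟩ := hrho (AlgebraicClosure (ZMod q)) w hw4
  have hσ4 : orderOf σ = 4 := dat4_order hw h2F hσg hσ
  have hJσ := hab (AlgebraicClosure (ZMod q)) w hw σ hσ
  have hσneg : σ (-1) = -1 := by
    rw [hσ _ (neg_ne_zero.2 one_ne_zero), ← Nat.div_add_mod (l (-1)) 4, hneg, pow_add, pow_mul,
      hw4, one_pow, one_mul, hw]
  have hqp0 : (q : ZMod p) ≠ 0 := by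
    intro h
    rw [ZMod.natCast_eq_zero_iff] at h
    exact hqp ((Nat.prime_dvd_prime_iff_eq hp hq).1 h).symm
  have hNF : (a : AlgebraicClosure (ZMod q)) ^ 2 + (b : AlgebraicClosure (ZMod q)) ^ 2 =
      p := by
    have := congrArg (fun n : ℤ => (n : AlgebraicClosure (ZMod q))) hnormZ
    push_cast at this
    exact this
  have hN0 : (a : AlgebraicClosure (ZMod q)) ^ 2 + (b : AlgebraicClosure (ZMod q)) ^ 2 ≠
      0 := by
    rw [hNF]
    intro h
    rw [CharP.cast_eq_zero_iff _ q] at h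
    exact hqp ((Nat.prime_dvd_prime_iff_eq hq hp).1 h)
  obtain ⟨hne, hval⟩ := hW a b hN0
  refine ⟨?_, hne⟩
  obtain ⟨hG1, hG2⟩ := quartic_gauss hqp (by omega) σ hσ4 hσneg
  rw [hσ _ hqp0, hJσ] at hG1 hG2
  rw [hρ _ hqp0]
  symm
  have hq4 : q % 4 = 1 ∨ q % 4 = 3 := by
    have : q % 2 = 1 := (Nat.Prime.mod_two_eq_one_iff_ne_two hq).2 (by omega)
    omega
  rcases hq4 with h | h
  · refine (hval (l (q : ZMod p))).1 h ?_
    rw [hNF]
    exact hG1 h
  · refine (hval (l (q : ZMod p))).2 h ?_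
    rw [hNF]
    exact hG2 h

theorem exists_dat4 : ∃ E : Dat 4, (∀ p : ℕ, p ∈ E.PP ↔ p.Prime ∧ 5 < p ∧ p % 8 = 5) ∧
    ∀ p ∈ E.PP, orderOf (E.chr p) = 4 := by
  classical
  obtain ⟨L, hL⟩ := exists_loc4
  have key : ∀ p : ℕ, ∃ (χ : DirichletCharacter ℂ p) (a b : ℤ), (p.Prime ∧ 5 < p ∧ p % 8 = 5) →
      orderOf χ = 4 ∧ a ^ 2 + b ^ 2 = (p : ℤ) ∧
      ∀ q : ℕ, q.Prime → 5 ≤ q → q ≠ p → χ q = L.psi q a b ∧ L.psi q a b ≠ 0 := by
    intro p
    by_cases h : p.Prime ∧ 5 < p ∧ p % 8 = 5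
    · obtain ⟨χ, a, b, h1⟩ := dat4_prime L hL p h.1 h.2.1 h.2.2
      exact ⟨χ, a, b, fun _ => h1⟩
    · exact ⟨1, 0, 0, fun h' => absurd h' h⟩
  choose chr ca cb hk using key
  refine ⟨{ toLoc := L
            PP := {p | p.Prime ∧ 5 < p ∧ p % 8 = 5}
            chr := chr
            ca := ca
            cb := cb
            prime := fun p hp => ⟨hp.1, hp.2.1⟩
            nontriv := ?_
            size_a := ?_
            size_b := ?_
            inj := ?_
            loc := ?_ }, fun p => Iff.rfl, fun p hp => (hk p hp).1⟩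
  · intro p hp h
    have := (hk p hp).1
    rw [h, orderOf_one] at this
    norm_num at this
  · intro p hp
    have := (hk p hp).2.1
    nlinarith [sq_nonneg (cb p), sq_nonneg (ca p)]
  · intro p hp
    have := (hk p hp).2.1
    nlinarith [sq_nonneg (ca p), sq_nonneg (cb p)]
  · intro p hp p' hp' h
    simp only [Prod.mk.injEq] at h
    have h1 := (hk p hp).2.1
    have h2 := (hk p' hp').2.1
    rw [h.1, h.2, h2] at h1
    exact_mod_cast h1.symm
  · intro p hp q hq hq5 hqp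
    exact (hk p hp).2.2 q hq hq5 hqp

end Pool.QS
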