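import Pool.Agent.Lib.MP_a3a416_nt.QS.Loc4

/-! QS-Loc6: the sextic local symbols.

PROOF. (compare QS-Loc4)
chi n: 1 if n%12 ∈ {1,7}, -1 if n%12 ∈ {5,11}, 0 otherwise (1-1/5+1/7-1/11+... >= 1/2).
 For a prime q >= 5: F = AlgebraicClosure (ZMod q), w ∈ F with w²+w+1 = 0 (choose). (a,b): u = a + b w, N = a² - ab + b² = u (a + b w²).
   Θ(a,b) = (u N)^{(q-1)/3} if q ≡ 1 mod 3; Θ(a,b) = (u N)^{(q+1)/3} N⁻¹ if q ≡ 2 mod 3. Θ³ = 1 when N ≠ 0 (q ≡ 2: w^q = w², u^q = a + b w², N = u^{q+1}, Θ = u^{(q²-1)/3}).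
   psi q a b = 0 if N = 0, otherwise (-1)^{(q-1)/2} * legendreSym q N * ζ^r with ζ = exp(2πi/3), r < 3 with Θ w^r = 1 (q ≡ 1) resp. Θ = w^r (q ≡ 2).
 cnt for d = 6 (a 6th root of unity v is ± ζ^r): the map (a,b) ↦ (legendre N, Θ) ∈ {±1} × μ₃(F) is multiplicative on {N ≠ 0} for the product (a + b w)(a₀ + b₀ w);
   multiplication by (a₀,b₀) with legendre(N₀) = -1 and Θ(a₀,b₀) ≠ 1 permutes the six fibres cyclically, so they have equal size #{N ≠ 0}/6, #{N≠0} = (q-1)² (q ≡ 1) or q²-1 (q ≡ 2).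
   Existence: q ≡ 1: w ∈ F_q, u = 1, N = γ a generator of F_q^*: legendre γ = -1, Θ = γ^{(q-1)/3} ≠ 1. q ≡ 2: u ∈ F of order q²-1 (a primitive root of unity), a₀, b₀ ∈ F_q from
   u = a₀ + b₀ w, u^q = a₀ + b₀ w²; N = u^{q+1} generates F_q^* so it is a non-square, Θ = u^{(q²-1)/3} ≠ 1.
-/

set_option autoImplicit false
open Finset
namespace Pool.QS
open QuadraticAlgebra

/-- the character -/
private def c6 (n : ℕ) : ℤ :=
  if n % 12 = 1 ∨ n % 12 = 7 then 1 else if n % 12 = 5 ∨ n % 12 = 11 then -1 else 0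

private theorem c6_mod (n : ℕ) : c6 n = c6 (n % 12) := by
  simp [c6]

private theorem c6_per (n : ℕ) : c6 (n + 12) = c6 n := by
  rw [c6_mod (n + 12), c6_mod n, Nat.add_mod_right]

private theorem c6_mul (m n : ℕ) : c6 (m * n) = c6 m * c6 n := by
  rw [c6_mod m, c6_mod n, c6_mod (m * n), Nat.mul_mod]
  have key : ∀ a < 12, ∀ b < 12, c6 (a * b % 12) = c6 a * c6 b := by decide
  exact key _ (Nat.mod_lt _ (by norm_num)) _ (Nat.mod_lt _ (by norm_num))

private theorem c6_val (n : ℕ) (h : n.Coprime 6) : c6 n = 1 ∨ c6 n = -1 := by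
  rw [c6_mod]
  have h2 : (n % 12).Coprime 6 := (coprime_mod_loc4 n).mpr h
  have key : ∀ a < 12, a.Coprime 6 → (c6 a = 1 ∨ c6 a = -1) := by decide
  exact key _ (Nat.mod_lt _ (by norm_num)) h2

private theorem c6_zero (n : ℕ) (h : ¬ n.Coprime 6) : c6 n = 0 := by
  rw [c6_mod]
  have h2 : ¬ (n % 12).Coprime 6 := fun h' => h ((coprime_mod_loc4 n).mp h')
  have key : ∀ a < 12, ¬ a.Coprime 6 → c6 a = 0 := by decide
  exact key _ (Nat.mod_lt _ (by norm_num)) h2

private theorem c6_step (k r : ℕ) (hr : r ≤ 12) :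
    (0 : ℝ) ≤ ∑ i ∈ range r, (c6 (i + 1) : ℝ) / (12 * k + i + 1) := by
  have hk : (0 : ℝ) ≤ k := Nat.cast_nonneg k
  have h1 : (1 : ℝ) / (12 * k + 5) ≤ 1 / (12 * k + 1) :=
    one_div_le_one_div_of_le (by positivity) (by linarith)
  have h2 : (1 : ℝ) / (12 * k + 11) ≤ 1 / (12 * k + 7) :=
    one_div_le_one_div_of_le (by positivity) (by linarith)
  have h3 : (0 : ℝ) ≤ 1 / (12 * k + 1) := by positivity
  have h4 : (0 : ℝ) ≤ 1 / (12 * k + 5) := by positivity
  have h5 : (0 : ℝ) ≤ 1 / (12 * k + 7) := by positivity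
  have h6 : (0 : ℝ) ≤ 1 / (12 * k + 11) := by positivity
  interval_cases r <;> simp [sum_range_succ, c6] <;> ring_nf at * <;> linarith

private theorem c6_base (r : ℕ) (h1 : 1 ≤ r) (hr : r ≤ 12) :
    (1 / 2 : ℝ) ≤ ∑ i ∈ range r, (c6 (i + 1) : ℝ) / (i + 1) := by
  interval_cases r <;> simp [sum_range_succ, c6] <;> norm_num

private theorem prim6 {F : Type*} [Field F] (x : F) (h3 : x ^ 3 = -1) (h2 : x ^ 2 ≠ 1)
    (h : (2 : F) ≠ 0) : IsPrimitiveRoot x 6 := by
  have hne : (1 : F) ≠ -1 := by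
    intro h1
    apply h
    linear_combination h1
  refine IsPrimitiveRoot.mk_of_lt x (by norm_num) ?_ ?_
  · rw [show 6 = 3 * 2 by norm_num, pow_mul, h3]; ring
  · intro l hl0 hl6
    interval_cases l
    · intro h1
      rw [pow_one] at h1
      exact h2 (by rw [h1]; ring)
    · exact h2
    · rw [h3]
      exact hne.symm
    · intro h4
      have h5 : x = -1 := by linear_combination x * h3 - h4
      exact h2 (by rw [h5]; ring)
    · intro h5
      have h6 : x ^ 2 = -1 := by linear_combination x ^ 2 * h3 - h5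
      have h7 : x = 1 := by linear_combination x * h6 - h3
      rw [h7] at h6
      apply hne
      linear_combination h6

private theorem card_units6 (q : ℕ) [Fact q.Prime] (α β : ZMod q)
    [Fintype (QuadraticAlgebra (ZMod q) α β)ˣ]
    [DecidablePred fun w : ZMod q × ZMod q =>
      (⟨w.1, w.2⟩ : QuadraticAlgebra (ZMod q) α β).norm ≠ 0] :
    (univ.filter fun w : ZMod q × ZMod q =>
      (⟨w.1, w.2⟩ : QuadraticAlgebra (ZMod q) α β).norm ≠ 0).card
      = Fintype.card (QuadraticAlgebra (ZMod q) α β)ˣ := by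
  classical
  have e3 := card_units_loc4 q α β
      (fun a b => (⟨a, b⟩ : QuadraticAlgebra (ZMod q) α β).norm ≠ 0) (fun a b hab => hab)
  have e5 : (univ.filter fun g : (QuadraticAlgebra (ZMod q) α β)ˣ =>
        (⟨(g : QuadraticAlgebra (ZMod q) α β).re,
        (g : QuadraticAlgebra (ZMod q) α β).im⟩ : QuadraticAlgebra (ZMod q) α β).norm ≠ 0)
        = univ := by
      apply filter_true_of_mem
      intro g _
      rw [mk_eta]
      exact (isUnit_iff_norm_isUnit.mp g.isUnit).ne_zero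
  rw [e5, card_univ] at e3
  exact e3

private theorem noroot6 (q : ℕ) [Fact q.Prime] (h5 : 5 ≤ q) (h3 : q % 3 = 2) (c : ZMod q) :
    c ^ 2 + c + 1 ≠ 0 := by
  intro h
  have hqp : q.Prime := Fact.out
  have h1 : c ^ 3 = 1 := by linear_combination (c - 1) * h
  have hc1 : c ≠ 1 := by
    rintro rfl
    have h6 : ((3 : ℕ) : ZMod q) = 0 := by push_cast; linear_combination h
    have h7 := (ZMod.natCast_eq_zero_iff 3 q).mp h6
    have := Nat.le_of_dvd (by norm_num) h7
    omega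
  have hc0 : c ≠ 0 := by
    rintro rfl
    simp at h1
  have : Fact (Nat.Prime 3) := ⟨Nat.prime_three⟩
  have h8 := orderOf_eq_prime h1 hc1
  have h9 := ZMod.orderOf_dvd_card_sub_one hc0
  rw [h8] at h9
  omega

private theorem gen6 (q : ℕ) [Fact q.Prime] (n : ℕ) (hn : 0 < n) (hn2 : n < q - 1) :
    ∃ γ : ZMod q, γ ≠ 0 ∧ γ ^ n ≠ 1 := by
  classical
  obtain ⟨g, hg⟩ := IsCyclic.exists_generator (α := (ZMod q)ˣ)
  have h1 := orderOf_eq_card_of_forall_mem_zpowers hg
  rw [Nat.card_eq_fintype_card, ZMod.card_units] at h1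
  refine ⟨g, g.ne_zero, fun h => ?_⟩
  have h2 : g ^ n = 1 := by
    apply Units.ext
    rw [Units.val_pow_eq_pow_val, h, Units.val_one]
  have h3 := orderOf_dvd_of_pow_eq_one h2
  rw [h1] at h3
  have := Nat.le_of_dvd hn h3
  omega

private theorem nonsq6 (q : ℕ) [Fact q.Prime] (h5 : 5 ≤ q) :
    ∃ a b : ZMod q, ¬ IsSquare (a ^ 2 - a * b + b ^ 2) := by
  have hqp : q.Prime := Fact.out
  have hodd : q % 2 = 1 := by
    rcases hqp.eq_two_or_odd with h | h <;> omega
  obtain ⟨γ, hγ⟩ := nonsq_loc4 q h5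
  have h3 : (3 : ZMod q) ≠ 0 := by
    intro h
    have h6 : ((3 : ℕ) : ZMod q) = 0 := by push_cast; exact h
    have h7 := (ZMod.natCast_eq_zero_iff 3 q).mp h6
    have := Nat.le_of_dvd (by norm_num) h7
    omega
  obtain ⟨a, b, hab⟩ := FiniteField.exists_root_sum_quadratic (R := ZMod q)
    (f := Polynomial.X ^ 2 - Polynomial.C γ) (g := Polynomial.C 3 * Polynomial.X ^ 2)
    (Polynomial.degree_X_pow_sub_C (by norm_num) _) (Polynomial.degree_C_mul_X_pow 2 h3)
    (by rw [ZMod.card]; exact hodd)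
  simp at hab
  refine ⟨a + b, 2 * b, ?_⟩
  have : (a + b) ^ 2 - (a + b) * (2 * b) + (2 * b) ^ 2 = γ := by linear_combination hab
  rw [this]
  exact hγ

private def D6 (q : ℕ) [Fact q.Prime] (F : Type*) [Field F] [Algebra (ZMod q) F] (w : F)
    (ψ : ZMod q → ZMod q → ℂ) : Prop :=
  w ^ 2 + w + 1 = 0 ∧
      (∀ a b, ψ a b = 0 ∨ ψ a b ^ 6 = 1) ∧
      (∀ v : ℂ, v ^ 6 = 1 → ∀ [DecidablePred fun w : ZMod q × ZMod q => ψ w.1 w.2 = v],
        (6 : ℤ) * ((univ.filter fun w : ZMod q × ZMod q => ψ w.1 w.2 = v).card : ℤ)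
          = ((q : ℤ) - 1) * ((q : ℤ) - c6 q)) ∧
      (∀ a b : ZMod q, a ^ 2 - a * b + b ^ 2 ≠ 0 → ψ a b ≠ 0 ∧ ∀ r : ℕ,
        (q % 3 = 1 →
          ((algebraMap (ZMod q) F a + algebraMap (ZMod q) F b * w)
            * algebraMap (ZMod q) F (a ^ 2 - a * b + b ^ 2)) ^ ((q - 1) / 3)
            * w ^ r = 1 → ψ a b = ((-1) ^ ((q - 1) / 2) * quadraticChar (ZMod q)
              (a ^ 2 - a * b + b ^ 2) : ℤ) * Complex.exp (2 * Real.pi * Complex.I / 3) ^ r) ∧
        (q % 3 = 2 →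
          ((algebraMap (ZMod q) F a + algebraMap (ZMod q) F b * w)
            * algebraMap (ZMod q) F (a ^ 2 - a * b + b ^ 2)) ^ ((q + 1) / 3)
            = w ^ r * algebraMap (ZMod q) F (a ^ 2 - a * b + b ^ 2) →
              ψ a b = ((-1) ^ ((q - 1) / 2) * quadraticChar (ZMod q)
              (a ^ 2 - a * b + b ^ 2) : ℤ) * Complex.exp (2 * Real.pi * Complex.I / 3) ^ r))

/-- the last step, for a given cubic part `t` -/
private theorem fin6 (q : ℕ) [Fact q.Prime] (h5 : 5 ≤ q) (F : Type*) [Field F]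
    [Algebra (ZMod q) F] (w : F) (hw : w ^ 2 + w + 1 = 0)
    (t : (QuadraticAlgebra (ZMod q) (-1) (-1))ˣ →* F)
    (ht : ∀ g, t g ^ 3 = 1) (g2 : (QuadraticAlgebra (ZMod q) (-1) (-1))ˣ) (hg2 : t g2 ≠ 1)
    (hcnt : ∀ [DecidablePred fun w : ZMod q × ZMod q =>
          (⟨w.1, w.2⟩ : QuadraticAlgebra (ZMod q) (-1) (-1)).norm ≠ 0],
      ((univ.filter fun w : ZMod q × ZMod q =>
            (⟨w.1, w.2⟩ : QuadraticAlgebra (ZMod q) (-1) (-1)).norm ≠ 0).card : ℤ)
        = ((q : ℤ) - 1) * ((q : ℤ) - c6 q)) :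
    ∃ (ψ : ZMod q → ZMod q → ℂ),
      (∀ a b, ψ a b = 0 ∨ ψ a b ^ 6 = 1) ∧
      (∀ v : ℂ, v ^ 6 = 1 → ∀ [DecidablePred fun w : ZMod q × ZMod q => ψ w.1 w.2 = v],
        (6 : ℤ) * ((univ.filter fun w : ZMod q × ZMod q => ψ w.1 w.2 = v).card : ℤ)
          = ((q : ℤ) - 1) * ((q : ℤ) - c6 q)) ∧
      (∀ g : (QuadraticAlgebra (ZMod q) (-1) (-1))ˣ,
        ψ (g : QuadraticAlgebra (ZMod q) (-1) (-1)).re
          (g : QuadraticAlgebra (ZMod q) (-1) (-1)).im ≠ 0 ∧
        ∀ r : ℕ, t g = w ^ r → ψ (g : QuadraticAlgebra (ZMod q) (-1) (-1)).re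
          (g : QuadraticAlgebra (ZMod q) (-1) (-1)).im = ((-1) ^ ((q - 1) / 2)
            * quadraticChar (ZMod q) (g : QuadraticAlgebra (ZMod q) (-1) (-1)).norm : ℤ)
              * Complex.exp (2 * Real.pi * Complex.I / 3) ^ r) := by
  classical
  have hqp : q.Prime := Fact.out
  have hodd : q % 2 = 1 := by
    rcases hqp.eq_two_or_odd with h | h <;> omega
  have hch : CharP F q := charF_loc4 q F
  have h2 : (2 : F) ≠ 0 := two_ne_loc4 q h5 F
  obtain ⟨A, hA⟩ : ∃ A : ZMod q →+* F, A = algebraMap (ZMod q) F := ⟨_, rfl⟩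
  have hnorm : ∀ z : QuadraticAlgebra (ZMod q) (-1) (-1),
      z.norm = z.re ^ 2 - z.re * z.im + z.im ^ 2 := by
    intro z; rw [norm_def]; ring
  have hn0 : ∀ g : (QuadraticAlgebra (ZMod q) (-1) (-1))ˣ,
      (g : QuadraticAlgebra (ZMod q) (-1) (-1)).norm ≠ 0 := fun g =>
    (isUnit_iff_norm_isUnit.mp g.isUnit).ne_zero
  have hE : ∀ g : (QuadraticAlgebra (ZMod q) (-1) (-1))ˣ, ∃ e : ℕ,
      quadraticChar (ZMod q) (g : QuadraticAlgebra (ZMod q) (-1) (-1)).norm = (-1) ^ e ∧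
      A (g : QuadraticAlgebra (ZMod q) (-1) (-1)).norm ^ (q / 2) = (-1) ^ e := by
    intro g
    rw [← map_pow]
    by_cases hs : IsSquare (g : QuadraticAlgebra (ZMod q) (-1) (-1)).norm
    · refine ⟨0, ?_, ?_⟩
      · rw [pow_zero, quadraticChar_one_iff_isSquare (hn0 g)]
        exact hs
      · rw [(ZMod.euler_criterion q (hn0 g)).mp hs]
        simp
    · refine ⟨1, ?_, ?_⟩
      · rw [pow_one, quadraticChar_neg_one_iff_not_isSquare]
        exact hs
      · rw [euler_loc4 q _ hs]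
        simp
  obtain ⟨f, hf⟩ : ∃ f : (QuadraticAlgebra (ZMod q) (-1) (-1))ˣ →* F,
      ∀ g, f g = A (g : QuadraticAlgebra (ZMod q) (-1) (-1)).norm ^ (q / 2) * t g :=
    ⟨{ toFun := fun g => A (g : QuadraticAlgebra (ZMod q) (-1) (-1)).norm ^ (q / 2) * t g
       map_one' := by simp
       map_mul' := by
        intro g g'
        rw [Units.val_mul, map_mul, map_mul, map_mul, mul_pow]
        ring }, fun g => rfl⟩
  have hf3 : ∀ g, f g ^ 3 = A (g : QuadraticAlgebra (ZMod q) (-1) (-1)).norm ^ (q / 2) := by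
    intro g
    obtain ⟨e, -, he⟩ := hE g
    rw [hf, mul_pow, ht, mul_one, he, ← pow_mul, mul_comm, pow_mul]
    congr 1
    ring
  have hf2 : ∀ g, f g ^ 2 = t g ^ 2 := by
    intro g
    obtain ⟨e, -, he⟩ := hE g
    rw [hf, mul_pow, he, ← pow_mul, mul_comm e, pow_mul]
    simp
  have hf6 : ∀ g, f g ^ 6 = 1 := by
    intro g
    rw [show 6 = 2 * 3 by norm_num, pow_mul, hf2, ← pow_mul, mul_comm, pow_mul, ht, one_pow]
  obtain ⟨a0, b0, hab⟩ := nonsq6 q h5
  have hab0 : a0 ^ 2 - a0 * b0 + b0 ^ 2 ≠ 0 := by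
    intro h
    rw [h] at hab
    exact hab ⟨0, by simp⟩
  have hu : IsUnit (⟨a0, b0⟩ : QuadraticAlgebra (ZMod q) (-1) (-1)) := by
    rw [isUnit_iff_norm_isUnit, hnorm]
    exact isUnit_iff_ne_zero.mpr hab0
  obtain ⟨g1, hg1⟩ : ∃ g1 : (QuadraticAlgebra (ZMod q) (-1) (-1))ˣ,
      ¬ IsSquare (g1 : QuadraticAlgebra (ZMod q) (-1) (-1)).norm := ⟨hu.unit, by
        rw [IsUnit.unit_spec, hnorm]; exact hab⟩
  have hg13 : f g1 ^ 3 = -1 := by
    rw [hf3, ← map_pow, euler_loc4 q _ hg1]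
    simp
  have hg0 : IsPrimitiveRoot (f (g1 ^ 3 * g2 ^ 4)) 6 := by
    apply prim6 _ _ _ h2
    · rw [map_mul, map_pow, map_pow, mul_pow, ← pow_mul, ← pow_mul, show 3 * 3 = 3 * 3 by rfl,
        pow_mul, hg13, show 4 * 3 = 6 * 2 by norm_num, pow_mul (f g2), hf6]
      ring
    · rw [map_mul, map_pow, map_pow, mul_pow, ← pow_mul, ← pow_mul, pow_mul (f g1), hg13,
        show 4 * 2 = 6 + 2 by norm_num, pow_add (f g2), hf6, hf2]
      intro h
      apply hg2
      have h3 := ht g2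
      have h4 : t g2 ^ 2 = 1 := by linear_combination h
      linear_combination h3 - t g2 * h4
  have hζ : IsPrimitiveRoot (Complex.exp (2 * Real.pi * Complex.I / 3)) 3 := by
    have := Complex.isPrimitiveRoot_exp 3 (by norm_num)
    simpa using this
  obtain ⟨ζ, hζd⟩ : ∃ ζ : ℂ, ζ = Complex.exp (2 * Real.pi * Complex.I / 3) := ⟨_, rfl⟩
  rw [← hζd] at hζ ⊢
  have hζ3 : ζ ^ 3 = 1 := hζ.pow_eq_one
  have hw3 : w ^ 3 = 1 := by linear_combination (w - 1) * hw
  have hξ : IsPrimitiveRoot (-w ^ 2) 6 := by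
    apply prim6 _ _ _ h2
    · linear_combination (- w ^ 3 - 1) * hw3
    · intro h
      have h4 : w = 1 := by linear_combination h - w * hw3
      rw [h4] at hw
      have h6 : ((3 : ℕ) : F) = 0 := by push_cast; linear_combination hw
      have h7 := (CharP.cast_eq_zero_iff F q 3).mp h6
      have := Nat.le_of_dvd (by norm_num) h7
      omega
  have hξC : IsPrimitiveRoot (-ζ ^ 2) 6 := by
    apply prim6 _ _ _ (by norm_num)
    · linear_combination (- ζ ^ 3 - 1) * hζ3
    · intro h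
      have h4 : ζ = 1 := by linear_combination h - ζ * hζ3
      exact hζ.ne_one (by norm_num) h4
  obtain ⟨ψ, hψ0, hψ1, hψ2, hψ3⟩ := gen_loc4 q (-1) (-1) F 6 (by norm_num) f _ hg0 hf6
    (-w ^ 2) (-ζ ^ 2) ((-1) ^ ((q - 1) / 2)) hξ hξC (by
      rw [← pow_mul, mul_comm, pow_mul]; norm_num)
  refine ⟨ψ, hψ2, ?_, ?_⟩
  · intro v hv _
    have h1 := hψ3 v hv
    have h3 := hcnt
    rw [← h3]
    exact_mod_cast h1
  · intro g
    constructor
    · obtain ⟨r, -, hr⟩ := hξ.eq_pow_of_pow_eq_one (hf6 g)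
      have h1 := hψ1 g r hr.symm
      rw [h1]
      exact mul_ne_zero (pow_ne_zero _ (by norm_num)) (pow_ne_zero _ (hξC.ne_zero (by norm_num)))
    · intro r hr
      obtain ⟨e, he1, he2⟩ := hE g
      have h3 : f g = (-w ^ 2) ^ (3 * e + 2 * r) := by
        rw [hf, he2, hr, pow_add, pow_mul, pow_mul]
        have e1 : (-w ^ 2) ^ 3 = -1 := by linear_combination (- w ^ 3 - 1) * hw3
        have e2 : (-w ^ 2) ^ 2 = w := by linear_combination w * hw3
        rw [e1, e2]
      rw [hψ1 g _ h3, he1, pow_add, pow_mul, pow_mul]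
      have e1 : (-ζ ^ 2) ^ 3 = -1 := by linear_combination (- ζ ^ 3 - 1) * hζ3
      have e2 : (-ζ ^ 2) ^ 2 = ζ := by linear_combination ζ * hζ3
      rw [e1, e2]
      push_cast
      ring

private theorem data6 (q : ℕ) [Fact q.Prime] (h5 : 5 ≤ q) (F : Type*) [Field F]
    [Algebra (ZMod q) F] [IsAlgClosed F] :
    ∃ (w : F) (ψ : ZMod q → ZMod q → ℂ), D6 q F w ψ := by
  classical
  unfold D6
  have hqp : q.Prime := Fact.out
  have hodd : q % 2 = 1 := by
    rcases hqp.eq_two_or_odd with h | h <;> omega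
  have hch : CharP F q := charF_loc4 q F
  have h2 : (2 : F) ≠ 0 := two_ne_loc4 q h5 F
  have hq3 : q % 3 ≠ 0 := by
    intro h
    have := (Nat.prime_dvd_prime_iff_eq Nat.prime_three hqp).mp (Nat.dvd_of_mod_eq_zero h)
    omega
  obtain ⟨A, hA⟩ : ∃ A : ZMod q →+* F, A = algebraMap (ZMod q) F := ⟨_, rfl⟩
  rw [← hA]
  have frob : ∀ a, (A a) ^ q = A a := by
    intro a; rw [← map_pow, ZMod.pow_card]
  have hnorm : ∀ z : QuadraticAlgebra (ZMod q) (-1) (-1),
      z.norm = z.re ^ 2 - z.re * z.im + z.im ^ 2 := by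
    intro z; rw [norm_def]; ring
  have hN1 : ∀ g : (QuadraticAlgebra (ZMod q) (-1) (-1))ˣ,
      (A (g : QuadraticAlgebra (ZMod q) (-1) (-1)).norm) ^ (q - 1) = 1 := by
    intro g
    rw [← map_pow, ZMod.pow_card_sub_one_eq_one, map_one]
    exact (isUnit_iff_norm_isUnit.mp g.isUnit).ne_zero
  have hunit : ∀ a b : ZMod q, a ^ 2 - a * b + b ^ 2 ≠ 0 →
      ∃ g : (QuadraticAlgebra (ZMod q) (-1) (-1))ˣ,
      (g : QuadraticAlgebra (ZMod q) (-1) (-1)) = ⟨a, b⟩ := by
    intro a b hab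
    have hu : IsUnit (⟨a, b⟩ : QuadraticAlgebra (ZMod q) (-1) (-1)) := by
      rw [isUnit_iff_norm_isUnit, hnorm]
      exact isUnit_iff_ne_zero.mpr hab
    exact ⟨hu.unit, rfl⟩
  have hφex : ∀ w : F, w ^ 2 + w + 1 = 0 →
      ∃ φ : QuadraticAlgebra (ZMod q) (-1) (-1) →ₐ[ZMod q] F,
        ∀ z, φ z = A z.re + A z.im * w := by
    intro w hw
    have hI1 : w * w = (-1 : ZMod q) • (1 : F) + (-1 : ZMod q) • w := by
      rw [neg_smul, neg_smul, one_smul, one_smul]
      linear_combination hw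
    refine ⟨QuadraticAlgebra.lift ⟨w, hI1⟩, fun z => ?_⟩
    rw [hA]
    simp [QuadraticAlgebra.lift, Algebra.smul_def]
  have hcases : q % 3 = 1 ∨ q % 3 = 2 := by omega
  rcases hcases with h3 | h3
  · -- split case
    obtain ⟨n, hn⟩ : ∃ n, q = 3 * n + 1 := ⟨q / 3, by omega⟩
    obtain ⟨γ, hγ0, hγ⟩ := gen6 q n (by omega) (by omega)
    obtain ⟨w0, hw0⟩ : ∃ w0 : ZMod q, w0 ^ 2 + w0 + 1 = 0 := by
      refine ⟨γ ^ n, ?_⟩
      have h6 : (γ ^ n) ^ 3 = 1 := by
        rw [← pow_mul, show n * 3 = q - 1 by omega]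
        exact ZMod.pow_card_sub_one_eq_one hγ0
      have h7 : γ ^ n - 1 ≠ 0 := sub_ne_zero.mpr hγ
      apply mul_left_cancel₀ h7
      linear_combination h6
    have hw : (A w0) ^ 2 + A w0 + 1 = 0 := by
      rw [← map_pow, ← map_add, ← map_one A, ← map_add, hw0, map_zero]
    obtain ⟨φ, hφ⟩ := hφex (A w0) hw
    have hφ0 : ∀ g : (QuadraticAlgebra (ZMod q) (-1) (-1))ˣ, φ g ≠ 0 := by
      intro g
      exact (g.isUnit.map φ).ne_zero
    have huq : ∀ g : (QuadraticAlgebra (ZMod q) (-1) (-1))ˣ, (φ g) ^ (q - 1) = 1 := by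
      intro g
      have h1 : (φ g) ^ q = φ g := by
        rw [hφ, add_pow_char, mul_pow, frob, frob, frob]
      have h3 : (φ g) ^ q = (φ g) ^ (q - 1) * φ g := by
        rw [← pow_succ, Nat.sub_add_cancel hqp.one_lt.le]
      rw [h3] at h1
      exact mul_right_cancel₀ (hφ0 g) (by rw [h1, one_mul])
    obtain ⟨t, ht⟩ : ∃ t : (QuadraticAlgebra (ZMod q) (-1) (-1))ˣ →* F,
        ∀ g, t g = (((φ g) * A (g : QuadraticAlgebra (ZMod q) (-1) (-1)).norm) ^ n)⁻¹ :=
      ⟨{ toFun := fun g => (((φ g) * A (g : QuadraticAlgebra (ZMod q) (-1) (-1)).norm) ^ n)⁻¹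
         map_one' := by simp
         map_mul' := by
          intro g g'
          rw [Units.val_mul, map_mul, map_mul, map_mul, ← mul_inv, ← mul_pow]
          congr 2
          ring }, fun g => rfl⟩
    have ht3 : ∀ g, t g ^ 3 = 1 := by
      intro g
      rw [ht, inv_pow, ← pow_mul, show n * 3 = q - 1 by omega, mul_pow, hN1, huq]
      simp
    have hw1 : w0 - w0 ^ 2 ≠ 0 := by
      intro h
      have h6 : w0 ≠ 0 := by
        rintro rfl
        simp at hw0
      have h7 : w0 = 1 := by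
        apply mul_left_cancel₀ h6
        linear_combination -h
      rw [h7] at hw0
      have h6 : ((3 : ℕ) : ZMod q) = 0 := by push_cast; linear_combination hw0
      have h7 := (ZMod.natCast_eq_zero_iff 3 q).mp h6
      have := Nat.le_of_dvd (by norm_num) h7
      omega
    have hfac : ∀ a b : ZMod q, a ^ 2 - a * b + b ^ 2 = (a + w0 * b) * (a + w0 ^ 2 * b) := by
      intro a b
      linear_combination (- a * b - b ^ 2 * (w0 - 1)) * hw0
    obtain ⟨b0, hb0⟩ : ∃ b0, b0 = (1 - γ) / (w0 - w0 ^ 2) := ⟨_, rfl⟩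
    have hb1 : b0 * (w0 - w0 ^ 2) = 1 - γ := by
      rw [hb0]
      exact div_mul_cancel₀ _ hw1
    obtain ⟨g2, hg2⟩ := hunit (1 - w0 * b0) b0 (by
      rw [hfac, show 1 - w0 * b0 + w0 * b0 = 1 by ring,
        show 1 - w0 * b0 + w0 ^ 2 * b0 = γ by linear_combination -hb1, one_mul]
      exact hγ0)
    have htg2 : t g2 ≠ 1 := by
      rw [ht, hφ, hnorm, hg2]
      simp only
      rw [hfac, show 1 - w0 * b0 + w0 * b0 = 1 by ring,
        show 1 - w0 * b0 + w0 ^ 2 * b0 = γ by linear_combination -hb1, one_mul,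
        ← map_mul, ← map_add, show 1 - w0 * b0 + b0 * w0 = 1 by ring, map_one, one_mul,
        ← map_pow]
      intro h
      rw [inv_eq_one] at h
      apply hγ
      apply A.injective
      rw [h, map_one]
    have hcnt : ∀ [DecidablePred fun w : ZMod q × ZMod q =>
          (⟨w.1, w.2⟩ : QuadraticAlgebra (ZMod q) (-1) (-1)).norm ≠ 0],
      ((univ.filter fun w : ZMod q × ZMod q =>
            (⟨w.1, w.2⟩ : QuadraticAlgebra (ZMod q) (-1) (-1)).norm ≠ 0).card : ℤ)
        = ((q : ℤ) - 1) * ((q : ℤ) - c6 q) := by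
      intro _
      have h3' := split_count_loc4 q w0 (w0 ^ 2) (fun h => hw1 (sub_eq_zero.mpr h))
        (fun w => (⟨w.1, w.2⟩ : QuadraticAlgebra (ZMod q) (-1) (-1)).norm ≠ 0) (by
          intro w
          rw [hnorm]
          simp only
          rw [hfac])
      rw [h3']
      have hc : c6 q = 1 := by
        unfold c6
        rw [if_pos (by omega)]
      rw [hc]
      push_cast [Nat.cast_sub hqp.one_lt.le]
      ring
    obtain ⟨ψ, hψ2, hψ3, hψ4⟩ := fin6 q h5 F (A w0) hw t ht3 g2 htg2 hcnt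
    refine ⟨A w0, ψ, hw, hψ2, hψ3, ?_⟩
    intro a b hab
    obtain ⟨g, hg⟩ := hunit a b hab
    have h4 := hψ4 g
    rw [hnorm, hg] at h4
    simp only at h4
    refine ⟨h4.1, fun r => ⟨fun _ h1 => ?_, fun h => by omega⟩⟩
    apply h4.2 r
    rw [ht, hφ, hnorm, hg]
    simp only
    rw [show n = (q - 1) / 3 by omega]
    exact (eq_inv_of_mul_eq_one_right h1).symm
  · -- inert case
    obtain ⟨m, hm⟩ : ∃ m, q = 3 * m + 2 := ⟨q / 3, by omega⟩
    obtain ⟨w, hw⟩ : ∃ w : F, w ^ 2 + w + 1 = 0 := by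
      obtain ⟨w, hw⟩ := IsAlgClosed.exists_pow_nat_eq (-3 : F) (show 0 < 2 by norm_num)
      refine ⟨(w - 1) / 2, ?_⟩
      field_simp
      linear_combination hw
    have hw3 : w ^ 3 = 1 := by linear_combination (w - 1) * hw
    obtain ⟨φ, hφ⟩ := hφex w hw
    have hwq : w ^ q = w ^ 2 := by
      rw [hm, pow_add, pow_mul, hw3, one_pow, one_mul]
    have hφ0 : ∀ g : (QuadraticAlgebra (ZMod q) (-1) (-1))ˣ, φ g ≠ 0 := by
      intro g
      exact (g.isUnit.map φ).ne_zero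
    have huq : ∀ g : (QuadraticAlgebra (ZMod q) (-1) (-1))ˣ, (φ g) ^ (q + 1)
        = A (g : QuadraticAlgebra (ZMod q) (-1) (-1)).norm := by
      intro g
      have h1 : (φ g) ^ q = A (g : QuadraticAlgebra (ZMod q) (-1) (-1)).re
          + A (g : QuadraticAlgebra (ZMod q) (-1) (-1)).im * w ^ 2 := by
        rw [hφ, add_pow_char, mul_pow, frob, frob, hwq]
      obtain ⟨x, hx⟩ : ∃ x, x = A (g : QuadraticAlgebra (ZMod q) (-1) (-1)).re := ⟨_, rfl⟩
      obtain ⟨y, hy⟩ : ∃ y, y = A (g : QuadraticAlgebra (ZMod q) (-1) (-1)).im := ⟨_, rfl⟩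
      rw [pow_succ, h1, hφ, hnorm, map_add, map_sub, map_mul, map_pow, map_pow, ← hx, ← hy]
      linear_combination (x * y) * hw + y ^ 2 * hw3
    obtain ⟨t, ht⟩ : ∃ t : (QuadraticAlgebra (ZMod q) (-1) (-1))ˣ →* F,
        ∀ g, t g = (φ g) ^ ((3 * m + 1) * (m + 1)) :=
      ⟨{ toFun := fun g => (φ g) ^ ((3 * m + 1) * (m + 1))
         map_one' := by simp
         map_mul' := by
          intro g g'
          rw [Units.val_mul, map_mul, mul_pow] }, fun g => rfl⟩
    have ht3 : ∀ g, t g ^ 3 = 1 := by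
      intro g
      rw [ht, ← pow_mul, show (3 * m + 1) * (m + 1) * 3 = (q + 1) * (q - 1) by
        rw [hm, show 3 * m + 2 - 1 = 3 * m + 1 by omega]; ring, pow_mul, huq, hN1]
    have hcnt : ∀ [DecidablePred fun w : ZMod q × ZMod q =>
          (⟨w.1, w.2⟩ : QuadraticAlgebra (ZMod q) (-1) (-1)).norm ≠ 0],
      (univ.filter fun w : ZMod q × ZMod q =>
            (⟨w.1, w.2⟩ : QuadraticAlgebra (ZMod q) (-1) (-1)).norm ≠ 0).card = q * q - 1 := by
      intro _
      apply inert_count_loc4 q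
      intro z
      rw [hnorm]
      simp only
      constructor
      · rintro h rfl
        apply h
        simp
      · intro h h6
        by_cases hz : z.2 = 0
        · rw [hz] at h6
          apply h
          ext
          · simpa using h6
          · exact hz
        · apply noroot6 q h5 h3 (- z.1 / z.2)
          field_simp
          linear_combination h6
    have hinj : ∀ g g' : (QuadraticAlgebra (ZMod q) (-1) (-1))ˣ, φ g = φ g' → g = g' := by
      intro g g' h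
      apply Units.ext
      have h1 : A ((g : QuadraticAlgebra (ZMod q) (-1) (-1)).re
          - (g' : QuadraticAlgebra (ZMod q) (-1) (-1)).re)
          + A ((g : QuadraticAlgebra (ZMod q) (-1) (-1)).im
          - (g' : QuadraticAlgebra (ZMod q) (-1) (-1)).im) * w = 0 := by
        rw [hφ, hφ] at h
        rw [map_sub, map_sub]
        linear_combination h
      by_cases hi : (g : QuadraticAlgebra (ZMod q) (-1) (-1)).im
          - (g' : QuadraticAlgebra (ZMod q) (-1) (-1)).im = 0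
      · rw [hi, map_zero, zero_mul, add_zero, map_eq_zero] at h1
        exact QuadraticAlgebra.ext (sub_eq_zero.mp h1) (sub_eq_zero.mp hi)
      · exfalso
        obtain ⟨x, hx⟩ : ∃ x, x = (g : QuadraticAlgebra (ZMod q) (-1) (-1)).re
          - (g' : QuadraticAlgebra (ZMod q) (-1) (-1)).re := ⟨_, rfl⟩
        obtain ⟨y, hy⟩ : ∃ y, y = (g : QuadraticAlgebra (ZMod q) (-1) (-1)).im
          - (g' : QuadraticAlgebra (ZMod q) (-1) (-1)).im := ⟨_, rfl⟩
        rw [← hy] at hi h1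
        rw [← hx] at h1
        apply noroot6 q h5 h3 (- x / y)
        apply A.injective
        have hAy : A y ≠ 0 := by
          intro h6
          exact hi ((map_eq_zero A).mp h6)
        rw [map_add, map_add, map_pow, map_div₀, map_neg, map_one, map_zero]
        have hwx : w = - A x / A y := by
          field_simp
          linear_combination h1
        rw [← hwx]
        exact hw
    obtain ⟨g2, hg2⟩ : ∃ g2, t g2 ≠ 1 := by
      by_contra hcon
      push Not at hcon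
      have hfin : Finite (QuadraticAlgebra (ZMod q) (-1) (-1)) :=
        Finite.of_equiv _ (QuadraticAlgebra.equivProd (-1 : ZMod q) (-1)).symm
      have hft : Fintype (QuadraticAlgebra (ZMod q) (-1) (-1))ˣ := Fintype.ofFinite _
      have h6 := card_units6 q (-1) (-1)
      rw [hcnt] at h6
      have he0 : 0 < (3 * m + 1) * (m + 1) := by positivity
      have h7 : (univ.image (fun g : (QuadraticAlgebra (ZMod q) (-1) (-1))ˣ => φ g)).card
          = q * q - 1 := by
        rw [card_image_of_injective _ (fun g g' h => hinj g g' h), card_univ, ← h6]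
      have h8 : univ.image (fun g : (QuadraticAlgebra (ZMod q) (-1) (-1))ˣ => φ g)
          ⊆ Polynomial.nthRootsFinset ((3 * m + 1) * (m + 1)) (1 : F) := by
        intro x hx
        rw [mem_image] at hx
        obtain ⟨g, -, rfl⟩ := hx
        rw [Polynomial.mem_nthRootsFinset he0, ← ht]
        exact hcon g
      have h9 := card_le_card h8
      have h10 : (Polynomial.nthRootsFinset ((3 * m + 1) * (m + 1)) (1 : F)).card
          ≤ (3 * m + 1) * (m + 1) := by
        unfold Polynomial.nthRootsFinset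
        exact (Multiset.toFinset_card_le _).trans (Polynomial.card_nthRoots _ _)
      have h11 : q * q - 1 = 3 * ((3 * m + 1) * (m + 1)) := by
        rw [hm]
        have : (3 * m + 2) * (3 * m + 2) = 3 * ((3 * m + 1) * (m + 1)) + 1 := by ring
        omega
      omega
    obtain ⟨ψ, hψ2, hψ3, hψ4⟩ := fin6 q h5 F w hw t ht3 g2 hg2 (by
      intro _
      rw [hcnt]
      have hc : c6 q = -1 := by
        unfold c6
        rw [if_neg (by omega), if_pos (by omega)]
      rw [hc]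
      have h7 : 1 ≤ q * q := by nlinarith
      push_cast [Nat.cast_sub h7]
      ring)
    refine ⟨w, ψ, hw, hψ2, hψ3, ?_⟩
    intro a b hab
    obtain ⟨g, hg⟩ := hunit a b hab
    have h4 := hψ4 g
    have e2 : A (a ^ 2 - a * b + b ^ 2) = A (g : QuadraticAlgebra (ZMod q) (-1) (-1)).norm := by
      rw [hnorm, hg]
    have e1 : φ g = A a + A b * w := by rw [hφ, hg]
    rw [hnorm, hg] at h4
    simp only at h4
    refine ⟨h4.1, fun r => ⟨fun h => by omega, fun _ h1 => ?_⟩⟩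
    apply h4.2 r
    have hN0 : A (g : QuadraticAlgebra (ZMod q) (-1) (-1)).norm ≠ 0 := by
      rw [← huq]
      exact pow_ne_zero _ (hφ0 g)
    apply mul_right_cancel₀ hN0
    rw [← e1, e2] at h1
    rw [← h1, ht, ← huq, ← pow_succ', ← pow_add, ← pow_mul]
    congr 1
    rw [show (q + 1) / 3 = m + 1 by omega, hm]
    ring

theorem exists_loc6 : ∃ L : Loc 6, ∀ (q : ℕ) [Fact q.Prime], 5 ≤ q →
    ∃ w : AlgebraicClosure (ZMod q), w ^ 2 + w + 1 = 0 ∧ ∀ a b : ℤ,
      ((a : AlgebraicClosure (ZMod q)) ^ 2 - a * b + (b : AlgebraicClosure (ZMod q)) ^ 2 ≠ 0 →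
        L.psi q a b ≠ 0 ∧ ∀ r : ℕ,
        (q % 3 = 1 →
          (((a : AlgebraicClosure (ZMod q)) + b * w) * (a ^ 2 - a * b + b ^ 2)) ^ ((q - 1) / 3)
            * w ^ r = 1 → L.psi q a b = ((-1) ^ ((q - 1) / 2) * legendreSym q (a ^ 2 - a * b + b ^ 2)
              : ℤ) * Complex.exp (2 * Real.pi * Complex.I / 3) ^ r) ∧
        (q % 3 = 2 →
          (((a : AlgebraicClosure (ZMod q)) + b * w) * (a ^ 2 - a * b + b ^ 2)) ^ ((q + 1) / 3)
            = w ^ r * (a ^ 2 - a * b + b ^ 2) →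
              L.psi q a b = ((-1) ^ ((q - 1) / 2) * legendreSym q (a ^ 2 - a * b + b ^ 2)
              : ℤ) * Complex.exp (2 * Real.pi * Complex.I / 3) ^ r)) := by
  classical
  have hD : ∀ (q : ℕ) (hq : Fact q.Prime), 5 ≤ q → ∃ (w : AlgebraicClosure (ZMod q))
      (ψ : ZMod q → ZMod q → ℂ), D6 q (AlgebraicClosure (ZMod q)) w ψ :=
    fun q hq h5 => @data6 q hq h5 (AlgebraicClosure (ZMod q)) _ _ _
  choose wq ψq hD using hD
  obtain ⟨psi, hpsi⟩ : ∃ psi : ℕ → ℤ → ℤ → ℂ, psi = fun (q : ℕ) (a b : ℤ) =>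
    if h : q.Prime ∧ 5 ≤ q then ψq q ⟨h.1⟩ h.2 (a : ZMod q) (b : ZMod q) else 0 := ⟨_, rfl⟩
  have hp : ∀ (q : ℕ) (hq : Fact q.Prime) (h5 : 5 ≤ q) (a b : ℤ),
      psi q a b = ψq q hq h5 (a : ZMod q) (b : ZMod q) := by
    intro q hq h5 a b
    rw [hpsi]
    simp only
    rw [dif_pos ⟨hq.out, h5⟩]
  refine ⟨{ chi := c6
            psi := psi
            chi_one := by simp [c6]
            chi_mul := c6_mul
            chi_val := c6_val
            chi_low := fun N hN => low_gen_loc4 c6 c6_per c6_zero c6_step c6_base N hN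
            per := ?_
            val := ?_
            cnt := ?_ }, ?_⟩
  · intro q hq h5 a b s t
    rw [hp q ⟨hq⟩ h5, hp q ⟨hq⟩ h5]
    push_cast
    simp
  · intro q hq h5 a b
    rw [hp q ⟨hq⟩ h5]
    have : Fact q.Prime := ⟨hq⟩
    exact (hD q this h5).2.1 _ _
  · intro q hq h5 v hv
    have hF : Fact q.Prime := ⟨hq⟩
    have h1 := (hD q hF h5).2.2.1 v hv
    have h2 := card_box_loc4 q (fun a b => ψq q hF h5 a b = v)
    rw [← h1, ← h2]
    congr 2
    apply congrArg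
    ext z
    simp only [mem_filter]
    rw [hp q hF h5]
    push_cast
    rfl
  · intro q hq h5
    have h1 := hD q hq h5
    refine ⟨wq q hq h5, h1.1, fun a b hab => ?_⟩
    have e1 : ∀ a : ℤ, algebraMap (ZMod q) (AlgebraicClosure (ZMod q)) (a : ZMod q) = a :=
      fun a => map_intCast _ a
    have e2 : algebraMap (ZMod q) (AlgebraicClosure (ZMod q))
        ((a : ZMod q) ^ 2 - (a : ZMod q) * b + (b : ZMod q) ^ 2)
        = (a : AlgebraicClosure (ZMod q)) ^ 2 - a * b + (b : AlgebraicClosure (ZMod q)) ^ 2 := by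
      rw [map_add, map_sub, map_mul, map_pow, map_pow, e1, e1]
    have hab' : (a : ZMod q) ^ 2 - (a : ZMod q) * b + (b : ZMod q) ^ 2 ≠ 0 := by
      intro h
      rw [h, map_zero] at e2
      exact hab e2.symm
    have h2 := h1.2.2.2 (a : ZMod q) (b : ZMod q) hab'
    rw [e2, e1, e1] at h2
    have e3 : legendreSym q (a ^ 2 - a * b + b ^ 2)
        = quadraticChar (ZMod q) ((a : ZMod q) ^ 2 - (a : ZMod q) * b + (b : ZMod q) ^ 2) := by
      rw [legendreSym]
      push_cast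
      rfl
    simp only
    rw [hp q hq h5, e3]
    exact h2
end Pool.QS
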