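import Pool.Agent.Lib.MP_a3a416_nt.QS.Gauss3
import Pool.Agent.Lib.MP_a3a416_nt.QS.Loc6

/-! QS-Dat6: the sextic family.

PROOF. (compare QS-Dat4)
L from exists_loc6. PP = {p prime, 5 < p, p % 12 = 7}. Let g be a generator of (ZMod p)ˣ, l = discrete logarithm. For every field K with a primitive cube root of unity t there is ρ_{K,t} : MulChar (ZMod p) K
 with ρ(g^l) = t^l (order 3), and J(ρ,ρ) = sum_{x ≠ 0,1} t^{l(x)+l(1-x)} = m₀ + m₁ t + m₂ t² = (m₀-m₂) + (m₁-m₂) t with natural numbers m_r = #{x : l(x)+l(1-x) ≡ r mod 3} independent of K.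
 ca = m₀-m₂, cb = m₁-m₂. Over ℂ: |J|² = p gives ca² - ca cb + cb² = p, hence 3 ca² <= 4p, 3 cb² <= 4p; inj.
 chr p = (quadratic character as ℂ-valued) * ρ_{ℂ,ζ}: order 6, nontrivial. For a prime q >= 5, q ≠ p: chr p q = (q/p) ζ^r, r = l(q); (q/p) = (-1)^{(q-1)/2} (p/q) (quadratic reciprocity, p ≡ 3 mod 4:
 legendreSym.quadratic_reciprocity), p = N(ca,cb). F = AlgebraicClosure (ZMod q), t = w: cubic_gauss for ρ_{F,w} gives the hypotheses of exists_loc6.
-/

set_option autoImplicit false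

open Finset

namespace Pool.QS

/-- discrete logarithms and the characters of order dividing `3` -/
private theorem dat6_rho {p : ℕ} [Fact p.Prime] (h3 : 3 ∣ p - 1) :
    ∃ (l : ZMod p → ℕ) (g : ZMod p), g ≠ 0 ∧ ∀ (K : Type) [Field K] (t : K), t ^ 3 = 1 →
      ∃ ρ : MulChar (ZMod p) K, ρ g = t ∧ ∀ x : ZMod p, x ≠ 0 → ρ x = t ^ (l x) := by
  classical
  obtain ⟨g, hg⟩ := IsCyclic.exists_generator (α := (ZMod p)ˣ)
  have h1 : ∀ x : (ZMod p)ˣ, ∃ k : ℕ, g ^ k = x := by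
    intro x
    have := hg x
    rw [← mem_powers_iff_mem_zpowers] at this
    obtain ⟨k, hk⟩ := this
    exact ⟨k, hk⟩
  choose L hL using h1
  refine ⟨fun x => if h : IsUnit x then L h.unit else 0, (g : ZMod p), g.ne_zero, ?_⟩
  intro K _ t ht
  have ht0 : t ≠ 0 := by
    rintro rfl
    norm_num at ht
  set u : Kˣ := Units.mk0 t ht0 with hu
  have hmem : u ∈ rootsOfUnity (Fintype.card (ZMod p)ˣ) K := by
    rw [mem_rootsOfUnity, ZMod.card_units]
    obtain ⟨k, hk⟩ := h3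
    rw [hk, pow_mul]
    have : u ^ 3 = 1 := by
      ext
      simp [hu, ht]
    rw [this, one_pow]
  refine ⟨MulChar.ofRootOfUnity hmem hg, ?_, ?_⟩
  · rw [MulChar.ofRootOfUnity_spec]
    rfl
  · intro x hx
    have hx' : IsUnit x := isUnit_iff_ne_zero.2 hx
    simp only [hx', dif_pos]
    have h2 : (x : ZMod p) = ((g ^ (L hx'.unit) : (ZMod p)ˣ) : ZMod p) := by
      rw [hL]
      rfl
    conv_lhs => rw [h2]
    rw [Units.val_pow_eq_pow_val, map_pow, MulChar.ofRootOfUnity_spec]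
    rfl

/-- the coordinates of the Jacobi sum do not depend on the field -/
private theorem dat6_jac {p : ℕ} [Fact p.Prime] (l : ZMod p → ℕ) :
    ∃ a b : ℤ, ∀ (K : Type) [Field K] (t : K), t ^ 2 + t + 1 = 0 →
      ∀ ρ : MulChar (ZMod p) K, (∀ x : ZMod p, x ≠ 0 → ρ x = t ^ (l x)) →
        jacobiSum ρ ρ = (a : K) + (b : K) * t := by
  classical
  set S : Finset (ZMod p) := univ.filter (fun x => x ≠ 0 ∧ x ≠ 1) with hS
  set m : ℕ → ℕ := fun r => (S.filter (fun x => (l x + l (1 - x)) % 3 = r)).card with hm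
  refine ⟨(m 0 : ℤ) - m 2, (m 1 : ℤ) - m 2, ?_⟩
  intro K _ t ht ρ hρ
  have ht3 : t ^ 3 = 1 := by
    have : t ^ 3 - 1 = (t - 1) * (t ^ 2 + t + 1) := by ring
    rw [ht, mul_zero, sub_eq_zero] at this
    exact this
  have h1 : jacobiSum ρ ρ = ∑ x ∈ S, t ^ ((l x + l (1 - x)) % 3) := by
    rw [jacobiSum, ← Finset.sum_subset (Finset.subset_univ S)]
    · refine Finset.sum_congr rfl fun x hx => ?_
      rw [hS, mem_filter] at hx
      rw [hρ x hx.2.1, hρ (1 - x) (sub_ne_zero.2 (Ne.symm hx.2.2)), ← pow_add]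
      conv_lhs => rw [← Nat.div_add_mod (l x + l (1 - x)) 3]
      rw [pow_add, pow_mul, ht3, one_pow, one_mul]
    · intro x _ hx
      rw [hS, mem_filter] at hx
      simp only [mem_univ, true_and, not_and_or, not_not] at hx
      rcases hx with rfl | rfl
      · rw [MulChar.map_zero, zero_mul]
      · rw [sub_self, MulChar.map_zero, mul_zero]
  have h2 : ∑ x ∈ S, t ^ ((l x + l (1 - x)) % 3) = ∑ r ∈ range 3, (m r : K) * t ^ r := by
    rw [← Finset.sum_fiberwise_of_maps_to (s := S) (t := range 3)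
      (g := fun x => (l x + l (1 - x)) % 3)
      (fun x _ => mem_range.2 (Nat.mod_lt _ (by norm_num)))]
    refine Finset.sum_congr rfl fun r _ => ?_
    rw [Finset.sum_congr rfl (g := fun _ => t ^ r)]
    · rw [Finset.sum_const, nsmul_eq_mul]
    · intro x hx
      rw [(mem_filter.1 hx).2]
  rw [h1, h2]
  simp only [Finset.sum_range_succ, Finset.sum_range_zero]
  push_cast
  linear_combination (m 2 : K) * ht

private theorem dat6_zeta : (Complex.exp (2 * Real.pi * Complex.I / 3)) ^ 2 +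
    Complex.exp (2 * Real.pi * Complex.I / 3) + 1 = 0 ∧
    Complex.exp (2 * Real.pi * Complex.I / 3) ≠ 1 := by
  have h := Complex.isPrimitiveRoot_exp 3 (by norm_num)
  push_cast at h
  set z := Complex.exp (2 * Real.pi * Complex.I / 3) with hz
  have h1 : z ≠ 1 := h.ne_one (by norm_num)
  have h3 : z ^ 3 = 1 := h.pow_eq_one
  refine ⟨?_, h1⟩
  have : (z - 1) * (z ^ 2 + z + 1) = 0 := by
    linear_combination h3
  rcases mul_eq_zero.1 this with h4 | h4
  · exact absurd (sub_eq_zero.1 h4) h1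
  · exact h4

/-- order of a cubic character -/
private theorem dat6_order {p : ℕ} [Fact p.Prime] {K : Type} [Field K] {t : K}
    (ht : t ^ 3 = 1) (ht1 : t ≠ 1) {ρ : MulChar (ZMod p) K} {l : ZMod p → ℕ} {g : ZMod p}
    (hg : ρ g = t) (hρ : ∀ x : ZMod p, x ≠ 0 → ρ x = t ^ (l x)) (hg0 : g ≠ 0) :
    orderOf ρ = 3 := by
  have : Fact (Nat.Prime 3) := ⟨Nat.prime_three⟩
  refine orderOf_eq_prime ?_ ?_
  · ext x
    rw [MulChar.pow_apply_coe, hρ _ x.ne_zero, MulChar.one_apply_coe, ← pow_mul, mul_comm,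
      pow_mul, ht, one_pow]
  · intro h
    apply ht1
    rw [← hg, h, MulChar.one_apply (isUnit_iff_ne_zero.2 hg0)]

/-- one prime -/
private theorem dat6_prime (L : Loc 6) (hL : ∀ (q : ℕ) [Fact q.Prime], 5 ≤ q →
    ∃ w : AlgebraicClosure (ZMod q), w ^ 2 + w + 1 = 0 ∧ ∀ a b : ℤ,
      ((a : AlgebraicClosure (ZMod q)) ^ 2 - a * b + (b : AlgebraicClosure (ZMod q)) ^ 2 ≠ 0 →
        L.psi q a b ≠ 0 ∧ ∀ r : ℕ,
        (q % 3 = 1 →
          (((a : AlgebraicClosure (ZMod q)) + b * w) * (a ^ 2 - a * b + b ^ 2)) ^ ((q - 1) / 3)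
            * w ^ r = 1 → L.psi q a b = ((-1) ^ ((q - 1) / 2) * legendreSym q (a ^ 2 - a * b + b ^ 2)
              : ℤ) * Complex.exp (2 * Real.pi * Complex.I / 3) ^ r) ∧
        (q % 3 = 2 →
          (((a : AlgebraicClosure (ZMod q)) + b * w) * (a ^ 2 - a * b + b ^ 2)) ^ ((q + 1) / 3)
            = w ^ r * (a ^ 2 - a * b + b ^ 2) →
              L.psi q a b = ((-1) ^ ((q - 1) / 2) * legendreSym q (a ^ 2 - a * b + b ^ 2)
              : ℤ) * Complex.exp (2 * Real.pi * Complex.I / 3) ^ r)))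
    (p : ℕ) (hp : p.Prime) (hp5 : 5 < p) (hp7 : p % 12 = 7) :
    ∃ (χ : DirichletCharacter ℂ p) (a b : ℤ), orderOf χ = 6 ∧ a ^ 2 - a * b + b ^ 2 = (p : ℤ) ∧
      ∀ q : ℕ, q.Prime → 5 ≤ q → q ≠ p → χ q = L.psi q a b ∧ L.psi q a b ≠ 0 := by
  classical
  have : Fact p.Prime := ⟨hp⟩
  have h3 : 3 ∣ p - 1 := by omega
  obtain ⟨l, g, hg0, hrho⟩ := dat6_rho (p := p) h3
  obtain ⟨a, b, hab⟩ := dat6_jac (p := p) l
  obtain ⟨hz, hz1⟩ := dat6_zeta
  set z := Complex.exp (2 * Real.pi * Complex.I / 3) with hzdef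
  have hz3 : z ^ 3 = 1 := by linear_combination (z - 1) * hz
  obtain ⟨ρ, hρg, hρ⟩ := hrho ℂ z hz3
  have hord3 : orderOf ρ = 3 := dat6_order hz3 hz1 hρg hρ hg0
  -- the norm
  have hJ : jacobiSum ρ ρ = (a : ℂ) + b * z := hab ℂ z hz ρ hρ
  have hz2 : (z ^ 2) ^ 2 + z ^ 2 + 1 = 0 := by
    linear_combination (z ^ 2 - z + 1) * hz
  have hJ' : jacobiSum ρ⁻¹ ρ⁻¹ = (a : ℂ) + b * z ^ 2 := by
    refine hab ℂ (z ^ 2) hz2 ρ⁻¹ fun x hx => ?_
    rw [MulChar.inv_apply_eq_inv, hρ x hx, Ring.inverse_eq_inv, ← pow_mul]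
    have hz0 : z ^ (l x) ≠ 0 := by
      apply pow_ne_zero
      rintro h
      rw [h] at hz3
      norm_num at hz3
    rw [inv_eq_iff_eq_inv, eq_comm, inv_eq_iff_eq_inv, eq_comm]
    rw [inv_eq_of_mul_eq_one_left]
    rw [← pow_add]
    rw [show 2 * l x + l x = 3 * l x by ring, pow_mul, hz3, one_pow]
  have hρ1 : ρ ≠ 1 := by
    intro h
    rw [h, orderOf_one] at hord3
    norm_num at hord3
  have hρρ : ρ * ρ ≠ 1 := by
    intro h
    have : orderOf ρ ∣ 2 := orderOf_dvd_of_pow_eq_one (by rw [pow_two, h])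
    rw [hord3] at this
    norm_num at this
  have hnorm : (a : ℂ) ^ 2 - a * b + b ^ 2 = p := by
    have h := jacobiSum_mul_jacobiSum_inv (F := ZMod p) (F' := ℂ)
      (by rw [ringChar.eq_zero, ZMod.ringChar_zmod_n]; exact hp.ne_zero.symm) hρ1 hρ1 hρρ
    rw [hJ, hJ', ZMod.card] at h
    linear_combination h - (b : ℂ) ^ 2 * hz3 - (a : ℂ) * b * hz
  have hnormZ : a ^ 2 - a * b + b ^ 2 = (p : ℤ) := by exact_mod_cast hnorm
  -- the sextic character
  set η : MulChar (ZMod p) ℂ := (quadraticChar (ZMod p)).ringHomComp (Int.castRingHom ℂ) with hη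
  have hchar2 : ringChar (ZMod p) ≠ 2 := by
    rw [ZMod.ringChar_zmod_n]
    omega
  have hη1 : η ≠ 1 :=
    (MulChar.ringHomComp_ne_one_iff (RingHom.injective_int _)).2 (quadraticChar_ne_one hchar2)
  have hη2 : orderOf η = 2 := by
    have : Fact (Nat.Prime 2) := ⟨Nat.prime_two⟩
    refine orderOf_eq_prime ?_ hη1
    exact ((quadraticChar_isQuadratic (ZMod p)).comp _).sq_eq_one
  have hord6 : orderOf (η * ρ) = 6 := by
    rw [(Commute.all η ρ).orderOf_mul_eq_mul_orderOf_of_coprime (by rw [hη2, hord3]; norm_num),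
      hη2, hord3]
  refine ⟨η * ρ, a, b, hord6, hnormZ, ?_⟩
  intro q hq hq5 hqp
  have : Fact q.Prime := ⟨hq⟩
  obtain ⟨w, hw, hW⟩ := hL q hq5
  have : CharP (AlgebraicClosure (ZMod q)) q := charP_of_injective_algebraMap
    (algebraMap (ZMod q) (AlgebraicClosure (ZMod q))).injective q
  have hw3 : w ^ 3 = 1 := by linear_combination (w - 1) * hw
  have hw1 : w ≠ 1 := by
    rintro rfl
    have h30 : ((3 : ℕ) : AlgebraicClosure (ZMod q)) = 0 := by
      push_cast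
      linear_combination hw
    rw [CharP.cast_eq_zero_iff _ q] at h30
    have := Nat.le_of_dvd (by norm_num) h30
    omega
  obtain ⟨σ, hσg, hσ⟩ := hrho (AlgebraicClosure (ZMod q)) w hw3
  have hσ3 : orderOf σ = 3 := dat6_order hw3 hw1 hσg hσ hg0
  have hJσ := hab (AlgebraicClosure (ZMod q)) w hw σ hσ
  have hqp0 : (q : ZMod p) ≠ 0 := by
    intro h
    rw [ZMod.natCast_eq_zero_iff] at h
    exact hqp ((Nat.prime_dvd_prime_iff_eq hp hq).1 h).symm
  have hNF : (a : AlgebraicClosure (ZMod q)) ^ 2 - a * b + (b : AlgebraicClosure (ZMod q)) ^ 2 =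
      p := by
    have := congrArg (fun n : ℤ => (n : AlgebraicClosure (ZMod q))) hnormZ
    push_cast at this
    exact this
  have hN0 : (a : AlgebraicClosure (ZMod q)) ^ 2 - a * b + (b : AlgebraicClosure (ZMod q)) ^ 2 ≠
      0 := by
    rw [hNF]
    intro h
    rw [CharP.cast_eq_zero_iff _ q] at h
    exact hqp ((Nat.prime_dvd_prime_iff_eq hq hp).1 h)
  obtain ⟨hne, hval⟩ := hW a b hN0
  refine ⟨?_, hne⟩
  obtain ⟨hG1, hG2⟩ := cubic_gauss hqp hq5 σ hσ3
  rw [hσ _ hqp0, hJσ] at hG1 hG2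
  have hpsi : L.psi q a b = (((-1) ^ ((q - 1) / 2) * legendreSym q (a ^ 2 - a * b + b ^ 2)
              : ℤ) : ℂ) * z ^ (l (q : ZMod p)) := by
    have hq3 : q % 3 = 1 ∨ q % 3 = 2 := by
      have : ¬ (3 ∣ q) := by
        intro h
        have := (Nat.prime_dvd_prime_iff_eq Nat.prime_three hq).1 h
        omega
      omega
    rcases hq3 with h | h
    · refine (hval (l (q : ZMod p))).1 h ?_
      rw [hNF]
      exact hG1 h
    · refine (hval (l (q : ZMod p))).2 h ?_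
      rw [hNF]
      exact hG2 h
  rw [hpsi, hnormZ, MulChar.mul_apply, hρ _ hqp0]
  congr 1
  rw [hη, MulChar.ringHomComp_apply]
  have h4 : quadraticChar (ZMod p) (q : ZMod p) = legendreSym p q := by
    rw [legendreSym]
    push_cast
    rfl
  rw [h4, legendreSym.quadratic_reciprocity' (p := q) (q := p) (by omega) (by omega)]
  have h5 : q / 2 * (p / 2) = (q - 1) / 2 * (2 * (p / 4) + 1) := by
    have hqodd : q % 2 = 1 := (Nat.Prime.mod_two_eq_one_iff_ne_two hq).2 (by omega)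
    have e1 : q / 2 = (q - 1) / 2 := by omega
    have e2 : p / 2 = 2 * (p / 4) + 1 := by omega
    rw [e1, e2]
  have h6 : ((-1 : ℤ)) ^ (q / 2 * (p / 2)) = (-1) ^ ((q - 1) / 2) := by
    rw [h5, pow_mul, ← pow_mul, mul_add, pow_add, mul_one, mul_comm 2, ← mul_assoc, pow_mul _ _ 2]
    have : (((-1 : ℤ) ^ ((q - 1) / 2 * (p / 4))) ^ 2) = 1 := by
      rw [← pow_mul, mul_comm, pow_mul]
      norm_num
    rw [this, one_mul]
  rw [h6]
  simp

theorem exists_dat6 : ∃ E : Dat 6, (∀ p : ℕ, p ∈ E.PP ↔ p.Prime ∧ 5 < p ∧ p % 12 = 7) ∧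
    ∀ p ∈ E.PP, orderOf (E.chr p) = 6 := by
  classical
  obtain ⟨L, hL⟩ := exists_loc6
  have key : ∀ p : ℕ, ∃ (χ : DirichletCharacter ℂ p) (a b : ℤ), (p.Prime ∧ 5 < p ∧ p % 12 = 7) →
      orderOf χ = 6 ∧ a ^ 2 - a * b + b ^ 2 = (p : ℤ) ∧
      ∀ q : ℕ, q.Prime → 5 ≤ q → q ≠ p → χ q = L.psi q a b ∧ L.psi q a b ≠ 0 := by
    intro p
    by_cases h : p.Prime ∧ 5 < p ∧ p % 12 = 7
    · obtain ⟨χ, a, b, h1⟩ := dat6_prime L hL p h.1 h.2.1 h.2.2
      exact ⟨χ, a, b, fun _ => h1⟩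
    · exact ⟨1, 0, 0, fun h' => absurd h' h⟩
  choose chr ca cb hk using key
  refine ⟨{ toLoc := L
            PP := {p | p.Prime ∧ 5 < p ∧ p % 12 = 7}
            chr := chr
            ca := ca
            cb := cb
            prime := fun p hp => ⟨hp.1, hp.2.1⟩
            nontriv := ?_
            size_a := ?_
            size_b := ?_
            inj := ?_
            loc := ?_ }, fun p => Iff.rfl, fun p hp => (hk p hp).1⟩
  · intro p hp h
    have := (hk p hp).1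
    rw [h, orderOf_one] at this
    norm_num at this
  · intro p hp
    have := (hk p hp).2.1
    nlinarith [sq_nonneg (2 * cb p - ca p), sq_nonneg (ca p)]
  · intro p hp
    have := (hk p hp).2.1
    nlinarith [sq_nonneg (2 * ca p - cb p), sq_nonneg (cb p)]
  · intro p hp p' hp' h
    simp only [Prod.mk.injEq] at h
    have h1 := (hk p hp).2.1
    have h2 := (hk p' hp').2.1
    rw [h.1, h.2, h2] at h1
    exact_mod_cast h1.symm
  · intro p hp q hq hq5 hqp
    exact (hk p hp).2.2 q hq hq5 hqp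

end Pool.QS
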