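import Mathlib

/-!
# Quartic and sextic indices: definitions
-/

set_option autoImplicit false

open Finset

namespace Pool.QS

/-- the primes in `[5, y]` -/
def P5 (y : ℕ) : Finset ℕ := (Icc 5 y).filter Nat.Prime

theorem mem_P5 {y q : ℕ} : q ∈ P5 y ↔ 5 ≤ q ∧ q ≤ y ∧ q.Prime := by
  rw [P5, mem_filter, mem_Icc, and_assoc]

/-- Local symbols: for every prime `q ≥ 5` a function `psi q` on `(ℤ/q)²` with values in
`{0} ∪ μ_d`, equidistributed on `μ_d` off its zero set; the number of nonzeros is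
`(q - 1)(q - χ(q))`. -/
structure Loc (d : ℕ) where
  chi : ℕ → ℤ
  psi : ℕ → ℤ → ℤ → ℂ
  chi_one : chi 1 = 1
  chi_mul : ∀ m n, chi (m * n) = chi m * chi n
  chi_val : ∀ n : ℕ, n.Coprime 6 → chi n = 1 ∨ chi n = -1
  chi_low : ∀ N : ℕ, 1 ≤ N →
    (1 / 2 : ℝ) ≤ ∑ n ∈ (Icc 1 N).filter (fun n => n.Coprime 6), (chi n : ℝ) / n
  per : ∀ q : ℕ, q.Prime → 5 ≤ q → ∀ a b s t : ℤ, psi q (a + q * s) (b + q * t) = psi q a b
  val : ∀ q : ℕ, q.Prime → 5 ≤ q → ∀ a b : ℤ, psi q a b = 0 ∨ psi q a b ^ d = 1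
  cnt : ∀ q : ℕ, q.Prime → 5 ≤ q → ∀ v : ℂ, v ^ d = 1 →
    (d : ℤ) * (((range q ×ˢ range q).filter fun z => psi q (z.1 : ℤ) (z.2 : ℤ) = v).card : ℤ) =
      ((q : ℤ) - 1) * ((q : ℤ) - chi q)

/-- A family of primes `p` with characters `χ_p` whose values at the primes `q ≥ 5` are the local
symbols at a lattice point `(a_p, b_p)` of size `≤ 2√p`. -/
structure Dat (d : ℕ) extends Loc d where
  PP : Set ℕ
  chr : (p : ℕ) → DirichletCharacter ℂ p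
  ca : ℕ → ℤ
  cb : ℕ → ℤ
  prime : ∀ p ∈ PP, p.Prime ∧ 5 < p
  nontriv : ∀ p ∈ PP, chr p ≠ 1
  size_a : ∀ p ∈ PP, (ca p) ^ 2 ≤ 4 * p
  size_b : ∀ p ∈ PP, (cb p) ^ 2 ≤ 4 * p
  inj : Set.InjOn (fun p => (ca p, cb p)) PP
  loc : ∀ p ∈ PP, ∀ q : ℕ, q.Prime → 5 ≤ q → q ≠ p →
    chr p q = psi q (ca p) (cb p) ∧ psi q (ca p) (cb p) ≠ 0

variable {d : ℕ} (L : Loc d)

/-- density of the zero set of `psi q` -/
noncomputable def Loc.g (q : ℕ) : ℝ := 1 - ((q : ℝ) - 1) * ((q : ℝ) - L.chi q) / (q : ℝ) ^ 2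

noncomputable def Loc.h (q : ℕ) : ℝ := L.g q / (1 - L.g q)

/-- sets of primes with product at most `D` -/
def DD (D : ℕ) : Finset (Finset ℕ) := (P5 D).powerset.filter fun A => ∏ q ∈ A, q ≤ D

noncomputable def Loc.GG (D : ℕ) : ℝ := ∑ A ∈ DD D, ∏ q ∈ A, L.h q

/-- Selberg weights for a general density `g` and a family `F` of sets of primes -/
noncomputable def selG (g : ℕ → ℝ) (F : Finset (Finset ℕ)) : ℝ :=
  ∑ A ∈ F, ∏ q ∈ A, g q / (1 - g q)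

noncomputable def selLam (g : ℕ → ℝ) (F : Finset (Finset ℕ)) (B : Finset ℕ) : ℝ :=
  (-1) ^ B.card * (∏ q ∈ B, g q)⁻¹ * (selG g F)⁻¹ *
    ∑ A ∈ F.filter (fun A => B ⊆ A), ∏ q ∈ A, g q / (1 - g q)

noncomputable def Loc.lam (D : ℕ) (B : Finset ℕ) : ℝ := selLam L.g (DD D) B

open scoped Classical in
/-- the nonnegative sieve weight -/
noncomputable def Loc.w (D : ℕ) (a b : ℤ) : ℝ :=
  (∑ B ∈ (DD D).filter (fun B => ∀ q ∈ B, L.psi q a b = 0), L.lam D B) ^ 2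

/-- periodicity modulo `M` -/
def Per (M : ℕ) (f : ℤ → ℤ → ℂ) : Prop := ∀ a b s t : ℤ, f (a + M * s) (b + M * t) = f a b

/-- mean value over `(ℤ/M)²` -/
noncomputable def mean (M : ℕ) (f : ℤ → ℤ → ℂ) : ℂ :=
  (∑ a ∈ range M, ∑ b ∈ range M, f (a : ℤ) (b : ℤ)) / (M : ℂ) ^ 2

/-- sum over the box `[-K, K)²` -/
noncomputable def box (K : ℕ) (f : ℤ → ℤ → ℂ) : ℂ :=
  ∑ a ∈ Ico (-(K : ℤ)) K, ∑ b ∈ Ico (-(K : ℤ)) K, f a b

/-- the completely multiplicative extension of `psi` -/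
noncomputable def Loc.Psi (n : ℕ) (a b : ℤ) : ℂ :=
  ∏ q ∈ n.primeFactors, L.psi q a b ^ n.factorization q

/-- all patterns `(v_q)`, `q ∈ P5 y`, with `v_q ∈ μ_d` -/
noncomputable def Om (d y : ℕ) : Finset ((P5 y) → ℂ) :=
  Fintype.piFinset fun _ => Polynomial.nthRootsFinset d (1 : ℂ)

/-- the finite Euler product of a pattern -/
noncomputable def FF (y : ℕ) (v : (P5 y) → ℂ) : ℂ := ∏ q, (1 - v q / ((q : ℕ) : ℂ))⁻¹

/-- the constant `π²/36` -/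
noncomputable def kap : ℝ := Real.pi ^ 2 / 36

/-- truncated `L(1, χ)` over `n` prime to `6` -/
noncomputable def TL {p : ℕ} (χ : DirichletCharacter ℂ p) (N : ℕ) : ℂ :=
  ∑ n ∈ (Icc 1 N).filter (fun n => n.Coprime 6), χ n / (n : ℂ)

end Pool.QS
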