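import Pool.Agent.Lib.MP_a3a416_nt.QS.Defs

/-! QS-Diag: the diagonal.

PROOF.
If all exponents are congruent mod d (d even, so also mod 2) put k = gcd(m,n), m = k s, n = k t; then v_q(s), v_q(t) are even for all q
 (one of them is 0, the other is |v_q m - v_q n|), so s = s1^2, t = t1^2. The map (m,n) ↦ (k,s1,t1) is injective and
 1/(mn) = 1/(k^2 s1^2 t1^2). A prime q > y divides m, so q | k or q | s1: k > y or s1 > y.
 So the sum is <= (sum_{k>y} 1/k^2) Z^2 + Z (sum_{s>y} 1/s^2) Z,  Z = sum_{k=1}^{∞ or N} 1/k^2 <= 2, sum_{k>y} 1/k^2 <= 1/y.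
 total <= 4/y + 4/y = 8/y <= 16/y. (All sums finite: k, s1, t1 <= max N.)
-/

set_option autoImplicit false

open Finset

namespace Pool.QS

theorem diag_sq {n : ℕ} (hn : n ≠ 0) (h : ∀ q, n.factorization q % 2 = 0) : ∃ r : ℕ, n = r ^ 2 := by
  refine ⟨n.factorization.prod fun p k => p ^ (k / 2), ?_⟩
  conv_lhs => rw [← Nat.prod_factorization_pow_eq_self hn]
  rw [Finsupp.prod, Finsupp.prod, ← Finset.prod_pow]
  refine Finset.prod_congr rfl fun q _ => ?_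
  rw [← pow_mul]
  congr 1
  have := h q
  omega

theorem diag_decomp (d : ℕ) (hd : 2 ∣ d) {m n : ℕ} (hm : 1 ≤ m) (hn : 1 ≤ n)
    (h : ∀ q, m.factorization q ≡ n.factorization q [MOD d]) :
    ∃ k s t : ℕ, m = k * s ^ 2 ∧ n = k * t ^ 2 := by
  have hg : 0 < Nat.gcd m n := Nat.gcd_pos_of_pos_left _ hm
  obtain ⟨g, s, t, hg0, hco, hms, hnt⟩ := Nat.exists_coprime' hg
  have hgpos : 0 < g := hg0
  have hs0 : s ≠ 0 := by
    rintro rfl
    simp at hms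
    omega
  have ht0 : t ≠ 0 := by
    rintro rfl
    simp at hnt
    omega
  have key : ∀ q, s.factorization q % 2 = 0 ∧ t.factorization q % 2 = 0 := by
    intro q
    have h1 : m.factorization q = s.factorization q + g.factorization q := by
      rw [hms, Nat.factorization_mul hs0 hgpos.ne']; rfl
    have h2 : n.factorization q = t.factorization q + g.factorization q := by
      rw [hnt, Nat.factorization_mul ht0 hgpos.ne']; rfl
    have h3 : m.factorization q % 2 = n.factorization q % 2 := (h q).of_dvd hd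
    have h4 : s.factorization q = 0 ∨ t.factorization q = 0 := by
      by_contra hcon
      push Not at hcon
      have hq : q.Prime := by
        by_contra hq
        exact hcon.1 (Nat.factorization_eq_zero_of_not_prime s hq)
      have hqs : q ∣ s := Nat.dvd_of_factorization_pos hcon.1
      have hqt : q ∣ t := Nat.dvd_of_factorization_pos hcon.2
      exact Nat.not_coprime_of_dvd_of_dvd hq.one_lt hqs hqt hco
    rcases h4 with h4 | h4 <;> constructor <;> omega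
  obtain ⟨s1, rfl⟩ := diag_sq hs0 fun q => (key q).1
  obtain ⟨t1, rfl⟩ := diag_sq ht0 fun q => (key q).2
  exact ⟨g, s1, t1, by rw [hms, mul_comm], by rw [hnt, mul_comm]⟩

open scoped Classical in
theorem diag_bound (d : ℕ) (hd : 2 ∣ d) (y : ℕ) (hy : 1 ≤ y) (N : Finset ℕ)
    (hN : ∀ n ∈ N, 1 ≤ n ∧ ∃ q, q.Prime ∧ y < q ∧ q ∣ n) :
    ∑ x ∈ (N ×ˢ N).filter (fun x => ∀ q, x.1.factorization q ≡ x.2.factorization q [MOD d]),
      1 / ((x.1 : ℝ) * x.2) ≤ 16 / y := by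
  set B : ℕ := N.sup id with hB
  have hNB : ∀ n ∈ N, n ≤ B := fun n hn => Finset.le_sup (f := id) hn
  set A := (N ×ˢ N).filter (fun x : ℕ × ℕ => ∀ q, x.1.factorization q ≡ x.2.factorization q [MOD d]) with hA
  have hex : ∀ x : ℕ × ℕ, ∃ z : ℕ × ℕ × ℕ, x ∈ A → x.1 = z.1 * z.2.1 ^ 2 ∧ x.2 = z.1 * z.2.2 ^ 2 := by
    intro x
    by_cases hx : x ∈ A
    · have hx' := hx
      rw [hA, mem_filter, mem_product] at hx'
      obtain ⟨k, s, t, h1, h2⟩ := diag_decomp d hd (hN _ hx'.1.1).1 (hN _ hx'.1.2).1 hx'.2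
      exact ⟨⟨k, s, t⟩, fun _ => ⟨h1, h2⟩⟩
    · exact ⟨⟨0, 0, 0⟩, fun h => absurd h hx⟩
  choose f hf using hex
  have hinj : Set.InjOn f (A : Set (ℕ × ℕ)) := by
    intro x hx x' hx' h
    have h1 := hf x hx
    have h2 := hf x' hx'
    rw [h] at h1
    exact Prod.ext (h1.1.trans h2.1.symm) (h1.2.trans h2.2.symm)
  set G : ℕ × ℕ × ℕ → ℝ := fun z => ((z.1 : ℝ) ^ 2)⁻¹ * (((z.2.1 : ℝ) ^ 2)⁻¹ * ((z.2.2 : ℝ) ^ 2)⁻¹) with hG
  have hG0 : ∀ z, 0 ≤ G z := fun z => by positivity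
  have h1 : ∑ x ∈ A, 1 / ((x.1 : ℝ) * x.2) = ∑ z ∈ A.image f, G z := by
    rw [Finset.sum_image hinj]
    refine Finset.sum_congr rfl fun x hx => ?_
    obtain ⟨e1, e2⟩ := hf x hx
    have hx' := hx
    rw [hA, mem_filter, mem_product] at hx'
    rw [hG]
    simp only
    rw [e1, e2]
    push_cast
    rw [one_div, ← mul_inv, ← mul_inv]
    congr 1
    ring
  set I0 := Ioo 0 (B + 1) with hI0
  set Iy := Ioo y (B + 1) with hIy
  have hsub : A.image f ⊆ (Iy ×ˢ (I0 ×ˢ I0)) ∪ (I0 ×ˢ (Iy ×ˢ I0)) := by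
    intro z hz
    obtain ⟨x, hx, rfl⟩ := Finset.mem_image.1 hz
    obtain ⟨e1, e2⟩ := hf x hx
    have hx' := hx
    rw [hA, mem_filter, mem_product] at hx'
    obtain ⟨⟨hm, hn⟩, -⟩ := hx'
    obtain ⟨hm1, q, hq, hyq, hqm⟩ := hN _ hm
    obtain ⟨hn1, -⟩ := hN _ hn
    have hmB := hNB _ hm
    have hnB := hNB _ hn
    set k := (f x).1
    set s := (f x).2.1
    set t := (f x).2.2
    have hk : k ≠ 0 := by
      intro h0
      rw [h0, zero_mul] at e1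
      omega
    have hs : s ≠ 0 := by
      intro h0
      rw [h0] at e1
      simp at e1
      omega
    have ht : t ≠ 0 := by
      intro h0
      rw [h0] at e2
      simp at e2
      omega
    have hk1 : 1 ≤ k := Nat.one_le_iff_ne_zero.2 hk
    have hs1 : 1 ≤ s := Nat.one_le_iff_ne_zero.2 hs
    have ht1 : 1 ≤ t := Nat.one_le_iff_ne_zero.2 ht
    have hkB : k ≤ B := le_trans (by rw [e1]; exact Nat.le_mul_of_pos_right _ (by positivity)) hmB
    have hsB : s ≤ B := by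
      refine le_trans ?_ hmB
      rw [e1]
      calc s = 1 * s ^ 1 := by ring
        _ ≤ k * s ^ 2 := Nat.mul_le_mul hk1 (Nat.pow_le_pow_right hs1 (by norm_num))
    have htB : t ≤ B := by
      refine le_trans ?_ hnB
      rw [e2]
      calc t = 1 * t ^ 1 := by ring
        _ ≤ k * t ^ 2 := Nat.mul_le_mul hk1 (Nat.pow_le_pow_right ht1 (by norm_num))
    have hor : y < k ∨ y < s := by
      rw [e1] at hqm
      rcases (Nat.Prime.dvd_mul hq).1 hqm with h | h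
      · exact Or.inl (lt_of_lt_of_le hyq (Nat.le_of_dvd (by omega) h))
      · exact Or.inr (lt_of_lt_of_le hyq (Nat.le_of_dvd (by omega) (hq.dvd_of_dvd_pow h)))
    have hfx : f x = (k, s, t) := rfl
    rw [hfx, mem_union, mem_product, mem_product, mem_product, mem_product, hI0, hIy, mem_Ioo,
      mem_Ioo, mem_Ioo, mem_Ioo, mem_Ioo]
    simp only
    rcases hor with h | h
    · left; omega
    · right; omega
  have hS0 : ∑ i ∈ I0, ((i : ℝ) ^ 2)⁻¹ ≤ 2 := by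
    have := sum_Ioo_inv_sq_le (α := ℝ) 0 (B + 1)
    simpa using this
  have hSy : ∑ i ∈ Iy, ((i : ℝ) ^ 2)⁻¹ ≤ 2 / (y + 1) := sum_Ioo_inv_sq_le (α := ℝ) y (B + 1)
  have hS0' : 0 ≤ ∑ i ∈ I0, ((i : ℝ) ^ 2)⁻¹ := Finset.sum_nonneg fun i _ => by positivity
  have hSy' : 0 ≤ ∑ i ∈ Iy, ((i : ℝ) ^ 2)⁻¹ := Finset.sum_nonneg fun i _ => by positivity
  have hprod : ∀ S T U : Finset ℕ, ∑ z ∈ S ×ˢ (T ×ˢ U), G z =
      (∑ i ∈ S, ((i : ℝ) ^ 2)⁻¹) * ((∑ i ∈ T, ((i : ℝ) ^ 2)⁻¹) * ∑ i ∈ U, ((i : ℝ) ^ 2)⁻¹) := by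
    intro S T U
    rw [Finset.sum_product, Finset.sum_mul]
    refine Finset.sum_congr rfl fun a _ => ?_
    rw [Finset.sum_mul_sum, ← Finset.sum_product', Finset.mul_sum]
  have hy0 : (0 : ℝ) < y := by exact_mod_cast hy
  calc ∑ x ∈ A, 1 / ((x.1 : ℝ) * x.2) = ∑ z ∈ A.image f, G z := h1
    _ ≤ ∑ z ∈ (Iy ×ˢ (I0 ×ˢ I0)) ∪ (I0 ×ˢ (Iy ×ˢ I0)), G z :=
        Finset.sum_le_sum_of_subset_of_nonneg hsub fun z _ _ => hG0 z
    _ ≤ ∑ z ∈ (Iy ×ˢ (I0 ×ˢ I0)), G z + ∑ z ∈ (I0 ×ˢ (Iy ×ˢ I0)), G z := by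
        rw [← Finset.sum_union_inter]
        have := Finset.sum_nonneg (s := (Iy ×ˢ (I0 ×ˢ I0)) ∩ (I0 ×ˢ (Iy ×ˢ I0))) fun z _ => hG0 z
        linarith
    _ = (∑ i ∈ Iy, ((i : ℝ) ^ 2)⁻¹) * ((∑ i ∈ I0, ((i : ℝ) ^ 2)⁻¹) * ∑ i ∈ I0, ((i : ℝ) ^ 2)⁻¹) +
        (∑ i ∈ I0, ((i : ℝ) ^ 2)⁻¹) * ((∑ i ∈ Iy, ((i : ℝ) ^ 2)⁻¹) * ∑ i ∈ I0, ((i : ℝ) ^ 2)⁻¹) := by
        rw [hprod, hprod]
    _ ≤ (2 / (y + 1)) * (2 * 2) + 2 * ((2 / (y + 1)) * 2) := by
        gcongr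
    _ = 16 / (y + 1) := by ring
    _ ≤ 16 / y := by
        apply div_le_div_of_nonneg_left (by norm_num) hy0 (by linarith)

end Pool.QS
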