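import Pool.Agent.Lib.MP_a3a416_nt.QS.Defs

/-! QS-Inf: a sparse set of primes does not cover a residue class.

PROOF.
If the set were finite, all large primes ≡ a mod q would lie in B. By Mathlib (Dirichlet): sum_{p ≡ a} 1/p (or log p / p) diverges
 (ArithmeticFunction.vonMangoldt.not_summable_residueClass_prime_div or similar), but the count gives
 sum_{p ∈ B, 2^j < p <= 2^{j+1}} 1/p <= 2^{-j} C 2^{j+1}/((j+1) log 2)^{26/25} = C' (j+1)^{-26/25}, summable over j.
-/

set_option autoImplicit false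

open Finset

namespace Pool.QS
/-- the norming `1 - 2^(-t) ≥ t/2` on `[0,1]` -/
private theorem inf_geom {t : ℝ} (h0 : 0 < t) (h1 : t ≤ 1) :
    t / 2 ≤ 1 - (2 : ℝ) ^ (-t) := by
  have h2 : (2 : ℝ) ^ (-t) = ((1 : ℝ) / 2) ^ t := by
    rw [Real.rpow_neg (by norm_num), one_div, Real.inv_rpow (by norm_num)]
  rw [h2]
  have h4 : ((1 : ℝ) / 2) ^ t ≤ 1 + t * (-(1 / 2)) := by
    have := rpow_one_add_le_one_add_mul_self (s := -(1 / 2 : ℝ)) (by norm_num) h0.le h1
    have e : (1 : ℝ) + -(1 / 2) = 1 / 2 := by norm_num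
    rwa [e] at this
  linarith

private theorem inf_dyadic (f : ℕ → ℝ) (hf : ∀ n, 0 ≤ f n) (hf0 : f 0 = 0) (hf1 : f 1 = 0)
    (D : ℕ → ℝ) (hD : ∀ j, ∑ n ∈ Ioc (2 ^ j) (2 ^ (j + 1)), f n ≤ D j) (M : ℕ) :
    ∑ n ∈ range (2 ^ M + 1), f n ≤ ∑ j ∈ range M, D j := by
  induction M with
  | zero =>
    simp [sum_range_succ, hf0, hf1]
  | succ M ih =>
    rw [sum_range_succ D M]
    have h1 : ∑ n ∈ range (2 ^ (M + 1) + 1), f n =
        ∑ n ∈ range (2 ^ M + 1), f n + ∑ n ∈ Ioc (2 ^ M) (2 ^ (M + 1)), f n := by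
      rw [← sum_range_add_sum_Ico _ (show 2 ^ M + 1 ≤ 2 ^ (M + 1) + 1 by
        have := Nat.pow_le_pow_right (show 0 < 2 by norm_num) (Nat.le_succ M)
        omega)]
      congr 1
      refine sum_congr ?_ fun _ _ => rfl
      ext n
      rw [mem_Ico, mem_Ioc]
      omega
    rw [h1]
    exact add_le_add ih (hD M)

private theorem inf_block (C : ℝ) (B : Set ℕ) [DecidablePred (· ∈ B)]
    (hB : ∀ X : ℕ, 2 ≤ X → (((Icc 1 X).filter fun p => p ∈ B).card : ℝ) ≤
      C * X / (Real.log X) ^ (1 + 1 / 25 : ℝ)) (x : ℝ) (hx : 1 < x) (f : ℕ → ℝ)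
    (hf : ∀ n, f n ≤ if n ∈ B then Real.log n / (n : ℝ) ^ x else 0) (j : ℕ) :
    ∑ n ∈ Ioc (2 ^ j) (2 ^ (j + 1)), f n ≤
      2 * C * ((j + 1 : ℕ) * Real.log 2) ^ (-(1 / 25) : ℝ) * ((2 : ℝ) ^ (-(x - 1))) ^ j := by
  have hl : 0 < ((j + 1 : ℕ) : ℝ) * Real.log 2 := by
    have := Real.log_pos (show (1 : ℝ) < 2 by norm_num)
    positivity
  have hlog : Real.log ((2 ^ (j + 1) : ℕ) : ℝ) = ((j + 1 : ℕ) : ℝ) * Real.log 2 := by
    push_cast
    rw [Real.log_pow]
    push_cast
    ring
  have h1 : ∑ n ∈ Ioc (2 ^ j) (2 ^ (j + 1)), f n ≤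
      ∑ n ∈ (Ioc (2 ^ j) (2 ^ (j + 1))).filter (fun n => n ∈ B),
        ((j + 1 : ℕ) : ℝ) * Real.log 2 / (2 : ℝ) ^ (j * x) := by
    rw [sum_filter]
    refine sum_le_sum fun n hn => (hf n).trans ?_
    split_ifs with h
    · obtain ⟨h2, h3⟩ := mem_Ioc.1 hn
      have hn0 : (0 : ℝ) < n := by
        have : 0 < n := lt_of_le_of_lt (Nat.zero_le _) h2
        exact_mod_cast this
      have h4 : Real.log n ≤ ((j + 1 : ℕ) : ℝ) * Real.log 2 := by
        rw [← hlog]
        exact Real.log_le_log hn0 (by exact_mod_cast h3)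
      have h5 : (2 : ℝ) ^ (j * x) ≤ (n : ℝ) ^ x := by
        rw [Real.rpow_mul (by norm_num), Real.rpow_natCast]
        refine Real.rpow_le_rpow (by positivity) ?_ (by linarith)
        exact_mod_cast h2.le
      exact div_le_div₀ hl.le h4 (by positivity) h5
    · exact le_rfl
  refine h1.trans ?_
  rw [sum_const, nsmul_eq_mul]
  have h2 : (((Ioc (2 ^ j) (2 ^ (j + 1))).filter (fun n => n ∈ B)).card : ℝ) ≤
      C * ((2 ^ (j + 1) : ℕ) : ℝ) / (((j + 1 : ℕ) : ℝ) * Real.log 2) ^ (1 + 1 / 25 : ℝ) := by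
    have h3 := hB (2 ^ (j + 1)) (by
      calc 2 = 2 ^ 1 := by norm_num
        _ ≤ 2 ^ (j + 1) := Nat.pow_le_pow_right (by norm_num) (by omega))
    rw [hlog] at h3
    refine le_trans ?_ h3
    have h4 : (Ioc (2 ^ j) (2 ^ (j + 1))).filter (fun n => n ∈ B) ⊆
        (Icc 1 (2 ^ (j + 1))).filter (fun p => p ∈ B) := by
      intro n hn
      rw [mem_filter, mem_Ioc] at hn
      rw [mem_filter, mem_Icc]
      exact ⟨⟨by omega, hn.1.2⟩, hn.2⟩
    exact_mod_cast card_le_card h4
  have h5 : 0 ≤ ((j + 1 : ℕ) : ℝ) * Real.log 2 / (2 : ℝ) ^ (j * x) := by positivity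
  refine (mul_le_mul_of_nonneg_right h2 h5).trans (le_of_eq ?_)
  set ℓ : ℝ := ((j + 1 : ℕ) : ℝ) * Real.log 2 with hℓ
  have e1 : ℓ ^ (1 + 1 / 25 : ℝ) = ℓ * ℓ ^ (1 / 25 : ℝ) := by
    rw [Real.rpow_add hl, Real.rpow_one]
  have e2 : ℓ ^ (-(1 / 25) : ℝ) = (ℓ ^ (1 / 25 : ℝ))⁻¹ := Real.rpow_neg hl.le _
  have e3 : ((2 : ℝ) ^ (-(x - 1))) ^ j = (2 : ℝ) ^ j / (2 : ℝ) ^ (j * x) := by
    rw [← Real.rpow_natCast, ← Real.rpow_mul (by norm_num), ← Real.rpow_natCast,
      ← Real.rpow_sub (by norm_num)]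
    congr 1
    ring
  have hp : 0 < ℓ ^ (1 / 25 : ℝ) := Real.rpow_pos_of_pos hl _
  have hq : 0 < (2 : ℝ) ^ ((j : ℝ) * x) := by positivity
  rw [e1, e2, e3]
  push_cast
  field_simp
  ring

open ArithmeticFunction.vonMangoldt in
open scoped Classical in
theorem inf_of_count {q : ℕ} [NeZero q] {a : ZMod q} (ha : IsUnit a) (B : Set ℕ) (C : ℝ)
    (hB : ∀ X : ℕ, 2 ≤ X → (((Icc 1 X).filter fun p => p ∈ B).card : ℝ) ≤
      C * X / (Real.log X) ^ (1 + 1 / 25 : ℝ)) :
    {p : ℕ | p.Prime ∧ (p : ZMod q) = a ∧ p ∉ B}.Infinite := by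
  intro hfin
  have hfin' : {p : ℕ | p.Prime ∧ (p : ZMod q) = a ∧ p ∉ B}.Finite := hfin
  obtain ⟨N, hN⟩ := hfin'.bddAbove
  have hcov : ∀ p : ℕ, p.Prime → (p : ZMod q) = a → N < p → p ∈ B := by
    intro p hp hpa hNp
    by_contra hpB
    exact absurd (hN ⟨hp, hpa, hpB⟩) (not_le.2 hNp)
  -- the constant is nonnegative
  have hC0 : 0 ≤ C := by
    have h1 := hB 2 le_rfl
    have h2 : (0 : ℝ) ≤ C * (2 : ℕ) / (Real.log (2 : ℕ)) ^ (1 + 1 / 25 : ℝ) :=
      le_trans (Nat.cast_nonneg _) h1
    have h3 : 0 < (Real.log (2 : ℕ)) ^ (1 + 1 / 25 : ℝ) := by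
      have := Real.log_pos (show (1 : ℝ) < (2 : ℕ) by norm_num)
      positivity
    have h4 : 0 ≤ C * (2 : ℕ) := by
      by_contra h
      push Not at h
      exact absurd h2 (not_le.2 (div_neg_of_neg_of_pos h h3))
    push_cast at h4
    linarith
  obtain ⟨C0, hlow⟩ := LSeries_residueClass_lower_bound ha
  set φ : ℝ := (q.totient : ℝ)⁻¹ with hφ
  have hφ0 : 0 < φ := inv_pos.mpr (mod_cast q.totient.pos_of_neZero)
  -- the tail of the block constants
  have htend : Filter.Tendsto (fun j : ℕ => 2 * C * ((j + 1 : ℕ) * Real.log 2) ^ (-(1 / 25) : ℝ))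
      Filter.atTop (nhds 0) := by
    have h1 : Filter.Tendsto (fun j : ℕ => ((j + 1 : ℕ) : ℝ) * Real.log 2) Filter.atTop
        Filter.atTop := by
      refine Filter.Tendsto.atTop_mul_const (Real.log_pos (by norm_num)) ?_
      exact tendsto_natCast_atTop_atTop.comp (Filter.tendsto_add_atTop_nat 1)
    have h2 := (tendsto_rpow_neg_atTop (show (0 : ℝ) < 1 / 25 by norm_num)).comp h1
    have h3 := h2.const_mul (2 * C)
    rw [mul_zero] at h3
    exact h3
  obtain ⟨J, hJ⟩ := Filter.eventually_atTop.1 (htend.eventually_le_const (show (0 : ℝ) < φ / 8 by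
    positivity))
  set E : ℕ → ℝ := fun j => 2 * C * ((j + 1 : ℕ) * Real.log 2) ^ (-(1 / 25) : ℝ) with hE
  have hE0 : ∀ j, 0 ≤ E j := fun j => by
    have := Real.log_nonneg (show (1 : ℝ) ≤ 2 by norm_num)
    simp only [hE]
    positivity
  set S : ℝ := ∑ j ∈ range J, E j with hS
  -- partial sums over the blocks
  have hsumD : ∀ x : ℝ, 1 < x → x ≤ 2 → ∀ M : ℕ,
      ∑ j ∈ range M, E j * ((2 : ℝ) ^ (-(x - 1))) ^ j ≤ S + φ / 4 / (x - 1) := by
    intro x hx hx2 M
    set ρ : ℝ := (2 : ℝ) ^ (-(x - 1)) with hρ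
    have hρ0 : 0 ≤ ρ := by positivity
    have hρ1 : ρ < 1 := Real.rpow_lt_one_of_one_lt_of_neg (by norm_num) (by linarith)
    have h1 : ∀ j ∈ range M, E j * ρ ^ j ≤ (if j < J then E j else 0) + φ / 8 * ρ ^ j := by
      intro j _
      by_cases hj : j < J
      · rw [if_pos hj]
        have h2 : E j * ρ ^ j ≤ E j * 1 :=
          mul_le_mul_of_nonneg_left (pow_le_one₀ hρ0 hρ1.le) (hE0 j)
        have h3 : 0 ≤ φ / 8 * ρ ^ j := by positivity
        linarith
      · rw [if_neg hj, zero_add]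
        exact mul_le_mul_of_nonneg_right (hJ j (not_lt.1 hj)) (by positivity)
    refine (sum_le_sum h1).trans ?_
    rw [sum_add_distrib, ← mul_sum]
    refine add_le_add ?_ ?_
    · rw [← sum_filter, hS]
      refine sum_le_sum_of_subset_of_nonneg ?_ fun j _ _ => hE0 j
      intro j hj
      exact mem_range.2 (mem_filter.1 hj).2
    · have h4 : ∑ j ∈ range M, ρ ^ j ≤ (1 - ρ)⁻¹ := by
        rw [← tsum_geometric_of_lt_one hρ0 hρ1]
        exact (summable_geometric_of_lt_one hρ0 hρ1).sum_le_tsum _ fun j _ => pow_nonneg hρ0 j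
      have h5 := inf_geom (t := x - 1) (by linarith) (by linarith)
      have hx0 : 0 < x - 1 := by linarith
      have h6 : (1 - ρ)⁻¹ ≤ 2 / (x - 1) := by
        rw [inv_le_comm₀ (by linarith) (by positivity), inv_div]
        exact h5
      calc φ / 8 * ∑ j ∈ range M, ρ ^ j ≤ φ / 8 * (2 / (x - 1)) :=
            mul_le_mul_of_nonneg_left (h4.trans h6) (by positivity)
        _ = φ / 4 / (x - 1) := by ring
  -- the three parts
  let g1 : ℕ → ℝ := fun n => (if n.Prime then 0 else residueClass a n) / n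
  let g2 : ℕ → ℝ := fun n => if n ≤ N then residueClass a n else 0
  have hg1 : Summable g1 := summable_residueClass_non_primes_div a
  have hg2 : Summable g2 := by
    refine summable_of_hasFiniteSupport ((Set.finite_Iic N).subset fun n hn => ?_)
    simp only [g2, Function.mem_support, ne_eq, ite_eq_right_iff, Classical.not_imp] at hn
    exact hn.1
  have key : ∀ x : ℝ, 1 < x → x ≤ 2 → ∑' n, residueClass a n / (n : ℝ) ^ x ≤
      ∑' n, g1 n + ∑' n, g2 n + (S + φ / 4 / (x - 1)) := by
    intro x hx hx2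
    let f : ℕ → ℝ := fun n => if n.Prime ∧ (n : ZMod q) = a ∧ N < n then
      Real.log n / (n : ℝ) ^ x else 0
    have hf0 : ∀ n, 0 ≤ f n := fun n => by
      simp only [f]
      split_ifs with h
      · exact div_nonneg (Real.log_natCast_nonneg n) (by positivity)
      · exact le_rfl
    have hfB : ∀ n, f n ≤ if n ∈ B then Real.log n / (n : ℝ) ^ x else 0 := by
      intro n
      simp only [f]
      by_cases h : n.Prime ∧ (n : ZMod q) = a ∧ N < n
      · rw [if_pos h, if_pos (hcov n h.1 h.2.1 h.2.2)]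
      · rw [if_neg h]
        split_ifs
        · exact div_nonneg (Real.log_natCast_nonneg n) (by positivity)
        · exact le_rfl
    have hpart : ∀ n, ∑ i ∈ range n, f i ≤ S + φ / 4 / (x - 1) := by
      intro n
      have h1 : range n ⊆ range (2 ^ n + 1) := range_subset_range.2 (by
        have := Nat.lt_two_pow_self (n := n)
        omega)
      refine (sum_le_sum_of_subset_of_nonneg h1 fun i _ _ => hf0 i).trans ?_
      refine (inf_dyadic f hf0 ?_ ?_ (fun j => E j * ((2 : ℝ) ^ (-(x - 1))) ^ j)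
        (fun j => inf_block C B hB x hx f hfB j) n).trans (hsumD x hx hx2 n)
      · simp only [f]
        rw [if_neg]
        exact fun h => Nat.not_prime_zero h.1
      · simp only [f]
        rw [if_neg]
        exact fun h => Nat.not_prime_one h.1
    have hfs : Summable f := summable_of_sum_range_le hf0 hpart
    have hft : ∑' n, f n ≤ S + φ / 4 / (x - 1) := Real.tsum_le_of_sum_range_le hf0 hpart
    have hle : ∀ n, residueClass a n / (n : ℝ) ^ x ≤ g1 n + g2 n + f n := by
      intro n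
      have hr0 : 0 ≤ residueClass a n := residueClass_nonneg a n
      rcases Nat.eq_zero_or_pos n with hn | hn
      · subst hn
        have h1 : residueClass a 0 = 0 := residueClass_apply_zero a
        have : 0 ≤ g1 0 + g2 0 + f 0 := by
          have := hf0 0
          simp only [g1, g2, h1]
          simp
          exact this
        rw [h1, zero_div]
        exact this
      · have hn1 : (1 : ℝ) ≤ n := by exact_mod_cast hn
        have hnx : (n : ℝ) ≤ (n : ℝ) ^ x := by
          conv_lhs => rw [← Real.rpow_one (n : ℝ)]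
          exact Real.rpow_le_rpow_of_exponent_le hn1 hx.le
        have hg2n : 0 ≤ g2 n := by
          simp only [g2]
          split_ifs
          · exact hr0
          · exact le_rfl
        have hg1n : 0 ≤ g1 n := by
          simp only [g1]
          split_ifs
          · simp
          · exact div_nonneg hr0 (by linarith)
        by_cases hp : n.Prime
        · by_cases hnN : n ≤ N
          · have h1 : residueClass a n / (n : ℝ) ^ x ≤ g2 n := by
              simp only [g2, if_pos hnN]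
              exact div_le_self hr0 (hn1.trans hnx)
            have := hf0 n
            linarith
          · by_cases hna : (n : ZMod q) = a
            · have h1 : f n = Real.log n / (n : ℝ) ^ x := by
                simp only [f]
                rw [if_pos ⟨hp, hna, not_le.1 hnN⟩]
              have h2 : residueClass a n ≤ Real.log n := by
                refine (residueClass_le a n).trans (le_of_eq ?_)
                exact ArithmeticFunction.vonMangoldt_apply_prime hp
              have h3 : residueClass a n / (n : ℝ) ^ x ≤ Real.log n / (n : ℝ) ^ x :=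
                div_le_div_of_nonneg_right h2 (by positivity)
              rw [h1]
              linarith
            · have h1 : residueClass a n = 0 := Set.indicator_of_notMem (by simpa using hna) _
              rw [h1, zero_div]
              have := hf0 n
              linarith
        · have h1 : residueClass a n / (n : ℝ) ^ x ≤ g1 n := by
            simp only [g1, if_neg hp]
            exact div_le_div_of_nonneg_left hr0 (by linarith) hnx
          have := hf0 n
          linarith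
    have hsum : Summable fun n => g1 n + g2 n + f n := (hg1.add hg2).add hfs
    have hsr : Summable fun n => residueClass a n / (n : ℝ) ^ x :=
      Summable.of_nonneg_of_le (fun n => div_nonneg (residueClass_nonneg a n) (by positivity))
        hle hsum
    calc ∑' n, residueClass a n / (n : ℝ) ^ x ≤ ∑' n, (g1 n + g2 n + f n) :=
          hsr.tsum_le_tsum hle hsum
      _ = ∑' n, g1 n + ∑' n, g2 n + ∑' n, f n := by
          rw [(hg1.add hg2).tsum_add hfs, hg1.tsum_add hg2]
      _ ≤ _ := by linarith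
  -- the contradiction
  set K : ℝ := |C0 + ∑' n, g1 n + ∑' n, g2 n + S| + 1 with hK
  have hK0 : 0 < K := by positivity
  have hfinal : ∀ x : ℝ, 1 < x → x ≤ 2 → φ / 2 ≤ K * (x - 1) := by
    intro x hx hx2
    have h1 := (hlow ⟨hx, hx2⟩).trans (key x hx hx2)
    have hx0 : 0 < x - 1 := by linarith
    have h2 : φ / (x - 1) - φ / 4 / (x - 1) ≤ K := by
      have := le_abs_self (C0 + ∑' n, g1 n + ∑' n, g2 n + S)
      linarith
    have h3 : φ / (x - 1) - φ / 4 / (x - 1) = (3 * φ / 4) / (x - 1) := by ring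
    rw [h3, div_le_iff₀ hx0] at h2
    linarith
  have hδ : 0 < min 1 (φ / (4 * K)) := lt_min one_pos (by positivity)
  have h1 := hfinal (1 + min 1 (φ / (4 * K))) (by linarith) (by
    have := min_le_left 1 (φ / (4 * K))
    linarith)
  have h2 : K * (1 + min 1 (φ / (4 * K)) - 1) ≤ φ / 4 := by
    have := min_le_right 1 (φ / (4 * K))
    calc K * (1 + min 1 (φ / (4 * K)) - 1) ≤ K * (φ / (4 * K)) := by
          apply mul_le_mul_of_nonneg_left _ hK0.le
          linarith
      _ = φ / 4 := by field_simp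
  linarith

end Pool.QS
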