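import Pool.Agent.Lib.MP_a3a416_nt.QS.Main
import Pool.Agent.Lib.MP_a3a416_nt.QS.Bad
import Pool.Agent.Lib.MP_a3a416_nt.QS.Dat4
import Pool.Agent.Lib.MP_a3a416_nt.QS.Dat6
import Pool.Agent.Lib.MP_a3a416_nt.QS.Inf

/-! QS-Final: assembly. -/

set_option autoImplicit false

open Finset

namespace Pool.QS

/-- `p ≡ 5 (mod 8)` divides the numerator of `B_{(p+3)/4}` or of `B_{(3p+1)/4}` -/
def Irr4 (p : ℕ) : Prop :=
  (p : ℤ) ∣ (bernoulli ((p + 3) / 4)).num ∨ (p : ℤ) ∣ (bernoulli ((3 * p + 1) / 4)).num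

/-- `p ≡ 7 (mod 12)` divides the numerator of `B_{(p+5)/6}` or of `B_{(5p+1)/6}` -/
def Irr6 (p : ℕ) : Prop :=
  (p : ℤ) ∣ (bernoulli ((p + 5) / 6)).num ∨ (p : ℤ) ∣ (bernoulli ((5 * p + 1) / 6)).num

open scoped Classical in
/-- a bound for all large `X` gives a bound for all `X` -/
private theorem fin_extend (P : ℕ → Prop) (X₀ : ℕ) (C : ℝ)
    (h : ∀ X : ℕ, X₀ ≤ X → 2 ≤ X → (((Icc 1 X).filter fun p => P p).card : ℝ) ≤
      C * X / (Real.log X) ^ (1 + 1 / 25 : ℝ)) :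
    ∃ C' : ℝ, ∀ X : ℕ, 2 ≤ X → (((Icc 1 X).filter fun p => P p).card : ℝ) ≤
      C' * X / (Real.log X) ^ (1 + 1 / 25 : ℝ) := by
  refine ⟨max C 0 + (Real.log (X₀ + 2)) ^ (1 + 1 / 25 : ℝ), fun X hX => ?_⟩
  have hX1 : (1 : ℝ) < X := by exact_mod_cast hX
  have hl : 0 < Real.log X := Real.log_pos hX1
  have hp : 0 < (Real.log X) ^ (1 + 1 / 25 : ℝ) := Real.rpow_pos_of_pos hl _
  have hX0 : (0 : ℝ) ≤ X := by linarith
  have hL0 : 0 ≤ (Real.log (X₀ + 2)) ^ (1 + 1 / 25 : ℝ) :=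
    Real.rpow_nonneg (Real.log_nonneg (by have : (0 : ℝ) ≤ X₀ := Nat.cast_nonneg _; linarith)) _
  rcases le_or_gt X₀ X with h0 | h0
  · refine (h X h0 hX).trans ?_
    rw [div_le_div_iff_of_pos_right hp]
    refine mul_le_mul_of_nonneg_right ?_ hX0
    have := le_max_left C 0
    linarith
  · rw [le_div_iff₀ hp]
    have h1 : (((Icc 1 X).filter fun p => P p).card : ℝ) ≤ X := by
      have := Finset.card_filter_le (Icc 1 X) (fun p => P p)
      rw [Nat.card_Icc] at this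
      exact_mod_cast (by omega : ((Icc 1 X).filter fun p => P p).card ≤ X)
    have h2 : (Real.log X) ^ (1 + 1 / 25 : ℝ) ≤ (Real.log (X₀ + 2)) ^ (1 + 1 / 25 : ℝ) := by
      refine Real.rpow_le_rpow hl.le (Real.log_le_log (by linarith) ?_) (by norm_num)
      have : (X : ℝ) ≤ X₀ := by exact_mod_cast h0.le
      linarith
    calc (((Icc 1 X).filter fun p => P p).card : ℝ) * (Real.log X) ^ (1 + 1 / 25 : ℝ)
        ≤ X * (Real.log (X₀ + 2)) ^ (1 + 1 / 25 : ℝ) := mul_le_mul h1 h2 hp.le hX0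
      _ ≤ (max C 0 + (Real.log (X₀ + 2)) ^ (1 + 1 / 25 : ℝ)) * X := by
          have := le_max_right C 0
          nlinarith [mul_nonneg this hX0]

private theorem log_small : ∃ X₁ : ℕ, ∀ X : ℕ, X₁ ≤ X → 2 ≤ X →
    100000 * Real.log X / X ≤ 1 / Real.log X := by
  have h := Real.isLittleO_pow_log_id_atTop (n := 2)
  have h' := h.def (c := 1 / 100000) (by norm_num)
  rw [Filter.eventually_atTop] at h'
  obtain ⟨x₀, hx₀⟩ := h'
  refine ⟨⌈x₀⌉₊, fun X hX hX2 => ?_⟩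
  have h1 : x₀ ≤ X := Nat.ceil_le.1 hX
  have h2 := hx₀ X h1
  have hX1 : (1 : ℝ) < X := by exact_mod_cast hX2
  have hl : 0 < Real.log X := Real.log_pos hX1
  rw [Real.norm_of_nonneg (by positivity), id, Real.norm_of_nonneg (by linarith)] at h2
  rw [div_le_div_iff₀ (by linarith) hl]
  nlinarith

open scoped Classical in
private theorem count_of {d : ℕ} (hd : 2 ∣ d) (hd3 : 3 ≤ d) (E : Dat d) (P : ℕ → Prop)
    (p₀ : ℕ)
    (h : ∀ p : ℕ, p₀ ≤ p → P p → p ∈ E.PP ∧ ∀ X : ℕ, p ≤ X → 2 ≤ X →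
      ∃ m : ℕ, |‖TL (E.chr p) (X ^ 4)‖ ^ 2 - kap * m| ≤ 100000 * Real.log X / X) :
    ∃ C : ℝ, ∀ X : ℕ, 2 ≤ X → (((Icc 1 X).filter fun p => P p).card : ℝ) ≤
      C * X / (Real.log X) ^ (1 + 1 / 25 : ℝ) := by
  obtain ⟨C, hC⟩ := main_count hd hd3 E
  obtain ⟨X₁, hX₁⟩ := log_small
  have hlo := (isLittleO_log_rpow_rpow_atTop (s := 1) (1 + 1 / 25 : ℝ) (by norm_num)).def
    (c := 1) (by norm_num)
  rw [Filter.eventually_atTop] at hlo
  obtain ⟨x₀, hx₀⟩ := hlo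
  refine fin_extend P (max X₁ ⌈x₀⌉₊) (C + p₀) fun X hX hX2 => ?_
  have hX1 : (1 : ℝ) < X := by exact_mod_cast hX2
  have hl : 0 < Real.log X := Real.log_pos hX1
  have hp : 0 < (Real.log X) ^ (1 + 1 / 25 : ℝ) := Real.rpow_pos_of_pos hl _
  have hsub : (Icc 1 X).filter (fun p => P p) ⊆ ((Icc 1 X).filter fun p => p ∈ E.PP ∧
      ∃ m : ℕ, |‖TL (E.chr p) (X ^ 4)‖ ^ 2 - kap * m| ≤ 1 / Real.log X) ∪ Finset.range p₀ := by
    intro p hp
    rw [mem_filter, mem_Icc] at hp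
    rw [mem_union, mem_filter, mem_range, mem_Icc]
    rcases lt_or_ge p p₀ with h0 | h0
    · exact Or.inr h0
    · left
      obtain ⟨h1, h2⟩ := h p h0 hp.2
      obtain ⟨m, hm⟩ := h2 X hp.1.2 hX2
      exact ⟨hp.1, h1, m, hm.trans (hX₁ X ((le_max_left _ _).trans hX) hX2)⟩
  have h1 : (((Icc 1 X).filter fun p => P p).card : ℝ) ≤
      C * X / (Real.log X) ^ (1 + 1 / 25 : ℝ) + p₀ := by
    have h2 := (Finset.card_le_card hsub).trans (Finset.card_union_le _ _)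
    rw [card_range] at h2
    have h3 : (((Icc 1 X).filter fun p => P p).card : ℝ) ≤
      (((Icc 1 X).filter fun p => p ∈ E.PP ∧
        ∃ m : ℕ, |‖TL (E.chr p) (X ^ 4)‖ ^ 2 - kap * m| ≤ 1 / Real.log X).card : ℝ) + p₀ := by
      exact_mod_cast h2
    exact h3.trans (add_le_add (hC X hX2) le_rfl)
  refine h1.trans ?_
  have h4 := hx₀ X ((Nat.le_ceil _).trans (by exact_mod_cast (le_max_right _ _).trans hX))
  rw [Real.norm_of_nonneg hp.le, Real.rpow_one, Real.norm_of_nonneg (by linarith), one_mul] at h4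
  rw [le_div_iff₀ hp, add_mul, div_mul_cancel₀ _ hp.ne', add_mul]
  have : (p₀ : ℝ) * (Real.log X) ^ (1 + 1 / 25 : ℝ) ≤ p₀ * X :=
    mul_le_mul_of_nonneg_left h4 (Nat.cast_nonneg _)
  linarith

open scoped Classical in
theorem count4 : ∃ C : ℝ, ∀ X : ℕ, 2 ≤ X →
    (((Icc 1 X).filter fun p => p.Prime ∧ p % 8 = 5 ∧ Irr4 p).card : ℝ) ≤
      C * X / (Real.log X) ^ (1 + 1 / 25 : ℝ) := by
  obtain ⟨E, hE, hord⟩ := exists_dat4
  obtain ⟨C, hC⟩ := count_of (by norm_num) (by norm_num) E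
    (fun p => p.Prime ∧ p % 8 = 5 ∧ Irr4 p) 6 (fun p hp hP => by
      have hm : p ∈ E.PP := (hE p).2 ⟨hP.1, by omega, hP.2.1⟩
      exact ⟨hm, bad4 hP.1 hP.2.1 (by omega) _ (hord p hm) hP.2.2⟩)
  exact ⟨C, fun X hX => by convert hC X hX⟩

open scoped Classical in
theorem count6 : ∃ C : ℝ, ∀ X : ℕ, 2 ≤ X →
    (((Icc 1 X).filter fun p => p.Prime ∧ p % 12 = 7 ∧ Irr6 p).card : ℝ) ≤
      C * X / (Real.log X) ^ (1 + 1 / 25 : ℝ) := by
  obtain ⟨E, hE, hord⟩ := exists_dat6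
  obtain ⟨C, hC⟩ := count_of (by norm_num) (by norm_num) E
    (fun p => p.Prime ∧ p % 12 = 7 ∧ Irr6 p) 8 (fun p hp hP => by
      have hm : p ∈ E.PP := (hE p).2 ⟨hP.1, by omega, hP.2.1⟩
      exact ⟨hm, bad6 hP.1 hP.2.1 (by omega) _ (hord p hm) hP.2.2⟩)
  exact ⟨C, fun X hX => by convert hC X hX⟩

theorem inf4 : {p : ℕ | p.Prime ∧ p % 8 = 5 ∧ ¬ Irr4 p}.Infinite := by
  classical
  obtain ⟨C, hC⟩ := count4
  have h := inf_of_count (q := 8) (a := 5) (by decide) {p | p.Prime ∧ p % 8 = 5 ∧ Irr4 p} C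
    (fun X hX => by simpa using hC X hX)
  refine h.mono fun p hp => ?_
  obtain ⟨h1, h2, h3⟩ := hp
  have h4 : p % 8 = 5 := by
    have := (ZMod.natCast_eq_natCast_iff' p 5 8).1 (by exact_mod_cast h2)
    omega
  exact ⟨h1, h4, fun h5 => h3 ⟨h1, h4, h5⟩⟩

theorem inf6 : {p : ℕ | p.Prime ∧ p % 12 = 7 ∧ ¬ Irr6 p}.Infinite := by
  classical
  obtain ⟨C, hC⟩ := count6
  have h := inf_of_count (q := 12) (a := 7) (by decide) {p | p.Prime ∧ p % 12 = 7 ∧ Irr6 p} C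
    (fun X hX => by simpa using hC X hX)
  refine h.mono fun p hp => ?_
  obtain ⟨h1, h2, h3⟩ := hp
  have h4 : p % 12 = 7 := by
    have := (ZMod.natCast_eq_natCast_iff' p 7 12).1 (by exact_mod_cast h2)
    omega
  exact ⟨h1, h4, fun h5 => h3 ⟨h1, h4, h5⟩⟩

end Pool.QS
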