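import Pool.Agent.Lib.MP_a3a416_nt.QS.Local
import Pool.Agent.Lib.MP_a3a416_nt.QS.Box

/-! QS-GL: weighted box sums of products of local functions.

PROOF.
Expand w = (sum_B 1[∀ q∈B, psi q = 0] lam B)^2 = sum_{B,C ∈ DD D} lam B lam C 1[∀ q ∈ B ∪ C, psi q a b = 0].
 For U = S ∪ B ∪ C put F_q = f_q * 1[psi_q = 0] (q ∈ S ∩ (B∪C)), f_q (q ∈ S \ (B∪C)), 1[psi_q=0] (q ∈ (B∪C) \ S).
 Then 1[..] * ∏_{q∈S} f q = ∏_{q∈U} F_q, F_q is q-periodic with norm <= 1, so by box_sum with M = ∏_{q∈U} q and mean_prod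
   box K (∏_{U} F_q) = (2K)^2 ∏_{q∈U} mean q F_q + O(8 K ∏_{q∈U} q),  ∏_{U} q <= (∏_S q) D^2.
 Sum over B, C with |lam B|,|lam C| <= D^2, number of pairs <= D^2 (DD_card): total error <= 8 K D^8 ∏_S q.
 Main term (2K)^2 * E, E = sum_{B,C} lam B lam C ∏_{q ∈ U} mean q F_q.
 * gl_zero: every term of E vanishes, because q₀ ∈ S ⊆ U and mean q₀ F_{q₀} = 0 in both cases (h1, h2).
 * gl_main: need |E| <= 1/GG. Let W = S ∪ P5 D, M0 = ∏_{q ∈ W} q. Since mean q 1 = 1, E = sum lam lam ∏_{q∈W} mean q F_q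
   = mean M0 (w * ∏_S f)  (mean_prod, linearity), so |E| <= mean M0 w (|∏ f| <= 1, w >= 0)
   = sum_{B,C} lam B lam C ∏_{q∈B∪C} g q (mean_zero) = 1/selG = 1/GG by `selberg` (P = P5 D, F = DD D).
-/

set_option autoImplicit false

open Finset

namespace Pool.QS
variable {d : ℕ} (L : Loc d)

open scoped Classical in
/-- the local factors -/
private noncomputable def gF (S T : Finset ℕ) (f : ℕ → ℤ → ℤ → ℂ) (q : ℕ) (a b : ℤ) : ℂ :=
  (if q ∈ S then f q a b else 1) * (if q ∈ T then (if L.psi q a b = 0 then 1 else 0) else 1)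

open scoped Classical in
private theorem gl_prod (S T W : Finset ℕ) (hS : S ⊆ W) (hT : T ⊆ W) (f : ℕ → ℤ → ℤ → ℂ)
    (a b : ℤ) : ∏ q ∈ W, gF L S T f q a b =
      (∏ q ∈ S, f q a b) * (if ∀ q ∈ T, L.psi q a b = 0 then 1 else 0) := by
  unfold gF
  rw [prod_mul_distrib, prod_ite_mem, prod_ite_mem, inter_eq_right.2 hS, inter_eq_right.2 hT,
    prod_ite_zero]
  simp

open scoped Classical in
private theorem gl_w (D : ℕ) (a b : ℤ) : (L.w D a b : ℂ) =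
    ∑ z ∈ DD D ×ˢ DD D, ((L.lam D z.1 * L.lam D z.2 : ℝ) : ℂ) *
      (if ∀ q ∈ z.1 ∪ z.2, L.psi q a b = 0 then 1 else 0) := by
  unfold Loc.w
  rw [sq, sum_mul_sum, sum_product]
  push_cast
  rw [sum_filter]
  refine sum_congr rfl fun B _ => ?_
  by_cases hB : ∀ q ∈ B, L.psi q a b = 0
  · rw [if_pos hB, sum_filter]
    refine sum_congr rfl fun C _ => ?_
    by_cases hC : ∀ q ∈ C, L.psi q a b = 0
    · rw [if_pos hC, if_pos, mul_one]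
      intro q hq
      rcases mem_union.1 hq with h | h
      · exact hB q h
      · exact hC q h
    · rw [if_neg hC, if_neg, mul_zero]
      exact fun h => hC fun q hq => h q (mem_union_right _ hq)
  · rw [if_neg hB]
    symm
    refine sum_eq_zero fun C _ => ?_
    rw [if_neg, mul_zero]
    exact fun h => hB fun q hq => h q (mem_union_left _ hq)

private theorem gl_expand (D : ℕ) (S : Finset ℕ) (f : ℕ → ℤ → ℤ → ℂ) (W : Finset ℕ → Finset ℕ →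
    Finset ℕ) (hW : ∀ B C, S ⊆ W B C) (hW' : ∀ B ∈ DD D, ∀ C ∈ DD D, B ∪ C ⊆ W B C) (a b : ℤ) :
    (L.w D a b : ℂ) * ∏ q ∈ S, f q a b =
      ∑ z ∈ DD D ×ˢ DD D, ((L.lam D z.1 * L.lam D z.2 : ℝ) : ℂ) *
        ∏ q ∈ W z.1 z.2, gF L S (z.1 ∪ z.2) f q a b := by
  classical
  rw [gl_w, sum_mul]
  refine sum_congr rfl fun z hz => ?_
  obtain ⟨h1, h2⟩ := mem_product.1 hz
  rw [gl_prod L S (z.1 ∪ z.2) (W z.1 z.2) (hW _ _) (hW' _ h1 _ h2) f a b]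
  ring

private theorem gl_per (S T : Finset ℕ) (f : ℕ → ℤ → ℤ → ℂ) (hf : ∀ q ∈ S, Per q (f q)) (q : ℕ)
    (hq : q.Prime) (h5 : 5 ≤ q) : Per q (gF L S T f q) := by
  classical
  intro a b s t
  unfold gF
  rw [L.per q hq h5]
  by_cases h : q ∈ S
  · rw [if_pos h, if_pos h, hf q h a b s t]
  · rw [if_neg h, if_neg h]

private theorem gl_norm (S T : Finset ℕ) (f : ℕ → ℤ → ℤ → ℂ) (hf1 : ∀ q ∈ S, ∀ a b, ‖f q a b‖ ≤ 1)
    (q : ℕ) (a b : ℤ) : ‖gF L S T f q a b‖ ≤ 1 := by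
  classical
  unfold gF
  rw [norm_mul]
  refine mul_le_one₀ ?_ (norm_nonneg _) ?_
  · split_ifs with h
    · exact hf1 q h a b
    · simp
  · split_ifs <;> simp

private theorem gl_box_sum {ι : Type*} (K : ℕ) (s : Finset ι) (c : ι → ℂ) (h : ι → ℤ → ℤ → ℂ) :
    box K (fun a b => ∑ i ∈ s, c i * h i a b) = ∑ i ∈ s, c i * box K (h i) := by
  unfold box
  simp only [mul_sum]
  calc ∑ a ∈ Ico (-(K : ℤ)) K, ∑ b ∈ Ico (-(K : ℤ)) K, ∑ i ∈ s, c i * h i a b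
      = ∑ a ∈ Ico (-(K : ℤ)) K, ∑ i ∈ s, ∑ b ∈ Ico (-(K : ℤ)) K, c i * h i a b :=
        sum_congr rfl fun a _ => sum_comm
    _ = ∑ i ∈ s, ∑ a ∈ Ico (-(K : ℤ)) K, ∑ b ∈ Ico (-(K : ℤ)) K, c i * h i a b := sum_comm

private theorem gl_mean_sum {ι : Type*} (M : ℕ) (s : Finset ι) (c : ι → ℂ) (h : ι → ℤ → ℤ → ℂ) :
    mean M (fun a b => ∑ i ∈ s, c i * h i a b) = ∑ i ∈ s, c i * mean M (h i) := by
  unfold mean
  simp only [mul_div_assoc', ← sum_div, mul_sum]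
  congr 1
  calc ∑ a ∈ range M, ∑ b ∈ range M, ∑ i ∈ s, c i * h i a b
      = ∑ a ∈ range M, ∑ i ∈ s, ∑ b ∈ range M, c i * h i a b :=
        sum_congr rfl fun a _ => sum_comm
    _ = ∑ i ∈ s, ∑ a ∈ range M, ∑ b ∈ range M, c i * h i a b := sum_comm

/-- the main term -/
private noncomputable def gE (D : ℕ) (S : Finset ℕ) (f : ℕ → ℤ → ℤ → ℂ) : ℂ :=
  ∑ z ∈ DD D ×ˢ DD D, ((L.lam D z.1 * L.lam D z.2 : ℝ) : ℂ) *
    ∏ q ∈ S ∪ (z.1 ∪ z.2), mean q (gF L S (z.1 ∪ z.2) f q)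

private theorem gl_prime {D : ℕ} {S : Finset ℕ} (hS : ∀ q ∈ S, q.Prime ∧ 5 ≤ q) {B C : Finset ℕ}
    (hB : B ∈ DD D) (hC : C ∈ DD D) : ∀ q ∈ S ∪ (B ∪ C), q.Prime ∧ 5 ≤ q := by
  intro q hq
  rcases mem_union.1 hq with h | h
  · exact hS q h
  · rcases mem_union.1 h with h | h
    · have := (mem_DD.1 hB).1 q h
      exact ⟨this.2.2, this.1⟩
    · have := (mem_DD.1 hC).1 q h
      exact ⟨this.2.2, this.1⟩

private theorem gl_approx (hd : 1 ≤ d) {D : ℕ} (hD : 1 ≤ D) (K : ℕ) (S : Finset ℕ)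
    (hS : ∀ q ∈ S, q.Prime ∧ 5 ≤ q) (f : ℕ → ℤ → ℤ → ℂ) (hf : ∀ q ∈ S, Per q (f q))
    (hf1 : ∀ q ∈ S, ∀ a b, ‖f q a b‖ ≤ 1) :
    ‖box K (fun a b => (L.w D a b : ℂ) * ∏ q ∈ S, f q a b) - (2 * (K : ℂ)) ^ 2 * gE L D S f‖ ≤
      8 * K * (D : ℝ) ^ 8 * ∏ q ∈ S, (q : ℝ) := by
  classical
  have hD0 : (1 : ℝ) ≤ D := by exact_mod_cast hD
  have e1 : (fun a b : ℤ => (L.w D a b : ℂ) * ∏ q ∈ S, f q a b) = fun a b =>
      ∑ z ∈ DD D ×ˢ DD D, ((L.lam D z.1 * L.lam D z.2 : ℝ) : ℂ) *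
        (fun a b => ∏ q ∈ S ∪ (z.1 ∪ z.2), gF L S (z.1 ∪ z.2) f q a b) a b := by
    funext a b
    exact gl_expand L D S f (fun B C => S ∪ (B ∪ C)) (fun B C => subset_union_left)
      (fun B _ C _ => subset_union_right) a b
  rw [e1, gl_box_sum, gE, mul_sum, ← sum_sub_distrib]
  have hSpos : 0 ≤ ∏ q ∈ S, (q : ℝ) := prod_nonneg fun q _ => Nat.cast_nonneg q
  have hterm : ∀ z ∈ DD D ×ˢ DD D,
      ‖((L.lam D z.1 * L.lam D z.2 : ℝ) : ℂ) *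
        box K (fun a b => ∏ q ∈ S ∪ (z.1 ∪ z.2), gF L S (z.1 ∪ z.2) f q a b) -
        (2 * (K : ℂ)) ^ 2 * (((L.lam D z.1 * L.lam D z.2 : ℝ) : ℂ) *
          ∏ q ∈ S ∪ (z.1 ∪ z.2), mean q (gF L S (z.1 ∪ z.2) f q))‖ ≤
        (D : ℝ) ^ 4 * (8 * K * (∏ q ∈ S, (q : ℝ)) * (D : ℝ) ^ 2) := by
    intro z hz
    obtain ⟨h1, h2⟩ := mem_product.1 hz
    have hpr := gl_prime hS h1 h2
    have hM : 1 ≤ ∏ q ∈ S ∪ (z.1 ∪ z.2), q :=
      Nat.one_le_iff_ne_zero.2 (prod_ne_zero_iff.2 fun q hq => (hpr q hq).1.ne_zero)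
    have hbox := box_sum hM K (fun a b => ∏ q ∈ S ∪ (z.1 ∪ z.2), gF L S (z.1 ∪ z.2) f q a b)
      (per_prod _ _ fun q hq => gl_per L S _ f hf q (hpr q hq).1 (hpr q hq).2) 1
      (fun a b => by
        rw [norm_prod]
        exact prod_le_one (fun q _ => norm_nonneg _) fun q _ => gl_norm L S _ f hf1 q a b)
    rw [mean_prod _ (fun q hq => (hpr q hq).1) _
      (fun q hq => gl_per L S _ f hf q (hpr q hq).1 (hpr q hq).2)] at hbox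
    have hlam : ‖((L.lam D z.1 * L.lam D z.2 : ℝ) : ℂ)‖ ≤ (D : ℝ) ^ 4 := by
      rw [Complex.norm_real, norm_mul, Real.norm_eq_abs, Real.norm_eq_abs]
      calc |L.lam D z.1| * |L.lam D z.2| ≤ (D : ℝ) ^ 2 * (D : ℝ) ^ 2 :=
            mul_le_mul (L.lam_abs hD h1) (L.lam_abs hD h2) (abs_nonneg _) (by positivity)
        _ = (D : ℝ) ^ 4 := by ring
    have hprod : ((∏ q ∈ S ∪ (z.1 ∪ z.2), q : ℕ) : ℝ) ≤ (∏ q ∈ S, (q : ℝ)) * (D : ℝ) ^ 2 := by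
      have k1 : ∏ q ∈ S ∪ (z.1 ∪ z.2), q ≤ (∏ q ∈ S, q) * ((∏ q ∈ z.1, q) * ∏ q ∈ z.2, q) := by
        have a1 : ∀ A B : Finset ℕ, (∀ q ∈ A ∪ B, 1 ≤ q) →
            ∏ q ∈ A ∪ B, q ≤ (∏ q ∈ A, q) * ∏ q ∈ B, q := by
          intro A B hAB
          rw [← prod_union_inter]
          refine Nat.le_mul_of_pos_right _ (Nat.pos_of_ne_zero (prod_ne_zero_iff.2 fun q hq => ?_))
          have := hAB q (mem_union_left _ (mem_of_mem_inter_left hq))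
          omega
        have hone : ∀ q ∈ S ∪ (z.1 ∪ z.2), 1 ≤ q := fun q hq => (hpr q hq).1.one_le
        refine (a1 S (z.1 ∪ z.2) hone).trans (Nat.mul_le_mul_left _ (a1 _ _ fun q hq => ?_))
        exact hone q (mem_union_right _ hq)
      have k2 : (∏ q ∈ z.1, q) * ∏ q ∈ z.2, q ≤ D ^ 2 := by
        rw [sq]
        exact Nat.mul_le_mul (mem_DD.1 h1).2 (mem_DD.1 h2).2
      have k3 : ∏ q ∈ S ∪ (z.1 ∪ z.2), q ≤ (∏ q ∈ S, q) * D ^ 2 :=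
        k1.trans (Nat.mul_le_mul_left _ k2)
      calc ((∏ q ∈ S ∪ (z.1 ∪ z.2), q : ℕ) : ℝ) ≤ (((∏ q ∈ S, q) * D ^ 2 : ℕ) : ℝ) := by
            exact_mod_cast k3
        _ = (∏ q ∈ S, (q : ℝ)) * (D : ℝ) ^ 2 := by push_cast; ring
    have e2 : ((L.lam D z.1 * L.lam D z.2 : ℝ) : ℂ) *
        box K (fun a b => ∏ q ∈ S ∪ (z.1 ∪ z.2), gF L S (z.1 ∪ z.2) f q a b) -
        (2 * (K : ℂ)) ^ 2 * (((L.lam D z.1 * L.lam D z.2 : ℝ) : ℂ) *
          ∏ q ∈ S ∪ (z.1 ∪ z.2), mean q (gF L S (z.1 ∪ z.2) f q)) =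
        ((L.lam D z.1 * L.lam D z.2 : ℝ) : ℂ) *
        (box K (fun a b => ∏ q ∈ S ∪ (z.1 ∪ z.2), gF L S (z.1 ∪ z.2) f q a b) -
        (2 * (K : ℂ)) ^ 2 * ∏ q ∈ S ∪ (z.1 ∪ z.2), mean q (gF L S (z.1 ∪ z.2) f q)) := by
      ring
    rw [e2, norm_mul]
    refine mul_le_mul hlam (hbox.trans ?_) (norm_nonneg _) (by positivity)
    rw [mul_one]
    have hK : (0 : ℝ) ≤ 8 * K := by positivity
    calc 8 * (K : ℝ) * ((∏ q ∈ S ∪ (z.1 ∪ z.2), q : ℕ) : ℝ)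
        ≤ 8 * (K : ℝ) * ((∏ q ∈ S, (q : ℝ)) * (D : ℝ) ^ 2) := mul_le_mul_of_nonneg_left hprod hK
      _ = 8 * K * (∏ q ∈ S, (q : ℝ)) * (D : ℝ) ^ 2 := by ring
  refine (norm_sum_le _ _).trans ((sum_le_card_nsmul _ _ _ hterm).trans ?_)
  rw [card_product, nsmul_eq_mul]
  have hc : (((DD D).card * (DD D).card : ℕ) : ℝ) ≤ (D : ℝ) ^ 2 := by
    have : (DD D).card * (DD D).card ≤ D * D := Nat.mul_le_mul DD_card DD_card
    rw [sq]
    exact_mod_cast this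
  calc (((DD D).card * (DD D).card : ℕ) : ℝ) *
        ((D : ℝ) ^ 4 * (8 * K * (∏ q ∈ S, (q : ℝ)) * (D : ℝ) ^ 2))
      ≤ (D : ℝ) ^ 2 * ((D : ℝ) ^ 4 * (8 * K * (∏ q ∈ S, (q : ℝ)) * (D : ℝ) ^ 2)) :=
        mul_le_mul_of_nonneg_right hc (by positivity)
    _ = 8 * K * (D : ℝ) ^ 8 * ∏ q ∈ S, (q : ℝ) := by ring

private theorem gl_E_mean {D : ℕ} (S : Finset ℕ)
    (hS : ∀ q ∈ S, q.Prime ∧ 5 ≤ q) (f : ℕ → ℤ → ℤ → ℂ) (hf : ∀ q ∈ S, Per q (f q)) :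
    gE L D S f = mean (∏ q ∈ S ∪ P5 D, q) (fun a b => (L.w D a b : ℂ) * ∏ q ∈ S, f q a b) := by
  classical
  have hW : ∀ B ∈ DD D, ∀ C ∈ DD D, B ∪ C ⊆ P5 D := by
    intro B hB C hC
    exact union_subset (mem_powerset.1 (DD_sub D hB)) (mem_powerset.1 (DD_sub D hC))
  have hpr : ∀ q ∈ S ∪ P5 D, q.Prime ∧ 5 ≤ q := by
    intro q hq
    rcases mem_union.1 hq with h | h
    · exact hS q h
    · have := mem_P5.1 h
      exact ⟨this.2.2, this.1⟩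
  have e1 : (fun a b : ℤ => (L.w D a b : ℂ) * ∏ q ∈ S, f q a b) = fun a b =>
      ∑ z ∈ DD D ×ˢ DD D, ((L.lam D z.1 * L.lam D z.2 : ℝ) : ℂ) *
        (fun a b => ∏ q ∈ S ∪ P5 D, gF L S (z.1 ∪ z.2) f q a b) a b := by
    funext a b
    exact gl_expand L D S f (fun _ _ => S ∪ P5 D) (fun _ _ => subset_union_left)
      (fun B hB C hC => (hW B hB C hC).trans subset_union_right) a b
  rw [e1, gl_mean_sum, gE]
  refine sum_congr rfl fun z hz => ?_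
  obtain ⟨h1, h2⟩ := mem_product.1 hz
  congr 1
  rw [mean_prod _ (fun q hq => (hpr q hq).1) _
    (fun q hq => gl_per L S _ f hf q (hpr q hq).1 (hpr q hq).2)]
  refine prod_subset (union_subset_union_right (hW _ h1 _ h2)) fun q hq hq' => ?_
  have h3 : q ∉ S := fun h => hq' (mem_union_left _ h)
  have h4 : q ∉ z.1 ∪ z.2 := fun h => hq' (mem_union_right _ h)
  have h5 : gF L S (z.1 ∪ z.2) f q = fun _ _ => 1 := by
    funext a b
    unfold gF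
    rw [if_neg h3, if_neg h4, mul_one]
  rw [h5]
  exact mean_one (hpr q hq).1.one_le

private theorem gl_E_one (hd : 1 ≤ d) {D : ℕ} (hD : 1 ≤ D) (S : Finset ℕ)
    (hS : ∀ q ∈ S, q.Prime ∧ 5 ≤ q) : gE L D S (fun _ _ _ => 1) = ((1 / L.GG D : ℝ) : ℂ) := by
  classical
  have hsel := selberg (P5 D) L.g (fun q hq => L.g_pos (mem_P5.1 hq).2.2 (mem_P5.1 hq).1) (DD D)
    (DD_sub D) (fun A hA B hB => DD_down hA hB) (DD_emp hD)
  have hGG : L.GG D = selG L.g (DD D) := rfl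
  rw [hGG, ← hsel, gE, ← sum_product', Complex.ofReal_sum]
  refine sum_congr rfl fun z hz => ?_
  obtain ⟨h1, h2⟩ := mem_product.1 hz
  have hpr := gl_prime hS h1 h2
  have h3 : ∏ q ∈ S ∪ (z.1 ∪ z.2), mean q (gF L S (z.1 ∪ z.2) (fun _ _ _ => 1) q) =
      ∏ q ∈ z.1 ∪ z.2, (L.g q : ℂ) := by
    have h4 : ∀ q ∈ S ∪ (z.1 ∪ z.2), mean q (gF L S (z.1 ∪ z.2) (fun _ _ _ => 1) q) =
        if q ∈ z.1 ∪ z.2 then (L.g q : ℂ) else 1 := by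
      intro q hq
      have h5 : gF L S (z.1 ∪ z.2) (fun _ _ _ => 1) q = fun a b =>
          if q ∈ z.1 ∪ z.2 then (if L.psi q a b = 0 then 1 else 0) else 1 := by
        funext a b
        unfold gF
        simp
      rw [h5]
      by_cases h6 : q ∈ z.1 ∪ z.2
      · simp only [if_pos h6]
        rw [← L.mean_zero (hpr q hq).1 (hpr q hq).2 hd]
      · simp only [if_neg h6]
        exact mean_one (hpr q hq).1.one_le
    rw [prod_congr rfl h4, prod_ite_mem, inter_eq_right.2 subset_union_right]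
  rw [h3]
  unfold Loc.lam
  push_cast
  ring

theorem gl_main (hd : 1 ≤ d) {D : ℕ} (hD : 1 ≤ D) (K : ℕ) (S : Finset ℕ)
    (hS : ∀ q ∈ S, q.Prime ∧ 5 ≤ q) (f : ℕ → ℤ → ℤ → ℂ) (hf : ∀ q ∈ S, Per q (f q))
    (hf1 : ∀ q ∈ S, ∀ a b, ‖f q a b‖ ≤ 1) :
    ‖box K (fun a b => (L.w D a b : ℂ) * ∏ q ∈ S, f q a b)‖ ≤
      (2 * (K : ℝ)) ^ 2 / L.GG D + 8 * K * (D : ℝ) ^ 8 * ∏ q ∈ S, (q : ℝ) := by
  have h1 := gl_approx L hd hD K S hS f hf hf1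
  have h2 : ‖gE L D S f‖ ≤ 1 / L.GG D := by
    have e1 := gl_E_mean L (D := D) S hS f hf
    have e2 := gl_E_mean L (D := D) S hS (fun _ _ _ => 1) (fun q _ a b s t => rfl)
    rw [gl_E_one L hd hD S hS] at e2
    have e3 : ‖gE L D S f‖ ≤ (mean (∏ q ∈ S ∪ P5 D, q)
        (fun a b => (L.w D a b : ℂ) * ∏ q ∈ S, (1 : ℂ))).re := by
      rw [e1]
      have e4 : mean (∏ q ∈ S ∪ P5 D, q) (fun a b => (L.w D a b : ℂ) * ∏ q ∈ S, (1 : ℂ)) =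
          (((∑ a ∈ range (∏ q ∈ S ∪ P5 D, q), ∑ b ∈ range (∏ q ∈ S ∪ P5 D, q),
            L.w D (a : ℤ) (b : ℤ)) / ((∏ q ∈ S ∪ P5 D, q : ℕ) : ℝ) ^ 2 : ℝ) : ℂ) := by
        unfold mean
        push_cast
        simp
      rw [e4, Complex.ofReal_re]
      unfold mean
      rw [norm_div, norm_pow, Complex.norm_natCast]
      refine div_le_div_of_nonneg_right ?_ (by positivity)
      refine (norm_sum_le _ _).trans (sum_le_sum fun a _ => ?_)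
      refine (norm_sum_le _ _).trans (sum_le_sum fun b _ => ?_)
      rw [norm_mul, Complex.norm_real, Real.norm_of_nonneg (L.w_nonneg D a b), norm_prod]
      refine mul_le_of_le_one_right (L.w_nonneg D a b) ?_
      exact prod_le_one (fun q _ => norm_nonneg _) fun q hq => hf1 q hq a b
    rw [← e2, Complex.ofReal_re] at e3
    exact e3
  have h3 : ‖(2 * (K : ℂ)) ^ 2 * gE L D S f‖ ≤ (2 * (K : ℝ)) ^ 2 / L.GG D := by
    rw [norm_mul, norm_pow, norm_mul, Complex.norm_natCast]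
    have h4 : ‖(2 : ℂ)‖ = 2 := by simp
    rw [h4, div_eq_mul_one_div]
    exact mul_le_mul_of_nonneg_left h2 (by positivity)
  calc ‖box K (fun a b => (L.w D a b : ℂ) * ∏ q ∈ S, f q a b)‖
      = ‖(2 * (K : ℂ)) ^ 2 * gE L D S f +
        (box K (fun a b => (L.w D a b : ℂ) * ∏ q ∈ S, f q a b) -
          (2 * (K : ℂ)) ^ 2 * gE L D S f)‖ := by
        congr 1
        ring
    _ ≤ _ := (norm_add_le _ _).trans (add_le_add h3 h1)

theorem gl_zero (hd : 1 ≤ d) {D : ℕ} (hD : 1 ≤ D) (K : ℕ) (S : Finset ℕ)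
    (hS : ∀ q ∈ S, q.Prime ∧ 5 ≤ q) (f : ℕ → ℤ → ℤ → ℂ) (hf : ∀ q ∈ S, Per q (f q))
    (hf1 : ∀ q ∈ S, ∀ a b, ‖f q a b‖ ≤ 1) (q₀ : ℕ) (hq₀ : q₀ ∈ S)
    (h1 : mean q₀ (f q₀) = 0)
    (h2 : mean q₀ (fun a b => if L.psi q₀ a b = 0 then f q₀ a b else 0) = 0) :
    ‖box K (fun a b => (L.w D a b : ℂ) * ∏ q ∈ S, f q a b)‖ ≤
      8 * K * (D : ℝ) ^ 8 * ∏ q ∈ S, (q : ℝ) := by
  have h3 := gl_approx L hd hD K S hS f hf hf1
  have h4 : gE L D S f = 0 := by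
    classical
    unfold gE
    refine sum_eq_zero fun z _ => ?_
    rw [prod_eq_zero (mem_union_left _ hq₀), mul_zero]
    by_cases h5 : q₀ ∈ z.1 ∪ z.2
    · rw [← h2]
      congr 1
      funext a b
      unfold gF
      rw [if_pos hq₀, if_pos h5]
      split_ifs <;> simp
    · rw [← h1]
      congr 1
      funext a b
      unfold gF
      rw [if_pos hq₀, if_neg h5, mul_one]
  rw [h4, mul_zero, sub_zero] at h3
  exact h3

end Pool.QS
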