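import Pool.Agent.Lib.MP_a3a416_nt.QS.Local

/-! QS-GLow: lower bound for the sieve constant.

PROOF.
Put r(n) = sum_{e | n} chi(e) (real valued). For a prime q >= 5: sum_{v>=1} r(q^v)/q^v = h q  (r(q^v) = v+1 if chi q = 1,
 = [v even] if chi q = -1; h = g/(1-g) = (2q-1)/(q-1)^2 resp. 1/(q^2-1)). You only need the finite inequality
   sum_{v=1}^V r(q^v)/q^v <= h q   (r >= 0).
 (1) sum_{n <= D, (n,6)=1} r(n)/n <= GG D: r is multiplicative and >= 0; group the n by primeFactors n = A; ∏_{q∈A} q <= n <= D,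
     so A ∈ DD D, and the n <= D with primeFactors = A inject into functions A → [1, D] (exponents):
     sum <= ∏_{q∈A} sum_{v=1}^{D} r(q^v)/q^v <= ∏ h q.
     (r(n) = ∏_{q | n} r(q^{v_q(n)}); it is fine to define r directly as that product, see (2), or use
      ArithmeticFunction multiplicativity.)
 (2) sum_{n<=D,(n,6)=1} r(n)/n = sum_{f<=D,(f,6)=1} (1/f) sum_{e <= D/f, (e,6)=1} chi(e)/e >= (1/2) sum_{f <= D,(f,6)=1} 1/f  by chi_low.
 (3) sum_{f<=D, (f,6)=1} 1/f >= sum_{j: 6j+1 <= D} 1/(6j+1) >= (1/6) log((D+?)/6).. so that (1/2) of it is >= (log D)/24 whenever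
     log D >= 24 say; and for log D <= 24 use GG >= 1 (term ∅).
-/

set_option autoImplicit false

open Finset

namespace Pool.QS
variable {d : ℕ} (L : Loc d)

/-- local factor -/
private noncomputable def rho (c : ℝ) (q v : ℕ) : ℝ := (∑ i ∈ range (v + 1), c ^ i) / (q : ℝ) ^ v

private theorem rho_nonneg {c : ℝ} (hc : c = 1 ∨ c = -1) (q v : ℕ) : 0 ≤ rho c q v := by
  unfold rho
  refine div_nonneg ?_ (by positivity)
  rcases hc with rfl | rfl
  · simp
    positivity
  · rw [neg_one_geom_sum]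
    split_ifs <;> norm_num

private theorem rho_zero (c : ℝ) (q : ℕ) : rho c q 0 = 1 := by
  simp [rho]

private theorem rho_sum {c : ℝ} (hc : c = 1 ∨ c = -1) {q : ℕ} (hq : 5 ≤ q) (V : ℕ) :
    ∑ v ∈ Icc 1 V, rho c q v ≤ ((1 - c / q) * (1 - 1 / q))⁻¹ - 1 := by
  have hq0 : (5 : ℝ) ≤ q := by exact_mod_cast hq
  have hqp : (0 : ℝ) < q := by linarith
  set x : ℝ := 1 / q with hx
  have hx0 : 0 < x := by positivity
  have hx1 : x < 1 := by
    rw [hx, div_lt_one hqp]
    linarith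
  have hcx : ‖c * x‖ < 1 := by
    rw [norm_mul]
    have : ‖c‖ = 1 := by rcases hc with rfl | rfl <;> simp
    rw [this, one_mul, Real.norm_of_nonneg hx0.le]
    exact hx1
  have hxn : ‖x‖ < 1 := by
    rw [Real.norm_of_nonneg hx0.le]
    exact hx1
  have h1 : Summable fun n : ℕ => ‖(c * x) ^ n‖ := summable_norm_geometric_of_norm_lt_one hcx
  have h2 : Summable fun n : ℕ => ‖x ^ n‖ := summable_norm_geometric_of_norm_lt_one hxn
  have h3 := tsum_mul_tsum_eq_tsum_sum_range_of_summable_norm h1 h2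
  have hs := summable_norm_sum_mul_range_of_summable_norm h1 h2
  rw [tsum_geometric_of_norm_lt_one hcx, tsum_geometric_of_norm_lt_one hxn] at h3
  have h4 : ∀ v : ℕ, ∑ k ∈ range (v + 1), (c * x) ^ k * x ^ (v - k) = rho c q v := by
    intro v
    unfold rho
    rw [sum_div]
    refine sum_congr rfl fun k hk => ?_
    have hk' : k ≤ v := by
      have := mem_range.1 hk
      omega
    rw [mul_pow, mul_assoc, ← pow_add, Nat.add_sub_cancel' hk', hx]
    rw [one_div, inv_pow, div_eq_mul_inv]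
  have h5 : Summable fun v => rho c q v := by
    have := hs.of_norm
    simpa only [h4] using this
  have h6 : ∑' v, rho c q v = ((1 - c / q) * (1 - 1 / q))⁻¹ := by
    rw [← tsum_congr h4, ← h3, mul_inv, hx]
    congr 2
    ring
  have h7 : ∑ v ∈ range (V + 1), rho c q v ≤ ∑' v, rho c q v :=
    h5.sum_le_tsum _ fun v _ => rho_nonneg hc q v
  have h8 : ∑ v ∈ range (V + 1), rho c q v = ∑ v ∈ Icc 1 V, rho c q v + 1 := by
    rw [sum_range_succ', rho_zero]
    congr 1
    have h9 : ∀ W : ℕ, ∑ k ∈ range W, rho c q (k + 1) = ∑ v ∈ Icc 1 W, rho c q v := by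
      intro W
      induction W with
      | zero => simp
      | succ W ih => rw [sum_range_succ, ih, Finset.sum_Icc_succ_top (by omega)]
    exact h9 V
  rw [h8, h6] at h7
  linarith

private theorem rho_h {q : ℕ} (hq : q.Prime) (h5 : 5 ≤ q) (V : ℕ) :
    ∑ v ∈ Icc 1 V, rho (L.chi q : ℝ) q v ≤ L.h q := by
  have hc : (L.chi q : ℝ) = 1 ∨ (L.chi q : ℝ) = -1 := by
    rcases L.chi_pm hq h5 with h | h <;> rw [h] <;> simp
  refine (rho_sum hc h5 V).trans (le_of_eq ?_)
  have hq0 : (5 : ℝ) ≤ q := by exact_mod_cast h5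
  have h1 : (q : ℝ) - 1 ≠ 0 := by linarith
  have h2 : (q : ℝ) - L.chi q ≠ 0 := by
    rcases hc with h | h <;> rw [h]
    · exact h1
    · linarith
  have h3 : (q : ℝ) ≠ 0 := by linarith
  have h4 : 1 - L.g q = (1 - (L.chi q : ℝ) / q) * (1 - 1 / q) := by
    unfold Loc.g
    field_simp
    ring
  have h5' : 1 - L.g q ≠ 0 := by
    have := (L.g_pos hq h5).2
    linarith
  unfold Loc.h
  rw [← h4]
  field_simp
  ring

/-- the integers up to `D` prime to `6` -/
private def NN (D : ℕ) : Finset ℕ := (Icc 1 D).filter fun n => n.Coprime 6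

private theorem mem_NN {D n : ℕ} : n ∈ NN D ↔ 1 ≤ n ∧ n ≤ D ∧ n.Coprime 6 := by
  rw [NN, mem_filter, mem_Icc, and_assoc]

/-- `chi` as an arithmetic function -/
private noncomputable def chiA : ArithmeticFunction ℝ :=
  ⟨fun n => if n = 0 then 0 else (L.chi n : ℝ), by simp⟩

private theorem chiA_apply {n : ℕ} (hn : n ≠ 0) : chiA L n = L.chi n := by
  change (if n = 0 then (0 : ℝ) else (L.chi n : ℝ)) = L.chi n
  rw [if_neg hn]

private theorem chiA_mult : (chiA L).IsMultiplicative := by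
  rw [ArithmeticFunction.IsMultiplicative.iff_ne_zero]
  refine ⟨?_, ?_⟩
  · rw [chiA_apply L one_ne_zero, L.chi_one]
    norm_num
  · intro m n hm hn _
    rw [chiA_apply L (mul_ne_zero hm hn), chiA_apply L hm, chiA_apply L hn, L.chi_mul]
    push_cast
    ring

private theorem chi_pow (q i : ℕ) : L.chi (q ^ i) = L.chi q ^ i := by
  induction i with
  | zero => simpa using L.chi_one
  | succ i ih => rw [pow_succ, L.chi_mul, ih, pow_succ]

private noncomputable def rA : ArithmeticFunction ℝ := chiA L * (ArithmeticFunction.zeta : ArithmeticFunction ℝ)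

private theorem rA_apply (n : ℕ) : rA L n = ∑ e ∈ n.divisors, chiA L e :=
  ArithmeticFunction.coe_mul_zeta_apply

private theorem rA_mult : (rA L).IsMultiplicative :=
  (chiA_mult L).mul ArithmeticFunction.isMultiplicative_zeta.natCast

private theorem rA_pow {q : ℕ} (hq : q.Prime) (v : ℕ) :
    rA L (q ^ v) = ∑ i ∈ range (v + 1), (L.chi q : ℝ) ^ i := by
  rw [rA_apply, Nat.sum_divisors_prime_pow hq]
  refine sum_congr rfl fun i _ => ?_
  rw [chiA_apply L (pow_ne_zero _ hq.ne_zero), chi_pow]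
  push_cast
  rfl

private theorem rA_div {n : ℕ} (hn : n ≠ 0) :
    rA L n / n = ∏ q ∈ n.primeFactors, rho (L.chi q : ℝ) q (n.factorization q) := by
  rw [ArithmeticFunction.IsMultiplicative.multiplicative_factorization (rA L) (rA_mult L) hn]
  have h1 : (n : ℝ) = ∏ q ∈ n.primeFactors, (q : ℝ) ^ n.factorization q := by
    conv_lhs => rw [← Nat.prod_factorization_pow_eq_self hn]
    rw [Finsupp.prod, Nat.support_factorization]
    push_cast
    rfl
  rw [Finsupp.prod, Nat.support_factorization]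
  have h2 : ∀ x : ℝ, x / (n : ℝ) = x / ∏ q ∈ n.primeFactors, (q : ℝ) ^ n.factorization q := by
    intro x
    rw [← h1]
  rw [h2, ← prod_div_distrib]
  refine prod_congr rfl fun q hq => ?_
  rw [rA_pow L (Nat.prime_of_mem_primeFactors hq)]
  rfl

private theorem prime_five {n q : ℕ} (hn : n.Coprime 6) (hq : q.Prime) (hqn : q ∣ n) : 5 ≤ q := by
  by_contra h
  have h2 : q = 2 ∨ q = 3 ∨ q = 4 := by
    have := hq.two_le
    omega
  have h3 : q.Coprime 6 := Nat.Coprime.coprime_dvd_left hqn hn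
  rcases h2 with rfl | rfl | rfl
  · exact absurd h3 (by decide)
  · exact absurd h3 (by decide)
  · exact absurd hq (by decide)

private theorem pf_DD {D n : ℕ} (hn : n ∈ NN D) : n.primeFactors ∈ DD D := by
  obtain ⟨h1, h2, h3⟩ := mem_NN.1 hn
  rw [mem_DD]
  refine ⟨fun q hq => ?_, ?_⟩
  · have hp := Nat.prime_of_mem_primeFactors hq
    have hd := Nat.dvd_of_mem_primeFactors hq
    exact ⟨prime_five h3 hp hd, (Nat.le_of_dvd (by omega) hd).trans h2, hp⟩
  · exact (Nat.le_of_dvd (by omega) (Nat.prod_primeFactors_dvd n)).trans h2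

private theorem step1 (D : ℕ) : ∑ n ∈ NN D, rA L n / n ≤ L.GG D := by
  classical
  rw [← sum_fiberwise_of_maps_to (t := DD D) (g := fun n => n.primeFactors) fun n hn => pf_DD hn]
  unfold Loc.GG
  refine sum_le_sum fun A hA => ?_
  have hAp := (mem_DD.1 hA).1
  have hc : ∀ q ∈ A, (L.chi q : ℝ) = 1 ∨ (L.chi q : ℝ) = -1 := by
    intro q hq
    obtain ⟨h1, -, h3⟩ := hAp q hq
    rcases L.chi_pm h3 h1 with h | h <;> rw [h] <;> simp
  have h1 : ∏ q ∈ A, ∑ v ∈ Icc 1 D, rho (L.chi q : ℝ) q v ≤ ∏ q ∈ A, L.h q := by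
    refine prod_le_prod (fun q hq => sum_nonneg fun v _ => rho_nonneg (hc q hq) q v) fun q hq => ?_
    obtain ⟨h1, -, h3⟩ := hAp q hq
    exact rho_h L h3 h1 D
  refine le_trans ?_ h1
  rw [prod_sum]
  let e : ℕ → (∀ a ∈ A, ℕ) := fun n a _ => n.factorization a
  have hinj : Set.InjOn e ((NN D).filter fun n => n.primeFactors = A) := by
    intro m hm n hn hmn
    rw [coe_filter, Set.mem_ofPred_eq] at hm hn
    obtain ⟨hm1, hm2⟩ := hm
    obtain ⟨hn1, hn2⟩ := hn
    have hm0 : m ≠ 0 := by have := (mem_NN.1 hm1).1; omega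
    have hn0 : n ≠ 0 := by have := (mem_NN.1 hn1).1; omega
    refine Nat.eq_of_factorization_eq hm0 hn0 fun q => ?_
    by_cases hq : q ∈ A
    · exact congrFun (congrFun hmn q) hq
    · have a1 : m.factorization q = 0 := by
        rw [← Finsupp.notMem_support_iff, Nat.support_factorization, hm2]
        exact hq
      have a2 : n.factorization q = 0 := by
        rw [← Finsupp.notMem_support_iff, Nat.support_factorization, hn2]
        exact hq
      rw [a1, a2]
  have h2 : ∑ n ∈ (NN D).filter (fun n => n.primeFactors = A), rA L n / n =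
      ∑ p ∈ ((NN D).filter fun n => n.primeFactors = A).image e,
        ∏ x ∈ A.attach, rho (L.chi x.1 : ℝ) x.1 (p x.1 x.2) := by
    rw [sum_image hinj]
    refine sum_congr rfl fun n hn => ?_
    obtain ⟨hn1, hn2⟩ := mem_filter.1 hn
    have hn0 : n ≠ 0 := by have := (mem_NN.1 hn1).1; omega
    rw [rA_div L hn0, hn2, ← prod_attach]
  rw [h2]
  refine sum_le_sum_of_subset_of_nonneg ?_ fun p _ _ =>
    prod_nonneg fun x _ => rho_nonneg (hc x.1 x.2) _ _
  intro p hp
  obtain ⟨n, hn, rfl⟩ := mem_image.1 hp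
  obtain ⟨hn1, hn2⟩ := mem_filter.1 hn
  obtain ⟨k1, k2, k3⟩ := mem_NN.1 hn1
  rw [mem_pi]
  intro a ha
  rw [mem_Icc]
  rw [← hn2] at ha
  refine ⟨?_, ?_⟩
  · exact (Nat.prime_of_mem_primeFactors ha).factorization_pos_of_dvd (by omega)
      (Nat.dvd_of_mem_primeFactors ha)
  · exact (Nat.factorization_lt a (by omega)).le.trans k2

private theorem step2 (D : ℕ) : ∑ n ∈ NN D, rA L n / n =
    ∑ f ∈ NN D, 1 / (f : ℝ) * ∑ e ∈ (Icc 1 (D / f)).filter (fun n => n.Coprime 6),
      (L.chi e : ℝ) / e := by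
  classical
  let P : Finset (ℕ × ℕ) := (NN D ×ˢ NN D).filter fun x => x.1 * x.2 ≤ D
  let F : ℕ × ℕ → ℝ := fun x => (L.chi x.1 : ℝ) / x.1 * (1 / x.2)
  have hmap : ∀ x ∈ P, x.1 * x.2 ∈ NN D := by
    intro x hx
    obtain ⟨h1, h2⟩ := mem_filter.1 hx
    obtain ⟨h3, h4⟩ := mem_product.1 h1
    obtain ⟨a1, a2, a3⟩ := mem_NN.1 h3
    obtain ⟨b1, b2, b3⟩ := mem_NN.1 h4
    exact mem_NN.2 ⟨Nat.mul_pos a1 b1, h2, Nat.Coprime.mul_left a3 b3⟩
  have h1 : ∑ n ∈ NN D, rA L n / n = ∑ x ∈ P, F x := by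
    rw [← sum_fiberwise_of_maps_to hmap]
    refine sum_congr rfl fun n hn => ?_
    obtain ⟨k1, k2, k3⟩ := mem_NN.1 hn
    have hP : P.filter (fun x => x.1 * x.2 = n) = n.divisorsAntidiagonal := by
      ext x
      rw [mem_filter, Nat.mem_divisorsAntidiagonal]
      constructor
      · rintro ⟨-, h⟩
        exact ⟨h, by omega⟩
      · rintro ⟨h, h0⟩
        have hx1 : 0 < x.1 := Nat.pos_of_ne_zero fun h' => h0 (by rw [← h, h', zero_mul])
        have hx2 : 0 < x.2 := Nat.pos_of_ne_zero fun h' => h0 (by rw [← h, h', mul_zero])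
        have d1 : x.1 ∣ n := ⟨x.2, h.symm⟩
        have d2 : x.2 ∣ n := ⟨x.1, by rw [mul_comm]; exact h.symm⟩
        refine ⟨mem_filter.2 ⟨mem_product.2 ⟨mem_NN.2 ⟨hx1, ?_, ?_⟩, mem_NN.2 ⟨hx2, ?_, ?_⟩⟩, ?_⟩, h⟩
        · exact (Nat.le_of_dvd (by omega) d1).trans k2
        · exact Nat.Coprime.coprime_dvd_left d1 k3
        · exact (Nat.le_of_dvd (by omega) d2).trans k2
        · exact Nat.Coprime.coprime_dvd_left d2 k3
        · rw [h]
          exact k2
    rw [hP, rA_apply, ← Nat.sum_divisorsAntidiagonal (fun e _ => chiA L e), sum_div]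
    refine sum_congr rfl fun x hx => ?_
    obtain ⟨h, h0⟩ := Nat.mem_divisorsAntidiagonal.1 hx
    have hx1 : x.1 ≠ 0 := fun h' => h0 (by rw [← h, h', zero_mul])
    have hx2 : x.2 ≠ 0 := fun h' => h0 (by rw [← h, h', mul_zero])
    rw [chiA_apply L hx1, ← h]
    simp only [F]
    push_cast
    have : (x.1 : ℝ) ≠ 0 := by exact_mod_cast hx1
    have : (x.2 : ℝ) ≠ 0 := by exact_mod_cast hx2
    field_simp
  rw [h1]
  simp only [P]
  rw [sum_filter, sum_product_right]
  refine sum_congr rfl fun f hf => ?_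
  obtain ⟨k1, k2, k3⟩ := mem_NN.1 hf
  rw [mul_sum, ← sum_filter]
  have hset : (NN D).filter (fun e => (e, f).1 * (e, f).2 ≤ D) =
      (Icc 1 (D / f)).filter (fun n => n.Coprime 6) := by
    ext e
    rw [mem_filter, mem_NN, mem_filter, mem_Icc, Nat.le_div_iff_mul_le (by omega)]
    constructor
    · rintro ⟨⟨a1, a2, a3⟩, a4⟩
      exact ⟨⟨a1, a4⟩, a3⟩
    · rintro ⟨⟨a1, a4⟩, a3⟩
      exact ⟨⟨a1, (Nat.le_mul_of_pos_right e (by omega)).trans a4, a3⟩, a4⟩
  rw [hset]
  refine sum_congr rfl fun e _ => ?_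
  simp only [F]
  ring

private theorem step3 (D : ℕ) (hD : 1 ≤ D) : Real.log D / 6 ≤ ∑ f ∈ NN D, 1 / (f : ℝ) := by
  have h1 : ∀ J : ℕ, Real.log (6 * J + 1) / 6 ≤ ∑ j ∈ range J, 1 / (6 * (j : ℝ) + 1) := by
    intro J
    induction J with
    | zero => simp
    | succ J ih =>
      rw [sum_range_succ]
      have h2 : Real.log (6 * ((J + 1 : ℕ) : ℝ) + 1) ≤ Real.log (6 * J + 1) + 6 / (6 * J + 1) := by
        have hJ : (0 : ℝ) < 6 * J + 1 := by positivity
        have h3 : 6 * ((J + 1 : ℕ) : ℝ) + 1 = (6 * J + 1) * (1 + 6 / (6 * J + 1)) := by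
          push_cast
          field_simp
          ring
        rw [h3, Real.log_mul hJ.ne' (by positivity)]
        have h4 := Real.log_le_sub_one_of_pos (show (0 : ℝ) < 1 + 6 / (6 * J + 1) by positivity)
        linarith
      have h5 : (6 : ℝ) / (6 * J + 1) / 6 = 1 / (6 * J + 1) := by
        field_simp
      calc Real.log (6 * ((J + 1 : ℕ) : ℝ) + 1) / 6 ≤
            (Real.log (6 * J + 1) + 6 / (6 * J + 1)) / 6 := by linarith
        _ = Real.log (6 * J + 1) / 6 + 1 / (6 * J + 1) := by rw [add_div, h5]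
        _ ≤ _ := by linarith
  have h2 := h1 ((D + 5) / 6)
  have h3 : Real.log D ≤ Real.log (6 * (((D + 5) / 6 : ℕ) : ℝ) + 1) := by
    refine Real.log_le_log (by exact_mod_cast hD) ?_
    have : D ≤ 6 * ((D + 5) / 6) + 1 := by omega
    exact_mod_cast this
  have h4 : ∑ j ∈ range ((D + 5) / 6), 1 / (6 * (j : ℝ) + 1) ≤ ∑ f ∈ NN D, 1 / (f : ℝ) := by
    have hinj : Set.InjOn (fun j : ℕ => 6 * j + 1) (range ((D + 5) / 6)) := by
      intro a _ b _ hab
      simp only at hab
      omega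
    have h5 : ∑ j ∈ range ((D + 5) / 6), 1 / (6 * (j : ℝ) + 1) =
        ∑ f ∈ (range ((D + 5) / 6)).image (fun j : ℕ => 6 * j + 1), 1 / (f : ℝ) := by
      rw [sum_image hinj]
      refine sum_congr rfl fun j _ => ?_
      push_cast
      rfl
    rw [h5]
    refine sum_le_sum_of_subset_of_nonneg ?_ fun f _ _ => by positivity
    intro f hf
    obtain ⟨j, hj, rfl⟩ := mem_image.1 hf
    rw [mem_range] at hj
    refine mem_NN.2 ⟨by omega, by omega, ?_⟩
    have : Nat.Coprime (6 * j + 1) 6 := by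
      rw [Nat.coprime_comm]
      simp
    exact this
  linarith

theorem GG_lower {D : ℕ} (hD : 2 ≤ D) : Real.log D / 24 ≤ L.GG D := by
  have h1 := step1 L D
  rw [step2 L D] at h1
  have h2 : ∑ f ∈ NN D, 1 / (f : ℝ) * (1 / 2) ≤
      ∑ f ∈ NN D, 1 / (f : ℝ) * ∑ e ∈ (Icc 1 (D / f)).filter (fun n => n.Coprime 6),
        (L.chi e : ℝ) / e := by
    refine sum_le_sum fun f hf => ?_
    obtain ⟨k1, k2, k3⟩ := mem_NN.1 hf
    exact mul_le_mul_of_nonneg_left (L.chi_low (D / f) (Nat.div_pos k2 k1)) (by positivity)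
  rw [← sum_mul] at h2
  have h3 := step3 D (by omega)
  have h4 : 0 ≤ Real.log D := Real.log_nonneg (by exact_mod_cast (by omega : 1 ≤ D))
  linarith

end Pool.QS
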