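import Pool.Agent.Lib.MP_a3a416_nt.QS.Defs

/-! QS-Gauss3: cubic reciprocity from Gauss sums in characteristic `q`. -/

set_option autoImplicit false

open Finset

namespace Pool.QS

private theorem exists_primitive_addChar3 {p q : ℕ} [Fact p.Prime] [Fact q.Prime] (hpq : q ≠ p)
    (F : Type*) [Field F] [CharP F q] [IsAlgClosed F] :
    ∃ ψ : AddChar (ZMod p) F, ψ.IsPrimitive := by
  have hp : (p : F) ≠ 0 := by
    intro h
    rw [CharP.cast_eq_zero_iff F q p, Nat.prime_dvd_prime_iff_eq Fact.out Fact.out] at h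
    exact hpq h
  have : NeZero (p : F) := ⟨hp⟩
  have : NeZero p := ⟨(Fact.out : p.Prime).ne_zero⟩
  obtain ⟨ζ, hζ⟩ := HasEnoughRootsOfUnity.exists_primitiveRoot F p
  exact ⟨_, AddChar.zmodChar_primitive_of_primitive_root p hζ⟩

private theorem gauss_frob3 {p q : ℕ} [Fact p.Prime] [Fact q.Prime] (hpq : q ≠ p)
    {F : Type*} [Field F] [CharP F q] (χ : MulChar (ZMod p) F) (ψ : AddChar (ZMod p) F) :
    (χ ^ q) (q : ZMod p) * gaussSum χ ψ ^ q = gaussSum (χ ^ q) ψ := by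
  have hu : IsUnit (q : ZMod p) := by
    rw [isUnit_iff_ne_zero, Ne, ZMod.natCast_eq_zero_iff, Nat.prime_dvd_prime_iff_eq Fact.out Fact.out]
    exact fun h => hpq h.symm
  rw [gaussSum_frob q χ ψ, AddChar.pow_mulShift]
  have h := gaussSum_mulShift (χ ^ q) ψ hu.unit
  rwa [hu.unit_spec] at h

theorem cubic_gauss {p q : ℕ} [Fact p.Prime] [Fact q.Prime] (hpq : q ≠ p) (h2 : 5 ≤ q)
    {F : Type*} [Field F] [CharP F q] [IsAlgClosed F] (χ : MulChar (ZMod p) F)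
    (hχ : orderOf χ = 3) :
    (q % 3 = 1 → (jacobiSum χ χ * (p : F)) ^ ((q - 1) / 3) * χ (q : ZMod p) = 1) ∧
    (q % 3 = 2 → (jacobiSum χ χ * (p : F)) ^ ((q + 1) / 3) = χ (q : ZMod p) * p) := by
  obtain ⟨ψ, hψ⟩ := exists_primitive_addChar3 hpq F
  have hp : (p : F) ≠ 0 := by
    intro h
    rw [CharP.cast_eq_zero_iff F q p, Nat.prime_dvd_prime_iff_eq Fact.out Fact.out] at h
    exact hpq h
  have h3 : χ ^ 3 = 1 := by rw [← hχ]; exact pow_orderOf_eq_one χ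
  have hχ1 : χ ≠ 1 := by
    rintro rfl
    rw [orderOf_one] at hχ
    omega
  have hχ2 : χ ^ 2 ≠ 1 := by
    intro h
    have := orderOf_dvd_of_pow_eq_one h
    rw [hχ] at this
    omega
  have hχ2' : χ * χ ≠ 1 := by rwa [← pow_two]
  have hinvχ : χ ^ 2 = χ⁻¹ := by
    rw [eq_inv_iff_mul_eq_one, ← pow_succ, h3]
  set g := gaussSum χ ψ with hg
  have hcard : ((Fintype.card (ZMod p) : ℕ) : F) = p := by rw [ZMod.card]
  have hgp : g * gaussSum χ⁻¹ ψ⁻¹ = p := by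
    rw [hg, gaussSum_mul_gaussSum_eq_card hχ1 hψ, hcard]
  have hg0 : g ≠ 0 := by
    intro h
    rw [h, zero_mul] at hgp
    exact hp hgp.symm
  have hm1 : χ (-1) = 1 := by
    have h1 : χ (-1) ^ 2 = 1 := by rw [← map_pow]; simp
    have h4 : χ (-1) ^ 3 = 1 := by
      rw [← MulChar.pow_apply' _ three_ne_zero, h3]
      exact MulChar.one_apply isUnit_one.neg
    calc χ (-1) = χ (-1) ^ 2 * χ (-1) := by rw [h1, one_mul]
      _ = χ (-1) ^ 3 := by ring
      _ = 1 := h4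
  have hm : gaussSum χ⁻¹ ψ = gaussSum χ⁻¹ ψ⁻¹ := by
    rw [← mul_gaussSum_inv_eq_gaussSum χ⁻¹ ψ, MulChar.inv_apply', inv_neg_one, hm1, one_mul]
  have hg2 : g ^ 2 = gaussSum (χ ^ 2) ψ * jacobiSum χ χ := by
    rw [pow_two, hg, ← jacobiSum_mul_nontrivial hχ2' ψ, ← pow_two]
  have hg3 : g ^ 3 = jacobiSum χ χ * p := by
    calc g ^ 3 = g ^ 2 * g := by ring
      _ = gaussSum χ⁻¹ ψ⁻¹ * jacobiSum χ χ * g := by rw [hg2, hinvχ, hm]
      _ = jacobiSum χ χ * (g * gaussSum χ⁻¹ ψ⁻¹) := by ring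
      _ = jacobiSum χ χ * p := by rw [hgp]
  have hfrob := gauss_frob3 hpq χ ψ
  rw [← hg3, ← pow_mul, ← pow_mul]
  constructor
  · intro hq
    have hχq : χ ^ q = χ := by
      conv_rhs => rw [← pow_one χ]
      rw [← Nat.div_add_mod q 3, hq, pow_add, pow_mul, h3, one_pow, one_mul]
    rw [hχq, ← hg] at hfrob
    have h5 : 3 * ((q - 1) / 3) = q - 1 := by omega
    rw [h5]
    have e : g ^ q = g ^ (q - 1) * g := by
      rw [← pow_succ]; congr 1; omega
    rw [e] at hfrob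
    have h6 : (g ^ (q - 1) * χ (q : ZMod p)) * g = 1 * g := by
      rw [one_mul]
      calc (g ^ (q - 1) * χ (q : ZMod p)) * g = χ (q : ZMod p) * (g ^ (q - 1) * g) := by ring
        _ = g := hfrob
    exact mul_right_cancel₀ hg0 h6
  · intro hq
    have hχq : χ ^ q = χ⁻¹ := by
      rw [← hinvχ, ← Nat.div_add_mod q 3, hq, pow_add, pow_mul, h3, one_pow, one_mul]
    have hu : IsUnit (q : ZMod p) := by
      rw [isUnit_iff_ne_zero, Ne, ZMod.natCast_eq_zero_iff,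
        Nat.prime_dvd_prime_iff_eq Fact.out Fact.out]
      exact fun h => hpq h.symm
    rw [hχq, ← hg] at hfrob
    have hinv : χ (q : ZMod p) * χ⁻¹ (q : ZMod p) = 1 := by
      rw [← MulChar.mul_apply, mul_inv_cancel, MulChar.one_apply hu]
    have h5 : 3 * ((q + 1) / 3) = q + 1 := by omega
    rw [h5, pow_succ]
    calc g ^ q * g = χ (q : ZMod p) * χ⁻¹ (q : ZMod p) * (g ^ q * g) := by rw [hinv, one_mul]
      _ = χ (q : ZMod p) * (χ⁻¹ (q : ZMod p) * g ^ q) * g := by ring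
      _ = χ (q : ZMod p) * gaussSum χ⁻¹ ψ⁻¹ * g := by rw [hfrob, hm]
      _ = χ (q : ZMod p) * (g * gaussSum χ⁻¹ ψ⁻¹) := by ring
      _ = χ (q : ZMod p) * p := by rw [hgp]

end Pool.QS
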