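import Mathlib

/-! QS-Sperner: the Littlewood-Offord-Erdős bound with lazy steps.

PROOF.
For v in the product put U(v) = {i ∈ T : v i = 1 ∨ v i = -1} (1 ≠ -1). Call v ~ v' if v, v' agree outside U(v) and U(v) = U(v'); the class of v is
in bijection with the subsets A of U(v) (A = {i : v i = 1}), so has 2^|U| elements. If v, v' are in the interval set, in the same class, with A ⊂ A'
strictly, then S(v') - S(v) = sum over A' \ A of (f i 1 - f i (-1)) >= σ, impossible in [c, c+σ). So the A's form an antichain in the subsets of U and by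
IsAntichain.sperner their number is <= choose(u, u/2) <= 2^u / sqrt(u+1)  (choose(2n,n)^2 (2n+1) <= 16^n by induction, and the odd case
choose(2n+1,n) = choose(2n+2,n+1)/2).
Hence the number is <= sum_v 1/sqrt(|U(v)|+1) <= sqrt(#Ω * sum_v 1/(|U(v)|+1)) and with a = #V - 2, N = #T:
 sum_v 1/(|U(v)|+1) = (#V)^{n-N} sum_k choose(N,k) 2^k a^{N-k}/(k+1) = (#V)^{n-N}/(2(N+1)) sum_k choose(N+1,k+1) 2^{k+1} a^{N-k}
   <= (#V)^{n-N} (#V)^{N+1}/(2(N+1)).
-/

set_option autoImplicit false

open Finset

namespace Pool.QS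

private theorem central_sq (n : ℕ) : n.centralBinom ^ 2 * (2 * n + 1) ≤ 16 ^ n := by
  induction n with
  | zero => simp
  | succ n ih =>
    have h := Nat.succ_mul_centralBinom_succ n
    have h2 : (n + 1) ^ 2 * ((n + 1).centralBinom ^ 2 * (2 * (n + 1) + 1)) ≤
        (n + 1) ^ 2 * 16 ^ (n + 1) := by
      calc (n + 1) ^ 2 * ((n + 1).centralBinom ^ 2 * (2 * (n + 1) + 1))
          = ((n + 1) * (n + 1).centralBinom) ^ 2 * (2 * (n + 1) + 1) := by ring
        _ = (2 * (2 * n + 1) * n.centralBinom) ^ 2 * (2 * (n + 1) + 1) := by rw [h]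
        _ = (4 * (2 * n + 1) * (2 * n + 3)) * (n.centralBinom ^ 2 * (2 * n + 1)) := by ring
        _ ≤ (4 * (2 * n + 1) * (2 * n + 3)) * 16 ^ n := Nat.mul_le_mul_left _ ih
        _ ≤ (16 * (n + 1) ^ 2) * 16 ^ n := by
            apply Nat.mul_le_mul_right
            nlinarith
        _ = (n + 1) ^ 2 * 16 ^ (n + 1) := by ring
    exact Nat.le_of_mul_le_mul_left h2 (by positivity)

private theorem choose_sq (u : ℕ) : (u.choose (u / 2)) ^ 2 * (u + 1) ≤ 4 ^ u := by
  rcases Nat.even_or_odd' u with ⟨n, hn | hn⟩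
  · subst hn
    have h := central_sq n
    rw [Nat.centralBinom_eq_two_mul_choose] at h
    have h1 : 2 * n / 2 = n := by omega
    rw [h1, pow_mul]
    norm_num
    exact h
  · subst hn
    have h := central_sq (n + 1)
    rw [Nat.centralBinom_eq_two_mul_choose] at h
    have h1 : (2 * n + 1) / 2 = n := by omega
    rw [h1]
    have h2 : (2 * (n + 1)).choose (n + 1) = 2 * (2 * n + 1).choose n := by
      have e : 2 * (n + 1) = (2 * n + 1) + 1 := by ring
      have e2 := Nat.choose_succ_succ' (2 * n + 1) n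
      have e3 := Nat.choose_symm_half n
      rw [e, e2, e3]
      ring
    rw [h2] at h
    have h3 : (4 : ℕ) ^ (2 * n + 1) = 4 * 16 ^ n := by
      rw [pow_succ, pow_mul]; norm_num; ring
    rw [h3]
    have h4 : (16 : ℕ) ^ (n + 1) = 16 * 16 ^ n := by ring
    rw [h4] at h
    set C := (2 * n + 1).choose n
    have h5 : 4 * (C ^ 2 * (2 * n + 1 + 1)) ≤ 4 * (4 * 16 ^ n) := by
      calc 4 * (C ^ 2 * (2 * n + 1 + 1)) ≤ 4 * (C ^ 2 * (2 * (n + 1) + 1)) := by
            apply Nat.mul_le_mul_left
            apply Nat.mul_le_mul_left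
            omega
        _ = (2 * C) ^ 2 * (2 * (n + 1) + 1) := by ring
        _ ≤ 16 * 16 ^ n := h
        _ = 4 * (4 * 16 ^ n) := by ring
    omega

theorem central_le (u : ℕ) : (u.choose (u / 2) : ℝ) ≤ 2 ^ u / Real.sqrt (u + 1) := by
  have hs : 0 < Real.sqrt ((u : ℝ) + 1) := Real.sqrt_pos.mpr (by positivity)
  rw [le_div_iff₀ hs]
  have h := choose_sq u
  have h' : ((u.choose (u / 2) : ℝ)) ^ 2 * ((u : ℝ) + 1) ≤ 4 ^ u := by exact_mod_cast h
  have h2 : ((u.choose (u / 2) : ℝ) * Real.sqrt ((u : ℝ) + 1)) ^ 2 ≤ (2 ^ u) ^ 2 := by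
    rw [mul_pow, Real.sq_sqrt (by positivity), ← pow_mul, mul_comm u 2, pow_mul]
    norm_num
    exact h'
  exact le_of_sq_le_sq h2 (by positivity)

section Count

variable {ι : Type*} [Fintype ι]

open scoped Classical in
/-- the representative of the class of `v` -/
private noncomputable def rep (T : Finset ι) (v : ι → ℂ) : ι → ℂ :=
  fun i => if i ∈ T ∧ v i = -1 then 1 else v i

open scoped Classical in
/-- the number of coordinates of `T` where `w` is one -/
private noncomputable def U (T : Finset ι) (w : ι → ℂ) : Finset ι :=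
  T.filter fun i => w i = 1

private theorem one_ne_neg_one : (1 : ℂ) ≠ -1 := by
  intro h
  have := congrArg Complex.re h
  norm_num at this

open scoped Classical in
private theorem rep_off {T : Finset ι} {v w : ι → ℂ} (h : rep T v = w) {i : ι}
    (hi : i ∉ U T w) : v i = w i := by
  have h1 := congrFun h i
  unfold rep at h1
  by_cases hc : i ∈ T ∧ v i = -1
  · rw [if_pos hc] at h1
    exfalso
    apply hi
    unfold U
    rw [Finset.mem_filter]
    exact ⟨hc.1, h1.symm⟩
  · rw [if_neg hc] at h1
    exact h1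

open scoped Classical in
private theorem rep_on {T : Finset ι} {v w : ι → ℂ} (h : rep T v = w) {i : ι}
    (hi : i ∈ U T w) : v i = 1 ∨ v i = -1 := by
  have h1 := congrFun h i
  unfold rep at h1
  unfold U at hi
  rw [Finset.mem_filter] at hi
  by_cases hc : i ∈ T ∧ v i = -1
  · right; exact hc.2
  · rw [if_neg hc] at h1
    left; rw [h1]; exact hi.2

open scoped Classical in
private theorem fiber_le (V : Finset ℂ) (f : ι → ℂ → ℝ) (T : Finset ι) (σ : ℝ) (hσ : 0 < σ)
    (hT : ∀ i ∈ T, σ ≤ f i 1 - f i (-1)) (c : ℝ) (w : ι → ℂ) :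
    ((((Fintype.piFinset fun _ : ι => V).filter fun v =>
      c ≤ ∑ i, f i (v i) ∧ ∑ i, f i (v i) < c + σ).filter fun v => rep T v = w).card) ≤
      (U T w).card.choose ((U T w).card / 2) := by
  set P := (((Fintype.piFinset fun _ : ι => V).filter fun v =>
      c ≤ ∑ i, f i (v i) ∧ ∑ i, f i (v i) < c + σ).filter fun v => rep T v = w) with hP
  let A : (ι → ℂ) → Finset {i // i ∈ U T w} := fun v => univ.filter fun i => v i.1 = 1
  have hinj : Set.InjOn A (P : Set (ι → ℂ)) := by
    intro v hv v' hv' he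
    rw [Finset.mem_coe, hP, Finset.mem_filter] at hv hv'
    funext i
    by_cases hi : i ∈ U T w
    · have h1 := rep_on hv.2 hi
      have h2 := rep_on hv'.2 hi
      have h3 : (⟨i, hi⟩ : {i // i ∈ U T w}) ∈ A v ↔ (⟨i, hi⟩ : {i // i ∈ U T w}) ∈ A v' := by
        rw [he]
      simp only [A, Finset.mem_filter, Finset.mem_univ, true_and] at h3
      rcases h1 with h1 | h1
      · rw [h1, h3.mp h1]
      · rcases h2 with h2 | h2
        · rw [h2, h3.mpr h2]
        · rw [h1, h2]
    · rw [rep_off hv.2 hi, rep_off hv'.2 hi]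
  have hanti : IsAntichain (· ⊆ ·) ((P.image A : Finset (Finset {i // i ∈ U T w})) :
      Set (Finset {i // i ∈ U T w})) := by
    intro a ha b hb hab hsub
    rw [Finset.mem_coe, Finset.mem_image] at ha hb
    obtain ⟨v, hv, rfl⟩ := ha
    obtain ⟨v', hv', rfl⟩ := hb
    have hne : v ≠ v' := by
      rintro rfl; exact hab rfl
    rw [hP, Finset.mem_filter, Finset.mem_filter] at hv hv'
    have hterm : ∀ i, 0 ≤ f i (v' i) - f i (v i) := by
      intro i
      by_cases hi : i ∈ U T w
      · rcases rep_on hv.2 hi with h1 | h1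
        · have : (⟨i, hi⟩ : {i // i ∈ U T w}) ∈ A v := by
            simp only [A, Finset.mem_filter, Finset.mem_univ, true_and]; exact h1
          have h2 := hsub this
          simp only [A, Finset.mem_filter, Finset.mem_univ, true_and] at h2
          rw [h1, h2]; simp
        · rcases rep_on hv'.2 hi with h2 | h2
          · rw [h1, h2]
            have hiT : i ∈ T := by
              unfold U at hi; exact (Finset.mem_filter.mp hi).1
            exact le_trans hσ.le (hT i hiT)
          · rw [h1, h2]; simp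
      · rw [rep_off hv.2 hi, rep_off hv'.2 hi]; simp
    have hbig : ∃ i, σ ≤ f i (v' i) - f i (v i) := by
      obtain ⟨i, hi'⟩ := Function.ne_iff.mp hne
      refine ⟨i, ?_⟩
      by_cases hi : i ∈ U T w
      · rcases rep_on hv.2 hi with h1 | h1
        · have : (⟨i, hi⟩ : {i // i ∈ U T w}) ∈ A v := by
            simp only [A, Finset.mem_filter, Finset.mem_univ, true_and]; exact h1
          have h2 := hsub this
          simp only [A, Finset.mem_filter, Finset.mem_univ, true_and] at h2
          exact absurd (h1.trans h2.symm) hi'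
        · rcases rep_on hv'.2 hi with h2 | h2
          · rw [h1, h2]
            have hiT : i ∈ T := by
              unfold U at hi; exact (Finset.mem_filter.mp hi).1
            exact hT i hiT
          · exact absurd (h1.trans h2.symm) hi'
      · exact absurd ((rep_off hv.2 hi).trans (rep_off hv'.2 hi).symm) hi'
    obtain ⟨i, hi⟩ := hbig
    have hsum : σ ≤ ∑ i, (f i (v' i) - f i (v i)) :=
      le_trans hi (Finset.single_le_sum (f := fun i => f i (v' i) - f i (v i))
        (fun j _ => hterm j) (Finset.mem_univ i))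
    rw [Finset.sum_sub_distrib] at hsum
    have h1 := hv.1.2.1
    have h2 := hv'.1.2.2
    linarith
  have hcard := hanti.sperner
  rw [Finset.card_image_of_injOn hinj, Fintype.card_coe] at hcard
  exact hcard

open scoped Classical in
private theorem pow_U (T : Finset ι) (w : ι → ℂ) (x : ℝ) :
    x ^ (U T w).card = ∏ i, (if i ∈ T ∧ w i = 1 then x else 1) := by
  rw [Finset.prod_ite, Finset.prod_const, Finset.prod_const_one, mul_one]
  have : (univ.filter fun i : ι => i ∈ T ∧ w i = 1) = U T w := by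
    ext i
    simp [U]
  rw [this]

open scoped Classical in
private noncomputable def W (V : Finset ℂ) (T : Finset ι) : Finset (ι → ℂ) :=
  Fintype.piFinset fun i => if i ∈ T then V.erase (-1) else V

open scoped Classical in
private theorem sum_W (V : Finset ℂ) (h1 : (1 : ℂ) ∈ V) (hm1 : (-1 : ℂ) ∈ V) (T : Finset ι)
    (x : ℝ) : ∑ w ∈ W V T, x ^ (U T w).card =
      (V.card : ℝ) ^ (Fintype.card ι - T.card) * (x + ((V.card : ℝ) - 2)) ^ T.card := by
  have e1 : ∀ w ∈ W V T, x ^ (U T w).card =
      ∏ i, (fun (i : ι) (y : ℂ) => (if i ∈ T ∧ y = 1 then x else 1)) i (w i) := by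
    intro w _
    exact pow_U T w x
  rw [Finset.sum_congr rfl e1]
  unfold W
  rw [← Finset.prod_univ_sum (fun i : ι => if i ∈ T then V.erase (-1) else V)
    (fun (i : ι) (y : ℂ) => (if i ∈ T ∧ y = 1 then x else 1))]
  have e2 : ∀ i : ι, (∑ y ∈ (if i ∈ T then V.erase (-1) else V),
      (if i ∈ T ∧ y = 1 then x else 1)) = if i ∈ T then x + ((V.card : ℝ) - 2) else (V.card : ℝ) := by
    intro i
    by_cases hi : i ∈ T
    · simp only [hi, if_true, true_and]
      have h1' : (1 : ℂ) ∈ V.erase (-1) := Finset.mem_erase.mpr ⟨one_ne_neg_one, h1⟩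
      rw [← Finset.add_sum_erase _ _ h1']
      rw [if_pos rfl]
      have : ∑ y ∈ (V.erase (-1)).erase 1, (if y = 1 then x else 1) =
          ∑ y ∈ (V.erase (-1)).erase 1, (1 : ℝ) := by
        apply Finset.sum_congr rfl
        intro y hy
        rw [if_neg (Finset.ne_of_mem_erase hy)]
      rw [this, Finset.sum_const, Finset.card_erase_of_mem h1', Finset.card_erase_of_mem hm1]
      have hc : 2 ≤ V.card := by
        have : ({1, -1} : Finset ℂ) ⊆ V := by
          intro y hy
          rw [Finset.mem_insert, Finset.mem_singleton] at hy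
          rcases hy with rfl | rfl
          · exact h1
          · exact hm1
        calc 2 = ({1, -1} : Finset ℂ).card := by
              rw [Finset.card_pair one_ne_neg_one]
          _ ≤ V.card := Finset.card_le_card this
      rw [nsmul_eq_mul, mul_one]
      have : ((V.card - 1 - 1 : ℕ) : ℝ) = (V.card : ℝ) - 2 := by
        have : V.card - 1 - 1 + 2 = V.card := by omega
        have h := congrArg (fun n : ℕ => (n : ℝ)) this
        push_cast at h
        linarith
      rw [this]
    · simp [hi]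
  have e3 : (∏ i : ι, ∑ j ∈ (if i ∈ T then V.erase (-1) else V),
      (if i ∈ T ∧ j = 1 then x else 1)) =
      ∏ i : ι, (if i ∈ T then x + ((V.card : ℝ) - 2) else (V.card : ℝ)) :=
    Finset.prod_congr rfl fun i _ => e2 i
  rw [e3, Finset.prod_ite, Finset.prod_const, Finset.prod_const]
  have e4 : (univ.filter fun i : ι => i ∈ T) = T := by ext; simp
  have e5 : (univ.filter fun i : ι => i ∉ T).card = Fintype.card ι - T.card := by
    rw [← Finset.card_compl]
    congr 1
    ext; simp
  rw [e4, e5, mul_comm]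

open scoped Classical in
private theorem sum_W_div (V : Finset ℂ) (h1 : (1 : ℂ) ∈ V) (hm1 : (-1 : ℂ) ∈ V) (T : Finset ι) :
    ∑ w ∈ W V T, (2 : ℝ) ^ (U T w).card / ((U T w).card + 1) ≤
      (V.card : ℝ) ^ (Fintype.card ι) * (V.card / (2 * (T.card + 1))) := by
  have e1 : ∀ u : ℕ, (2 : ℝ) ^ u / (u + 1) = ∫ t in (0 : ℝ)..1, (2 * t) ^ u := by
    intro u
    have : (fun t : ℝ => (2 * t) ^ u) = fun t : ℝ => 2 ^ u * t ^ u := by
      funext t; rw [mul_pow]
    rw [this, intervalIntegral.integral_const_mul, integral_pow]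
    simp
    ring
  have e2 : ∑ w ∈ W V T, (2 : ℝ) ^ (U T w).card / ((U T w).card + 1) =
      ∫ t in (0 : ℝ)..1, ∑ w ∈ W V T, (2 * t) ^ (U T w).card := by
    rw [intervalIntegral.integral_finsetSum]
    · exact Finset.sum_congr rfl fun w _ => e1 _
    · intro w _
      apply Continuous.intervalIntegrable
      fun_prop
  rw [e2]
  simp_rw [sum_W V h1 hm1 T]
  rw [intervalIntegral.integral_const_mul]
  have hc : 2 ≤ V.card := by
    have : ({1, -1} : Finset ℂ) ⊆ V := by
      intro y hy
      rw [Finset.mem_insert, Finset.mem_singleton] at hy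
      rcases hy with rfl | rfl
      · exact h1
      · exact hm1
    calc 2 = ({1, -1} : Finset ℂ).card := by
          rw [Finset.card_pair one_ne_neg_one]
      _ ≤ V.card := Finset.card_le_card this
  have hc' : (2 : ℝ) ≤ V.card := by exact_mod_cast hc
  have e3 : ∫ t in (0 : ℝ)..1, (2 * t + ((V.card : ℝ) - 2)) ^ T.card =
      ((V.card : ℝ) ^ (T.card + 1) - ((V.card : ℝ) - 2) ^ (T.card + 1)) / (2 * (T.card + 1)) := by
    rw [intervalIntegral.integral_comp_mul_add (fun x => x ^ T.card) (by norm_num : (2 : ℝ) ≠ 0),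
      integral_pow]
    have hT : (T.card : ℝ) + 1 ≠ 0 := by positivity
    simp only [smul_eq_mul]
    field_simp
    ring
  rw [e3]
  have hTle : T.card ≤ Fintype.card ι := Finset.card_le_univ T
  have e4 : (V.card : ℝ) ^ (Fintype.card ι) =
      (V.card : ℝ) ^ (Fintype.card ι - T.card) * (V.card : ℝ) ^ T.card := by
    rw [← pow_add]; congr 1; omega
  rw [e4, mul_assoc]
  apply mul_le_mul_of_nonneg_left _ (by positivity)
  rw [← mul_div_assoc, ← pow_succ]
  apply div_le_div_of_nonneg_right _ (by positivity)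
  have : 0 ≤ ((V.card : ℝ) - 2) ^ (T.card + 1) := pow_nonneg (by linarith) _
  linarith

end Count

open scoped Classical in
theorem antichain_count {ι : Type*} [Fintype ι] (V : Finset ℂ) (h1 : (1 : ℂ) ∈ V)
    (hm1 : (-1 : ℂ) ∈ V) (f : ι → ℂ → ℝ) (T : Finset ι) (σ : ℝ) (hσ : 0 < σ)
    (hT : ∀ i ∈ T, σ ≤ f i 1 - f i (-1)) (c : ℝ) :
    (((Fintype.piFinset fun _ : ι => V).filter fun v =>
      c ≤ ∑ i, f i (v i) ∧ ∑ i, f i (v i) < c + σ).card : ℝ) ≤
      (V.card : ℝ) ^ (Fintype.card ι) * Real.sqrt (V.card / (2 * (T.card + 1))) := by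
  set Q := (Fintype.piFinset fun _ : ι => V).filter fun v =>
      c ≤ ∑ i, f i (v i) ∧ ∑ i, f i (v i) < c + σ with hQ
  have hmaps : ∀ v ∈ Q, rep T v ∈ W V T := by
    intro v hv
    rw [hQ, Finset.mem_filter, Fintype.mem_piFinset] at hv
    unfold W
    rw [Fintype.mem_piFinset]
    intro i
    unfold rep
    by_cases hi : i ∈ T
    · simp only [hi, true_and, if_true]
      by_cases h2 : v i = -1
      · rw [if_pos h2]
        exact Finset.mem_erase.mpr ⟨one_ne_neg_one, h1⟩
      · rw [if_neg h2]
        exact Finset.mem_erase.mpr ⟨h2, hv.1 i⟩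
    · simp only [hi, false_and, if_false]
      exact hv.1 i
  have hcard : (Q.card : ℝ) ≤ ∑ w ∈ W V T, ((U T w).card.choose ((U T w).card / 2) : ℝ) := by
    rw [Finset.card_eq_sum_card_fiberwise hmaps]
    push_cast
    apply Finset.sum_le_sum
    intro w _
    exact_mod_cast fiber_le V f T σ hσ hT c w
  have hcs : ∑ w ∈ W V T, ((U T w).card.choose ((U T w).card / 2) : ℝ) ≤
      Real.sqrt (∑ w ∈ W V T, (2 : ℝ) ^ (U T w).card) *
        Real.sqrt (∑ w ∈ W V T, (2 : ℝ) ^ (U T w).card / ((U T w).card + 1)) := by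
    calc ∑ w ∈ W V T, ((U T w).card.choose ((U T w).card / 2) : ℝ)
        ≤ ∑ w ∈ W V T, Real.sqrt ((2 : ℝ) ^ (U T w).card) *
            Real.sqrt ((2 : ℝ) ^ (U T w).card / ((U T w).card + 1)) := by
          apply Finset.sum_le_sum
          intro w _
          refine le_trans (central_le _) (le_of_eq ?_)
          rw [← Real.sqrt_mul (by positivity), ← mul_div_assoc, Real.sqrt_div' _ (by positivity),
            Real.sqrt_mul_self (by positivity)]
      _ ≤ _ := by
          apply Real.sum_sqrt_mul_sqrt_le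
          · intro w; positivity
          · intro w; positivity
  have hs1 : ∑ w ∈ W V T, (2 : ℝ) ^ (U T w).card = (V.card : ℝ) ^ (Fintype.card ι) := by
    rw [sum_W V h1 hm1 T]
    have hTle : T.card ≤ Fintype.card ι := Finset.card_le_univ T
    have : (2 : ℝ) + ((V.card : ℝ) - 2) = V.card := by ring
    rw [this, ← pow_add]
    congr 1
    omega
  refine le_trans hcard (le_trans hcs ?_)
  rw [hs1]
  calc Real.sqrt ((V.card : ℝ) ^ (Fintype.card ι)) *
        Real.sqrt (∑ w ∈ W V T, (2 : ℝ) ^ (U T w).card / ((U T w).card + 1))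
      ≤ Real.sqrt ((V.card : ℝ) ^ (Fintype.card ι)) *
        Real.sqrt ((V.card : ℝ) ^ (Fintype.card ι) * (V.card / (2 * (T.card + 1)))) := by
        apply mul_le_mul_of_nonneg_left _ (Real.sqrt_nonneg _)
        exact Real.sqrt_le_sqrt (sum_W_div V h1 hm1 T)
    _ = _ := by
        rw [Real.sqrt_mul (by positivity), ← mul_assoc, Real.mul_self_sqrt (by positivity)]

end Pool.QS
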