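import Pool.Agent.Lib.MP_a3a416_nt.QS.LOMom
import Pool.Agent.Lib.MP_a3a416_nt.QS.Sperner

/-! QS-LO: small ball probabilities for the random Euler product.

PROOF.
|Om| = d^n, n = card P5 y (card nthRootsFinset = d). Uses moment_pos, moment_neg (QS-LOMom) and antichain_count (QS-Sperner).
 (1) Markov: #{|FF|^2 > y^{1/25}} <= C y^{-1/25} d^n; case m = 0: |FF|^2 <= y^{-1/5}, i.e. (|FF|^2)^{-1} >= y^{1/5}: # <= C y^{-1/5} d^n.
 (2) the other m >= 1 with |FF|^2 <= y^{1/25}: kap*m <= y^{1/25}+1, so there are <= C y^{1/25} of them. Fix m and let η = y^{-1/5}, Q = ⌊y^{1/5}/4⌋,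
     T = {q ∈ P5 y : q <= Q}. |FF|^2 ∈ [kap m - η, kap m + η] means log|FF|^2 lies in an interval [c, c + σ), σ = 4/Q:
     log((κm+η)/(κm-η)) <= 9η < 16 y^{-1/5} <= 4/Q for y large (κ = π²/36 > 0.27).
     log|FF v|^2 = sum_q f_q(v_q), f_q(v) = -log|1 - v/q|^2, and f_q(1) - f_q(-1) = 2 log((1+1/q)/(1-1/q)) >= 4/q >= 4/Q for q <= Q.
     antichain_count: # <= d^n sqrt(d/(2(N+1))), N = card T. N >= c Q^{9/10} - 2 (Chebyshev.pi_ge in Mathlib), so N^{-1/2} <= C y^{-9/100};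
     times the number of m: C y^{1/25-9/100} <= C y^{-1/25}.
 small y: enlarge C (the left side is <= d^n).
-/

set_option autoImplicit false

open Finset

namespace Pool.QS

private theorem prime_lower (Q : ℕ) :
    0.009 * (Q : ℝ) ^ (4 / 5 : ℝ) ≤ ((P5 Q).card : ℝ) + 1 := by
  rcases lt_or_ge Q 2 with h | h
  · have h1 : (Q : ℝ) ^ (4 / 5 : ℝ) ≤ 1 :=
      Real.rpow_le_one (by positivity) (by exact_mod_cast (by omega : Q ≤ 1)) (by norm_num)
    have h2 : (0 : ℝ) ≤ ((P5 Q).card : ℝ) := Nat.cast_nonneg _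
    linarith
  · have hQ : (2 : ℝ) ≤ Q := by exact_mod_cast h
    have hlog : 0 < Real.log Q := Real.log_pos (by linarith)
    have hpi := Chebyshev.pi_ge Q
    have h1 : Real.log Q ≤ 5 * (Q : ℝ) ^ (1 / 5 : ℝ) := by
      have := Real.log_le_rpow_div (x := (Q : ℝ)) (by linarith) (ε := 1 / 5) (by norm_num)
      linarith
    have h2 : Real.log ((Q : ℝ) + 1) ≤ Real.log 2 + ((Q : ℝ) + 1) / 2 - 1 := by
      have := Real.log_le_sub_one_of_pos (x := ((Q : ℝ) + 1) / 2) (by linarith)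
      rw [Real.log_div (by linarith) (by norm_num)] at this
      linarith
    have h3 : 0.09 * (Q : ℝ) ≤ Q * Real.log 2 - Real.log (Q + 1) := by
      have := Real.log_two_gt_d9
      have := Real.log_two_lt_d9
      nlinarith
    have h4 : 0.018 * (Q : ℝ) ^ (4 / 5 : ℝ) ≤ (Nat.primeCounting Q : ℝ) := by
      refine le_trans ?_ hpi
      rw [le_div_iff₀ hlog]
      refine le_trans ?_ h3
      have h5 : (Q : ℝ) ^ (4 / 5 : ℝ) * (Q : ℝ) ^ (1 / 5 : ℝ) = Q := by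
        rw [← Real.rpow_add (by linarith)]; norm_num
      have h6 : 0 ≤ (Q : ℝ) ^ (4 / 5 : ℝ) := by positivity
      calc 0.018 * (Q : ℝ) ^ (4 / 5 : ℝ) * Real.log Q
          ≤ 0.018 * (Q : ℝ) ^ (4 / 5 : ℝ) * (5 * (Q : ℝ) ^ (1 / 5 : ℝ)) :=
            mul_le_mul_of_nonneg_left h1 (by positivity)
        _ = 0.09 * ((Q : ℝ) ^ (4 / 5 : ℝ) * (Q : ℝ) ^ (1 / 5 : ℝ)) := by ring
        _ = 0.09 * Q := by rw [h5]
    have h7 : Nat.primeCounting Q ≤ (P5 Q).card + 2 := by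
      rw [Nat.primeCounting, Nat.primeCounting', Nat.count_eq_card_filter_range]
      have : ((range (Q + 1)).filter Nat.Prime) ⊆ (P5 Q) ∪ {2, 3} := by
        intro p hp
        rw [mem_filter, mem_range] at hp
        rw [mem_union, mem_P5]
        have h2 := hp.2.two_le
        by_cases h5 : 5 ≤ p
        · exact Or.inl ⟨h5, by omega, hp.2⟩
        · right
          have : p ≠ 4 := by rintro rfl; exact absurd hp.2 (by norm_num)
          have : p = 2 ∨ p = 3 := by omega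
          simpa using this
      refine (card_le_card this).trans ((card_union_le _ _).trans ?_)
      have : ({2, 3} : Finset ℕ).card = 2 := by decide
      omega
    have h8 : (Nat.primeCounting Q : ℝ) ≤ (P5 Q).card + 2 := by exact_mod_cast h7
    have h9 : (0 : ℝ) ≤ ((P5 Q).card : ℝ) := Nat.cast_nonneg _
    linarith

/-- local logarithm -/
private noncomputable def flog (y : ℕ) (q : (P5 y)) (z : ℂ) : ℝ :=
  -Real.log (‖1 - z / ((q : ℕ) : ℂ)‖ ^ 2)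

private theorem norm_pos_of {y : ℕ} (q : (P5 y)) {z : ℂ} (hz : ‖z‖ = 1) :
    0 < ‖1 - z / ((q : ℕ) : ℂ)‖ := by
  have hq : 5 ≤ (q : ℕ) := (mem_P5.1 q.2).1
  have hq' : (5 : ℝ) ≤ ((q : ℕ) : ℝ) := by exact_mod_cast hq
  have h1 : ‖z / ((q : ℕ) : ℂ)‖ ≤ 1 / 5 := by
    rw [norm_div, hz, Complex.norm_natCast]
    exact one_div_le_one_div_of_le (by norm_num) hq'
  have h2 : ‖(1 : ℂ)‖ - ‖z / ((q : ℕ) : ℂ)‖ ≤ ‖1 - z / ((q : ℕ) : ℂ)‖ := norm_sub_norm_le _ _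
  rw [norm_one] at h2
  linarith

private theorem FF_pos {y : ℕ} {v : (P5 y) → ℂ} (hv : ∀ q, ‖v q‖ = 1) : 0 < ‖FF y v‖ ^ 2 := by
  have : FF y v ≠ 0 := by
    rw [FF, prod_ne_zero_iff]
    intro q _
    exact inv_ne_zero (norm_pos_iff.1 (norm_pos_of q (hv q)))
  positivity

private theorem FF_log {y : ℕ} {v : (P5 y) → ℂ} (hv : ∀ q, ‖v q‖ = 1) :
    Real.log (‖FF y v‖ ^ 2) = ∑ q, flog y q (v q) := by
  have h1 : ‖FF y v‖ ^ 2 = ∏ q, (‖1 - v q / ((q : ℕ) : ℂ)‖ ^ 2)⁻¹ := by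
    rw [FF, norm_prod, ← prod_pow]
    refine prod_congr rfl fun q _ => ?_
    rw [norm_inv, inv_pow]
  rw [h1, Real.log_prod]
  · refine sum_congr rfl fun q _ => ?_
    rw [flog, Real.log_inv]
  · intro q _
    have := norm_pos_of q (hv q)
    positivity

private theorem flog_gap {y : ℕ} (q : (P5 y)) {σ : ℝ} (h : ((q : ℕ) + 1 : ℝ) * σ ≤ 4) :
    σ ≤ flog y q 1 - flog y q (-1) := by
  have hq : 5 ≤ (q : ℕ) := (mem_P5.1 q.2).1
  have hq' : (5 : ℝ) ≤ ((q : ℕ) : ℝ) := by exact_mod_cast hq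
  set t : ℝ := ((q : ℕ) : ℝ) with ht
  have e1 : ‖1 - (1 : ℂ) / ((q : ℕ) : ℂ)‖ = 1 - 1 / t := by
    have : (1 - (1 : ℂ) / ((q : ℕ) : ℂ)) = ((1 - 1 / t : ℝ) : ℂ) := by push_cast [ht]; ring
    rw [this, Complex.norm_real, Real.norm_eq_abs, abs_of_pos]
    have : 1 / t ≤ 1 / 5 := one_div_le_one_div_of_le (by norm_num) hq'
    linarith
  have e2 : ‖1 - (-1 : ℂ) / ((q : ℕ) : ℂ)‖ = 1 + 1 / t := by
    have : (1 - (-1 : ℂ) / ((q : ℕ) : ℂ)) = ((1 + 1 / t : ℝ) : ℂ) := by push_cast [ht]; ring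
    rw [this, Complex.norm_real, Real.norm_eq_abs, abs_of_pos (by positivity)]
  rw [flog, flog, e1, e2]
  have hi : 1 / t ≤ 1 / 5 := one_div_le_one_div_of_le (by norm_num) hq'
  have hi0 : 0 < 1 / t := by positivity
  have h3 : Real.log ((1 - 1 / t) ^ 2 / (1 + 1 / t) ^ 2) ≤ -σ := by
    have e3 : (1 - 1 / t) ^ 2 / (1 + 1 / t) ^ 2 = ((1 - 1 / t) / (1 + 1 / t)) ^ 2 := by
      rw [div_pow]
    rw [e3, Real.log_pow]
    have h4 : Real.log ((1 - 1 / t) / (1 + 1 / t)) ≤ (1 - 1 / t) / (1 + 1 / t) - 1 :=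
      Real.log_le_sub_one_of_pos (by apply div_pos <;> linarith)
    have h5 : (1 - 1 / t) / (1 + 1 / t) - 1 = -2 / (t + 1) := by
      field_simp
      ring
    have h6 : σ ≤ 4 / (t + 1) := by
      rw [le_div_iff₀ (by linarith)]
      linarith
    have h7 : -2 / (t + 1) = -(4 / (t + 1)) / 2 := by ring
    push_cast
    linarith
  rw [Real.log_div (by
    have : 0 < 1 - 1 / t := by linarith
    positivity) (by positivity)] at h3
  linarith

private theorem kap_ge : (0.27 : ℝ) ≤ kap := by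
  have := Real.pi_gt_d2
  rw [kap]
  nlinarith

open scoped Classical in
/-- one value of `m` -/
private theorem one_m (d : ℕ) (hd : 2 ∣ d) (hd3 : 3 ≤ d) (y : ℕ) (hy : 2 ^ 20 ≤ y) (c : ℝ) :
    (((Om d y).filter fun v => c ≤ ∑ q, flog y q (v q) ∧
      ∑ q, flog y q (v q) < c + 16 * (y : ℝ) ^ (-(1 / 5) : ℝ)).card : ℝ) ≤
      30 * d * (y : ℝ) ^ (-(2 / 25) : ℝ) * (d : ℝ) ^ (P5 y).card := by
  have hd0 : 0 < d := by omega
  have hyR : (2 : ℝ) ^ (20 : ℕ) ≤ y := by exact_mod_cast hy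
  have hy1 : (1 : ℝ) ≤ y := by exact_mod_cast (le_trans (by norm_num) hy : 1 ≤ y)
  have hy0 : (0 : ℝ) < y := by linarith
  set V : Finset ℂ := Polynomial.nthRootsFinset d (1 : ℂ) with hV
  have h1V : (1 : ℂ) ∈ V := by
    rw [hV, Polynomial.mem_nthRootsFinset hd0]; simp
  have hm1V : (-1 : ℂ) ∈ V := by
    rw [hV, Polynomial.mem_nthRootsFinset hd0]
    exact Even.neg_one_pow (even_iff_two_dvd.2 hd)
  have hVc : V.card = d :=
    (Complex.isPrimitiveRoot_exp d hd0.ne').card_nthRootsFinset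
  -- y^{1/5} ≥ 16
  have h16 : (16 : ℝ) ≤ (y : ℝ) ^ (1 / 5 : ℝ) := by
    have : (16 : ℝ) = ((2 : ℝ) ^ (20 : ℕ)) ^ (1 / 5 : ℝ) := by
      rw [← Real.rpow_natCast, ← Real.rpow_mul (by norm_num)]
      norm_num
    rw [this]
    exact Real.rpow_le_rpow (by positivity) hyR (by norm_num)
  set s : ℝ := (y : ℝ) ^ (1 / 5 : ℝ) with hs
  have hsinv : (y : ℝ) ^ (-(1 / 5) : ℝ) = s⁻¹ := by rw [Real.rpow_neg hy0.le]
  have hs0 : 0 < s := by linarith
  set Q : ℕ := ⌊s / 8⌋₊ with hQ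
  have hQle : (Q : ℝ) ≤ s / 8 := Nat.floor_le (by positivity)
  have hQge : s / 16 ≤ (Q : ℝ) := by
    have := Nat.lt_floor_add_one (s / 8)
    rw [← hQ] at this
    linarith
  have hQy : Q ≤ y := by
    have h1 : s ≤ y := by
      rw [hs]
      calc (y : ℝ) ^ (1 / 5 : ℝ) ≤ (y : ℝ) ^ (1 : ℝ) :=
            Real.rpow_le_rpow_of_exponent_le hy1 (by norm_num)
        _ = y := Real.rpow_one _
    have : (Q : ℝ) ≤ y := by linarith
    exact_mod_cast this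
  set T : Finset (P5 y) := univ.filter (fun q => (q : ℕ) ≤ Q) with hT
  have hTc : T.card = (P5 Q).card := by
    have : T.map ⟨fun q : (P5 y) => (q : ℕ), Subtype.val_injective⟩ = P5 Q := by
      ext p
      simp only [mem_map, Function.Embedding.coeFn_mk, hT, mem_filter, mem_univ, true_and]
      constructor
      · rintro ⟨q, hq, rfl⟩
        have := mem_P5.1 q.2
        exact mem_P5.2 ⟨this.1, hq, this.2.2⟩
      · intro hp
        have := mem_P5.1 hp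
        exact ⟨⟨p, mem_P5.2 ⟨this.1, this.2.1.trans hQy, this.2.2⟩⟩, this.2.1, rfl⟩
    rw [← this, card_map]
  have hgap : ∀ q ∈ T, 16 * s⁻¹ ≤ flog y q 1 - flog y q (-1) := by
    intro q hq
    apply flog_gap
    have hq1 : (q : ℕ) ≤ Q := (mem_filter.1 hq).2
    have hq2 : ((q : ℕ) : ℝ) ≤ Q := by exact_mod_cast hq1
    have hq5 : (5 : ℝ) ≤ ((q : ℕ) : ℝ) := by exact_mod_cast (mem_P5.1 q.2).1
    have : ((q : ℕ) : ℝ) + 1 ≤ s / 4 := by linarith
    calc (((q : ℕ) : ℝ) + 1) * (16 * s⁻¹) ≤ s / 4 * (16 * s⁻¹) :=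
          mul_le_mul_of_nonneg_right this (by positivity)
      _ = 4 := by field_simp; norm_num
  have key := antichain_count V h1V hm1V (flog y) T (16 * s⁻¹) (by positivity) hgap c
  rw [hVc, Fintype.card_coe] at key
  rw [hsinv]
  refine le_trans (le_of_eq ?_) (key.trans ?_)
  · rw [Om]
    refine congrArg (fun k : ℕ => (k : ℝ)) (congrArg Finset.card ?_)
    ext v
    simp only [Finset.mem_filter, Fintype.mem_piFinset, hV]
  rw [mul_comm]
  refine mul_le_mul_of_nonneg_right ?_ (by positivity)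
  rw [hTc]
  -- the square root
  have hN := prime_lower Q
  have hs4 : (s / 16) ^ (4 / 5 : ℝ) ≤ (Q : ℝ) ^ (4 / 5 : ℝ) :=
    Real.rpow_le_rpow (by positivity) hQge (by norm_num)
  have h16' : (16 : ℝ) ^ (4 / 5 : ℝ) ≤ 16 := by
    calc (16 : ℝ) ^ (4 / 5 : ℝ) ≤ (16 : ℝ) ^ (1 : ℝ) :=
          Real.rpow_le_rpow_of_exponent_le (by norm_num) (by norm_num)
      _ = 16 := Real.rpow_one _
  have hss : s ^ (4 / 5 : ℝ) = (y : ℝ) ^ (4 / 25 : ℝ) := by
    rw [hs, ← Real.rpow_mul hy0.le]; norm_num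
  have hN2 : (0.00056 : ℝ) * (y : ℝ) ^ (4 / 25 : ℝ) ≤ ((P5 Q).card : ℝ) + 1 := by
    rw [Real.div_rpow hs0.le (by norm_num), hss] at hs4
    have hp : 0 < (y : ℝ) ^ (4 / 25 : ℝ) := by positivity
    have h3 : (y : ℝ) ^ (4 / 25 : ℝ) / 16 ≤ (y : ℝ) ^ (4 / 25 : ℝ) / (16 : ℝ) ^ (4 / 5 : ℝ) :=
      div_le_div_of_nonneg_left hp.le (by positivity) h16'
    linarith
  have hyp : 0 < (y : ℝ) ^ (4 / 25 : ℝ) := by positivity
  have hym : 0 < (y : ℝ) ^ (-(2 / 25) : ℝ) := by positivity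
  have hd1 : (1 : ℝ) ≤ d := by exact_mod_cast hd0
  rw [Real.sqrt_le_left (by positivity)]
  have hpow : ((y : ℝ) ^ (-(2 / 25) : ℝ)) ^ 2 * (y : ℝ) ^ (4 / 25 : ℝ) = 1 := by
    rw [← Real.rpow_natCast, ← Real.rpow_mul hy0.le, ← Real.rpow_add hy0]
    norm_num
  rw [div_le_iff₀ (by positivity)]
  have h5 : (d : ℝ) ≤ (d : ℝ) ^ 2 := by nlinarith
  have hsq : 0 < ((y : ℝ) ^ (-(2 / 25) : ℝ)) ^ 2 := by positivity
  calc (d : ℝ) ≤ (d : ℝ) ^ 2 * (((y : ℝ) ^ (-(2 / 25) : ℝ)) ^ 2 * (y : ℝ) ^ (4 / 25 : ℝ)) := by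
        rw [hpow, mul_one]; exact h5
    _ ≤ (30 * d * (y : ℝ) ^ (-(2 / 25) : ℝ)) ^ 2 * (2 * (0.00056 * (y : ℝ) ^ (4 / 25 : ℝ))) := by
        have : 0 ≤ (d : ℝ) ^ 2 * (((y : ℝ) ^ (-(2 / 25) : ℝ)) ^ 2 * (y : ℝ) ^ (4 / 25 : ℝ)) := by
          positivity
        nlinarith
    _ ≤ (30 * d * (y : ℝ) ^ (-(2 / 25) : ℝ)) ^ 2 * (2 * (((P5 Q).card : ℝ) + 1)) := by
        refine mul_le_mul_of_nonneg_left ?_ (by positivity)
        linarith

open scoped Classical in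
theorem small_ball (d : ℕ) (hd : 2 ∣ d) (hd3 : 3 ≤ d) : ∃ C : ℝ, 0 < C ∧ ∀ y : ℕ, 2 ≤ y →
    (((Om d y).filter fun v => (y : ℝ) ^ (1 / 25 : ℝ) < ‖FF y v‖ ^ 2 ∨
      ∃ m : ℕ, |‖FF y v‖ ^ 2 - kap * m| ≤ (y : ℝ) ^ (-(1 / 5) : ℝ)).card : ℝ) ≤
      C * (y : ℝ) ^ (-(1 / 25) : ℝ) * (d : ℝ) ^ (P5 y).card := by
  obtain ⟨C1, hC1, hM1⟩ := moment_pos d hd3
  obtain ⟨C2, hC2, hM2⟩ := moment_neg d hd3
  have hd0 : 0 < d := by omega
  have hd1 : (1 : ℝ) ≤ d := by exact_mod_cast hd0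
  refine ⟨C1 + C2 + 240 * d + 2, by positivity, fun y hy => ?_⟩
  have hy1 : (1 : ℝ) ≤ y := by exact_mod_cast (by omega : 1 ≤ y)
  have hy0 : (0 : ℝ) < y := by linarith
  have hOmc : (((Om d y).card : ℕ) : ℝ) = (d : ℝ) ^ (P5 y).card := by
    rw [Om, Fintype.card_piFinset, prod_const, card_univ, Fintype.card_coe,
      (Complex.isPrimitiveRoot_exp d hd0.ne').card_nthRootsFinset]
    push_cast; rfl
  have hdn : 0 < (d : ℝ) ^ (P5 y).card := by positivity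
  have hym : 0 < (y : ℝ) ^ (-(1 / 25) : ℝ) := by positivity
  rcases lt_or_ge y (2 ^ 20) with hsmall | hlarge
  · -- small y
    have h1 : (1 / 2 : ℝ) ≤ (y : ℝ) ^ (-(1 / 25) : ℝ) := by
      have h2 : (y : ℝ) ≤ (2 : ℝ) ^ (20 : ℕ) := by exact_mod_cast hsmall.le
      have h3 : ((2 : ℝ) ^ (20 : ℕ)) ^ (-(1 / 25) : ℝ) ≤ (y : ℝ) ^ (-(1 / 25) : ℝ) :=
        Real.rpow_le_rpow_of_nonpos hy0 h2 (by norm_num)
      refine le_trans ?_ h3
      rw [← Real.rpow_natCast, ← Real.rpow_mul (by norm_num)]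
      calc (1 / 2 : ℝ) = (2 : ℝ) ^ (-1 : ℝ) := by
            rw [Real.rpow_neg_one]; norm_num
        _ ≤ (2 : ℝ) ^ (((20 : ℕ) : ℝ) * (-(1 / 25)) : ℝ) :=
            Real.rpow_le_rpow_of_exponent_le (by norm_num) (by norm_num)
    refine (Nat.cast_le.2 (card_filter_le _ _)).trans ?_
    rw [hOmc]
    have h5 : (1 : ℝ) ≤ (C1 + C2 + 240 * d + 2) * (y : ℝ) ^ (-(1 / 25) : ℝ) := by
      have h6 : (2 : ℝ) ≤ C1 + C2 + 240 * d + 2 := by nlinarith
      nlinarith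
    nlinarith
  · -- large y
    have hyR : (2 : ℝ) ^ (20 : ℕ) ≤ y := by exact_mod_cast hlarge
    have hkap := kap_ge
    set η : ℝ := (y : ℝ) ^ (-(1 / 5) : ℝ) with hη
    have hη0 : 0 < η := by positivity
    have hη1 : η ≤ 1 / 16 := by
      have h3 : (y : ℝ) ^ (-(1 / 5) : ℝ) ≤ ((2 : ℝ) ^ (20 : ℕ)) ^ (-(1 / 5) : ℝ) :=
        Real.rpow_le_rpow_of_nonpos (by positivity) hyR (by norm_num)
      refine h3.trans (le_of_eq ?_)
      rw [← Real.rpow_natCast, ← Real.rpow_mul (by norm_num)]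
      have : (((20 : ℕ) : ℝ) * (-(1 / 5)) : ℝ) = ((-4 : ℤ) : ℝ) := by norm_num
      rw [this, Real.rpow_intCast]
      norm_num
    set Y : ℝ := (y : ℝ) ^ (1 / 25 : ℝ) with hY
    have hY1 : 1 ≤ Y := Real.one_le_rpow hy1 (by norm_num)
    set M : ℕ := ⌊8 * Y⌋₊ with hM
    have hMle : (M : ℝ) ≤ 8 * Y := Nat.floor_le (by positivity)
    set S1 := (Om d y).filter fun v => Y < ‖FF y v‖ ^ 2 with hS1
    set S2 := (Om d y).filter fun v => ‖FF y v‖ ^ 2 ≤ η with hS2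
    set S3 : ℕ → Finset ((P5 y) → ℂ) := fun m =>
      (Om d y).filter fun v => Real.log (kap * m - η) ≤ ∑ q, flog y q (v q) ∧
        ∑ q, flog y q (v q) < Real.log (kap * m - η) + 16 * (y : ℝ) ^ (-(1 / 5) : ℝ) with hS3
    have hnorm : ∀ v ∈ Om d y, ∀ q, ‖v q‖ = 1 := by
      intro v hv q
      have := Fintype.mem_piFinset.1 hv q
      rw [Polynomial.mem_nthRootsFinset hd0] at this
      exact Complex.norm_eq_one_of_pow_eq_one this hd0.ne'
    have hsub : ((Om d y).filter fun v => Y < ‖FF y v‖ ^ 2 ∨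
        ∃ m : ℕ, |‖FF y v‖ ^ 2 - kap * m| ≤ η) ⊆ S1 ∪ S2 ∪ (Icc 1 M).biUnion S3 := by
      intro v hv
      rw [mem_filter] at hv
      obtain ⟨hv0, hv1⟩ := hv
      by_cases hbig : Y < ‖FF y v‖ ^ 2
      · exact mem_union_left _ (mem_union_left _ (mem_filter.2 ⟨hv0, hbig⟩))
      · rcases hv1 with h | ⟨m, hm⟩
        · exact absurd h hbig
        rw [abs_le] at hm
        rcases Nat.eq_zero_or_pos m with rfl | hmpos
        · refine mem_union_left _ (mem_union_right _ (mem_filter.2 ⟨hv0, ?_⟩))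
          have := hm.2
          simpa using this
        · refine mem_union_right _ (mem_biUnion.2 ⟨m, mem_Icc.2 ⟨hmpos, ?_⟩, mem_filter.2 ⟨hv0, ?_⟩⟩)
          · apply Nat.le_floor
            have h1 : kap * m ≤ 2 * Y := by
              have := hm.1
              linarith [not_lt.1 hbig]
            have h2 : (0 : ℝ) ≤ m := Nat.cast_nonneg m
            nlinarith
          · have hm1 : (1 : ℝ) ≤ m := by exact_mod_cast hmpos
            have hlow : (0.2 : ℝ) ≤ kap * m - η := by nlinarith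
            have hlow0 : 0 < kap * m - η := by linarith
            have hF := FF_pos (hnorm v hv0)
            rw [← FF_log (hnorm v hv0)]
            refine ⟨Real.log_le_log hlow0 (by linarith [hm.1]), ?_⟩
            have h6 : Real.log (‖FF y v‖ ^ 2) - Real.log (kap * m - η) ≤
                ‖FF y v‖ ^ 2 / (kap * m - η) - 1 := by
              rw [← Real.log_div hF.ne' hlow0.ne']
              exact Real.log_le_sub_one_of_pos (by positivity)
            have h7 : ‖FF y v‖ ^ 2 / (kap * m - η) - 1 < 16 * η := by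
              rw [sub_lt_iff_lt_add, div_lt_iff₀ hlow0]
              nlinarith [hm.2]
            linarith
    have hc1 : (S1.card : ℝ) ≤ C1 * (y : ℝ) ^ (-(1 / 25) : ℝ) * (d : ℝ) ^ (P5 y).card := by
      have h1 : (S1.card : ℝ) * Y ≤ ∑ v ∈ Om d y, ‖FF y v‖ ^ 2 := by
        calc (S1.card : ℝ) * Y = ∑ v ∈ S1, Y := by rw [sum_const, nsmul_eq_mul]
          _ ≤ ∑ v ∈ S1, ‖FF y v‖ ^ 2 := sum_le_sum fun v hv => (mem_filter.1 hv).2.le
          _ ≤ ∑ v ∈ Om d y, ‖FF y v‖ ^ 2 :=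
            sum_le_sum_of_subset_of_nonneg (filter_subset _ _) fun v _ _ => by positivity
      have h2 := h1.trans (hM1 y)
      have h3 : (y : ℝ) ^ (-(1 / 25) : ℝ) = Y⁻¹ := by rw [Real.rpow_neg hy0.le]
      rw [h3]
      have hYp : 0 < Y := by linarith
      rw [mul_right_comm, ← div_eq_mul_inv, le_div_iff₀ hYp]
      exact h2
    have hc2 : (S2.card : ℝ) ≤ C2 * (y : ℝ) ^ (-(1 / 25) : ℝ) * (d : ℝ) ^ (P5 y).card := by
      have h1 : (S2.card : ℝ) * η⁻¹ ≤ ∑ v ∈ Om d y, (‖FF y v‖ ^ 2)⁻¹ := by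
        calc (S2.card : ℝ) * η⁻¹ = ∑ v ∈ S2, η⁻¹ := by rw [sum_const, nsmul_eq_mul]
          _ ≤ ∑ v ∈ S2, (‖FF y v‖ ^ 2)⁻¹ := sum_le_sum fun v hv => by
              have hv := mem_filter.1 hv
              exact inv_anti₀ (FF_pos (hnorm v hv.1)) hv.2
          _ ≤ ∑ v ∈ Om d y, (‖FF y v‖ ^ 2)⁻¹ :=
            sum_le_sum_of_subset_of_nonneg (filter_subset _ _) fun v _ _ => by positivity
      have h2 := h1.trans (hM2 y)
      have h3 : (S2.card : ℝ) ≤ C2 * (d : ℝ) ^ (P5 y).card * η := by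
        rw [← div_eq_mul_inv, div_le_iff₀ hη0] at h2
        exact h2
      have h4 : η ≤ (y : ℝ) ^ (-(1 / 25) : ℝ) :=
        Real.rpow_le_rpow_of_exponent_le hy1 (by norm_num)
      calc (S2.card : ℝ) ≤ C2 * (d : ℝ) ^ (P5 y).card * η := h3
        _ ≤ C2 * (d : ℝ) ^ (P5 y).card * (y : ℝ) ^ (-(1 / 25) : ℝ) :=
          mul_le_mul_of_nonneg_left h4 (by positivity)
        _ = _ := by ring
    have hc3 : (((Icc 1 M).biUnion S3).card : ℝ) ≤
        240 * d * (y : ℝ) ^ (-(1 / 25) : ℝ) * (d : ℝ) ^ (P5 y).card := by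
      have h1 : (((Icc 1 M).biUnion S3).card : ℝ) ≤ ∑ m ∈ Icc 1 M, ((S3 m).card : ℝ) := by
        exact_mod_cast card_biUnion_le
      refine h1.trans ?_
      have h2 : ∀ m ∈ Icc 1 M, ((S3 m).card : ℝ) ≤
          30 * d * (y : ℝ) ^ (-(2 / 25) : ℝ) * (d : ℝ) ^ (P5 y).card := fun m _ =>
        one_m d hd hd3 y hlarge _
      refine (sum_le_sum h2).trans ?_
      rw [sum_const, nsmul_eq_mul, Nat.card_Icc, Nat.add_sub_cancel]
      have h3 : Y * (y : ℝ) ^ (-(2 / 25) : ℝ) = (y : ℝ) ^ (-(1 / 25) : ℝ) := by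
        rw [hY, ← Real.rpow_add hy0]; norm_num
      have hp : 0 < 30 * d * (y : ℝ) ^ (-(2 / 25) : ℝ) * (d : ℝ) ^ (P5 y).card := by positivity
      calc (M : ℝ) * (30 * d * (y : ℝ) ^ (-(2 / 25) : ℝ) * (d : ℝ) ^ (P5 y).card)
          ≤ (8 * Y) * (30 * d * (y : ℝ) ^ (-(2 / 25) : ℝ) * (d : ℝ) ^ (P5 y).card) :=
            mul_le_mul_of_nonneg_right hMle hp.le
        _ = 240 * d * (Y * (y : ℝ) ^ (-(2 / 25) : ℝ)) * (d : ℝ) ^ (P5 y).card := by ring
        _ = _ := by rw [h3]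
    have hcard : (((Om d y).filter fun v => Y < ‖FF y v‖ ^ 2 ∨
        ∃ m : ℕ, |‖FF y v‖ ^ 2 - kap * m| ≤ η).card : ℝ) ≤
        (S1.card : ℝ) + S2.card + ((Icc 1 M).biUnion S3).card := by
      have := (card_le_card hsub).trans ((card_union_le _ _).trans
        (Nat.add_le_add_right (card_union_le _ _) _))
      exact_mod_cast this
    refine hcard.trans ?_
    have : 0 ≤ 2 * (y : ℝ) ^ (-(1 / 25) : ℝ) * (d : ℝ) ^ (P5 y).card := by positivity
    linarith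

end Pool.QS
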