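import Pool.Agent.Lib.MP_a3a416_nt.QS.Defs

/-! QS-LOMom: second moments of the random Euler product and of its inverse.

PROOF.
For one prime q >= 5 and V = nthRootsFinset d 1 (d elements, d >= 3, primitive roots exist in ℂ):
 (1/d) sum_{v∈V} |1 - v/q|^2 = 1 + 1/q^2, because |1-v/q|^2 = 1 + 1/q^2 - 2 Re(v)/q and sum_{v} v = 0.
 (1/d) sum_{v∈V} |1 - v/q|^{-2} <= 1 + 2/q^2: put u = 1 + q^{-2}, x = 2 Re v/q, |x| <= 2/q <= 2/5, |1-v/q|^2 = u - x, and
   1/(u - x) = 1/u + x/u^2 + x^2/(u^2 (u-x)) <= 1/u + x/u^2 + x^2 / (u - |x|)..., sum x = 0, (1/d) sum x^2 = (4/q^2)(1/d) sum (Re v)^2 = 2/q^2 (d >= 3: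
   sum v^2 = 0, (Re v)^2 = (1 + Re v^2)/2); any bound 1 + 10/q^2 is fine.
Product over q ∈ P5 y (Finset.prod_univ_sum, Fintype.piFinset): sum_{v∈Om} |FF|^2 = ∏_q sum_{v∈V} |1-v/q|^{-2} <= d^n ∏ (1 + 10/q^2) <= d^n exp(sum 10/n^2).
-/

set_option autoImplicit false

open Finset

namespace Pool.QS

private theorem lom_sum_zero {d : ℕ} (hd : 2 ≤ d) : ∑ x ∈ Polynomial.nthRootsFinset d (1 : ℂ), x = 0 := by
  have hp := Complex.isPrimitiveRoot_exp d (by omega)
  set ζ := Complex.exp (2 * Real.pi * Complex.I / d) with hζ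
  have h0 : ζ ≠ 0 := Complex.exp_ne_zero _
  have h1 : ζ ^ d = 1 := hp.pow_eq_one
  have h2 : ζ ≠ 1 := hp.ne_one (by omega)
  have h3 : ∑ x ∈ Polynomial.nthRootsFinset d (1 : ℂ), ζ * x = ∑ x ∈ Polynomial.nthRootsFinset d (1 : ℂ), x := by
    refine sum_nbij' (fun x => ζ * x) (fun x => ζ⁻¹ * x) ?_ ?_ ?_ ?_ ?_
    · intro x hx
      rw [Polynomial.mem_nthRootsFinset (by omega)] at hx ⊢
      rw [mul_pow, h1, hx, one_mul]
    · intro x hx
      rw [Polynomial.mem_nthRootsFinset (by omega)] at hx ⊢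
      rw [mul_pow, inv_pow, h1, hx, inv_one, one_mul]
    · intro x _
      show ζ⁻¹ * (ζ * x) = x
      rw [← mul_assoc, inv_mul_cancel₀ h0, one_mul]
    · intro x _
      show ζ * (ζ⁻¹ * x) = x
      rw [← mul_assoc, mul_inv_cancel₀ h0, one_mul]
    · intro x _
      rfl
  rw [← mul_sum] at h3
  have h4 : (ζ - 1) * ∑ x ∈ Polynomial.nthRootsFinset d (1 : ℂ), x = 0 := by
    rw [sub_mul, one_mul, h3, sub_self]
  exact (mul_eq_zero.1 h4).resolve_left (sub_ne_zero.2 h2)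

private theorem lom_re_zero {d : ℕ} (hd : 2 ≤ d) : ∑ x ∈ Polynomial.nthRootsFinset d (1 : ℂ), x.re = 0 := by
  rw [← Complex.re_sum, lom_sum_zero hd, Complex.zero_re]

private theorem lom_card {d : ℕ} (hd : 1 ≤ d) : ((Polynomial.nthRootsFinset d (1 : ℂ)).card : ℝ) = d := by
  rw [(Complex.isPrimitiveRoot_exp d (by omega)).card_nthRootsFinset]

private theorem lom_norm {d : ℕ} (hd : 1 ≤ d) {x : ℂ} (hx : x ∈ Polynomial.nthRootsFinset d (1 : ℂ)) : ‖x‖ = 1 :=
  Complex.norm_eq_one_of_pow_eq_one ((Polynomial.mem_nthRootsFinset (by omega) _).1 hx) (by omega)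

private theorem lom_sq {x : ℂ} (hx : ‖x‖ = 1) {q : ℝ} (hq : 0 < q) :
    ‖1 - x / (q : ℂ)‖ ^ 2 = 1 - 2 * x.re / q + 1 / q ^ 2 := by
  have h1 : x.re ^ 2 + x.im ^ 2 = 1 := by
    have := Complex.sq_norm x
    rw [hx, Complex.normSq_apply] at this
    nlinarith
  rw [Complex.sq_norm, Complex.normSq_apply]
  have h2 : (1 - x / (q : ℂ)).re = 1 - x.re / q := by
    simp [Complex.div_ofReal_re]
  have h3 : (1 - x / (q : ℂ)).im = - x.im / q := by
    simp [Complex.div_ofReal_im, neg_div]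
  rw [h2, h3]
  field_simp
  nlinarith

private theorem lom_prod {d : ℕ} (hd : 1 ≤ d) (h : ℕ → ℂ → ℝ) (hh : ∀ q x, 0 ≤ h q x)
    (hs : ∀ q : ℕ, 5 ≤ q → ∑ x ∈ Polynomial.nthRootsFinset d (1 : ℂ), h q x ≤ d * (1 + 10 / (q : ℝ) ^ 2)) (y : ℕ) :
    ∑ v ∈ Om d y, ∏ q : P5 y, h q (v q) ≤ Real.exp (10 * ∑' n : ℕ, 1 / (n : ℝ) ^ 2) * (d : ℝ) ^ (P5 y).card := by
  unfold Om
  rw [← prod_univ_sum (fun _ : P5 y => Polynomial.nthRootsFinset d (1 : ℂ)) (fun q x => h q x)]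
  have h1 : ∏ q : P5 y, ∑ x ∈ Polynomial.nthRootsFinset d (1 : ℂ), h q x ≤
      ∏ q : P5 y, ((d : ℝ) * Real.exp (10 * (1 / ((q : ℕ) : ℝ) ^ 2))) := by
    refine prod_le_prod (fun q _ => sum_nonneg fun x _ => hh _ _) fun q _ => ?_
    refine (hs q (mem_P5.1 q.2).1).trans (mul_le_mul_of_nonneg_left ?_ (by positivity))
    have := Real.add_one_le_exp (10 * (1 / ((q : ℕ) : ℝ) ^ 2))
    calc 1 + 10 / ((q : ℕ) : ℝ) ^ 2 = 10 * (1 / ((q : ℕ) : ℝ) ^ 2) + 1 := by ring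
      _ ≤ _ := this
  refine h1.trans ?_
  rw [prod_mul_distrib, prod_const, ← Real.exp_sum, ← mul_sum, card_univ, Fintype.card_coe]
  have h2 : ∑ q : P5 y, 1 / ((q : ℕ) : ℝ) ^ 2 ≤ ∑' n : ℕ, 1 / (n : ℝ) ^ 2 := by
    rw [sum_coe_sort (P5 y) (fun q : ℕ => 1 / (q : ℝ) ^ 2)]
    refine Summable.sum_le_tsum _ (fun n _ => by positivity) ?_
    exact Real.summable_one_div_nat_pow.2 (by norm_num)
  rw [mul_comm]
  refine mul_le_mul_of_nonneg_right ?_ (by positivity)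
  exact Real.exp_le_exp.2 (by linarith)

theorem moment_pos (d : ℕ) (hd3 : 3 ≤ d) : ∃ C : ℝ, 0 < C ∧ ∀ y : ℕ,
    ∑ v ∈ Om d y, ‖FF y v‖ ^ 2 ≤ C * (d : ℝ) ^ (P5 y).card := by
  refine ⟨Real.exp (10 * ∑' n : ℕ, 1 / (n : ℝ) ^ 2), Real.exp_pos _, fun y => ?_⟩
  have h1 := lom_prod (d := d) (by omega) (fun q x => ‖(1 - x / (q : ℂ))⁻¹‖ ^ 2) (fun _ _ => by positivity) ?_ y
  · refine le_trans (le_of_eq ?_) h1
    refine sum_congr rfl fun v _ => ?_
    unfold FF
    rw [norm_prod, prod_pow]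
  · intro q hq
    have hq0 : (0 : ℝ) < q := by exact_mod_cast (by omega : 0 < q)
    have hq5 : (5 : ℝ) ≤ q := by exact_mod_cast hq
    calc ∑ x ∈ Polynomial.nthRootsFinset d (1 : ℂ), ‖(1 - x / (q : ℂ))⁻¹‖ ^ 2
        ≤ ∑ x ∈ Polynomial.nthRootsFinset d (1 : ℂ), (1 + 10 / (q : ℝ) ^ 2 + (2 / q) * x.re) := by
          refine sum_le_sum fun x hx => ?_
          have hn := lom_norm (by omega) hx
          have hre : |x.re| ≤ 1 := hn ▸ Complex.abs_re_le_norm x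
          have hsq := lom_sq hn hq0
          rw [norm_inv, inv_pow]
          have hcast : ((q : ℝ) : ℂ) = (q : ℂ) := by simp
          rw [hcast] at hsq
          rw [hsq]
          rw [abs_le] at hre
          set r := 1 / (q : ℝ) with hr
          have hr0 : 0 < r := by positivity
          have hr5 : r ≤ 1 / 5 := by
            rw [hr]
            exact one_div_le_one_div_of_le (by norm_num) hq5
          have e1 : 2 * x.re / (q : ℝ) = 2 * x.re * r := by rw [hr]; ring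
          have e2 : 1 / (q : ℝ) ^ 2 = r ^ 2 := by rw [hr]; field_simp
          have e3 : 10 / (q : ℝ) ^ 2 = 10 * r ^ 2 := by rw [hr]; field_simp
          have e4 : 2 / (q : ℝ) * x.re = 2 * x.re * r := by rw [hr]; ring
          rw [e1, e2, e3, e4]
          set w := x.re with hw
          have hpos : 0 < 1 - 2 * w * r + r ^ 2 := by nlinarith
          rw [inv_le_comm₀ hpos (by nlinarith)]
          rw [inv_le_comm₀ (by nlinarith) hpos]
          rw [inv_eq_one_div, div_le_iff₀ hpos]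
          -- 1 ≤ (1 + 10 r² + 2 w r) (1 - 2 w r + r²)
          have h3 : (w * r) ^ 2 ≤ r ^ 2 := by
            rw [mul_pow]
            have : w ^ 2 ≤ 1 := by nlinarith
            nlinarith [sq_nonneg r]
          have h4 : |w * r| ≤ 1 / 5 := by
            rw [abs_mul, abs_of_pos hr0]
            have : |w| ≤ 1 := abs_le.2 hre
            nlinarith [abs_nonneg w]
          rw [abs_le] at h4
          nlinarith [sq_nonneg r, mul_nonneg (sq_nonneg r) (by linarith : 0 ≤ 1 / 5 - w * r),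
            mul_nonneg (sq_nonneg r) (by linarith : 0 ≤ 1 / 5 + w * r), sq_nonneg (r ^ 2)]
      _ = d * (1 + 10 / (q : ℝ) ^ 2) := by
          rw [sum_add_distrib, sum_const, nsmul_eq_mul, lom_card (by omega), ← mul_sum, lom_re_zero (by omega)]
          ring

theorem moment_neg (d : ℕ) (hd3 : 3 ≤ d) : ∃ C : ℝ, 0 < C ∧ ∀ y : ℕ,
    ∑ v ∈ Om d y, (‖FF y v‖ ^ 2)⁻¹ ≤ C * (d : ℝ) ^ (P5 y).card := by
  refine ⟨Real.exp (10 * ∑' n : ℕ, 1 / (n : ℝ) ^ 2), Real.exp_pos _, fun y => ?_⟩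
  have h1 := lom_prod (d := d) (by omega) (fun q x => ‖1 - x / (q : ℂ)‖ ^ 2) (fun _ _ => by positivity) ?_ y
  · refine le_trans (le_of_eq ?_) h1
    refine sum_congr rfl fun v _ => ?_
    unfold FF
    rw [norm_prod, prod_pow]
    simp only [norm_inv]
    rw [prod_inv_distrib, inv_pow, inv_inv]
  · intro q hq
    have hq0 : (0 : ℝ) < q := by exact_mod_cast (by omega : 0 < q)
    calc ∑ x ∈ Polynomial.nthRootsFinset d (1 : ℂ), ‖1 - x / (q : ℂ)‖ ^ 2
        = ∑ x ∈ Polynomial.nthRootsFinset d (1 : ℂ), (1 + 1 / (q : ℝ) ^ 2 + (- 2 / q) * x.re) := by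
          refine sum_congr rfl fun x hx => ?_
          have hsq := lom_sq (lom_norm (by omega) hx) hq0
          have hcast : ((q : ℝ) : ℂ) = (q : ℂ) := by simp
          rw [hcast] at hsq
          rw [hsq]
          ring
      _ = d * (1 + 1 / (q : ℝ) ^ 2) := by
          rw [sum_add_distrib, sum_const, nsmul_eq_mul, lom_card (by omega), ← mul_sum, lom_re_zero (by omega)]
          ring
      _ ≤ d * (1 + 10 / (q : ℝ) ^ 2) := by
          refine mul_le_mul_of_nonneg_left ?_ (by positivity)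
          have : 1 / (q : ℝ) ^ 2 ≤ 10 / (q : ℝ) ^ 2 := by
            apply div_le_div_of_nonneg_right (by norm_num) (by positivity)
          linarith

end Pool.QS
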