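import Pool.Agent.Lib.MP_a3a416_nt.QS.Defs
import Pool.Agent.Lib.BV.LSChar

/-! QS-LSBlk: one dyadic block, k-th powers and the large sieve.

PROOF.
Uses Pool.BV.ls_char (X) (N := (2Z)^k) (a). With b n = [n coprime to 6]/n on the block Ioc Z Z' we have
   (sum_n b n χ(n))^k = sum_{ν ∈ Icc 1 ((2Z)^k)} a ν * χ ν,   a ν = sum over functions s : Fin k → block with ∏ s i = ν of ∏ 1/(s i) = (#tuples)/ν
 (Finset.sum_pow / Finset.prod_univ_sum: (∑ n∈B, g n)^k = ∑_{s ∈ Fintype.piFinset fun _ : Fin k => B} ∏ i, g (s i), then fiberwise sum).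
   a ν = 0 unless ν > Z^k (if k >= 1; Z^k < ν), 0 <= a ν <= τ(ν)^k/ν (every entry s i is a divisor of ν) <= B/Z^k,
   sum_ν a ν = (sum_block b)^k <= 1 (at most Z terms, each <= 1/Z). So sum |a ν|^2 <= B/Z^k.
 ls_char: sum_{q=2}^X q/φ(q) sum_{χ ∈ prim q} |..|^{2} <= 13 (X^2 + (2Z)^k) B/Z^k <= 26 * 2^k * B, and q/φ(q) >= 1; restrict to prime q.
-/

set_option autoImplicit false

open Finset

namespace Pool.QS

/-- number of `k`-tuples of elements of `S` with product `ν` -/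
private def lsb_c (k : ℕ) (S : Finset ℕ) (ν : ℕ) : ℕ :=
  ((Fintype.piFinset fun _ : Fin k => S).filter fun s => ∏ i, s i = ν).card

private theorem lsb_pow (k : ℕ) (S : Finset ℕ) (M N : ℕ) (hS : ∀ n ∈ S, 1 ≤ n ∧ n ≤ M)
    (hN : M ^ k ≤ N) (f : ℕ →* ℂ) :
    (∑ n ∈ S, f n / (n : ℂ)) ^ k =
      ∑ ν ∈ Icc 1 N, (((lsb_c k S ν : ℝ) / (ν : ℝ) : ℝ) : ℂ) * f ν := by
  have h1 : (∑ n ∈ S, f n / (n : ℂ)) ^ k = ∏ _i : Fin k, ∑ n ∈ S, f n / (n : ℂ) := by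
    rw [Finset.prod_const, Finset.card_univ, Fintype.card_fin]
  rw [h1, Finset.prod_univ_sum]
  have hmap : ∀ s ∈ Fintype.piFinset (fun _ : Fin k => S), ∏ i, s i ∈ Icc 1 N := by
    intro s hs
    rw [Fintype.mem_piFinset] at hs
    rw [mem_Icc]
    constructor
    · exact Nat.one_le_iff_ne_zero.mpr (Finset.prod_ne_zero_iff.mpr fun i _ =>
        Nat.one_le_iff_ne_zero.mp (hS _ (hs i)).1)
    · refine le_trans ?_ hN
      calc ∏ i, s i ≤ ∏ _i : Fin k, M := Finset.prod_le_prod' fun i _ => (hS _ (hs i)).2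
        _ = M ^ k := by rw [Finset.prod_const, Finset.card_univ, Fintype.card_fin]
  rw [← Finset.sum_fiberwise_of_maps_to hmap]
  refine Finset.sum_congr rfl fun ν _ => ?_
  have h2 : ∀ s ∈ (Fintype.piFinset (fun _ : Fin k => S)).filter (fun s => ∏ i, s i = ν),
      ∏ i, f (s i) / ((s i : ℕ) : ℂ) = f ν / (ν : ℂ) := by
    intro s hs
    rw [mem_filter] at hs
    rw [Finset.prod_div_distrib, ← map_prod, ← Nat.cast_prod, hs.2]
  rw [Finset.sum_congr rfl h2, Finset.sum_const, nsmul_eq_mul]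
  unfold lsb_c
  push_cast
  ring

private theorem lsb_c_le (k : ℕ) (S : Finset ℕ) (ν : ℕ) (hν : ν ≠ 0) :
    lsb_c k S ν ≤ ν.divisors.card ^ k := by
  unfold lsb_c
  calc _ ≤ (Fintype.piFinset fun _ : Fin k => ν.divisors).card := by
        refine Finset.card_le_card fun s hs => ?_
        rw [mem_filter] at hs
        rw [Fintype.mem_piFinset]
        intro i
        rw [Nat.mem_divisors]
        exact ⟨hs.2 ▸ Finset.dvd_prod_of_mem _ (mem_univ i), hν⟩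
    _ = ν.divisors.card ^ k := by
        rw [Fintype.card_piFinset, Finset.prod_const, Finset.card_univ, Fintype.card_fin]

private theorem lsb_c_pos (k : ℕ) (S : Finset ℕ) (ν Z : ℕ) (hS : ∀ n ∈ S, Z ≤ n)
    (h : lsb_c k S ν ≠ 0) : Z ^ k ≤ ν := by
  unfold lsb_c at h
  obtain ⟨s, hs⟩ := Finset.card_ne_zero.mp h
  rw [mem_filter, Fintype.mem_piFinset] at hs
  rw [← hs.2]
  calc Z ^ k = ∏ _i : Fin k, Z := by rw [Finset.prod_const, Finset.card_univ, Fintype.card_fin]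
    _ ≤ ∏ i, s i := Finset.prod_le_prod' fun i _ => hS _ (hs.1 i)

theorem ls_block (k : ℕ) (hk : 1 ≤ k) (X Z Z' : ℕ) (hZ : 1 ≤ Z) (h1 : Z ≤ Z') (h2 : Z' ≤ 2 * Z)
    (hX : X ^ 2 ≤ Z ^ k) (B : ℝ)
    (hB : ∀ ν : ℕ, 1 ≤ ν → ν ≤ (2 * Z) ^ k → ((ν.divisors.card : ℕ) : ℝ) ^ k ≤ B) :
    ∑ p ∈ (Icc 2 X).filter Nat.Prime, ∑ χ ∈ Pool.BV.prim p,
      ‖∑ n ∈ (Ioc Z Z').filter (fun n => n.Coprime 6), χ n / (n : ℂ)‖ ^ (2 * k) ≤
      26 * 2 ^ k * B := by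
  have hk' := hk
  obtain ⟨S, hSd⟩ : ∃ S : Finset ℕ, S = (Ioc Z Z').filter (fun n => n.Coprime 6) := ⟨_, rfl⟩
  have hS : ∀ n ∈ S, 1 ≤ n ∧ n ≤ 2 * Z := by
    intro n hn
    rw [hSd, mem_filter, mem_Ioc] at hn
    exact ⟨by omega, by omega⟩
  have hS' : ∀ n ∈ S, Z ≤ n := by
    intro n hn
    rw [hSd, mem_filter, mem_Ioc] at hn
    omega
  have hZr : (1 : ℝ) ≤ Z := by exact_mod_cast hZ
  have hZk : (1 : ℝ) ≤ (Z : ℝ) ^ k := one_le_pow₀ hZr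
  have hB0 : 0 ≤ B := by
    refine le_trans ?_ (hB 1 le_rfl (Nat.one_le_pow _ _ (by omega)))
    positivity
  rw [← hSd]
  obtain ⟨a, ha⟩ : ∃ a : ℕ → ℝ, a = fun ν => (lsb_c k S ν : ℝ) / (ν : ℝ) := ⟨_, rfl⟩
  have ha0 : ∀ ν, 0 ≤ a ν := by
    intro ν
    rw [ha]
    positivity
  have haB : ∀ ν ∈ Icc 1 ((2 * Z) ^ k), a ν ≤ B / (Z : ℝ) ^ k := by
    intro ν hν
    rw [mem_Icc] at hν
    by_cases h : lsb_c k S ν = 0
    · rw [ha]
      simp only [h, Nat.cast_zero, zero_div]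
      positivity
    · have h3 : (Z : ℝ) ^ k ≤ ν := by exact_mod_cast lsb_c_pos k S ν Z hS' h
      have h4 : (lsb_c k S ν : ℝ) ≤ B := by
        refine le_trans ?_ (hB ν hν.1 hν.2)
        exact_mod_cast lsb_c_le k S ν (by omega)
      rw [ha]
      exact div_le_div₀ hB0 h4 (by positivity) h3
  have hsum : ∑ ν ∈ Icc 1 ((2 * Z) ^ k), a ν ≤ 1 := by
    have h3 := lsb_pow k S (2 * Z) ((2 * Z) ^ k) hS le_rfl 1
    have h4 : ((∑ ν ∈ Icc 1 ((2 * Z) ^ k), a ν : ℝ) : ℂ) = (((∑ n ∈ S, 1 / (n : ℝ)) ^ k : ℝ) : ℂ) := by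
      rw [ha]
      push_cast
      simp only [MonoidHom.one_apply, mul_one] at h3
      rw [h3]
      push_cast
      rfl
    have h5 : ∑ ν ∈ Icc 1 ((2 * Z) ^ k), a ν = (∑ n ∈ S, 1 / (n : ℝ)) ^ k := by exact_mod_cast h4
    rw [h5]
    refine pow_le_one₀ (Finset.sum_nonneg fun n _ => by positivity) ?_
    calc ∑ n ∈ S, 1 / (n : ℝ) ≤ ∑ n ∈ S, 1 / (Z : ℝ) := by
          refine Finset.sum_le_sum fun n hn => ?_
          have : (Z : ℝ) ≤ n := by exact_mod_cast hS' n hn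
          exact one_div_le_one_div_of_le (by linarith) this
      _ = (S.card : ℝ) * (1 / (Z : ℝ)) := by rw [Finset.sum_const, nsmul_eq_mul]
      _ ≤ (Z : ℝ) * (1 / (Z : ℝ)) := by
          refine mul_le_mul_of_nonneg_right ?_ (by positivity)
          have : S.card ≤ Z := by
            rw [hSd]
            refine le_trans (Finset.card_filter_le _ _) ?_
            rw [Nat.card_Ioc]
            omega
          exact_mod_cast this
      _ = 1 := by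
          rw [mul_one_div, div_self]
          positivity
  have hsq : ∑ ν ∈ Icc 1 ((2 * Z) ^ k), ‖((a ν : ℝ) : ℂ)‖ ^ 2 ≤ B / (Z : ℝ) ^ k := by
    calc ∑ ν ∈ Icc 1 ((2 * Z) ^ k), ‖((a ν : ℝ) : ℂ)‖ ^ 2
        ≤ ∑ ν ∈ Icc 1 ((2 * Z) ^ k), (B / (Z : ℝ) ^ k) * a ν := by
          refine Finset.sum_le_sum fun ν hν => ?_
          rw [Complex.norm_real, Real.norm_of_nonneg (ha0 ν), pow_two]
          exact mul_le_mul_of_nonneg_right (haB ν hν) (ha0 ν)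
      _ = (B / (Z : ℝ) ^ k) * ∑ ν ∈ Icc 1 ((2 * Z) ^ k), a ν := by rw [Finset.mul_sum]
      _ ≤ (B / (Z : ℝ) ^ k) * 1 := mul_le_mul_of_nonneg_left hsum (by positivity)
      _ = B / (Z : ℝ) ^ k := mul_one _
  have hls := Pool.BV.ls_char X ((2 * Z) ^ k) (fun ν => ((a ν : ℝ) : ℂ))
  have hstep1 : ∑ p ∈ (Icc 2 X).filter Nat.Prime, ∑ χ ∈ Pool.BV.prim p,
      ‖∑ n ∈ S, χ n / (n : ℂ)‖ ^ (2 * k) ≤
      ∑ q ∈ Icc 2 X, (q : ℝ) / Nat.totient q * ∑ χ ∈ Pool.BV.prim q,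
        ‖∑ ν ∈ Icc 1 ((2 * Z) ^ k), ((a ν : ℝ) : ℂ) * χ ν‖ ^ 2 := by
    refine le_trans (Finset.sum_le_sum_of_subset_of_nonneg (Finset.filter_subset _ _)
      fun i _ _ => Finset.sum_nonneg fun χ _ => by positivity) ?_
    refine Finset.sum_le_sum fun q hq => ?_
    rw [mem_Icc] at hq
    have h3 : ∑ χ ∈ Pool.BV.prim q, ‖∑ n ∈ S, χ n / (n : ℂ)‖ ^ (2 * k) =
        ∑ χ ∈ Pool.BV.prim q, ‖∑ ν ∈ Icc 1 ((2 * Z) ^ k), ((a ν : ℝ) : ℂ) * χ ν‖ ^ 2 := by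
      refine Finset.sum_congr rfl fun χ _ => ?_
      rw [mul_comm 2 k, pow_mul, ← norm_pow]
      have h4 := lsb_pow k S (2 * Z) ((2 * Z) ^ k) hS le_rfl
        (χ.toMonoidHom.comp (Nat.castRingHom (ZMod q) : ℕ →* ZMod q))
      have h5 : (∑ n ∈ S, χ n / (n : ℂ)) ^ k =
          ∑ ν ∈ Icc 1 ((2 * Z) ^ k), ((a ν : ℝ) : ℂ) * χ ν := by
        rw [ha]
        exact h4
      rw [h5]
    rw [h3]
    have hpos : 0 ≤ ∑ χ ∈ Pool.BV.prim q,
        ‖∑ ν ∈ Icc 1 ((2 * Z) ^ k), ((a ν : ℝ) : ℂ) * χ ν‖ ^ 2 :=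
      Finset.sum_nonneg fun χ _ => by positivity
    refine le_mul_of_one_le_left hpos ?_
    have hphi : 0 < Nat.totient q := Nat.totient_pos.mpr (by omega)
    rw [one_le_div (by exact_mod_cast hphi)]
    exact_mod_cast Nat.totient_le q
  refine le_trans hstep1 (le_trans hls ?_)
  have hX' : (X : ℝ) ^ 2 ≤ (Z : ℝ) ^ k := by exact_mod_cast hX
  have hN : (((2 * Z) ^ k : ℕ) : ℝ) = 2 ^ k * (Z : ℝ) ^ k := by
    push_cast
    rw [mul_pow]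
  have h2k : (1 : ℝ) ≤ 2 ^ k := one_le_pow₀ (by norm_num)
  calc 13 * ((X : ℝ) ^ 2 + (((2 * Z) ^ k : ℕ) : ℝ)) * ∑ ν ∈ Icc 1 ((2 * Z) ^ k), ‖((a ν : ℝ) : ℂ)‖ ^ 2
      ≤ 13 * ((Z : ℝ) ^ k + 2 ^ k * (Z : ℝ) ^ k) * (B / (Z : ℝ) ^ k) := by
        rw [hN]
        refine mul_le_mul ?_ hsq (Finset.sum_nonneg fun ν _ => by positivity) (by positivity)
        linarith
    _ = 13 * (1 + 2 ^ k) * B := by
        have : (Z : ℝ) ^ k ≠ 0 := by positivity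
        field_simp
    _ ≤ 26 * 2 ^ k * B := by
        refine mul_le_mul_of_nonneg_right ?_ hB0
        linarith

end Pool.QS
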