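import Pool.Agent.Lib.MP_a3a416_nt.QS.LSBlk
import Pool.Agent.Lib.MP_dd84fd_nt.DivBound

/-! QS-LSTail: the range `z < n ≤ X⁴` by the large sieve.

PROOF.
Uses ls_block (QS-LSBlk) with k = 65 and div_bound of Pool.Agent.Lib.MP_dd84fd_nt.DivBound (∃ C, ∀ m ≠ 0, m.divisors.card ^ k ≤ C * m).
 Blocks: Ioc z (X^4) = union over j < J of Ioc (2^j z) (min (2^(j+1) z) (X^4)), 2^J z >= X^4, J <= 6 log X + 2.
 If |T| > 1/log X then some block sum T_j has |T_j| > V := 1/(J log X) >= 1/(10 (log X)^2).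
 A nontrivial character mod a prime p is primitive (so it is in `Pool.BV.prim p`). Z = 2^j z >= z, Z^65 >= z^65 >= (z+1)^64 > X^2 for z large, Z <= X^4.
   => #{p ∈ Q : |T_j| > V} V^{130} <= 26 * 2^65 * B, B = max over ν <= (2X^4)^65 of τ(ν)^65 <= C' X^{1/8} (div_bound with exponent 65*4000, say:
      τ^65 <= (C ν)^{1/4000}, ν <= (2X^4)^65, 260/4000 < 1/8).
 Sum over J blocks: <= J * (10 (log X)^2)^{130} * C'' X^{1/8} <= sqrt X for X large.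
-/

set_option autoImplicit false

open Finset

namespace Pool.QS

private lemma lt_prim {p : ℕ} (hp : p.Prime) (χ : DirichletCharacter ℂ p) (h : χ ≠ 1) :
    χ ∈ Pool.BV.prim p := by
  have : NeZero p := ⟨hp.ne_zero⟩
  rw [Pool.BV.mem_prim, DirichletCharacter.isPrimitive_def]
  rcases (Nat.dvd_prime hp).1 (DirichletCharacter.conductor_dvd_level χ) with h1 | h1
  · exact absurd (DirichletCharacter.eq_one_iff_conductor_eq_one.2 h1) h
  · exact h1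

private lemma lt_tau (k M : ℕ) (hM : 1 ≤ M) : ∃ C : ℝ, 1 ≤ C ∧ ∀ ν : ℕ, ν ≠ 0 →
    ((ν.divisors.card : ℕ) : ℝ) ^ k ≤ C * (ν : ℝ) ^ (1 / (M : ℝ)) := by
  obtain ⟨C, hC1, hC⟩ := Pool.Agent.Lib.MP_dd84fd_nt.DivBound.div_bound (k * M)
  have hC1' : (1 : ℝ) ≤ C := by exact_mod_cast hC1
  refine ⟨C, hC1', fun ν hν => ?_⟩
  have h1 : (((ν.divisors.card : ℕ) : ℝ) ^ k) ^ M ≤ C * ν := by
    rw [← pow_mul]
    exact_mod_cast hC ν hν
  have hν0 : (0 : ℝ) < ν := by exact_mod_cast Nat.pos_of_ne_zero hν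
  have h4 : (C : ℝ) * ν ≤ (C * (ν : ℝ) ^ (1 / (M : ℝ))) ^ M := by
    rw [mul_pow, ← Real.rpow_natCast ((ν : ℝ) ^ (1 / (M : ℝ))), ← Real.rpow_mul hν0.le,
      one_div, inv_mul_cancel₀ (by
        have : M ≠ 0 := by omega
        exact_mod_cast this), Real.rpow_one]
    apply mul_le_mul_of_nonneg_right _ hν0.le
    calc (C : ℝ) = (C : ℝ) ^ 1 := (pow_one _).symm
      _ ≤ (C : ℝ) ^ M := pow_le_pow_right₀ hC1' hM
  exact le_of_pow_le_pow_left₀ (by omega) (by positivity) (h1.trans h4)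

private lemma lt_log (δ M : ℝ) (hδ : 0 < δ) (k : ℕ) : ∃ X0 : ℕ, ∀ X : ℕ, X0 ≤ X →
    M * Real.log X ^ k ≤ (X : ℝ) ^ δ := by
  have h1 : (fun x : ℝ => M * Real.log x ^ (k : ℝ)) =o[Filter.atTop] fun x : ℝ => x ^ δ :=
    (isLittleO_log_rpow_rpow_atTop (k : ℝ) hδ).const_mul_left M
  have h2 : ∀ᶠ x : ℝ in Filter.atTop, ‖M * Real.log x ^ (k : ℝ)‖ ≤ 1 * ‖x ^ δ‖ := h1.bound one_pos
  have h3 : ∀ᶠ X : ℕ in Filter.atTop, M * Real.log X ^ k ≤ (X : ℝ) ^ δ := by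
    filter_upwards [tendsto_natCast_atTop_atTop.eventually h2] with X hX
    rw [Real.rpow_natCast, one_mul, Real.norm_eq_abs, Real.norm_eq_abs,
      abs_of_nonneg (a := (X : ℝ) ^ δ) (by positivity)] at hX
    exact (le_abs_self _).trans hX
  exact Filter.eventually_atTop.1 h3

/-- a sum over a long interval is the sum of the block sums -/
private lemma lt_split (f : ℕ → ℂ) (Z : ℕ → ℕ) (hZ : Monotone Z) (J : ℕ) :
    ∑ n ∈ (Ioc (Z 0) (Z J)).filter (fun n => n.Coprime 6), f n =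
      ∑ j ∈ range J, ∑ n ∈ (Ioc (Z j) (Z (j + 1))).filter (fun n => n.Coprime 6), f n := by
  induction J with
  | zero => simp
  | succ J ih =>
    rw [Finset.sum_range_succ, ← ih]
    rw [Finset.sum_filter, Finset.sum_filter, Finset.sum_filter]
    exact (Finset.sum_Ioc_consecutive _ (hZ (Nat.zero_le J)) (hZ (Nat.le_succ J))).symm

open scoped Classical in
/-- counting in one block -/
private lemma lt_count (X Z Z' : ℕ) (hZ : 1 ≤ Z) (h1 : Z ≤ Z') (h2 : Z' ≤ 2 * Z)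
    (hX : X ^ 2 ≤ Z ^ 65) (B : ℝ)
    (hB : ∀ ν : ℕ, 1 ≤ ν → ν ≤ (2 * Z) ^ 65 → ((ν.divisors.card : ℕ) : ℝ) ^ 65 ≤ B)
    (Q : Finset ℕ) (χ : (p : ℕ) → DirichletCharacter ℂ p)
    (hQ : ∀ p ∈ Q, p.Prime ∧ p ≤ X ∧ χ p ≠ 1) (V : ℝ) (hV : 0 < V) :
    ((Q.filter fun p => V <
      ‖∑ n ∈ (Ioc Z Z').filter (fun n => n.Coprime 6), χ p n / (n : ℂ)‖).card : ℝ) ≤
      26 * 2 ^ 65 * B / V ^ 130 := by
  have h3 := ls_block 65 (by norm_num) X Z Z' hZ h1 h2 hX B hB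
  rw [le_div_iff₀ (by positivity)]
  refine le_trans ?_ h3
  have h4 : ((Q.filter fun p => V <
      ‖∑ n ∈ (Ioc Z Z').filter (fun n => n.Coprime 6), χ p n / (n : ℂ)‖).card : ℝ) * V ^ 130 ≤
      ∑ p ∈ Q.filter (fun p => V <
      ‖∑ n ∈ (Ioc Z Z').filter (fun n => n.Coprime 6), χ p n / (n : ℂ)‖),
        ‖∑ n ∈ (Ioc Z Z').filter (fun n => n.Coprime 6), χ p n / (n : ℂ)‖ ^ (2 * 65) := by
    rw [← nsmul_eq_mul, ← Finset.sum_const]
    refine Finset.sum_le_sum fun p hp => ?_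
    rw [mem_filter] at hp
    exact pow_le_pow_left₀ hV.le hp.2.le 130
  refine h4.trans ?_
  have h5 : ∑ p ∈ Q.filter (fun p => V <
      ‖∑ n ∈ (Ioc Z Z').filter (fun n => n.Coprime 6), χ p n / (n : ℂ)‖),
        ‖∑ n ∈ (Ioc Z Z').filter (fun n => n.Coprime 6), χ p n / (n : ℂ)‖ ^ (2 * 65) ≤
      ∑ p ∈ Q.filter (fun p => V <
      ‖∑ n ∈ (Ioc Z Z').filter (fun n => n.Coprime 6), χ p n / (n : ℂ)‖),
        ∑ ψ ∈ Pool.BV.prim p,
          ‖∑ n ∈ (Ioc Z Z').filter (fun n => n.Coprime 6), ψ n / (n : ℂ)‖ ^ (2 * 65) := by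
    refine Finset.sum_le_sum fun p hp => ?_
    rw [mem_filter] at hp
    exact Finset.single_le_sum (s := Pool.BV.prim p) (f := fun ψ =>
      ‖∑ n ∈ (Ioc Z Z').filter (fun n => n.Coprime 6), ψ n / (n : ℂ)‖ ^ (2 * 65))
      (fun ψ _ => by positivity) (lt_prim (hQ p hp.1).1 _ (hQ p hp.1).2.2)
  refine h5.trans ?_
  apply Finset.sum_le_sum_of_subset_of_nonneg
  · intro p hp
    rw [mem_filter] at hp
    obtain ⟨a1, a2, _⟩ := hQ p hp.1
    rw [mem_filter, mem_Icc]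
    exact ⟨⟨a1.two_le, a2⟩, a1⟩
  · intro p _ _
    positivity

private lemma lt_z : ∃ N0 : ℕ, ∀ X z : ℕ, N0 ≤ X → X < (z + 1) ^ 32 →
    1 ≤ z ∧ X ^ 2 ≤ z ^ 65 := by
  obtain ⟨w, hw⟩ : ∃ w : ℕ, w = 2 ^ 64 := ⟨_, rfl⟩
  refine ⟨w ^ 32, fun X z hX hz2 => ?_⟩
  have hzw : w ≤ z := by
    by_contra h
    push Not at h
    have h1 : (z + 1) ^ 32 ≤ w ^ 32 := Nat.pow_le_pow_left h 32
    exact absurd (hX.trans_lt hz2) (not_lt.2 h1)
  have hw1 : 1 ≤ w := by rw [hw]; exact Nat.one_le_two_pow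
  have hz0 : 1 ≤ z := hw1.trans hzw
  refine ⟨hz0, ?_⟩
  have e1 : ((z + 1) ^ 32) ^ 2 = (z + 1) ^ 64 := (pow_mul _ 32 2).symm
  have e2 : z * z ^ 64 = z ^ 65 := (pow_succ' z 64).symm
  have e3 : (2 * z) ^ 64 = w * z ^ 64 := by rw [mul_pow, hw]
  have h1 : X ^ 2 ≤ ((z + 1) ^ 32) ^ 2 := Nat.pow_le_pow_left hz2.le 2
  have h2 : (z + 1) ^ 64 ≤ (2 * z) ^ 64 := Nat.pow_le_pow_left (by linarith) 64
  have h3 : w * z ^ 64 ≤ z * z ^ 64 := Nat.mul_le_mul_right _ hzw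
  rw [e1] at h1
  rw [e3] at h2
  rw [e2] at h3
  exact h1.trans (h2.trans h3)

private lemma lt_J (X : ℕ) (hX : 1 ≤ X) (hL : 64 ≤ Real.log X) :
    ((Nat.log 2 (X ^ 4) + 1 : ℕ) : ℝ) ≤ 6 * Real.log X := by
  have h1 : 2 ^ Nat.log 2 (X ^ 4) ≤ X ^ 4 := Nat.pow_log_le_self 2 (pow_pos hX 4).ne'
  have h2 : (Nat.log 2 (X ^ 4) : ℝ) * Real.log 2 ≤ 4 * Real.log X := by
    rw [← Real.log_pow]
    have h3 : 4 * Real.log X = Real.log ((X : ℝ) ^ 4) := by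
      rw [Real.log_pow]
      norm_num
    rw [h3]
    apply Real.log_le_log (by positivity)
    exact_mod_cast h1
  have h3 : (0.69 : ℝ) < Real.log 2 := by
    have := Real.log_two_gt_d9
    linarith
  push_cast
  nlinarith [Nat.cast_nonneg (α := ℝ) (Nat.log 2 (X ^ 4))]

open scoped Classical in
theorem ls_tail : ∃ X₀ : ℕ, ∀ X z : ℕ, X₀ ≤ X → z ^ 32 ≤ X → X < (z + 1) ^ 32 →
    ∀ (Q : Finset ℕ) (χ : (p : ℕ) → DirichletCharacter ℂ p),
      (∀ p ∈ Q, p.Prime ∧ p ≤ X ∧ χ p ≠ 1) →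
      ((Q.filter fun p => 1 / Real.log X <
        ‖∑ n ∈ (Ioc z (X ^ 4)).filter (fun n => n.Coprime 6), χ p n / (n : ℂ)‖).card : ℝ) ≤
        Real.sqrt X := by
  obtain ⟨C, hC1, hC⟩ := lt_tau 65 4000 (by norm_num)
  obtain ⟨D, hD⟩ : ∃ D : ℝ, D = 26 * 2 ^ 65 * (C * 2 ^ 65) * 6 ^ 131 := ⟨_, rfl⟩
  obtain ⟨X1, hX1⟩ := lt_log (87 / 200) D (by norm_num) 261
  obtain ⟨X2, hX2⟩ := Filter.eventually_atTop.1
    (tendsto_natCast_atTop_atTop.eventually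
      (Real.tendsto_log_atTop.eventually_ge_atTop (64 : ℝ)))
  obtain ⟨N0, hN0⟩ := lt_z
  refine ⟨X1 + X2 + N0 + 2, ?_⟩
  intro X z hX hz1 hz2 Q χ hQ
  have k1 := hX1 X (by omega)
  have hL64 := hX2 X (by omega)
  obtain ⟨hz0, hXz⟩ := hN0 X z (by omega) hz2
  have hXz' : ∀ Y : ℕ, z ≤ Y → X ^ 2 ≤ Y ^ 65 := fun Y hY =>
    hXz.trans (Nat.pow_le_pow_left hY 65)
  have hX1' : 1 ≤ X := by omega
  have hzX : z ≤ X := (Nat.le_self_pow (by norm_num) z).trans hz1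
  have hXX4 : X ≤ X ^ 4 := Nat.le_self_pow (by norm_num) X
  have hzX4 : z ≤ X ^ 4 := hzX.trans hXX4
  clear hXz hz1 hz2 hN0
  obtain ⟨L, hL⟩ : ∃ L : ℝ, L = Real.log X := ⟨_, rfl⟩
  rw [← hL] at k1 hL64 ⊢
  have hL0 : 0 < L := by linarith
  have hXR : (1 : ℝ) ≤ X := by exact_mod_cast hX1'
  have hX0 : (0 : ℝ) < X := by linarith
  obtain ⟨J, hJ⟩ : ∃ J : ℕ, J = Nat.log 2 (X ^ 4) + 1 := ⟨_, rfl⟩
  have hJ1 : 1 ≤ J := by omega
  have hJL : (J : ℝ) ≤ 6 * L := by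
    rw [hJ, hL]
    exact lt_J X hX1' (by rw [← hL]; exact hL64)
  have hJR : (0 : ℝ) < J := by exact_mod_cast hJ1
  obtain ⟨Z, hZ⟩ : ∃ Z : ℕ → ℕ, Z = fun j => min (2 ^ j * z) (X ^ 4) := ⟨_, rfl⟩
  have hZmono : Monotone Z := by
    intro i j hij
    rw [hZ]
    exact min_le_min (Nat.mul_le_mul_right _ (Nat.pow_le_pow_right (by norm_num) hij)) le_rfl
  have hZ0 : Z 0 = z := by
    rw [hZ]
    simp only [pow_zero, one_mul]
    exact min_eq_left hzX4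
  have hZJ : Z J = X ^ 4 := by
    rw [hZ]
    apply min_eq_right
    have h1 : X ^ 4 < 2 ^ J := by
      rw [hJ]
      exact Nat.lt_pow_succ_log_self (by norm_num) _
    calc X ^ 4 ≤ 2 ^ J := h1.le
      _ ≤ 2 ^ J * z := Nat.le_mul_of_pos_right _ (by omega)
  have hZz : ∀ j, z ≤ Z j := fun j => by
    rw [← hZ0]
    exact hZmono (Nat.zero_le j)
  have hZX : ∀ j, Z j ≤ X ^ 4 := fun j => by
    rw [hZ]
    exact min_le_right _ _
  have hZ2 : ∀ j, Z (j + 1) ≤ 2 * Z j := fun j => by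
    rw [hZ]
    simp only
    rcases le_total (2 ^ j * z) (X ^ 4) with h | h
    · rw [min_eq_left h]
      refine (min_le_left _ _).trans (le_of_eq ?_)
      rw [pow_succ]
      ring
    · rw [min_eq_right h]
      refine (min_le_right _ _).trans ?_
      omega
  obtain ⟨V, hV⟩ : ∃ V : ℝ, V = 1 / (J * L) := ⟨_, rfl⟩
  have hV0 : 0 < V := by rw [hV]; positivity
  obtain ⟨B, hB⟩ : ∃ B : ℝ, B = C * (2 ^ 65 * (X : ℝ) ^ (13 / 200 : ℝ)) := ⟨_, rfl⟩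
  have hB0 : 0 ≤ B := by rw [hB]; positivity
  have hBt : ∀ j, ∀ ν : ℕ, 1 ≤ ν → ν ≤ (2 * Z j) ^ 65 →
      ((ν.divisors.card : ℕ) : ℝ) ^ 65 ≤ B := by
    intro j ν hν1 hν2
    refine (hC ν (by omega)).trans ?_
    rw [hB]
    apply mul_le_mul_of_nonneg_left _ (by linarith)
    have h1 : (ν : ℝ) ≤ 2 ^ 65 * (X : ℝ) ^ 260 := by
      have h2 : ν ≤ 2 ^ 65 * X ^ 260 := by
        calc ν ≤ (2 * Z j) ^ 65 := hν2
          _ ≤ (2 * X ^ 4) ^ 65 := Nat.pow_le_pow_left (Nat.mul_le_mul_left _ (hZX j)) 65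
          _ = 2 ^ 65 * X ^ 260 := by rw [mul_pow, ← pow_mul]
      exact_mod_cast h2
    have hexp : (0 : ℝ) ≤ 1 / ((4000 : ℕ) : ℝ) := by positivity
    calc (ν : ℝ) ^ (1 / ((4000 : ℕ) : ℝ)) ≤
          (2 ^ 65 * (X : ℝ) ^ 260) ^ (1 / ((4000 : ℕ) : ℝ)) :=
          Real.rpow_le_rpow (by positivity) h1 hexp
      _ = ((2 : ℝ) ^ 65) ^ (1 / ((4000 : ℕ) : ℝ)) * ((X : ℝ) ^ 260) ^ (1 / ((4000 : ℕ) : ℝ)) :=
          Real.mul_rpow (by positivity) (by positivity)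
      _ ≤ 2 ^ 65 * (X : ℝ) ^ (13 / 200 : ℝ) := by
          apply mul_le_mul _ _ (by positivity) (by positivity)
          · calc ((2 : ℝ) ^ 65) ^ (1 / ((4000 : ℕ) : ℝ)) ≤ ((2 : ℝ) ^ 65) ^ (1 : ℝ) := by
                  apply Real.rpow_le_rpow_of_exponent_le
                  · exact one_le_pow₀ (by norm_num)
                  · norm_num
              _ = 2 ^ 65 := Real.rpow_one _
          · rw [← Real.rpow_natCast, ← Real.rpow_mul hX0.le]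
            apply le_of_eq
            congr 1
            push_cast
            norm_num
  -- reduction to blocks
  have hsub : (Q.filter fun p => 1 / L <
        ‖∑ n ∈ (Ioc z (X ^ 4)).filter (fun n => n.Coprime 6), χ p n / (n : ℂ)‖) ⊆
      (range J).biUnion (fun j => Q.filter fun p => V <
        ‖∑ n ∈ (Ioc (Z j) (Z (j + 1))).filter (fun n => n.Coprime 6), χ p n / (n : ℂ)‖) := by
    intro p hp
    rw [mem_filter] at hp
    rw [mem_biUnion]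
    by_contra hcon
    push Not at hcon
    have h1 : ∀ j ∈ range J,
        ‖∑ n ∈ (Ioc (Z j) (Z (j + 1))).filter (fun n => n.Coprime 6), χ p n / (n : ℂ)‖ ≤ V := by
      intro j hj
      by_contra hlt
      push Not at hlt
      exact hcon j hj (mem_filter.2 ⟨hp.1, hlt⟩)
    have h2 : ‖∑ n ∈ (Ioc z (X ^ 4)).filter (fun n => n.Coprime 6), χ p n / (n : ℂ)‖ ≤
        1 / L := by
      have h3 := lt_split (fun n => χ p n / (n : ℂ)) Z hZmono J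
      rw [hZ0, hZJ] at h3
      rw [h3]
      calc ‖∑ j ∈ range J, ∑ n ∈ (Ioc (Z j) (Z (j + 1))).filter (fun n => n.Coprime 6),
            χ p n / (n : ℂ)‖ ≤ ∑ j ∈ range J,
            ‖∑ n ∈ (Ioc (Z j) (Z (j + 1))).filter (fun n => n.Coprime 6),
              χ p n / (n : ℂ)‖ := norm_sum_le _ _
        _ ≤ ∑ j ∈ range J, V := Finset.sum_le_sum h1
        _ = 1 / L := by
            rw [Finset.sum_const, card_range, nsmul_eq_mul, hV]
            field_simp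
    exact absurd hp.2 (not_lt.2 h2)
  have hcard := Finset.card_le_card hsub
  have hcard2 : ((Q.filter fun p => 1 / L <
        ‖∑ n ∈ (Ioc z (X ^ 4)).filter (fun n => n.Coprime 6), χ p n / (n : ℂ)‖).card : ℝ) ≤
      ∑ j ∈ range J, ((Q.filter fun p => V <
        ‖∑ n ∈ (Ioc (Z j) (Z (j + 1))).filter (fun n => n.Coprime 6),
          χ p n / (n : ℂ)‖).card : ℝ) := by
    exact_mod_cast hcard.trans Finset.card_biUnion_le
  refine hcard2.trans ?_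
  have hblk : ∀ j ∈ range J, ((Q.filter fun p => V <
        ‖∑ n ∈ (Ioc (Z j) (Z (j + 1))).filter (fun n => n.Coprime 6),
          χ p n / (n : ℂ)‖).card : ℝ) ≤ 26 * 2 ^ 65 * B / V ^ 130 := by
    intro j _
    exact lt_count X (Z j) (Z (j + 1)) (hz0.trans (hZz j)) (hZmono (Nat.le_succ j)) (hZ2 j)
      (hXz' _ (hZz j)) B (hBt j) Q χ hQ V hV0
  refine (Finset.sum_le_sum hblk).trans ?_
  rw [Finset.sum_const, card_range, nsmul_eq_mul]
  have hJ6 : (J : ℝ) * (26 * 2 ^ 65 * B / V ^ 130) ≤ (6 * L) * (26 * 2 ^ 65 * B *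
      ((6 * L) * L) ^ 130) := by
    have h1 : 26 * 2 ^ 65 * B / V ^ 130 = 26 * 2 ^ 65 * B * (J * L) ^ 130 := by
      rw [hV, one_div, inv_pow, div_inv_eq_mul]
    rw [h1]
    gcongr
  refine hJ6.trans ?_
  have h1 : (6 * L) * (26 * 2 ^ 65 * B * ((6 * L) * L) ^ 130) =
      (D * L ^ 261) * (X : ℝ) ^ (13 / 200 : ℝ) := by
    rw [hD, hB, mul_pow, mul_pow]
    ring
  rw [h1]
  calc (D * L ^ 261) * (X : ℝ) ^ (13 / 200 : ℝ) ≤
        (X : ℝ) ^ (87 / 200 : ℝ) * (X : ℝ) ^ (13 / 200 : ℝ) :=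
        mul_le_mul_of_nonneg_right k1 (by positivity)
    _ = Real.sqrt X := by
        rw [← Real.rpow_add hX0, Real.sqrt_eq_rpow]
        norm_num

end Pool.QS
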