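import Pool.Agent.Lib.MP_a3a416_nt.QS.Defs

/-! QS-Mean: mean values over `(ℤ/M)²`, multiplicativity.

PROOF.
Elementary. mean_mul (CRT): the map range (M*N) → range M × range N, a ↦ (a % M, a % N) is a bijection
 (Nat.chineseRemainder / or use sums over ZMod (M*N) with ZMod.chineseRemainder); f (a) = f (a % M) by periodicity
 (a = a % M + M * (a / M), take Per with s = a/M). So
   sum_{a,b < MN} f a b * g a b = sum_{a1,b1 < M} sum_{a2,b2 < N} f a1 b1 * g a2 b2.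
 mean_prod: Finset induction on S with mean_mul (primes: the product over S is coprime to a new prime), per_prod.
 per_prod: each q ∈ S divides the product (Per.of_dvd).
-/

set_option autoImplicit false

open Finset

namespace Pool.QS
theorem mean_one {M : ℕ} (hM : 1 ≤ M) : mean M (fun _ _ => 1) = 1 := by
  have h : (M : ℂ) ≠ 0 := by exact_mod_cast (by omega : M ≠ 0)
  unfold mean
  simp only [sum_const, card_range, nsmul_eq_mul, mul_one]
  field_simp

theorem mean_norm_le {M : ℕ} (hM : 1 ≤ M) (f : ℤ → ℤ → ℂ) (B : ℝ) (hf : ∀ a b, ‖f a b‖ ≤ B) :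
    ‖mean M f‖ ≤ B := by
  have h0 : (0 : ℝ) < M := by exact_mod_cast hM
  unfold mean
  rw [norm_div, norm_pow, Complex.norm_natCast, div_le_iff₀ (by positivity)]
  calc ‖∑ a ∈ range M, ∑ b ∈ range M, f (a : ℤ) (b : ℤ)‖
      ≤ ∑ a ∈ range M, ‖∑ b ∈ range M, f (a : ℤ) (b : ℤ)‖ := norm_sum_le _ _
    _ ≤ ∑ a ∈ range M, ((M : ℝ) * B) := by
        refine sum_le_sum fun a _ => ?_
        calc ‖∑ b ∈ range M, f (a : ℤ) (b : ℤ)‖ ≤ ∑ b ∈ range M, ‖f (a : ℤ) (b : ℤ)‖ := norm_sum_le _ _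
          _ ≤ ∑ b ∈ range M, B := sum_le_sum fun b _ => hf _ _
          _ = (M : ℝ) * B := by rw [sum_const, card_range, nsmul_eq_mul]
    _ = B * (M : ℝ) ^ 2 := by rw [sum_const, card_range, nsmul_eq_mul]; ring

theorem Per.mul {M : ℕ} {f g : ℤ → ℤ → ℂ} (hf : Per M f) (hg : Per M g) :
    Per M (fun a b => f a b * g a b) := by
  intro a b s t
  show f _ _ * g _ _ = f a b * g a b
  rw [hf, hg]

theorem Per.of_dvd {M N : ℕ} (h : M ∣ N) {f : ℤ → ℤ → ℂ} (hf : Per M f) : Per N f := by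
  obtain ⟨k, rfl⟩ := h
  intro a b s t
  have h1 : a + ((M * k : ℕ) : ℤ) * s = a + M * (k * s) := by push_cast; ring
  have h2 : b + ((M * k : ℕ) : ℤ) * t = b + M * (k * t) := by push_cast; ring
  rw [h1, h2]
  exact hf a b _ _

private theorem mean_crt {M N : ℕ} (hM : 1 ≤ M) (hN : 1 ≤ N) (hMN : M.Coprime N) (F : ℕ → ℕ → ℂ) :
    ∑ a ∈ range (M * N), F (a % M) (a % N) = ∑ x ∈ range M, ∑ y ∈ range N, F x y := by
  rw [← sum_product']
  refine sum_nbij' (fun a => (a % M, a % N)) (fun p => (Nat.chineseRemainder hMN p.1 p.2 : ℕ)) ?_ ?_ ?_ ?_ ?_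
  · intro a _
    simp only [mem_product, mem_range]
    exact ⟨Nat.mod_lt _ hM, Nat.mod_lt _ hN⟩
  · intro p _
    rw [mem_range]
    exact Nat.chineseRemainder_lt_mul hMN _ _ (by omega) (by omega)
  · intro a ha
    rw [mem_range] at ha
    have h1 := (Nat.chineseRemainder hMN (a % M) (a % N)).2
    have h2 : ((Nat.chineseRemainder hMN (a % M) (a % N) : ℕ)) ≡ a [MOD M * N] := by
      refine (Nat.modEq_and_modEq_iff_modEq_mul hMN).1 ⟨?_, ?_⟩
      · exact h1.1.trans (Nat.mod_modEq _ _)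
      · exact h1.2.trans (Nat.mod_modEq _ _)
    have h3 := Nat.chineseRemainder_lt_mul hMN (a % M) (a % N) (by omega) (by omega)
    exact Nat.ModEq.eq_of_lt_of_lt h2 h3 ha
  · intro p hp
    simp only [mem_product, mem_range] at hp
    have h1 := (Nat.chineseRemainder hMN p.1 p.2).2
    refine Prod.ext ?_ ?_
    · show (Nat.chineseRemainder hMN p.1 p.2 : ℕ) % M = p.1
      have := h1.1
      rw [Nat.ModEq, Nat.mod_eq_of_lt hp.1] at this
      exact this
    · show (Nat.chineseRemainder hMN p.1 p.2 : ℕ) % N = p.2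
      have := h1.2
      rw [Nat.ModEq, Nat.mod_eq_of_lt hp.2] at this
      exact this
  · intro a _
    rfl

private theorem per_mod {M : ℕ} {f : ℤ → ℤ → ℂ} (hf : Per M f) (a b : ℕ) :
    f (a : ℤ) (b : ℤ) = f ((a % M : ℕ) : ℤ) ((b % M : ℕ) : ℤ) := by
  have h1 : (a : ℤ) = ((a % M : ℕ) : ℤ) + M * ((a / M : ℕ) : ℤ) := by
    exact_mod_cast (Nat.mod_add_div a M).symm
  have h2 : (b : ℤ) = ((b % M : ℕ) : ℤ) + M * ((b / M : ℕ) : ℤ) := by
    exact_mod_cast (Nat.mod_add_div b M).symm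
  conv_lhs => rw [h1, h2]
  exact hf _ _ _ _

theorem mean_mul {M N : ℕ} (hM : 1 ≤ M) (hN : 1 ≤ N) (hMN : M.Coprime N) {f g : ℤ → ℤ → ℂ}
    (hf : Per M f) (hg : Per N g) :
    mean (M * N) (fun a b => f a b * g a b) = mean M f * mean N g := by
  have key : ∑ a ∈ range (M * N), ∑ b ∈ range (M * N), f (a : ℤ) (b : ℤ) * g (a : ℤ) (b : ℤ) =
      (∑ a ∈ range M, ∑ b ∈ range M, f (a : ℤ) (b : ℤ)) * (∑ a ∈ range N, ∑ b ∈ range N, g (a : ℤ) (b : ℤ)) := by
    have h1 : ∀ a : ℕ, ∑ b ∈ range (M * N), f (a : ℤ) (b : ℤ) * g (a : ℤ) (b : ℤ) =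
        (fun x y : ℕ => ∑ b1 ∈ range M, ∑ b2 ∈ range N, f (x : ℤ) (b1 : ℤ) * g (y : ℤ) (b2 : ℤ)) (a % M) (a % N) := by
      intro a
      show _ = ∑ b1 ∈ range M, ∑ b2 ∈ range N, f ((a % M : ℕ) : ℤ) (b1 : ℤ) * g ((a % N : ℕ) : ℤ) (b2 : ℤ)
      rw [← mean_crt hM hN hMN (fun b1 b2 => f ((a % M : ℕ) : ℤ) (b1 : ℤ) * g ((a % N : ℕ) : ℤ) (b2 : ℤ))]
      refine sum_congr rfl fun b _ => ?_
      rw [per_mod hf a b, per_mod hg a b]
    rw [sum_congr rfl fun a _ => h1 a, mean_crt hM hN hMN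
      (fun x y : ℕ => ∑ b1 ∈ range M, ∑ b2 ∈ range N, f (x : ℤ) (b1 : ℤ) * g (y : ℤ) (b2 : ℤ))]
    rw [sum_mul_sum]
    refine sum_congr rfl fun x _ => sum_congr rfl fun y _ => ?_
    rw [sum_mul_sum]
  have hM0 : (M : ℂ) ≠ 0 := by exact_mod_cast (by omega : M ≠ 0)
  have hN0 : (N : ℂ) ≠ 0 := by exact_mod_cast (by omega : N ≠ 0)
  unfold mean
  rw [key]
  push_cast
  field_simp

theorem per_prod (S : Finset ℕ) (f : ℕ → ℤ → ℤ → ℂ) (hf : ∀ q ∈ S, Per q (f q)) :
    Per (∏ q ∈ S, q) (fun a b => ∏ q ∈ S, f q a b) := by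
  intro a b s t
  refine prod_congr rfl fun q hq => ?_
  exact (hf q hq).of_dvd (dvd_prod_of_mem (fun q => q) hq) a b s t

/-- Chinese remainder theorem for products of local functions. -/
theorem mean_prod (S : Finset ℕ) (hS : ∀ q ∈ S, q.Prime) (f : ℕ → ℤ → ℤ → ℂ)
    (hf : ∀ q ∈ S, Per q (f q)) :
    mean (∏ q ∈ S, q) (fun a b => ∏ q ∈ S, f q a b) = ∏ q ∈ S, mean q (f q) := by
  induction S using Finset.induction_on with
  | empty => simpa using mean_one (le_refl 1)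
  | insert q S hq ih =>
    rw [prod_insert hq, prod_insert hq, ← ih (fun r hr => hS r (mem_insert_of_mem hr)) (fun r hr => hf r (mem_insert_of_mem hr))]
    have h1 : (fun a b => ∏ r ∈ insert q S, f r a b) = (fun a b => f q a b * ∏ r ∈ S, f r a b) := by
      funext a b
      rw [prod_insert hq]
    rw [h1]
    refine mean_mul (hS q (mem_insert_self q S)).one_le ?_ ?_ (hf q (mem_insert_self q S))
      (per_prod S f fun r hr => hf r (mem_insert_of_mem hr))
    · exact Nat.one_le_iff_ne_zero.2 (prod_ne_zero_iff.2 fun r hr => (hS r (mem_insert_of_mem hr)).ne_zero)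
    · refine Nat.Coprime.prod_right fun r hr => ?_
      refine (Nat.coprime_primes (hS q (mem_insert_self q S)) (hS r (mem_insert_of_mem hr))).2 ?_
      rintro rfl
      exact hq hr

end Pool.QS
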