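import Pool.Agent.Lib.MP_a3a416_nt.QS.Selberg
import Pool.Agent.Lib.MP_a3a416_nt.QS.Mean

/-! QS-Local: properties of the local densities and of the sieve weight.

PROOF.
All elementary.
 * chi_pm: q coprime to 6 (prime >= 5), chi_val.
 * g q = 1 - (q-1)(q-e)/q^2: e = 1: (2q-1)/q^2; e = -1: 1/q^2. So 0 < 1/q^2 <= g < 1.
 * mem_DD, DD_sub, DD_down (product over a subset divides/≤ product), DD_emp.
 * DD_card: A ↦ ∏ q ∈ A, q is injective on sets of primes (A = primeFactors of the product,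
   Nat.primeFactors_prod), values in [1, D].
 * lam_abs: selLam_abs and (∏ g)⁻¹ <= ∏ q^2 <= D^2.
 * w_one: under the hypothesis only B = ∅ survives in the filter, selLam_empty.
 * psi_norm: psi = 0 or psi^d = 1 (norm 1: Complex.norm_eq_one_of_pow_eq_one).
 * mean_zero: count: for v in the d roots of unity (Complex.card_rootsOfUnity / Polynomial.nthRootsFinset, d elements, d >= 1)
   cnt gives d * #{psi = v} = (q-1)(q-e); summing over the d roots: #{psi ≠ 0} = (q-1)(q-e); so #{psi = 0} = q^2 - (q-1)(q-e).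
 * mean_psi: group the sum over the values v of psi: v = 0 contributes 0^j * conj(0)^k * c; since ¬ j ≡ k [MOD d], not both j,k
   are 0, so this is 0. The others: (q-1)(q-e)/d * c * sum_{v^d = 1} v^j conj(v)^k, and conj v = v⁻¹, so the sum is
   sum_v v^(j-k) = 0 because d does not divide j - k (multiply by a primitive root ζ: S = ζ^(j-k) S, ζ^(j-k) ≠ 1).
-/

set_option autoImplicit false

open Finset

namespace Pool.QS
variable {d : ℕ} (L : Loc d)

theorem Loc.chi_pm {q : ℕ} (hq : q.Prime) (h5 : 5 ≤ q) : L.chi q = 1 ∨ L.chi q = -1 := by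
  apply L.chi_val
  rw [Nat.Prime.coprime_iff_not_dvd hq]
  intro h
  have h1 := Nat.le_of_dvd (by norm_num) h
  interval_cases q
  · revert h; decide
  · revert hq; decide

theorem Loc.g_pos {q : ℕ} (hq : q.Prime) (h5 : 5 ≤ q) : 0 < L.g q ∧ L.g q < 1 := by
  have hqR : (5 : ℝ) ≤ q := by exact_mod_cast h5
  have hq2 : (0 : ℝ) < (q : ℝ) ^ 2 := by positivity
  unfold Loc.g
  rcases L.chi_pm hq h5 with h | h
  · rw [h]
    push_cast
    constructor
    · rw [sub_pos, div_lt_one hq2]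
      nlinarith
    · have : 0 < ((q : ℝ) - 1) * (q - 1) / (q : ℝ) ^ 2 := by
        apply div_pos _ hq2
        nlinarith
      linarith
  · rw [h]
    push_cast
    constructor
    · rw [sub_pos, div_lt_one hq2]
      nlinarith
    · have : 0 < ((q : ℝ) - 1) * (q - -1) / (q : ℝ) ^ 2 := by
        apply div_pos _ hq2
        nlinarith
      linarith

theorem Loc.g_ge {q : ℕ} (hq : q.Prime) (h5 : 5 ≤ q) : 1 / (q : ℝ) ^ 2 ≤ L.g q := by
  have hqR : (5 : ℝ) ≤ q := by exact_mod_cast h5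
  have hq2 : (0 : ℝ) < (q : ℝ) ^ 2 := by positivity
  unfold Loc.g
  have e : 1 - ((q : ℝ) - 1) * ((q : ℝ) - L.chi q) / (q : ℝ) ^ 2 =
      ((q : ℝ) ^ 2 - ((q : ℝ) - 1) * ((q : ℝ) - L.chi q)) / (q : ℝ) ^ 2 := by
    field_simp
  rw [e, div_le_div_iff_of_pos_right hq2]
  rcases L.chi_pm hq h5 with h | h
  · rw [h]
    push_cast
    nlinarith
  · rw [h]
    push_cast
    nlinarith

theorem mem_DD {D : ℕ} {A : Finset ℕ} :
    A ∈ DD D ↔ (∀ q ∈ A, 5 ≤ q ∧ q ≤ D ∧ q.Prime) ∧ ∏ q ∈ A, q ≤ D := by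
  unfold DD
  rw [mem_filter, mem_powerset]
  refine and_congr_left fun _ => ?_
  constructor
  · intro h q hq
    exact mem_P5.1 (h hq)
  · intro h q hq
    exact mem_P5.2 (h q hq)

theorem DD_sub (D : ℕ) : DD D ⊆ (P5 D).powerset := Finset.filter_subset _ _

theorem DD_down {D : ℕ} {A B : Finset ℕ} (hA : A ∈ DD D) (hBA : B ⊆ A) : B ∈ DD D := by
  rw [mem_DD] at hA ⊢
  refine ⟨fun q hq => hA.1 q (hBA hq), le_trans ?_ hA.2⟩
  exact Finset.prod_le_prod_of_subset_of_one_le' hBA fun q hq _ => by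
    have := (hA.1 q hq).1
    omega

theorem DD_emp {D : ℕ} (hD : 1 ≤ D) : ∅ ∈ DD D := by
  rw [mem_DD]
  simp [hD]

theorem DD_card {D : ℕ} : (DD D).card ≤ D := by
  have h1 : (DD D).card ≤ (Icc 1 D).card := by
    refine Finset.card_le_card_of_injOn (fun A => ∏ q ∈ A, q) ?_ ?_
    · intro A hA
      rw [mem_coe, mem_DD] at hA
      rw [mem_coe, mem_Icc]
      refine ⟨?_, hA.2⟩
      apply Nat.one_le_iff_ne_zero.2
      exact Finset.prod_ne_zero_iff.2 fun q hq => by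
        have := (hA.1 q hq).1
        omega
    · intro A hA B hB h
      rw [mem_coe, mem_DD] at hA hB
      have h2 : (∏ q ∈ A, q).primeFactors = A := Nat.primeFactors_prod fun q hq => (hA.1 q hq).2.2
      have h3 : (∏ q ∈ B, q).primeFactors = B := Nat.primeFactors_prod fun q hq => (hB.1 q hq).2.2
      have h4 : ∏ q ∈ A, q = ∏ q ∈ B, q := h
      rw [← h2, ← h3, h4]
  rw [Nat.card_Icc] at h1
  omega

private theorem gP (D : ℕ) : ∀ q ∈ P5 D, 0 < L.g q ∧ L.g q < 1 := fun q hq => by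
  rw [mem_P5] at hq
  exact L.g_pos hq.2.2 hq.1

theorem Loc.lam_abs {D : ℕ} (hD : 1 ≤ D) {B : Finset ℕ} (hB : B ∈ DD D) :
    |L.lam D B| ≤ (D : ℝ) ^ 2 := by
  have hBP : B ⊆ P5 D := Finset.mem_powerset.1 (DD_sub D hB)
  have h1 := selLam_abs (P5 D) L.g (gP L D) (DD D) (DD_sub D) (DD_emp hD) B hBP
  refine h1.trans ?_
  rw [mem_DD] at hB
  have h2 : ∏ q ∈ B, (1 / (q : ℝ) ^ 2) ≤ ∏ q ∈ B, L.g q :=
    Finset.prod_le_prod (fun q _ => by positivity) fun q hq =>
      L.g_ge (hB.1 q hq).2.2 (hB.1 q hq).1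
  have h3 : ∏ q ∈ B, (1 / (q : ℝ) ^ 2) = (((∏ q ∈ B, q : ℕ) : ℝ) ^ 2)⁻¹ := by
    push_cast
    rw [← Finset.prod_pow, ← Finset.prod_inv_distrib]
    exact Finset.prod_congr rfl fun q _ => one_div _
  have h4 : 0 < ((∏ q ∈ B, q : ℕ) : ℝ) := by
    have : 0 < ∏ q ∈ B, q := Finset.prod_pos fun q hq => by
      have := (hB.1 q hq).1
      omega
    exact_mod_cast this
  rw [h3] at h2
  calc (∏ q ∈ B, L.g q)⁻¹ ≤ ((((∏ q ∈ B, q : ℕ) : ℝ) ^ 2)⁻¹)⁻¹ := by
        apply inv_anti₀ (by positivity) h2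
    _ = ((∏ q ∈ B, q : ℕ) : ℝ) ^ 2 := inv_inv _
    _ ≤ (D : ℝ) ^ 2 := by
        apply pow_le_pow_left₀ h4.le
        exact_mod_cast hB.2

theorem Loc.w_nonneg (D : ℕ) (a b : ℤ) : 0 ≤ L.w D a b := by
  unfold Loc.w
  positivity

/-- the weight is `1` at points whose symbols at the primes up to `D` do not vanish -/
theorem Loc.w_one {D : ℕ} (hD : 1 ≤ D) {a b : ℤ}
    (h : ∀ q : ℕ, q.Prime → 5 ≤ q → q ≤ D → L.psi q a b ≠ 0) : L.w D a b = 1 := by
  classical
  unfold Loc.w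
  have h1 : (DD D).filter (fun B => ∀ q ∈ B, L.psi q a b = 0) = {∅} := by
    ext B
    rw [mem_filter, mem_singleton]
    constructor
    · rintro ⟨hB, hB2⟩
      rw [mem_DD] at hB
      rw [Finset.eq_empty_iff_forall_notMem]
      intro q hq
      obtain ⟨a1, a2, a3⟩ := hB.1 q hq
      exact h q a3 a1 a2 (hB2 q hq)
    · rintro rfl
      exact ⟨DD_emp hD, by simp⟩
  have h2 : L.lam D ∅ = 1 :=
    selLam_empty (P5 D) L.g (gP L D) (DD D) (DD_sub D) (DD_emp hD)
  have h3 : ∑ B ∈ (DD D).filter (fun B => ∀ q ∈ B, L.psi q a b = 0), L.lam D B = 1 := by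
    rw [h1, Finset.sum_singleton, h2]
  have h4 : (1 : ℝ) = 1 ^ 2 := by norm_num
  rw [h4]
  congr 1

theorem Loc.psi_norm {q : ℕ} (hq : q.Prime) (h5 : 5 ≤ q) (hd : 1 ≤ d) (a b : ℤ) :
    ‖L.psi q a b‖ = if L.psi q a b = 0 then 0 else 1 := by
  split_ifs with h
  · rw [h, norm_zero]
  · rcases L.val q hq h5 a b with h1 | h1
    · exact absurd h1 h
    · exact Complex.norm_eq_one_of_pow_eq_one h1 (by omega)

theorem Loc.psi_norm_le {q : ℕ} (hq : q.Prime) (h5 : 5 ≤ q) (hd : 1 ≤ d) (a b : ℤ) :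
    ‖L.psi q a b‖ ≤ 1 := by
  rw [L.psi_norm hq h5 hd]
  split_ifs <;> norm_num

/-- grouping by the values of `psi` -/
private theorem psi_group {q : ℕ} (hq : q.Prime) (h5 : 5 ≤ q) (hd : 1 ≤ d) (F : ℂ → ℂ) :
    (d : ℂ) * ∑ a ∈ range q, ∑ b ∈ range q, F (L.psi q (a : ℤ) (b : ℤ)) =
      (d : ℂ) * (((range q ×ˢ range q).filter
        fun z => L.psi q (z.1 : ℤ) (z.2 : ℤ) = 0).card : ℂ) * F 0 +
      ((q : ℂ) - 1) * ((q : ℂ) - L.chi q) * ∑ v ∈ Polynomial.nthRootsFinset d (1 : ℂ), F v := by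
  classical
  have h0 : (0 : ℂ) ∉ Polynomial.nthRootsFinset d (1 : ℂ) := by
    rw [Polynomial.mem_nthRootsFinset (by omega)]
    rw [zero_pow (by omega)]
    exact zero_ne_one
  have h1 : ∑ a ∈ range q, ∑ b ∈ range q, F (L.psi q (a : ℤ) (b : ℤ)) =
      ∑ v ∈ insert 0 (Polynomial.nthRootsFinset d (1 : ℂ)),
        ∑ z ∈ (range q ×ˢ range q).filter (fun z => L.psi q (z.1 : ℤ) (z.2 : ℤ) = v), F v := by
    rw [← Finset.sum_product' (range q) (range q) (fun a b => F (L.psi q (a : ℤ) (b : ℤ)))]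
    rw [← Finset.sum_fiberwise_of_maps_to (s := range q ×ˢ range q)
      (t := insert 0 (Polynomial.nthRootsFinset d (1 : ℂ)))
      (g := fun z : ℕ × ℕ => L.psi q (z.1 : ℤ) (z.2 : ℤ))]
    · refine Finset.sum_congr rfl fun v _ => Finset.sum_congr rfl fun z hz => ?_
      rw [mem_filter] at hz
      rw [hz.2]
    · intro z _
      rw [mem_insert, Polynomial.mem_nthRootsFinset (by omega)]
      exact L.val q hq h5 _ _
  rw [h1, Finset.sum_insert h0, mul_add, Finset.sum_const, nsmul_eq_mul]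
  congr 1
  · ring
  · rw [Finset.mul_sum, Finset.mul_sum]
    refine Finset.sum_congr rfl fun v hv => ?_
    rw [Polynomial.mem_nthRootsFinset (by omega)] at hv
    rw [Finset.sum_const, nsmul_eq_mul]
    have h2 := L.cnt q hq h5 v hv
    have h3 := congrArg (fun t : ℤ => (t : ℂ)) h2
    push_cast at h3
    rw [← mul_assoc, ← h3]

private theorem card_roots (hd : 1 ≤ d) : (Polynomial.nthRootsFinset d (1 : ℂ)).card = d :=
  (Complex.isPrimitiveRoot_exp d (by omega)).card_nthRootsFinset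

/-- the indicator of the zero set of `psi q` has mean `g q` -/
theorem Loc.mean_zero {q : ℕ} (hq : q.Prime) (h5 : 5 ≤ q) (hd : 1 ≤ d) :
    mean q (fun a b => if L.psi q a b = 0 then 1 else 0) = (L.g q : ℂ) := by
  classical
  have hd0 : (d : ℂ) ≠ 0 := by
    have : d ≠ 0 := by omega
    exact_mod_cast this
  have hq0 : (q : ℂ) ≠ 0 := by
    have : q ≠ 0 := by omega
    exact_mod_cast this
  have h1 := psi_group L hq h5 hd (fun _ => 1)
  have h2 := psi_group L hq h5 hd (fun v => if v = 0 then 1 else 0)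
  rw [Finset.sum_const, Finset.sum_const, Finset.sum_const, card_range, card_roots hd] at h1
  have h3 : ∑ v ∈ Polynomial.nthRootsFinset d (1 : ℂ), (if v = 0 then (1 : ℂ) else 0) = 0 := by
    refine Finset.sum_eq_zero fun v hv => ?_
    rw [Polynomial.mem_nthRootsFinset (by omega)] at hv
    rw [if_neg]
    rintro rfl
    rw [zero_pow (by omega)] at hv
    exact zero_ne_one hv
  rw [h3, if_pos rfl, mul_zero, add_zero, mul_one] at h2
  have h4 := mul_left_cancel₀ hd0 h2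
  simp only [nsmul_eq_mul, mul_one] at h1
  have h5' : (d : ℂ) * (((q : ℂ) * q)) = d * ((((range q ×ˢ range q).filter
        fun z => L.psi q (z.1 : ℤ) (z.2 : ℤ) = 0).card : ℂ) +
      ((q : ℂ) - 1) * ((q : ℂ) - L.chi q)) := by
    rw [h1]
    ring
  have h6 := mul_left_cancel₀ hd0 h5'
  unfold mean
  rw [h4]
  unfold Loc.g
  push_cast
  rw [div_eq_iff (pow_ne_zero 2 hq0), sub_mul, div_mul_cancel₀ _ (pow_ne_zero 2 hq0)]
  linear_combination -h6

/-- the mean of `psi^j conj(psi)^k` vanishes unless `j ≡ k (mod d)`. -/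
theorem Loc.mean_psi {q : ℕ} (hq : q.Prime) (h5 : 5 ≤ q) (hd : 1 ≤ d) (j k : ℕ) 
    (hjk : ¬ j ≡ k [MOD d]) (c : ℂ) :
    mean q (fun a b => L.psi q a b ^ j * (starRingEnd ℂ) (L.psi q a b) ^ k * c) = 0 := by
  classical
  have hd0 : (d : ℂ) ≠ 0 := by
    have : d ≠ 0 := by omega
    exact_mod_cast this
  have h1 := psi_group L hq h5 hd (fun v => v ^ j * (starRingEnd ℂ) v ^ k * c)
  have h2 : (0 : ℂ) ^ j * (starRingEnd ℂ) 0 ^ k * c = 0 := by
    rw [map_zero]
    have h3 : j ≠ 0 ∨ k ≠ 0 := by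
      by_contra h
      push Not at h
      apply hjk
      rw [h.1, h.2]
    rcases h3 with h3 | h3
    · rw [zero_pow h3, zero_mul, zero_mul]
    · rw [zero_pow h3, mul_zero, zero_mul]
  have h3 : ∑ v ∈ Polynomial.nthRootsFinset d (1 : ℂ), v ^ j * (starRingEnd ℂ) v ^ k * c = 0 := by
    rw [← Finset.sum_mul]
    obtain ⟨z, hz⟩ : ∃ z : ℂ, IsPrimitiveRoot z d :=
      ⟨_, Complex.isPrimitiveRoot_exp d (by omega)⟩
    have hzd : z ^ d = 1 := hz.pow_eq_one
    have hz0 : z ≠ 0 := by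
      rintro rfl
      rw [zero_pow (by omega)] at hzd
      exact zero_ne_one hzd
    have hzn : ‖z‖ = 1 := Complex.norm_eq_one_of_pow_eq_one hzd (by omega)
    have hzc : (starRingEnd ℂ) z = z⁻¹ := by
      rw [Complex.inv_eq_conj hzn]
    obtain ⟨S, hS⟩ : ∃ S : ℂ, S = ∑ v ∈ Polynomial.nthRootsFinset d (1 : ℂ),
      v ^ j * (starRingEnd ℂ) v ^ k := ⟨_, rfl⟩
    have h4 : S = z ^ j * (starRingEnd ℂ) z ^ k * S := by
      conv_lhs => rw [hS]
      rw [hS, Finset.mul_sum]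
      symm
      refine Finset.sum_nbij (fun v => z * v) ?_ ?_ ?_ ?_
      · intro v hv
        rw [Polynomial.mem_nthRootsFinset (by omega)] at hv ⊢
        rw [mul_pow, hzd, hv, mul_one]
      · intro v _ w _ h
        exact mul_left_cancel₀ hz0 h
      · intro v hv
        rw [mem_coe, Polynomial.mem_nthRootsFinset (by omega)] at hv
        refine ⟨z⁻¹ * v, ?_, ?_⟩
        · rw [mem_coe, Polynomial.mem_nthRootsFinset (by omega), mul_pow, inv_pow, hzd, hv]
          norm_num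
        · simp only
          rw [mul_inv_cancel_left₀ hz0]
      · intro v _
        rw [map_mul]
        ring
    have h5 : z ^ j * (starRingEnd ℂ) z ^ k ≠ 1 := by
      intro h
      apply hjk
      rw [hzc, inv_pow, mul_inv_eq_one₀ (pow_ne_zero k hz0)] at h
      rw [hz.eq_orderOf]
      exact (isOfFinOrder_iff_pow_eq_one.2 ⟨d, by omega, hzd⟩).pow_eq_pow_iff_modEq.1 h
    have h6 : (1 - z ^ j * (starRingEnd ℂ) z ^ k) * S = 0 := by
      rw [sub_mul, one_mul, ← h4, sub_self]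
    rcases mul_eq_zero.1 h6 with h7 | h7
    · exact absurd (sub_eq_zero.1 h7).symm h5
    · rw [← hS, h7, zero_mul]
  rw [h2, h3, mul_zero, mul_zero, add_zero] at h1
  unfold mean
  rcases mul_eq_zero.1 h1 with h4 | h4
  · exact absurd h4 hd0
  · rw [h4, zero_div]

end Pool.QS
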