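import Pool.Agent.Lib.MP_a3a416_nt.QS.MainD

/-! QS-Main: the counting theorem for a family. -/

set_option autoImplicit false

open Finset Filter Topology

namespace Pool.QS

open scoped Classical in
/-- the bad patterns -/
noncomputable def BadP (d y : ℕ) : Finset ((P5 y) → ℂ) :=
  (Om d y).filter fun v => (y : ℝ) ^ (1 / 25 : ℝ) < ‖FF y v‖ ^ 2 ∨
      ∃ m : ℕ, |‖FF y v‖ ^ 2 - kap * m| ≤ (y : ℝ) ^ (-(1 / 5) : ℝ)

open scoped Classical in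
theorem bad_pattern {d : ℕ} (hd1 : 1 ≤ d) (E : Dat d) {p y z X : ℕ} {ℓ : ℝ} (hp : p ∈ E.PP)
    (hz1 : 1 ≤ z) (hzX : z ≤ X ^ 4) (hyp : y < p) (hy16 : (16 : ℝ) ^ (34 : ℕ) ≤ y)
    (hyℓ : (y : ℝ) ≤ ℓ) (hz : 4 ^ y / Real.sqrt z ≤ 1 / ℓ)
    (hR : ‖∑ n ∈ NS z y, E.chr p n / (n : ℂ)‖ ≤ (y : ℝ) ^ (-(1 / 4) : ℝ))
    (hT : ‖∑ n ∈ (Ioc z (X ^ 4)).filter (fun n => n.Coprime 6), E.chr p n / (n : ℂ)‖ ≤ 1 / ℓ)
    (hm : ∃ m : ℕ, |‖TL (E.chr p) (X ^ 4)‖ ^ 2 - kap * m| ≤ 1 / ℓ) :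
    (fun q : P5 y => E.psi q (E.ca p) (E.cb p)) ∈ BadP d y := by
  have hy1 : (1 : ℝ) ≤ y := le_trans (by norm_num) hy16
  have hy0 : (0 : ℝ) < y := by linarith
  have hℓ0 : 0 < ℓ := by linarith
  rw [BadP, mem_filter]
  constructor
  · rw [Om, Fintype.mem_piFinset]
    intro q
    obtain ⟨h5, hqy, hq⟩ := mem_P5.1 q.2
    rw [Polynomial.mem_nthRootsFinset (by omega)]
    have h1 := (E.loc p hp q hq h5 (by omega)).2
    rcases E.val q hq h5 (E.ca p) (E.cb p) with h | h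
    · exact absurd h h1
    · exact h
  · by_cases hb : (y : ℝ) ^ (1 / 25 : ℝ) < ‖FF y (fun q : P5 y => E.psi q (E.ca p) (E.cb p))‖ ^ 2
    · exact Or.inl hb
    · right
      push Not at hb
      obtain ⟨m, hm⟩ := hm
      refine ⟨m, ?_⟩
      have h1 := close E hp hz1 hzX hyp
      set f := ‖FF y (fun q : P5 y => E.psi q (E.ca p) (E.cb p))‖ with hf
      have hf0 : 0 ≤ f := norm_nonneg _
      have hfu : f ≤ (y : ℝ) ^ (1 / 50 : ℝ) := by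
        have e : ((y : ℝ) ^ (1 / 50 : ℝ)) ^ 2 = (y : ℝ) ^ (1 / 25 : ℝ) := by
          rw [← Real.rpow_natCast, ← Real.rpow_mul hy0.le]
          norm_num
        rw [← e] at hb
        exact le_of_sq_le_sq hb (Real.rpow_nonneg hy0.le _)
      have hinv : 1 / ℓ ≤ (y : ℝ)⁻¹ := by
        rw [one_div]
        exact inv_anti₀ hy0 hyℓ
      have hinv2 : (y : ℝ)⁻¹ ≤ (y : ℝ) ^ (-(1 / 4) : ℝ) := by
        rw [← Real.rpow_neg_one]
        exact Real.rpow_le_rpow_of_exponent_le hy1 (by norm_num)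
      have h2 : |‖TL (E.chr p) (X ^ 4)‖ - f| ≤ 3 * (y : ℝ) ^ (-(1 / 4) : ℝ) := by
        refine h1.trans ?_
        linarith
      have h3 := close_sq hf0 (norm_nonneg _) h2 hm hfu
      refine h3.trans ((add_le_add le_rfl hinv).trans ?_)
      exact y_ineq hy16

open scoped Classical in
theorem main_count {d : ℕ} (hd : 2 ∣ d) (hd3 : 3 ≤ d) (E : Dat d) : ∃ C : ℝ, ∀ X : ℕ, 2 ≤ X →
    (((Icc 1 X).filter fun p => p ∈ E.PP ∧
      ∃ m : ℕ, |‖TL (E.chr p) (X ^ 4)‖ ^ 2 - kap * m| ≤ 1 / Real.log X).card : ℝ) ≤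
      C * X / (Real.log X) ^ (1 + 1 / 25 : ℝ) := by
  obtain ⟨C₀, hC₀, hsb⟩ := small_ball d hd hd3
  obtain ⟨X₀, hls⟩ := ls_tail
  have key : ∀ᶠ X : ℕ in atTop, (((Icc 1 X).filter fun p => p ∈ E.PP ∧
      ∃ m : ℕ, |‖TL (E.chr p) (X ^ 4)‖ ^ 2 - kap * m| ≤ 1 / Real.log X).card : ℝ) ≤
      (2 + (1572864 * (2000 * d : ℝ) ^ (1 / 25 : ℝ) + 1) +
      (C₀ * (98304 * (2000 * d : ℝ) ^ (1 / 25 : ℝ)) + 1)) * X /
        (Real.log X) ^ (1 + 1 / 25 : ℝ) := ?key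
  · obtain ⟨C', hC'⟩ := ev_extend (fun X p => p ∈ E.PP ∧
      ∃ m : ℕ, |‖TL (E.chr p) (X ^ 4)‖ ^ 2 - kap * m| ≤ 1 / Real.log X) _ (by
        filter_upwards [key] with X hX
        convert hX)
    exact ⟨C', fun X hX => by convert hC' X hX⟩
  filter_upwards [eventually_ge_atTop X₀, eventually_ge_atTop 1,
    ev_log_large (2000 * d * (16 : ℝ) ^ (34 : ℕ)), ev_log 4 (1 / 10) (by norm_num),
    ev_log 1 (1 / 200) (by norm_num)] with X hX0' hX1 hℓ1 h4 h200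
  have hls' := hls X
  have hez := exists_z (X := X)
  have hfp : ∀ y : ℕ, (y : ℝ) ≤ Real.log X / (1000 * d) →
    (4 : ℝ) ^ y ≤ (X : ℝ) ^ (1 / 1000 : ℝ) := fun y hy => four_pow_le hd3 hX1 hy
  obtain ⟨ℓ, hℓdef⟩ : ∃ ℓ, ℓ = Real.log X := ⟨_, rfl⟩
  rw [← hℓdef] at hℓ1 h4 h200 hez ⊢
  simp only [← hℓdef] at hls' hfp
  have hd' : (3 : ℝ) ≤ d := by exact_mod_cast hd3
  have h16 : (1000000 : ℝ) ≤ (16 : ℝ) ^ (34 : ℕ) := by norm_num
  have hℓm : (1000000 : ℝ) ≤ ℓ := by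
    refine le_trans h16 (le_trans ?_ hℓ1)
    have : (1 : ℝ) ≤ 2000 * d := by linarith
    nlinarith
  have hℓ0 : 0 < ℓ := by linarith
  have hX0 : (0 : ℝ) < X := by exact_mod_cast hX1
  have hlog2 : Real.log 2 ≤ 1 := by
    have := Real.log_le_sub_one_of_pos (show (0 : ℝ) < 2 by norm_num)
    linarith
  obtain ⟨z, hz1, hz2, hz3, hz4, hz5, hz6, hz7⟩ := hez (by linarith) hX1
  obtain ⟨y1, y2, y3, y4⟩ := y_facts hd3 hℓ1
  generalize ⌊ℓ / (1000 * d)⌋₊ = y at y1 y2 y3 y4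
  have hy1r : (1 : ℝ) ≤ y := le_trans (by norm_num) y2
  have hy1 : 1 ≤ y := by exact_mod_cast hy1r
  -- y ≤ z
  have hX64 : ℓ ≤ (X : ℝ) ^ (1 / 64 : ℝ) := by
    rw [pow_one] at h200
    exact h200.trans (Real.rpow_le_rpow_of_exponent_le (by exact_mod_cast hX1) (by norm_num))
  have hyz : y ≤ z := by
    have : (y : ℝ) ≤ z := y4.trans (hX64.trans hz5)
    exact_mod_cast this
  have hzX4 : z ≤ X ^ 4 := hz7.trans (Nat.le_self_pow (by norm_num) X)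
  have hsm : 4 ^ y / Real.sqrt z ≤ 1 / ℓ := by
    have h1 := hfp y y1
    have h2 : (X : ℝ) ^ (1 / 128 : ℝ) ≤ Real.sqrt z := by
      have h3 := Real.sqrt_le_sqrt hz5
      have e : Real.sqrt ((X : ℝ) ^ (1 / 64 : ℝ)) = (X : ℝ) ^ (1 / 128 : ℝ) := by
        rw [Real.sqrt_eq_rpow, ← Real.rpow_mul hX0.le]
        norm_num
      rwa [e] at h3
    have h3 : 0 < (X : ℝ) ^ (1 / 128 : ℝ) := Real.rpow_pos_of_pos hX0 _
    rw [div_le_div_iff₀ (lt_of_lt_of_le h3 h2) hℓ0, one_mul]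
    rw [pow_one] at h200
    calc (4 : ℝ) ^ y * ℓ ≤ (X : ℝ) ^ (1 / 1000 : ℝ) * (X : ℝ) ^ (1 / 200 : ℝ) :=
          mul_le_mul h1 h200 hℓ0.le (by positivity)
      _ = (X : ℝ) ^ (1 / 1000 + 1 / 200 : ℝ) := (Real.rpow_add hX0 _ _).symm
      _ ≤ (X : ℝ) ^ (1 / 128 : ℝ) :=
          Real.rpow_le_rpow_of_exponent_le (by exact_mod_cast hX1) (by norm_num)
      _ ≤ Real.sqrt z := h2
  -- the exceptional sets
  set Q : Finset ℕ := (Ioc z X).filter (fun p => p ∈ E.PP) with hQ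
  set AT : Finset ℕ := Q.filter fun p => 1 / ℓ <
        ‖∑ n ∈ (Ioc z (X ^ 4)).filter (fun n => n.Coprime 6), E.chr p n / (n : ℂ)‖ with hAT
  set AR : Finset ℕ := (Ioc z X).filter (fun p => p ∈ E.PP ∧
        (y : ℝ) ^ (-(1 / 4) : ℝ) < ‖∑ n ∈ NS z y, E.chr p n / (n : ℂ)‖) with hAR
  set AP : Finset ℕ := (Ioc z X).filter (fun p => p ∈ E.PP ∧
        (fun q : P5 y => E.psi q (E.ca p) (E.cb p)) ∈ BadP d y) with hAP
  have hsub : (Icc 1 X).filter (fun p => p ∈ E.PP ∧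
      ∃ m : ℕ, |‖TL (E.chr p) (X ^ 4)‖ ^ 2 - kap * m| ≤ 1 / ℓ) ⊆
      Icc 1 z ∪ AT ∪ AR ∪ AP := by
    intro p hp
    rw [mem_filter, mem_Icc] at hp
    obtain ⟨⟨hp1, hpX⟩, hpP, hm⟩ := hp
    rw [mem_union, mem_union, mem_union]
    by_cases hpz : p ≤ z
    · left; left; left
      rw [mem_Icc]
      exact ⟨hp1, hpz⟩
    · push Not at hpz
      have hpI : p ∈ Ioc z X := mem_Ioc.2 ⟨hpz, hpX⟩
      by_cases hT : 1 / ℓ <
        ‖∑ n ∈ (Ioc z (X ^ 4)).filter (fun n => n.Coprime 6), E.chr p n / (n : ℂ)‖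
      · left; left; right
        rw [hAT, mem_filter, hQ, mem_filter]
        exact ⟨⟨hpI, hpP⟩, hT⟩
      · by_cases hR : (y : ℝ) ^ (-(1 / 4) : ℝ) < ‖∑ n ∈ NS z y, E.chr p n / (n : ℂ)‖
        · left; right
          rw [hAR, mem_filter]
          exact ⟨hpI, hpP, hR⟩
        · right
          rw [hAP, mem_filter]
          push Not at hT hR
          exact ⟨hpI, hpP, bad_pattern (by omega) E hpP hz3 hzX4 (by omega) y2 y4 hsm hR hT hm⟩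
  have hcard := (card_le_card hsub).trans ((card_union_le _ _).trans
    (Nat.add_le_add_right ((card_union_le _ _).trans
      (Nat.add_le_add_right (card_union_le _ _) _)) _))
  have hcard' : (((Icc 1 X).filter (fun p => p ∈ E.PP ∧
      ∃ m : ℕ, |‖TL (E.chr p) (X ^ 4)‖ ^ 2 - kap * m| ≤ 1 / ℓ)).card : ℝ) ≤
      (Icc 1 z).card + AT.card + AR.card + AP.card := by exact_mod_cast hcard
  -- constants
  have hG : ℓ / 1536 ≤ E.GG z := by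
    have hz2' : 2 ≤ z := by
      have h1 : (2 : ℝ) ≤ z := by
        have : (2 : ℝ) ≤ ℓ := by linarith
        exact this.trans (hX64.trans hz5)
      exact_mod_cast h1
    have := GG_lower E.toLoc hz2'
    have h2 : Real.log z / 24 ≤ E.GG z := this
    linarith
  have hK : ((2 * (Nat.sqrt X + 1) : ℕ) : ℝ) ≤ 4 * Real.sqrt X := by
    have h1 : (Nat.sqrt X : ℝ) ≤ Real.sqrt X := Real.nat_sqrt_le_real_sqrt
    have h2 : (1 : ℝ) ≤ Real.sqrt X := by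
      rw [Real.one_le_sqrt]
      exact_mod_cast hX1
    push_cast
    linarith
  have hBc := hsb y (by
    have : (2 : ℝ) ≤ y := le_trans (by norm_num) y2
    exact_mod_cast this)
  have hBc2 : ((BadP d y).card : ℝ) ≤ (d : ℝ) ^ (P5 y).card := by
    have h1 := Finset.card_filter_le (Om d y) (fun v => (y : ℝ) ^ (1 / 25 : ℝ) < ‖FF y v‖ ^ 2 ∨
      ∃ m : ℕ, |‖FF y v‖ ^ 2 - kap * m| ≤ (y : ℝ) ^ (-(1 / 5) : ℝ))
    rw [card_Om (by omega)] at h1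
    have h2 : (BadP d y).card ≤ d ^ (P5 y).card := h1
    exact_mod_cast h2
  obtain ⟨b1, b2, b3⟩ := four_bounds hd3 hX1 hℓdef hℓm hG hz4 hy1 y1 y3 y4 h4 (card_P5_le y)
    hC₀.le hBc hBc2 (Nat.cast_nonneg _) hK
  have c0 : ((Icc 1 z).card : ℝ) ≤ X / ℓ ^ (1 + 1 / 25 : ℝ) := by
    rw [Nat.card_Icc]
    refine le_trans ?_ b1
    have : ((z + 1 - 1 : ℕ) : ℝ) = z := by
      norm_num
    rw [this, Real.sqrt_eq_rpow]
    exact hz4.trans (Real.rpow_le_rpow_of_exponent_le (by exact_mod_cast hX1) (by norm_num))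
  have c1 : (AT.card : ℝ) ≤ X / ℓ ^ (1 + 1 / 25 : ℝ) := by
    refine (hls' z hX0' hz1 hz2 Q E.chr ?_).trans b1
    intro p hp
    rw [hQ, mem_filter, mem_Ioc] at hp
    exact ⟨(E.prime p hp.2).1, hp.1.2, E.nontriv p hp.2⟩
  have hV : 0 < (y : ℝ) ^ (-(1 / 4) : ℝ) := Real.rpow_pos_of_pos (by linarith) _
  have c2 : (AR.card : ℝ) ≤ (1572864 * (2000 * d : ℝ) ^ (1 / 25 : ℝ) + 1) *
      (X / ℓ ^ (1 + 1 / 25 : ℝ)) := by
    refine le_trans ?_ b2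
    rw [le_div_iff₀ (pow_pos hV 2)]
    exact count_R E hd hd3 hz3 hy1 hV
  have c3 : (AP.card : ℝ) ≤ (C₀ * (98304 * (2000 * d : ℝ) ^ (1 / 25 : ℝ)) + 1) *
      (X / ℓ ^ (1 + 1 / 25 : ℝ)) := by
    refine le_trans (count_pattern E hd3 hz3 (BadP d y) (Finset.filter_subset _ _)) ?_
    refine le_trans ?_ b3
    refine add_le_add le_rfl (mul_le_mul_of_nonneg_left ?_ (Nat.cast_nonneg _))
    refine mul_le_mul_of_nonneg_left (prod_P5_le y) ?_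
    exact mul_nonneg (mul_nonneg (by norm_num) (Nat.cast_nonneg _))
      (pow_nonneg (Nat.cast_nonneg _) 8)
  refine hcard'.trans ?_
  have e : (2 + (1572864 * (2000 * d : ℝ) ^ (1 / 25 : ℝ) + 1) +
      (C₀ * (98304 * (2000 * d : ℝ) ^ (1 / 25 : ℝ)) + 1)) * X / ℓ ^ (1 + 1 / 25 : ℝ) =
      X / ℓ ^ (1 + 1 / 25 : ℝ) + X / ℓ ^ (1 + 1 / 25 : ℝ) +
      (1572864 * (2000 * d : ℝ) ^ (1 / 25 : ℝ) + 1) * (X / ℓ ^ (1 + 1 / 25 : ℝ)) +
      (C₀ * (98304 * (2000 * d : ℝ) ^ (1 / 25 : ℝ)) + 1) * (X / ℓ ^ (1 + 1 / 25 : ℝ)) := by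
    ring
  rw [e]
  linarith

end Pool.QS
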