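import Pool.Agent.Lib.MP_a3a416_nt.QS.GL

/-! QS-Pattern: counting lattice points with prescribed patterns.

PROOF.
Fix v ∈ Bad ⊆ Om d y (v_q^d = 1). For every point: 1[psi_q = v_q for all q∈P5 y] = ∏_q (1/d) sum_{j=1}^d (psi_q conj(v_q))^j
 (if psi_q = 0 all terms vanish since j >= 1; if psi_q^d = 1, x = psi_q conj v_q is a d-th root of unity: sum = d if x = 1, else 0).
 Expand the product: d^{-n} sum over (j_q) ∈ [1,d]^n (Finset.prod_univ_sum / prod_sum). For each (j_q) the product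
 ∏_q (psi_q conj v_q)^{j_q} is a product of local functions over S = P5 y: if all j_q = d use gl_main, otherwise some j_q < d, so
 ¬ j_q ≡ 0 [MOD d], mean q (..) = 0 (mean_psi with k = 0, c = conj(v_q)^j) and the second mean of gl_zero is of the zero function: gl_zero.
 Total for one v: <= d^{-n} (2K)^2/G + d^{-n} d^n 8KD^8 ∏ q. Sum over v ∈ Bad (the indicator of Bad is sum_{v∈Bad} 1_v).
 n = (P5 y).card. It is convenient to extend v by 1 outside P5 y to a function on ℕ.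
-/

set_option autoImplicit false

open Finset

namespace Pool.QS
variable {d : ℕ} (L : Loc d)

private theorem pat_root (hd : 1 ≤ d) {x : ℂ} (hx : x = 0 ∨ x ^ d = 1) :
    (∑ j ∈ Icc 1 d, x ^ j) / (d : ℂ) = if x = 1 then 1 else 0 := by
  have hd0 : (d : ℂ) ≠ 0 := by exact_mod_cast (by omega : d ≠ 0)
  by_cases h1 : x = 1
  · subst h1
    simp [hd0]
  · rw [if_neg h1]
    have h0 : ∑ j ∈ Icc 1 d, x ^ j = 0 := by
      rcases hx with rfl | hx
      · refine sum_eq_zero fun j hj => ?_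
        rw [mem_Icc] at hj
        exact zero_pow (by omega)
      · have h2 : ∑ j ∈ Icc 1 d, x ^ j = x * ∑ j ∈ range d, x ^ j := by
          rw [mul_sum]
          have h3 : Icc 1 d = Ico 1 (d + 1) := by
            ext j
            simp only [mem_Icc, mem_Ico]
            omega
          rw [h3, sum_Ico_eq_sum_range]
          refine sum_congr (by simp) fun j _ => ?_
          rw [pow_add, pow_one]
        have h4 : (∑ j ∈ range d, x ^ j) * (x - 1) = 0 := by
          rw [geom_sum_mul, hx, sub_self]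
        have h5 : x - 1 ≠ 0 := sub_ne_zero.2 h1
        rw [h2, (mul_eq_zero.1 h4).resolve_right h5, mul_zero]
    rw [h0, zero_div]

private theorem pat_eq (hd : 1 ≤ d) {p v : ℂ} (hv : v ^ d = 1) : p * (starRingEnd ℂ) v = 1 ↔ p = v := by
  have hn : ‖v‖ = 1 := Complex.norm_eq_one_of_pow_eq_one hv (by omega)
  have h1 : v * (starRingEnd ℂ) v = 1 := by
    rw [Complex.mul_conj, Complex.normSq_eq_norm_sq, hn]
    simp
  constructor
  · intro h
    have h2 : (starRingEnd ℂ) v ≠ 0 := by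
      intro h0
      rw [h0, mul_zero] at h1
      exact zero_ne_one h1
    exact mul_right_cancel₀ h2 (h.trans h1.symm)
  · rintro rfl
    exact h1

open scoped Classical in
private theorem pat_one (hd : 1 ≤ d) {D : ℕ} (hD : 1 ≤ D) (K : ℕ) (S : Finset ℕ)
    (hS : ∀ q ∈ S, q.Prime ∧ 5 ≤ q) (u : ℕ → ℂ) (hu : ∀ q ∈ S, u q ^ d = 1) :
    ∑ a ∈ Ico (-(K : ℤ)) K, ∑ b ∈ Ico (-(K : ℤ)) K,
        L.w D a b * (if ∀ q ∈ S, L.psi q a b = u q then 1 else 0) ≤
      1 / (d : ℝ) ^ S.card * ((2 * (K : ℝ)) ^ 2 / L.GG D) + 8 * K * (D : ℝ) ^ 8 * ∏ q ∈ S, (q : ℝ) := by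
  have hd0 : (d : ℂ) ≠ 0 := by exact_mod_cast (by omega : d ≠ 0)
  have hdr : (0 : ℝ) < d := by exact_mod_cast hd
  set E : ℝ := 8 * K * (D : ℝ) ^ 8 * ∏ q ∈ S, (q : ℝ) with hE
  -- the functions
  let F : ℕ → ℕ → ℤ → ℤ → ℂ := fun q j a b => (L.psi q a b * (starRingEnd ℂ) (u q)) ^ j
  let J : (∀ q ∈ S, ℕ) → ℕ → ℕ := fun p q => if h : q ∈ S then p q h else 0
  have hind : ∀ a b : ℤ, ((if ∀ q ∈ S, L.psi q a b = u q then 1 else 0 : ℝ) : ℂ) =
      (∑ p ∈ S.pi (fun _ => Icc 1 d), ∏ q ∈ S, F q (J p q) a b) / (d : ℂ) ^ S.card := by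
    intro a b
    have h1 : ∏ q ∈ S, ((∑ j ∈ Icc 1 d, F q j a b) / (d : ℂ)) =
        (∑ p ∈ S.pi (fun _ => Icc 1 d), ∏ q ∈ S, F q (J p q) a b) / (d : ℂ) ^ S.card := by
      rw [prod_div_distrib, prod_const, prod_sum]
      congr 1
      refine sum_congr rfl fun p _ => ?_
      rw [← prod_attach S]
      refine prod_congr rfl fun q _ => ?_
      simp only [J, q.2, dif_pos]
    rw [← h1]
    have h2 : ∀ q ∈ S, (∑ j ∈ Icc 1 d, F q j a b) / (d : ℂ) = if L.psi q a b = u q then 1 else 0 := by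
      intro q hq
      have h3 : L.psi q a b * (starRingEnd ℂ) (u q) = 0 ∨ (L.psi q a b * (starRingEnd ℂ) (u q)) ^ d = 1 := by
        rcases L.val q (hS q hq).1 (hS q hq).2 a b with h | h
        · left
          rw [h, zero_mul]
        · right
          rw [mul_pow, h, ← map_pow, hu q hq, map_one, mul_one]
      rw [pat_root hd h3]
      simp only [pat_eq hd (hu q hq)]
    rw [prod_congr rfl h2]
    by_cases hall : ∀ q ∈ S, L.psi q a b = u q
    · rw [if_pos hall, prod_eq_one fun q hq => if_pos (hall q hq)]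
      simp
    · rw [if_neg hall]
      push Not at hall
      obtain ⟨q, hq, hne⟩ := hall
      rw [prod_eq_zero hq (if_neg hne)]
      simp
  -- the sum as a complex number
  have hsum : ((∑ a ∈ Ico (-(K : ℤ)) K, ∑ b ∈ Ico (-(K : ℤ)) K,
        L.w D a b * (if ∀ q ∈ S, L.psi q a b = u q then 1 else 0) : ℝ) : ℂ) =
      (∑ p ∈ S.pi (fun _ => Icc 1 d), box K (fun a b => (L.w D a b : ℂ) * ∏ q ∈ S, F q (J p q) a b)) / (d : ℂ) ^ S.card := by
    push_cast
    unfold box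
    rw [sum_comm' (s := S.pi (fun _ => Icc 1 d)) (t := fun _ => Ico (-(K : ℤ)) K) (t' := Ico (-(K : ℤ)) K)
      (s' := fun _ => S.pi (fun _ => Icc 1 d)) (by intro x y; tauto)]
    rw [sum_div]
    refine sum_congr rfl fun a _ => ?_
    rw [sum_comm, sum_div]
    refine sum_congr rfl fun b _ => ?_
    have h1 := hind a b
    rw [h1, ← mul_sum, mul_div_assoc]
  have hnn : 0 ≤ ∑ a ∈ Ico (-(K : ℤ)) K, ∑ b ∈ Ico (-(K : ℤ)) K,
        L.w D a b * (if ∀ q ∈ S, L.psi q a b = u q then 1 else 0 : ℝ) := by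
    refine sum_nonneg fun a _ => sum_nonneg fun b _ => mul_nonneg (L.w_nonneg D a b) ?_
    split_ifs <;> norm_num
  have hper : ∀ (p : ∀ q ∈ S, ℕ), ∀ q ∈ S, Per q (F q (J p q)) := by
    intro p q hq a b s t
    show (L.psi q (a + q * s) (b + q * t) * _) ^ _ = (L.psi q a b * _) ^ _
    rw [L.per q (hS q hq).1 (hS q hq).2]
  have hnorm : ∀ (p : ∀ q ∈ S, ℕ), ∀ q ∈ S, ∀ a b, ‖F q (J p q) a b‖ ≤ 1 := by
    intro p q hq a b
    show ‖(L.psi q a b * (starRingEnd ℂ) (u q)) ^ _‖ ≤ 1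
    have hn : ‖u q‖ = 1 := Complex.norm_eq_one_of_pow_eq_one (hu q hq) (by omega)
    rw [norm_pow, norm_mul, Complex.norm_conj, hn, mul_one]
    exact pow_le_one₀ (norm_nonneg _) (L.psi_norm_le (hS q hq).1 (hS q hq).2 hd a b)
  have hGG : 0 ≤ (2 * (K : ℝ)) ^ 2 / L.GG D := by
    have hp : 0 ≤ L.GG D := by
      unfold Loc.GG Loc.h
      refine sum_nonneg fun A hA => prod_nonneg fun q hq => ?_
      have h5 := (mem_DD.1 hA).1 q hq
      have h6 := L.g_pos h5.2.2 h5.1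
      exact div_nonneg h6.1.le (by linarith)
    positivity
  have hT : ∀ p ∈ S.pi (fun _ => Icc 1 d),
      ‖box K (fun a b => (L.w D a b : ℂ) * ∏ q ∈ S, F q (J p q) a b)‖ ≤
        (if p = (fun _ _ => d) then (2 * (K : ℝ)) ^ 2 / L.GG D else 0) + E := by
    intro p hp
    by_cases hpd : p = (fun _ _ => d)
    · rw [if_pos hpd]
      exact gl_main L hd hD K S hS (fun q => F q (J p q)) (hper p) (hnorm p)
    · rw [if_neg hpd, zero_add]
      obtain ⟨q₀, hq₀, hne⟩ : ∃ q, ∃ hq : q ∈ S, p q hq ≠ d := by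
        by_contra hcon
        push Not at hcon
        exact hpd (by funext q hq; exact hcon q hq)
      have hj := mem_Icc.1 (mem_pi.1 hp q₀ hq₀)
      have hJ : J p q₀ = p q₀ hq₀ := by simp only [J, hq₀, dif_pos]
      have hmod : ¬ (p q₀ hq₀ ≡ 0 [MOD d]) := by
        intro hm
        have h7 := Nat.le_of_dvd (by omega) ((Nat.modEq_zero_iff_dvd).1 hm)
        omega
      refine gl_zero L hd hD K S hS (fun q => F q (J p q)) (hper p) (hnorm p) q₀ hq₀ ?_ ?_
      · have h8 := L.mean_psi (hS q₀ hq₀).1 (hS q₀ hq₀).2 hd (p q₀ hq₀) 0 hmod ((starRingEnd ℂ) (u q₀) ^ (p q₀ hq₀))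
        have h9 : F q₀ (J p q₀) = (fun a b => L.psi q₀ a b ^ (p q₀ hq₀) * (starRingEnd ℂ) (L.psi q₀ a b) ^ 0 *
            (starRingEnd ℂ) (u q₀) ^ (p q₀ hq₀)) := by
          funext a b
          show (L.psi q₀ a b * (starRingEnd ℂ) (u q₀)) ^ (J p q₀) = _
          rw [hJ, mul_pow, pow_zero, mul_one]
        show mean q₀ (F q₀ (J p q₀)) = 0
        rw [h9]
        exact h8
      · have h9 : (fun a b => if L.psi q₀ a b = 0 then F q₀ (J p q₀) a b else 0) = (fun _ _ => (0 : ℂ)) := by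
          funext a b
          by_cases h0 : L.psi q₀ a b = 0
          · rw [if_pos h0]
            show (L.psi q₀ a b * (starRingEnd ℂ) (u q₀)) ^ (J p q₀) = 0
            rw [hJ, h0, zero_mul]
            exact zero_pow (by omega)
          · rw [if_neg h0]
        show mean q₀ (fun a b => if L.psi q₀ a b = 0 then F q₀ (J p q₀) a b else 0) = 0
        rw [h9]
        unfold mean
        simp
  have hcard : ((S.pi (fun _ => Icc 1 d)).card : ℝ) = (d : ℝ) ^ S.card := by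
    rw [card_pi]
    simp
  have hfin : ‖((∑ a ∈ Ico (-(K : ℤ)) K, ∑ b ∈ Ico (-(K : ℤ)) K,
        L.w D a b * (if ∀ q ∈ S, L.psi q a b = u q then 1 else 0) : ℝ) : ℂ)‖ ≤
      ((2 * (K : ℝ)) ^ 2 / L.GG D + (d : ℝ) ^ S.card * E) / (d : ℝ) ^ S.card := by
    rw [hsum, norm_div, norm_pow, Complex.norm_natCast]
    refine div_le_div_of_nonneg_right ?_ (by positivity)
    refine (norm_sum_le _ _).trans ((sum_le_sum hT).trans ?_)
    rw [sum_add_distrib, sum_const, nsmul_eq_mul, hcard]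
    refine add_le_add ?_ le_rfl
    rw [sum_ite_eq']
    split_ifs
    · exact le_rfl
    · exact hGG
  rw [Complex.norm_real, Real.norm_of_nonneg hnn] at hfin
  refine hfin.trans (le_of_eq ?_)
  field_simp

open scoped Classical in
theorem pattern_count (hd : 1 ≤ d) {D : ℕ} (hD : 1 ≤ D) (K y : ℕ)
    (Bad : Finset ((P5 y) → ℂ)) (hBad : Bad ⊆ Om d y) :
    ∑ a ∈ Ico (-(K : ℤ)) K, ∑ b ∈ Ico (-(K : ℤ)) K,
        L.w D a b * (if (fun q : P5 y => L.psi q a b) ∈ Bad then 1 else 0) ≤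
      (Bad.card : ℝ) / (d : ℝ) ^ (P5 y).card * ((2 * (K : ℝ)) ^ 2 / L.GG D) +
        Bad.card * (8 * K * (D : ℝ) ^ 8 * ∏ q ∈ P5 y, (q : ℝ)) := by
  have hS : ∀ q ∈ P5 y, q.Prime ∧ 5 ≤ q := fun q hq => ⟨(mem_P5.1 hq).2.2, (mem_P5.1 hq).1⟩
  have h1 : ∀ v ∈ Bad, ∑ a ∈ Ico (-(K : ℤ)) K, ∑ b ∈ Ico (-(K : ℤ)) K,
        L.w D a b * (if (fun q : P5 y => L.psi q a b) = v then 1 else 0) ≤
      1 / (d : ℝ) ^ (P5 y).card * ((2 * (K : ℝ)) ^ 2 / L.GG D) + 8 * K * (D : ℝ) ^ 8 * ∏ q ∈ P5 y, (q : ℝ) := by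
    intro v hv
    have hv' := hBad hv
    unfold Om at hv'
    rw [Fintype.mem_piFinset] at hv'
    have hv1 : ∀ q, v q ^ d = 1 := fun q => (Polynomial.mem_nthRootsFinset (by omega) _).1 (hv' q)
    have h2 := pat_one L hd hD K (P5 y) hS (fun q => if h : q ∈ P5 y then v ⟨q, h⟩ else 1) (by
      intro q hq
      simp only [dif_pos hq]
      exact hv1 _)
    refine le_trans (le_of_eq ?_) h2
    refine sum_congr rfl fun a _ => sum_congr rfl fun b _ => ?_
    congr 1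
    have h3 : ((fun q : P5 y => L.psi q a b) = v) ↔
        ∀ q ∈ P5 y, L.psi q a b = (if h : q ∈ P5 y then v ⟨q, h⟩ else 1) := by
      constructor
      · intro h q hq
        rw [dif_pos hq, ← h]
      · intro h
        funext q
        have := h q.1 q.2
        rw [dif_pos q.2] at this
        exact this
    simp only [h3]
  have h2 : ∀ a b : ℤ, L.w D a b * (if (fun q : P5 y => L.psi q a b) ∈ Bad then 1 else 0 : ℝ) =
      ∑ v ∈ Bad, L.w D a b * (if (fun q : P5 y => L.psi q a b) = v then 1 else 0) := by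
    intro a b
    rw [← mul_sum, sum_ite_eq]
  calc ∑ a ∈ Ico (-(K : ℤ)) K, ∑ b ∈ Ico (-(K : ℤ)) K,
        L.w D a b * (if (fun q : P5 y => L.psi q a b) ∈ Bad then 1 else 0)
      = ∑ v ∈ Bad, ∑ a ∈ Ico (-(K : ℤ)) K, ∑ b ∈ Ico (-(K : ℤ)) K,
        L.w D a b * (if (fun q : P5 y => L.psi q a b) = v then 1 else 0) := by
        rw [sum_comm' (s := Bad) (t := fun _ => Ico (-(K : ℤ)) K) (t' := Ico (-(K : ℤ)) K)
          (s' := fun _ => Bad) (by intro x y; tauto)]
        refine sum_congr rfl fun a _ => ?_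
        rw [sum_comm' (s := Bad) (t := fun _ => Ico (-(K : ℤ)) K) (t' := Ico (-(K : ℤ)) K)
          (s' := fun _ => Bad) (by intro x y; tauto)]
        exact sum_congr rfl fun b _ => h2 a b
    _ ≤ ∑ v ∈ Bad, (1 / (d : ℝ) ^ (P5 y).card * ((2 * (K : ℝ)) ^ 2 / L.GG D) + 8 * K * (D : ℝ) ^ 8 * ∏ q ∈ P5 y, (q : ℝ)) :=
        sum_le_sum h1
    _ = _ := by
        rw [sum_const, nsmul_eq_mul]
        ring

end Pool.QS
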