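import Pool.Agent.Lib.MP_a3a416_nt.QS.GL

/-! QS-SecMom: weighted second moment.

PROOF.
|sum_n Psi n/n|^2 = sum_{(m,n)} Psi m conj(Psi n)/(mn) (complex identity; the left side is real). With S = (m*n).primeFactors,
 f q a b = psi^(v_q m) * conj(psi)^(v_q n) we have Psi m * conj (Psi n) = ∏_{q∈S} f q a b (exponents 0 outside the prime factors;
 m, n ≠ 0), all q ∈ S are primes >= 5 (n coprime to 6), f is q-periodic (L.per), norm <= 1 (psi_norm_le), ∏_S q <= m n
 (radical; S = primeFactors (m n), Nat.prod_primeFactors_dvd).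
 pairs with v_q m ≡ v_q n (mod d) for all q: gl_main: <= (2K)^2/G + 8KD^8 m n, times 1/(mn).
 other pairs: choose q₀ with v_{q₀} m ≢ v_{q₀} n; then q₀ ∈ S (one exponent is nonzero), mean q₀ (f q₀) = 0 (mean_psi with c = 1)
 and (if psi = 0 then f else 0) = 0 identically (one exponent is positive): gl_zero: <= 8KD^8 m n, times 1/(mn).
 Sum over the <= z^2 pairs: total <= (2K)^2/G * sum_{good} 1/(mn) + 8 K D^8 z^2.
-/

set_option autoImplicit false

open Finset

namespace Pool.QS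
variable {d : ℕ} (L : Loc d)

/-- the local factor of a pair -/
private noncomputable def smf (m n q : ℕ) (a b : ℤ) : ℂ :=
  L.psi q a b ^ m.factorization q * (starRingEnd ℂ) (L.psi q a b) ^ n.factorization q

private theorem sm_Psi {m n : ℕ} (hm : m ≠ 0) (hn : n ≠ 0) (a b : ℤ) :
    L.Psi m a b * (starRingEnd ℂ) (L.Psi n a b) = ∏ q ∈ (m * n).primeFactors, smf L m n q a b := by
  unfold Loc.Psi smf
  rw [prod_mul_distrib, map_prod]
  have h : (m * n).primeFactors = m.primeFactors ∪ n.primeFactors := Nat.primeFactors_mul hm hn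
  congr 1
  · rw [h]
    refine prod_subset subset_union_left fun q _ hq => ?_
    have : m.factorization q = 0 := by
      rw [← Nat.support_factorization] at hq
      exact Finsupp.notMem_support_iff.1 hq
    rw [this, pow_zero]
  · rw [h]
    have h2 : ∀ q ∈ n.primeFactors, (starRingEnd ℂ) (L.psi q a b ^ n.factorization q) =
        (starRingEnd ℂ) (L.psi q a b) ^ n.factorization q := fun q _ => map_pow _ _ _
    rw [prod_congr rfl h2]
    refine prod_subset subset_union_right fun q _ hq => ?_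
    have : n.factorization q = 0 := by
      rw [← Nat.support_factorization] at hq
      exact Finsupp.notMem_support_iff.1 hq
    rw [this, pow_zero]

private theorem sm_prime {m n : ℕ} (h6 : m.Coprime 6) (h6' : n.Coprime 6) (hm : m ≠ 0) (hn : n ≠ 0) :
    ∀ q ∈ (m * n).primeFactors, q.Prime ∧ 5 ≤ q := by
  intro q hq
  have hp : q.Prime := Nat.prime_of_mem_primeFactors hq
  refine ⟨hp, ?_⟩
  have hd : q ∣ m * n := Nat.dvd_of_mem_primeFactors hq
  have hc : (m * n).Coprime 6 := Nat.Coprime.mul_left h6 h6'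
  have hcq : q.Coprime 6 := Nat.Coprime.coprime_dvd_left hd hc
  by_contra hlt
  push Not at hlt
  have h2 := hp.two_le
  interval_cases q
  · exact absurd hcq (by decide)
  · exact absurd hcq (by decide)
  · exact absurd hp (by decide)

private theorem sm_per {m n q : ℕ} (hq : q.Prime) (h5 : 5 ≤ q) : Per q (smf L m n q) := by
  intro a b s t
  unfold smf
  rw [L.per q hq h5]

private theorem sm_norm (hd : 1 ≤ d) {m n q : ℕ} (hq : q.Prime) (h5 : 5 ≤ q) (a b : ℤ) :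
    ‖smf L m n q a b‖ ≤ 1 := by
  unfold smf
  have h := L.psi_norm_le hq h5 hd a b
  rw [norm_mul, norm_pow, norm_pow, RCLike.norm_conj]
  exact mul_le_one₀ (pow_le_one₀ (norm_nonneg _) h) (by positivity) (pow_le_one₀ (norm_nonneg _) h)

private theorem sm_rad {m n : ℕ} (hm : m ≠ 0) (hn : n ≠ 0) :
    ∏ q ∈ (m * n).primeFactors, (q : ℝ) ≤ (m : ℝ) * n := by
  have h := Nat.le_of_dvd (Nat.pos_of_ne_zero (mul_ne_zero hm hn)) (Nat.prod_primeFactors_dvd (m * n))
  have h2 : ((∏ q ∈ (m * n).primeFactors, q : ℕ) : ℝ) ≤ ((m * n : ℕ) : ℝ) := by exact_mod_cast h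
  push_cast at h2
  exact h2

private theorem sm_bad (hd : 1 ≤ d) {D : ℕ} (hD : 1 ≤ D) (K : ℕ) {m n : ℕ} (hm : m ≠ 0) (hn : n ≠ 0)
    (h6 : m.Coprime 6) (h6' : n.Coprime 6)
    (hbad : ¬ ∀ q, m.factorization q ≡ n.factorization q [MOD d]) :
    ‖box K (fun a b => (L.w D a b : ℂ) * ∏ q ∈ (m * n).primeFactors, smf L m n q a b)‖ ≤
      8 * K * (D : ℝ) ^ 8 * ((m : ℝ) * n) := by
  push Not at hbad
  obtain ⟨q₀, hq₀⟩ := hbad
  have hne : m.factorization q₀ ≠ 0 ∨ n.factorization q₀ ≠ 0 := by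
    by_contra hcon
    push Not at hcon
    rw [hcon.1, hcon.2] at hq₀
    exact hq₀ rfl
  have hmem : q₀ ∈ (m * n).primeFactors := by
    rw [Nat.primeFactors_mul hm hn, mem_union, ← Nat.support_factorization, ← Nat.support_factorization,
      Finsupp.mem_support_iff, Finsupp.mem_support_iff]
    exact hne
  have hS := sm_prime h6 h6' hm hn
  obtain ⟨hp, h5⟩ := hS q₀ hmem
  have h := gl_zero L hd hD K _ hS (smf L m n) (fun q hq => sm_per L (hS q hq).1 (hS q hq).2)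
    (fun q hq a b => sm_norm L hd (hS q hq).1 (hS q hq).2 a b) q₀ hmem
    (by
      have := L.mean_psi hp h5 hd _ _ hq₀ 1
      simp only [mul_one] at this
      exact this)
    (by
      have : (fun a b => if L.psi q₀ a b = 0 then smf L m n q₀ a b else 0) = fun _ _ => (0 : ℂ) := by
        funext a b
        by_cases h0 : L.psi q₀ a b = 0
        · rw [if_pos h0]
          unfold smf
          rw [h0]
          rcases hne with h | h
          · rw [zero_pow h, zero_mul]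
          · rw [map_zero, zero_pow h, mul_zero]
        · rw [if_neg h0]
      rw [this]
      simp [mean])
  refine h.trans ?_
  have := sm_rad hm hn
  gcongr

private theorem sm_good (hd : 1 ≤ d) {D : ℕ} (hD : 1 ≤ D) (K : ℕ) {m n : ℕ} (hm : m ≠ 0) (hn : n ≠ 0)
    (h6 : m.Coprime 6) (h6' : n.Coprime 6) :
    ‖box K (fun a b => (L.w D a b : ℂ) * ∏ q ∈ (m * n).primeFactors, smf L m n q a b)‖ ≤
      (2 * (K : ℝ)) ^ 2 / L.GG D + 8 * K * (D : ℝ) ^ 8 * ((m : ℝ) * n) := by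
  have hS := sm_prime h6 h6' hm hn
  have h := gl_main L hd hD K _ hS (smf L m n) (fun q hq => sm_per L (hS q hq).1 (hS q hq).2)
    (fun q hq a b => sm_norm L hd (hS q hq).1 (hS q hq).2 a b)
  refine h.trans ?_
  have := sm_rad hm hn
  gcongr

private theorem sm_sq (D : ℕ) (N : Finset ℕ) (hN : ∀ n ∈ N, n ≠ 0) (a b : ℤ) :
    ((L.w D a b * ‖∑ n ∈ N, L.Psi n a b / (n : ℂ)‖ ^ 2 : ℝ) : ℂ) =
      ∑ x ∈ N ×ˢ N, (1 / ((x.1 : ℂ) * x.2)) *
        ((L.w D a b : ℂ) * ∏ q ∈ (x.1 * x.2).primeFactors, smf L x.1 x.2 q a b) := by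
  push_cast
  rw [← Complex.mul_conj', map_sum, sum_mul_sum, ← sum_product', mul_sum]
  refine sum_congr rfl fun x hx => ?_
  rw [mem_product] at hx
  rw [← sm_Psi L (hN _ hx.1) (hN _ hx.2), map_div₀, Complex.conj_natCast]
  ring

open scoped Classical in
theorem second_moment (hd : 1 ≤ d) {D : ℕ} (hD : 1 ≤ D) (K z : ℕ) (N : Finset ℕ)
    (hN : ∀ n ∈ N, 1 ≤ n ∧ n ≤ z ∧ n.Coprime 6) :
    ∑ a ∈ Ico (-(K : ℤ)) K, ∑ b ∈ Ico (-(K : ℤ)) K,
        L.w D a b * ‖∑ n ∈ N, L.Psi n a b / (n : ℂ)‖ ^ 2 ≤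
      (2 * (K : ℝ)) ^ 2 / L.GG D *
        ∑ x ∈ (N ×ˢ N).filter (fun x => ∀ q, x.1.factorization q ≡ x.2.factorization q [MOD d]),
          1 / ((x.1 : ℝ) * x.2) + 8 * K * (D : ℝ) ^ 8 * (z : ℝ) ^ 2 := by
  classical
  have hN0 : ∀ n ∈ N, n ≠ 0 := fun n hn => by have := (hN n hn).1; omega
  set LHS : ℝ := ∑ a ∈ Ico (-(K : ℤ)) K, ∑ b ∈ Ico (-(K : ℤ)) K,
        L.w D a b * ‖∑ n ∈ N, L.Psi n a b / (n : ℂ)‖ ^ 2 with hLHS
  have key : (LHS : ℂ) = ∑ x ∈ N ×ˢ N, (1 / ((x.1 : ℂ) * x.2)) *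
      box K (fun a b => (L.w D a b : ℂ) * ∏ q ∈ (x.1 * x.2).primeFactors, smf L x.1 x.2 q a b) := by
    calc (LHS : ℂ) = ∑ a ∈ Ico (-(K : ℤ)) K, ∑ b ∈ Ico (-(K : ℤ)) K, ∑ x ∈ N ×ˢ N, (1 / ((x.1 : ℂ) * x.2)) *
        ((L.w D a b : ℂ) * ∏ q ∈ (x.1 * x.2).primeFactors, smf L x.1 x.2 q a b) := by
          rw [hLHS, Complex.ofReal_sum]
          refine sum_congr rfl fun a _ => ?_
          rw [Complex.ofReal_sum]
          exact sum_congr rfl fun b _ => sm_sq L D N hN0 a b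
      _ = ∑ x ∈ N ×ˢ N, ∑ a ∈ Ico (-(K : ℤ)) K, ∑ b ∈ Ico (-(K : ℤ)) K, (1 / ((x.1 : ℂ) * x.2)) *
        ((L.w D a b : ℂ) * ∏ q ∈ (x.1 * x.2).primeFactors, smf L x.1 x.2 q a b) :=
          (sum_congr rfl fun a _ => sum_comm).trans sum_comm
      _ = _ := by
          refine sum_congr rfl fun x _ => ?_
          unfold box
          rw [mul_sum]
          exact sum_congr rfl fun a _ => by rw [mul_sum]
  have h1 : LHS ≤ ‖(LHS : ℂ)‖ := by
    rw [Complex.norm_real]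
    exact le_abs_self _
  rw [key] at h1
  have hterm : ∀ x ∈ N ×ˢ N, ‖(1 / ((x.1 : ℂ) * x.2)) *
      box K (fun a b => (L.w D a b : ℂ) * ∏ q ∈ (x.1 * x.2).primeFactors, smf L x.1 x.2 q a b)‖ ≤
      (if ∀ q, x.1.factorization q ≡ x.2.factorization q [MOD d] then
        (2 * (K : ℝ)) ^ 2 / L.GG D * (1 / ((x.1 : ℝ) * x.2)) else 0) + 8 * K * (D : ℝ) ^ 8 := by
    intro x hx
    rw [mem_product] at hx
    have hm := hN0 _ hx.1
    have hn := hN0 _ hx.2
    have hm6 := (hN _ hx.1).2.2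
    have hn6 := (hN _ hx.2).2.2
    have hpos : (0 : ℝ) < (x.1 : ℝ) * x.2 := by
      have h1 : (0 : ℝ) < x.1 := by exact_mod_cast Nat.pos_of_ne_zero hm
      have h2 : (0 : ℝ) < x.2 := by exact_mod_cast Nat.pos_of_ne_zero hn
      positivity
    have hnorm : ‖(1 / ((x.1 : ℂ) * x.2))‖ = 1 / ((x.1 : ℝ) * x.2) := by
      rw [norm_div, norm_one, norm_mul, Complex.norm_natCast, Complex.norm_natCast]
    rw [norm_mul, hnorm]
    have hcanc : 1 / ((x.1 : ℝ) * x.2) * (8 * K * (D : ℝ) ^ 8 * ((x.1 : ℝ) * x.2)) = 8 * K * (D : ℝ) ^ 8 := by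
      field_simp
    by_cases hg : ∀ q, x.1.factorization q ≡ x.2.factorization q [MOD d]
    · rw [if_pos hg]
      have h := mul_le_mul_of_nonneg_left (sm_good L hd hD K hm hn hm6 hn6) (one_div_nonneg.2 hpos.le)
      refine h.trans (le_of_eq ?_)
      rw [mul_add, hcanc]
      ring
    · rw [if_neg hg]
      have h := mul_le_mul_of_nonneg_left (sm_bad L hd hD K hm hn hm6 hn6 hg) (one_div_nonneg.2 hpos.le)
      refine h.trans (le_of_eq ?_)
      rw [hcanc, zero_add]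
  refine h1.trans ((norm_sum_le _ _).trans ((sum_le_sum hterm).trans ?_))
  rw [sum_add_distrib, ← sum_filter, ← mul_sum, sum_const, nsmul_eq_mul]
  have hcard : N.card ≤ z := by
    have h2 : N ⊆ Icc 1 z := fun n hn => mem_Icc.2 ⟨(hN n hn).1, (hN n hn).2.1⟩
    have := card_le_card h2
    rwa [Nat.card_Icc, Nat.add_sub_cancel] at this
  have hcard2 : (((N ×ˢ N).card : ℕ) : ℝ) ≤ (z : ℝ) ^ 2 := by
    rw [card_product]
    have : (N.card : ℝ) ≤ z := by exact_mod_cast hcard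
    push_cast
    nlinarith [Nat.cast_nonneg (α := ℝ) N.card]
  have h3 : (((N ×ˢ N).card : ℕ) : ℝ) * (8 * K * (D : ℝ) ^ 8) ≤ 8 * K * (D : ℝ) ^ 8 * (z : ℝ) ^ 2 := by
    rw [mul_comm]
    exact mul_le_mul_of_nonneg_left hcard2 (by positivity)
  exact add_le_add (le_refl _) h3

end Pool.QS
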