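import Pool.Agent.Lib.MP_a3a416_nt.QS.Defs

/-! QS-Smooth: the smooth part and the finite Euler product.

PROOF.
f(n) = χ(n)/n on n coprime to 6 is completely multiplicative, |f(n)| <= 1/n. With s(y) = set of n >= 1 with all prime factors in P5 y:
 ∏_{q∈P5 y} (1 - f q)^{-1} = sum'_{n∈s(y)} f(n)  (absolutely; Mathlib EulerProduct.summable_and_hasSum_smoothNumbers / factoredNumbers:
 `EulerProduct.summable_and_hasSum_factoredNumbers_prod_filter_prime_geometric` for the finset P5 y, f : ℕ →*₀ ℂ; take f n = χ n / n).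
 The filtered finite sum is the part n <= z (n coprime to 6 and all prime factors <= y iff n ∈ factoredNumbers (P5 y)), so the difference is bounded by
   sum'_{n ∈ s(y), n > z} 1/n <= z^{-1/2} sum'_{n∈s(y)} n^{-1/2} = z^{-1/2} ∏_{q∈P5 y} (1 - q^{-1/2})^{-1} <= z^{-1/2} 2^{card P5 y} <= z^{-1/2} 4^y
 (1 - 5^{-1/2} >= 1/2; card P5 y <= y).
-/

set_option autoImplicit false

open Finset

namespace Pool.QS

/-- `n ↦ χ(n)/n` as a monoid homomorphism -/
noncomputable def smF {p : ℕ} (χ : DirichletCharacter ℂ p) : ℕ →* ℂ where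
  toFun n := χ n / (n : ℂ)
  map_one' := by simp
  map_mul' m n := by
    push_cast
    rw [map_mul, mul_div_mul_comm]

/-- `n ↦ 1/√n` as a monoid homomorphism -/
noncomputable def smG : ℕ →* ℝ where
  toFun n := (Real.sqrt n)⁻¹
  map_one' := by simp
  map_mul' m n := by
    push_cast
    rw [Real.sqrt_mul (Nat.cast_nonneg m), mul_inv]

theorem smF_apply {p : ℕ} (χ : DirichletCharacter ℂ p) (n : ℕ) : smF χ n = χ n / (n : ℂ) := rfl

theorem smG_apply (n : ℕ) : smG n = (Real.sqrt n)⁻¹ := rfl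

theorem smF_norm {p : ℕ} (χ : DirichletCharacter ℂ p) (n : ℕ) : ‖smF χ n‖ ≤ 1 / (n : ℝ) := by
  rw [smF_apply, norm_div, Complex.norm_natCast]
  exact div_le_div_of_nonneg_right (χ.norm_le_one _) (Nat.cast_nonneg n)

theorem P5_filter (y : ℕ) : (P5 y).filter Nat.Prime = P5 y := by
  rw [P5, Finset.filter_filter]
  simp only [and_self]

theorem mem_fact {y n : ℕ} : n ∈ Nat.factoredNumbers (P5 y) ↔
    1 ≤ n ∧ n.Coprime 6 ∧ ∀ q ∈ n.primeFactors, q ≤ y := by
  rw [Nat.mem_factoredNumbers]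
  constructor
  · rintro ⟨h0, h⟩
    have h' : ∀ q, q.Prime → q ∣ n → 5 ≤ q ∧ q ≤ y := by
      intro q hq hqn
      have := mem_P5.1 (h q ((Nat.mem_primeFactorsList h0).2 ⟨hq, hqn⟩))
      exact ⟨this.1, this.2.1⟩
    refine ⟨Nat.one_le_iff_ne_zero.2 h0, ?_, ?_⟩
    · refine Nat.Coprime.symm (Nat.Coprime.mul_left (m := 2) (n := 3) ?_ ?_)
      · rw [Nat.Prime.coprime_iff_not_dvd Nat.prime_two]
        intro hd
        have := h' 2 Nat.prime_two hd
        omega
      · rw [Nat.Prime.coprime_iff_not_dvd Nat.prime_three]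
        intro hd
        have := h' 3 Nat.prime_three hd
        omega
    · intro q hq
      exact (h' q (Nat.prime_of_mem_primeFactors hq) (Nat.dvd_of_mem_primeFactors hq)).2
  · rintro ⟨h0, hc, h⟩
    refine ⟨by omega, fun q hq => ?_⟩
    have hq' := (Nat.mem_primeFactorsList (by omega : n ≠ 0)).1 hq
    rw [mem_P5]
    refine ⟨?_, h q (Nat.mem_primeFactors.2 ⟨hq'.1, hq'.2, by omega⟩), hq'.1⟩
    have h6 : ¬ q ∣ 6 := fun h6 => Nat.not_coprime_of_dvd_of_dvd hq'.1.one_lt hq'.2 h6 hc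
    have h2 := hq'.1.two_le
    by_contra hlt
    push Not at hlt
    interval_cases q
    · exact h6 (by norm_num)
    · exact h6 (by norm_num)
    · exact absurd hq'.1 (by norm_num)

theorem smooth_tail {p : ℕ} (χ : DirichletCharacter ℂ p) (y z : ℕ) (hz : 1 ≤ z) :
    ‖∑ n ∈ (Icc 1 z).filter (fun n => n.Coprime 6 ∧ ∀ q ∈ n.primeFactors, q ≤ y), χ n / (n : ℂ) -
      ∏ q ∈ P5 y, (1 - χ q / (q : ℂ))⁻¹‖ ≤ 4 ^ y / Real.sqrt z := by
  classical
  set T := (Icc 1 z).filter (fun n => n.Coprime 6 ∧ ∀ q ∈ n.primeFactors, q ≤ y) with hT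
  have hz0 : (0 : ℝ) < z := by exact_mod_cast hz
  have hTm : ∀ n, n ∈ T ↔ n ∈ Nat.factoredNumbers (P5 y) ∧ n ≤ z := by
    intro n
    rw [hT, mem_filter, mem_Icc, mem_fact]
    tauto
  have hF : HasSum (Set.indicator (Nat.factoredNumbers (P5 y)) (smF χ))
      (∏ q ∈ P5 y, (1 - χ q / (q : ℂ))⁻¹) := by
    have h := (EulerProduct.summable_and_hasSum_factoredNumbers_prod_filter_prime_geometric
      (f := smF χ) (fun {q} hq => lt_of_le_of_lt (smF_norm χ q) (by
        rw [div_lt_one (by exact_mod_cast hq.pos)]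
        exact_mod_cast hq.one_lt)) (P5 y)).2
    rw [P5_filter] at h
    exact (hasSum_subtype_iff_indicator (f := smF χ)).1 h
  have hG : HasSum (Set.indicator (Nat.factoredNumbers (P5 y)) smG)
      (∏ q ∈ P5 y, (1 - smG q)⁻¹) := by
    have h := (EulerProduct.summable_and_hasSum_factoredNumbers_prod_filter_prime_geometric
      (f := smG) (fun {q} hq => by
        rw [smG_apply, norm_inv, Real.norm_of_nonneg (Real.sqrt_nonneg _)]
        apply inv_lt_one_of_one_lt₀
        rw [Real.lt_sqrt (by norm_num)]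
        norm_num
        exact hq.one_lt) (P5 y)).2
    rw [P5_filter] at h
    exact (hasSum_subtype_iff_indicator (f := smG)).1 h
  have hS : HasSum (fun n => if n ∈ T then smF χ n else 0) (∑ n ∈ T, χ n / (n : ℂ)) := by
    have h : HasSum (fun n => if n ∈ T then smF χ n else 0)
        (∑ n ∈ T, (if n ∈ T then smF χ n else 0)) :=
      hasSum_sum_of_ne_finset_zero (fun n hn => if_neg hn)
    have e : ∑ n ∈ T, (if n ∈ T then smF χ n else 0) = ∑ n ∈ T, χ n / (n : ℂ) :=
      Finset.sum_congr rfl fun n hn => by rw [if_pos hn, smF_apply]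
    rwa [e] at h
  have hG2 := hG.mul_left ((Real.sqrt z)⁻¹)
  have hmain := (hS.sub hF).norm_le_of_bounded hG2 (by
    intro n
    by_cases hn : n ∈ Nat.factoredNumbers (P5 y)
    · rw [Set.indicator_of_mem hn, Set.indicator_of_mem hn]
      by_cases hnz : n ≤ z
      · rw [if_pos ((hTm n).2 ⟨hn, hnz⟩), sub_self, norm_zero]
        have : 0 ≤ smG n := by rw [smG_apply]; positivity
        positivity
      · rw [if_neg (fun h => hnz ((hTm n).1 h).2), zero_sub, norm_neg]
        refine (smF_norm χ n).trans ?_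
        rw [smG_apply, ← mul_inv, one_div]
        have hzn : (z : ℝ) ≤ n := by exact_mod_cast (not_le.1 hnz).le
        have h1 : Real.sqrt z ≤ Real.sqrt n := Real.sqrt_le_sqrt hzn
        have h2 : Real.sqrt z * Real.sqrt n ≤ n := by
          calc Real.sqrt z * Real.sqrt n ≤ Real.sqrt n * Real.sqrt n :=
                mul_le_mul_of_nonneg_right h1 (Real.sqrt_nonneg _)
            _ = n := Real.mul_self_sqrt (Nat.cast_nonneg n)
        have h3 : 0 < Real.sqrt z := Real.sqrt_pos.2 hz0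
        exact inv_anti₀ (mul_pos h3 (lt_of_lt_of_le h3 h1)) h2
    · rw [Set.indicator_of_notMem hn, Set.indicator_of_notMem hn,
        if_neg (fun h => hn ((hTm n).1 h).1)]
      simp)
  refine hmain.trans ?_
  have hprod : ∏ q ∈ P5 y, (1 - smG q)⁻¹ ≤ 4 ^ y := by
    have hle : ∀ q ∈ P5 y, (1 - smG q)⁻¹ ≤ 2 := by
      intro q hq
      have h5 := (mem_P5.1 hq).1
      have h4 : (2 : ℝ) ≤ Real.sqrt q := by
        apply Real.le_sqrt_of_sq_le
        have : (5 : ℝ) ≤ q := by exact_mod_cast h5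
        linarith
      have h6 : smG q ≤ 1 / 2 := by
        rw [smG_apply, one_div]
        exact inv_anti₀ (by norm_num) h4
      rw [show (2 : ℝ) = (1 / 2)⁻¹ by norm_num]
      exact inv_anti₀ (by norm_num) (by linarith)
    have h0 : ∀ q ∈ P5 y, 0 ≤ (1 - smG q)⁻¹ := by
      intro q hq
      have h5 := (mem_P5.1 hq).1
      have h4 : (1 : ℝ) ≤ Real.sqrt q := by
        apply Real.le_sqrt_of_sq_le
        have : (5 : ℝ) ≤ q := by exact_mod_cast h5
        linarith
      have h6 : smG q ≤ 1 := by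
        rw [smG_apply]
        exact inv_le_one_of_one_le₀ h4
      exact inv_nonneg.2 (by linarith)
    calc ∏ q ∈ P5 y, (1 - smG q)⁻¹ ≤ ∏ _q ∈ P5 y, (2 : ℝ) := Finset.prod_le_prod h0 hle
      _ = 2 ^ (P5 y).card := by rw [Finset.prod_const]
      _ ≤ 2 ^ y := by
          apply pow_le_pow_right₀ (by norm_num)
          calc (P5 y).card ≤ (Icc 5 y).card := Finset.card_filter_le _ _
            _ ≤ y := by rw [Nat.card_Icc]; omega
      _ ≤ 4 ^ y := pow_le_pow_left₀ (by norm_num) (by norm_num) y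
  rw [div_eq_mul_inv, mul_comm]
  exact mul_le_mul_of_nonneg_right hprod (inv_nonneg.2 (Real.sqrt_nonneg _))

end Pool.QS
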