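import Pool.Agent.Lib.MP_a3a416_nt.QS.GLow
import Pool.Agent.Lib.MP_a3a416_nt.QS.SecMom
import Pool.Agent.Lib.MP_a3a416_nt.QS.Diag
import Pool.Agent.Lib.MP_a3a416_nt.QS.Pattern
import Pool.Agent.Lib.MP_a3a416_nt.QS.Smooth

/-! QS-MainA: transfer from primes to lattice points. -/

set_option autoImplicit false

open Finset

namespace Pool.QS

variable {d : ℕ}

theorem five_le_of_coprime {q n : ℕ} (hq : q.Prime) (hqn : q ∣ n) (h6 : n.Coprime 6) : 5 ≤ q := by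
  have h2 : q ≠ 2 := by
    rintro rfl
    have := Nat.Coprime.coprime_dvd_left hqn h6
    exact absurd this (by decide)
  have h3 : q ≠ 3 := by
    rintro rfl
    have := Nat.Coprime.coprime_dvd_left hqn h6
    exact absurd this (by decide)
  have h4 : q ≠ 4 := by
    rintro rfl
    exact absurd hq (by decide)
  have := hq.two_le
  omega

theorem Psi_chr (E : Dat d) {p : ℕ} (hp : p ∈ E.PP) {n : ℕ} (hn : n ≠ 0) (h6 : n.Coprime 6)
    (hlt : n < p) : E.chr p n = E.Psi n (E.ca p) (E.cb p) := by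
  unfold Loc.Psi
  conv_lhs => rw [← Nat.prod_factorization_pow_eq_self hn]
  rw [Finsupp.prod, Nat.cast_prod, map_prod, Nat.support_factorization]
  refine Finset.prod_congr rfl fun q hq => ?_
  have hqp : q.Prime := Nat.prime_of_mem_primeFactors hq
  have hqn : q ∣ n := Nat.dvd_of_mem_primeFactors hq
  have h5 : 5 ≤ q := five_le_of_coprime hqp hqn h6
  have hne : q ≠ p := by
    have := Nat.le_of_dvd (Nat.pos_of_ne_zero hn) hqn
    omega
  rw [Nat.cast_pow, map_pow, (E.loc p hp q hqp h5 hne).1]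

theorem mem_Ico_K {X p : ℕ} (hpX : p ≤ X) {a : ℤ} (ha : a ^ 2 ≤ 4 * p) :
    a ∈ Ico (-((2 * (Nat.sqrt X + 1) : ℕ) : ℤ)) ((2 * (Nat.sqrt X + 1) : ℕ) : ℤ) := by
  have h1 : X < (Nat.sqrt X + 1) * (Nat.sqrt X + 1) := Nat.lt_succ_sqrt X
  have h2 : (X : ℤ) < ((Nat.sqrt X + 1 : ℕ) : ℤ) * ((Nat.sqrt X + 1 : ℕ) : ℤ) := by
    exact_mod_cast h1
  have h3 : (p : ℤ) ≤ X := by exact_mod_cast hpX
  have h4 : a ^ 2 < (((2 * (Nat.sqrt X + 1) : ℕ) : ℤ)) ^ 2 := by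
    push_cast at h2 ⊢
    nlinarith
  have h5 := abs_lt_of_sq_lt_sq h4 (by positivity)
  rw [abs_lt] at h5
  rw [mem_Ico]
  exact ⟨h5.1.le, h5.2⟩

open scoped Classical in
theorem transfer (E : Dat d) {D X : ℕ} (hD : 1 ≤ D) (f : ℤ → ℤ → ℝ) (hf : ∀ a b, 0 ≤ f a b) :
    ∑ p ∈ (Ioc D X).filter (fun p => p ∈ E.PP), f (E.ca p) (E.cb p) ≤
      ∑ a ∈ Ico (-((2 * (Nat.sqrt X + 1) : ℕ) : ℤ)) ((2 * (Nat.sqrt X + 1) : ℕ) : ℤ),
        ∑ b ∈ Ico (-((2 * (Nat.sqrt X + 1) : ℕ) : ℤ)) ((2 * (Nat.sqrt X + 1) : ℕ) : ℤ),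
          E.w D a b * f a b := by
  set I := Ico (-((2 * (Nat.sqrt X + 1) : ℕ) : ℤ)) ((2 * (Nat.sqrt X + 1) : ℕ) : ℤ) with hI
  have h1 : ∑ p ∈ (Ioc D X).filter (fun p => p ∈ E.PP), f (E.ca p) (E.cb p) =
      ∑ x ∈ ((Ioc D X).filter (fun p => p ∈ E.PP)).image (fun p => (E.ca p, E.cb p)),
        E.w D x.1 x.2 * f x.1 x.2 := by
    rw [Finset.sum_image]
    · refine Finset.sum_congr rfl fun p hp => ?_
      rw [mem_filter, mem_Ioc] at hp
      have hw : E.w D (E.ca p) (E.cb p) = 1 := by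
        refine E.w_one hD fun q hq h5 hqD => ?_
        exact (E.loc p hp.2 q hq h5 (by omega)).2
      simp only [hw, one_mul]
    · intro p hp q hq h
      have hp' := (mem_filter.1 hp).2
      have hq' := (mem_filter.1 hq).2
      exact E.inj hp' hq' h
  rw [h1, ← Finset.sum_product']
  refine Finset.sum_le_sum_of_subset_of_nonneg ?_ fun x _ _ => mul_nonneg (E.w_nonneg D _ _) (hf _ _)
  intro x hx
  rw [mem_image] at hx
  obtain ⟨p, hp, rfl⟩ := hx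
  rw [mem_filter, mem_Ioc] at hp
  rw [mem_product]
  exact ⟨mem_Ico_K hp.1.2 (E.size_a p hp.2), mem_Ico_K hp.1.2 (E.size_b p hp.2)⟩

/-- the nonsmooth integers -/
def NS (z y : ℕ) : Finset ℕ :=
  (Icc 1 z).filter (fun n => n.Coprime 6 ∧ ¬ ∀ q ∈ n.primeFactors, q ≤ y)

open scoped Classical in
/-- the middle range: the number of `p` with `|R_p| > V`. -/
theorem count_R (E : Dat d) (hd : 2 ∣ d) (hd3 : 3 ≤ d) {z X y : ℕ} (hz : 1 ≤ z) (hy : 1 ≤ y)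
    {V : ℝ} (hV : 0 < V) :
    (((Ioc z X).filter (fun p => p ∈ E.PP ∧
        V < ‖∑ n ∈ NS z y, E.chr p n / (n : ℂ)‖)).card : ℝ) * V ^ 2 ≤
      (2 * ((2 * (Nat.sqrt X + 1) : ℕ) : ℝ)) ^ 2 / E.GG z * (16 / y) +
        8 * ((2 * (Nat.sqrt X + 1) : ℕ) : ℝ) * (z : ℝ) ^ 8 * (z : ℝ) ^ 2 := by
  set f : ℤ → ℤ → ℝ := fun a b => ‖∑ n ∈ NS z y, E.Psi n a b / (n : ℂ)‖ ^ 2 with hf
  have hNS : ∀ n ∈ NS z y, 1 ≤ n ∧ n ≤ z ∧ n.Coprime 6 := by
    intro n hn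
    rw [NS, mem_filter, mem_Icc] at hn
    exact ⟨hn.1.1, hn.1.2, hn.2.1⟩
  have hNS2 : ∀ n ∈ NS z y, 1 ≤ n ∧ ∃ q, q.Prime ∧ y < q ∧ q ∣ n := by
    intro n hn
    rw [NS, mem_filter, mem_Icc] at hn
    refine ⟨hn.1.1, ?_⟩
    obtain ⟨-, -, h⟩ := hn
    push Not at h
    obtain ⟨q, hq, hqy⟩ := h
    exact ⟨q, Nat.prime_of_mem_primeFactors hq, hqy, Nat.dvd_of_mem_primeFactors hq⟩
  have h1 : (((Ioc z X).filter (fun p => p ∈ E.PP ∧
        V < ‖∑ n ∈ NS z y, E.chr p n / (n : ℂ)‖)).card : ℝ) * V ^ 2 ≤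
      ∑ p ∈ (Ioc z X).filter (fun p => p ∈ E.PP), f (E.ca p) (E.cb p) := by
    rw [← nsmul_eq_mul, ← Finset.sum_const]
    have hsub : (Ioc z X).filter (fun p => p ∈ E.PP ∧
        V < ‖∑ n ∈ NS z y, E.chr p n / (n : ℂ)‖) ⊆ (Ioc z X).filter (fun p => p ∈ E.PP) := by
      intro p hp
      rw [mem_filter] at hp ⊢
      exact ⟨hp.1, hp.2.1⟩
    refine (Finset.sum_le_sum fun p hp => ?_).trans
      (Finset.sum_le_sum_of_subset_of_nonneg hsub fun p _ _ => by positivity)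
    rw [mem_filter, mem_Ioc] at hp
    have e : ∑ n ∈ NS z y, E.Psi n (E.ca p) (E.cb p) / (n : ℂ) =
        ∑ n ∈ NS z y, E.chr p n / (n : ℂ) := by
      refine Finset.sum_congr rfl fun n hn => ?_
      obtain ⟨a1, a2, a3⟩ := hNS n hn
      rw [Psi_chr E hp.2.1 (by omega) a3 (by omega)]
    simp only [hf, e]
    exact pow_le_pow_left₀ hV.le hp.2.2.le 2
  refine h1.trans ((transfer E hz f fun a b => by positivity).trans ?_)
  refine (second_moment E.toLoc (by omega) hz (2 * (Nat.sqrt X + 1)) z (NS z y) hNS).trans ?_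
  have h2 := diag_bound d hd y hy (NS z y) hNS2
  have hG : 0 ≤ E.GG z := by
    have := selG_pos (P5 z) E.g (fun q hq => E.g_pos (mem_P5.1 hq).2.2 (mem_P5.1 hq).1) (DD z)
      (DD_sub z) (DD_emp hz)
    exact (zero_le_one.trans this)
  have h3 : 0 ≤ (2 * ((2 * (Nat.sqrt X + 1) : ℕ) : ℝ)) ^ 2 / E.GG z := by positivity
  have := mul_le_mul_of_nonneg_left h2 h3
  simpa using this

open scoped Classical in
/-- the number of `p` with pattern in `Bad` -/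
theorem count_pattern (E : Dat d) (hd3 : 3 ≤ d) {z X y : ℕ} (hz : 1 ≤ z)
    (Bad : Finset ((P5 y) → ℂ)) (hBad : Bad ⊆ Om d y) :
    (((Ioc z X).filter (fun p => p ∈ E.PP ∧
        (fun q : P5 y => E.psi q (E.ca p) (E.cb p)) ∈ Bad)).card : ℝ) ≤
      (Bad.card : ℝ) / (d : ℝ) ^ (P5 y).card *
        ((2 * ((2 * (Nat.sqrt X + 1) : ℕ) : ℝ)) ^ 2 / E.GG z) +
        Bad.card * (8 * ((2 * (Nat.sqrt X + 1) : ℕ) : ℝ) * (z : ℝ) ^ 8 * ∏ q ∈ P5 y, (q : ℝ)) := by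
  have h1 : (((Ioc z X).filter (fun p => p ∈ E.PP ∧
        (fun q : P5 y => E.psi q (E.ca p) (E.cb p)) ∈ Bad)).card : ℝ) =
      ∑ p ∈ (Ioc z X).filter (fun p => p ∈ E.PP),
        (if (fun q : P5 y => E.psi q (E.ca p) (E.cb p)) ∈ Bad then (1 : ℝ) else 0) := by
    rw [← Finset.filter_filter, Finset.card_filter]
    push_cast
    rfl
  rw [h1]
  refine (transfer E hz (fun a b => if (fun q : P5 y => E.psi q a b) ∈ Bad then (1 : ℝ) else 0)
    fun a b => by positivity).trans ?_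
  exact pattern_count E.toLoc (by omega) hz (2 * (Nat.sqrt X + 1)) y Bad hBad

end Pool.QS
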