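import Pool.Agent.Lib.MP_a3a416_nt.QS.MainA
import Pool.Agent.Lib.MP_a3a416_nt.QS.LO
import Pool.Agent.Lib.MP_a3a416_nt.QS.LSTail

/-! QS-MainB: the truncated L-value is close to the finite Euler product. -/

set_option autoImplicit false

open Finset

namespace Pool.QS

variable {d : ℕ}

theorem FF_eq (E : Dat d) {p : ℕ} (hp : p ∈ E.PP) {y : ℕ} (hy : y < p) :
    FF y (fun q : P5 y => E.psi q (E.ca p) (E.cb p)) =
      ∏ q ∈ P5 y, (1 - E.chr p q / (q : ℂ))⁻¹ := by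
  unfold FF
  rw [← Finset.prod_coe_sort (P5 y)]
  refine Finset.prod_congr rfl fun q _ => ?_
  obtain ⟨h5, hqy, hq⟩ := mem_P5.1 q.2
  rw [(E.loc p hp q hq h5 (by omega)).1]

theorem TL_split {p : ℕ} (χ : DirichletCharacter ℂ p) {z N : ℕ} (hzN : z ≤ N) (y : ℕ) :
    TL χ N = ∑ n ∈ (Icc 1 z).filter (fun n => n.Coprime 6 ∧ ∀ q ∈ n.primeFactors, q ≤ y),
        χ n / (n : ℂ) + ∑ n ∈ NS z y, χ n / (n : ℂ) +
      ∑ n ∈ (Ioc z N).filter (fun n => n.Coprime 6), χ n / (n : ℂ) := by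
  unfold TL NS
  have h1 : (Icc 1 N).filter (fun n => n.Coprime 6) =
      (Icc 1 z).filter (fun n => n.Coprime 6) ∪ (Ioc z N).filter (fun n => n.Coprime 6) := by
    ext n
    simp only [mem_filter, mem_union, mem_Icc, mem_Ioc]
    constructor
    · rintro ⟨⟨h1, h2⟩, h3⟩
      rcases le_or_gt n z with h | h
      · exact Or.inl ⟨⟨h1, h⟩, h3⟩
      · exact Or.inr ⟨⟨h, h2⟩, h3⟩
    · rintro (⟨⟨h1, h2⟩, h3⟩ | ⟨⟨h1, h2⟩, h3⟩)
      · exact ⟨⟨h1, h2.trans hzN⟩, h3⟩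
      · exact ⟨⟨by omega, h2⟩, h3⟩
  have hdis : Disjoint ((Icc 1 z).filter (fun n => n.Coprime 6))
      ((Ioc z N).filter (fun n => n.Coprime 6)) := by
    rw [Finset.disjoint_left]
    intro n h1 h2
    rw [mem_filter, mem_Icc] at h1
    rw [mem_filter, mem_Ioc] at h2
    omega
  rw [h1, Finset.sum_union hdis]
  congr 1
  rw [← Finset.filter_filter, ← Finset.filter_filter, Finset.sum_filter_add_sum_filter_not]

theorem close (E : Dat d) {p : ℕ} (hp : p ∈ E.PP) {y z N : ℕ} (hz : 1 ≤ z) (hzN : z ≤ N)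
    (hy : y < p) :
    |‖TL (E.chr p) N‖ - ‖FF y (fun q : P5 y => E.psi q (E.ca p) (E.cb p))‖| ≤
      ‖∑ n ∈ NS z y, E.chr p n / (n : ℂ)‖ +
      ‖∑ n ∈ (Ioc z N).filter (fun n => n.Coprime 6), E.chr p n / (n : ℂ)‖ +
        4 ^ y / Real.sqrt z := by
  have h := smooth_tail (E.chr p) y z hz
  rw [FF_eq E hp hy, TL_split (E.chr p) hzN y]
  refine (abs_norm_sub_norm_le _ _).trans ?_
  set A := ∑ n ∈ (Icc 1 z).filter (fun n => n.Coprime 6 ∧ ∀ q ∈ n.primeFactors, q ≤ y),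
        E.chr p n / (n : ℂ)
  set B := ∑ n ∈ NS z y, E.chr p n / (n : ℂ)
  set C := ∑ n ∈ (Ioc z N).filter (fun n => n.Coprime 6), E.chr p n / (n : ℂ)
  set P := ∏ q ∈ P5 y, (1 - E.chr p q / (q : ℂ))⁻¹
  have e : A + B + C - P = B + C + (A - P) := by ring
  rw [e]
  refine (norm_add_le _ _).trans (add_le_add (norm_add_le _ _) h)

/-- numerical closeness -/
theorem close_sq {t f δ u κ ℓ : ℝ} {m : ℕ} (hf : 0 ≤ f) (ht : 0 ≤ t) (h1 : |t - f| ≤ δ)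
    (h2 : |t ^ 2 - κ * m| ≤ ℓ) (hu : f ≤ u) : |f ^ 2 - κ * m| ≤ δ * (2 * u + δ) + ℓ := by
  have hδ : 0 ≤ δ := (abs_nonneg _).trans h1
  have h3 : |t ^ 2 - f ^ 2| ≤ δ * (2 * u + δ) := by
    have e : t ^ 2 - f ^ 2 = (t - f) * (t + f) := by ring
    rw [e, abs_mul]
    have h4 : |t + f| ≤ 2 * u + δ := by
      rw [abs_of_nonneg (by linarith)]
      have := (abs_le.1 h1).2
      linarith
    exact mul_le_mul h1 h4 (abs_nonneg _) hδ
  have h5 : f ^ 2 - κ * m = -(t ^ 2 - f ^ 2) + (t ^ 2 - κ * m) := by ring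
  rw [h5]
  refine (abs_add_le _ _).trans ?_
  rw [abs_neg]
  linarith

/-- `3 y^{-1/4} (2 y^{1/50} + 3 y^{-1/4}) + y^{-1} ≤ y^{-1/5}` for large `y` -/
theorem y_ineq {y : ℝ} (hy : (16 : ℝ) ^ (34 : ℕ) ≤ y) :
    3 * y ^ (-(1 / 4) : ℝ) * (2 * y ^ (1 / 50 : ℝ) + 3 * y ^ (-(1 / 4) : ℝ)) + y⁻¹ ≤
      y ^ (-(1 / 5) : ℝ) := by
  have hy1 : (1 : ℝ) ≤ y := le_trans (by norm_num) hy
  have hy0 : 0 < y := by linarith
  have h1 : (16 : ℝ) ≤ y ^ (3 / 100 : ℝ) := by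
    calc (16 : ℝ) = ((16 : ℝ) ^ (34 : ℕ)) ^ (1 / 34 : ℝ) := by
          rw [← Real.rpow_natCast, ← Real.rpow_mul (by norm_num)]
          norm_num
      _ ≤ y ^ (1 / 34 : ℝ) := Real.rpow_le_rpow (by positivity) hy (by norm_num)
      _ ≤ y ^ (3 / 100 : ℝ) := Real.rpow_le_rpow_of_exponent_le hy1 (by norm_num)
  have e1 : y ^ (-(1 / 4) : ℝ) * y ^ (1 / 50 : ℝ) = y ^ (-(23 / 100) : ℝ) := by
    rw [← Real.rpow_add hy0]
    norm_num
  have e2 : y ^ (-(1 / 4) : ℝ) * y ^ (-(1 / 4) : ℝ) ≤ y ^ (-(23 / 100) : ℝ) := by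
    rw [← Real.rpow_add hy0]
    exact Real.rpow_le_rpow_of_exponent_le hy1 (by norm_num)
  have e3 : y⁻¹ ≤ y ^ (-(23 / 100) : ℝ) := by
    rw [← Real.rpow_neg_one]
    exact Real.rpow_le_rpow_of_exponent_le hy1 (by norm_num)
  have e4 : y ^ (3 / 100 : ℝ) * y ^ (-(23 / 100) : ℝ) = y ^ (-(1 / 5) : ℝ) := by
    rw [← Real.rpow_add hy0]
    norm_num
  have h2 : 0 < y ^ (-(23 / 100) : ℝ) := Real.rpow_pos_of_pos hy0 _
  rw [← e4]
  nlinarith [mul_le_mul_of_nonneg_right h1 h2.le]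

end Pool.QS
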