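import Pool.Agent.Lib.MP_a3a416_nt.QS.MainB

/-! QS-MainC: parameters and asymptotics. -/

set_option autoImplicit false

open Finset Filter Topology

namespace Pool.QS

/-- logs are small -/
theorem ev_log (k : ℕ) (s : ℝ) (hs : 0 < s) : ∀ᶠ X : ℕ in atTop,
    (Real.log X) ^ k ≤ (X : ℝ) ^ s := by
  have h := (isLittleO_log_rpow_rpow_atTop (s := s) (k : ℝ) hs).def (c := 1) (by norm_num)
  have h2 := tendsto_natCast_atTop_atTop (R := ℝ) |>.eventually h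
  filter_upwards [h2, eventually_ge_atTop 1] with X hX hX1
  have hl : 0 ≤ Real.log X := Real.log_natCast_nonneg _
  rw [Real.norm_of_nonneg (Real.rpow_nonneg hl _), Real.norm_of_nonneg (Real.rpow_nonneg
    (Nat.cast_nonneg _) _), one_mul, Real.rpow_natCast] at hX
  exact hX

theorem ev_log_large (M : ℝ) : ∀ᶠ X : ℕ in atTop, M ≤ Real.log X :=
  (Real.tendsto_log_atTop.comp tendsto_natCast_atTop_atTop).eventually_ge_atTop M

/-- the 32nd root -/
theorem exists_z {X : ℕ} (hX : 64 * Real.log 2 ≤ Real.log X) (hX1 : 1 ≤ X) :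
    ∃ z : ℕ, z ^ 32 ≤ X ∧ X < (z + 1) ^ 32 ∧ 1 ≤ z ∧ (z : ℝ) ≤ (X : ℝ) ^ (1 / 32 : ℝ) ∧
      (X : ℝ) ^ (1 / 64 : ℝ) ≤ z ∧ Real.log X / 64 ≤ Real.log z ∧ z ≤ X := by
  have hX0 : (0 : ℝ) < X := by exact_mod_cast hX1
  set r : ℝ := (X : ℝ) ^ (1 / 32 : ℝ) with hr
  have hr0 : 0 < r := Real.rpow_pos_of_pos hX0 _
  have hr32 : r ^ 32 = X := by
    rw [hr, ← Real.rpow_natCast, ← Real.rpow_mul hX0.le]
    norm_num
  have h64 : (X : ℝ) ^ (1 / 64 : ℝ) ^ 1 = (X : ℝ) ^ (1 / 64 : ℝ) := by norm_num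
  set s : ℝ := (X : ℝ) ^ (1 / 64 : ℝ) with hs
  have hs0 : 0 < s := Real.rpow_pos_of_pos hX0 _
  have hrs : r = s * s := by
    rw [hr, hs, ← Real.rpow_add hX0]
    norm_num
  have hs2 : 2 ≤ s := by
    rw [hs, ← Real.log_le_log_iff (by norm_num) (Real.rpow_pos_of_pos hX0 _), Real.log_rpow hX0]
    linarith
  refine ⟨⌊r⌋₊, ?_, ?_, ?_, Nat.floor_le hr0.le, ?_, ?_, ?_⟩
  · have h := Nat.floor_le hr0.le
    have h2 : ((⌊r⌋₊ : ℝ)) ^ 32 ≤ r ^ 32 := pow_le_pow_left₀ (Nat.cast_nonneg _) h 32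
    rw [hr32] at h2
    exact_mod_cast h2
  · have h := Nat.lt_floor_add_one r
    have h2 : r ^ 32 < ((⌊r⌋₊ : ℝ) + 1) ^ 32 := pow_lt_pow_left₀ h hr0.le (by norm_num)
    rw [hr32] at h2
    exact_mod_cast h2
  · rw [Nat.one_le_floor_iff]
    nlinarith
  · have h := Nat.lt_floor_add_one r
    nlinarith
  · have h := Nat.lt_floor_add_one r
    have h3 : s ≤ (⌊r⌋₊ : ℝ) := by nlinarith
    have h4 := Real.log_le_log hs0 h3
    have h5 : Real.log s = Real.log X / 64 := by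
      rw [hs, Real.log_rpow hX0]
      ring
    linarith
  · have h := Nat.floor_le hr0.le
    have h2 : (⌊r⌋₊ : ℝ) ≤ X := by
      refine h.trans ?_
      rw [← hr32]
      exact le_self_pow₀ (by nlinarith) (by norm_num)
    exact_mod_cast h2

theorem four_pow_le {X y d : ℕ} (hd : 3 ≤ d) (hX1 : 1 ≤ X)
    (hy : (y : ℝ) ≤ Real.log X / (1000 * d)) :
    (4 : ℝ) ^ y ≤ (X : ℝ) ^ (1 / 1000 : ℝ) := by
  have hX0 : (0 : ℝ) < X := by exact_mod_cast hX1
  have hl : 0 ≤ Real.log X := Real.log_natCast_nonneg _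
  have hd' : (3 : ℝ) ≤ d := by exact_mod_cast hd
  rw [← Real.log_le_log_iff (by positivity) (Real.rpow_pos_of_pos hX0 _), Real.log_rpow hX0,
    Real.log_pow]
  have h4 : Real.log 4 ≤ 3 := by
    have := Real.log_le_sub_one_of_pos (show (0 : ℝ) < 4 by norm_num)
    linarith
  have h40 : 0 ≤ Real.log 4 := Real.log_nonneg (by norm_num)
  rw [le_div_iff₀ (by positivity)] at hy
  have hy0 : (0 : ℝ) ≤ y := Nat.cast_nonneg _
  have h5 : (y : ℝ) * Real.log 4 ≤ y * 3 := mul_le_mul_of_nonneg_left h4 hy0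
  nlinarith [mul_nonneg hy0 (sub_nonneg.2 hd')]

theorem d_pow_le {X y d : ℕ} (hd : 3 ≤ d) (hX1 : 1 ≤ X)
    (hy : (y : ℝ) ≤ Real.log X / (1000 * d)) :
    (4 * d : ℝ) ^ y ≤ (X : ℝ) ^ (1 / 250 : ℝ) := by
  have hX0 : (0 : ℝ) < X := by exact_mod_cast hX1
  have hl : 0 ≤ Real.log X := Real.log_natCast_nonneg _
  have hd' : (3 : ℝ) ≤ d := by exact_mod_cast hd
  rw [← Real.log_le_log_iff (by positivity) (Real.rpow_pos_of_pos hX0 _), Real.log_rpow hX0,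
    Real.log_pow]
  have h4 : Real.log (4 * d) ≤ 4 * d := by
    have := Real.log_le_sub_one_of_pos (show (0 : ℝ) < 4 * d by positivity)
    linarith
  rw [le_div_iff₀ (by positivity)] at hy
  have hy0 : (0 : ℝ) ≤ y := Nat.cast_nonneg _
  have h5 : (y : ℝ) * Real.log (4 * d) ≤ y * (4 * d) := mul_le_mul_of_nonneg_left h4 hy0
  nlinarith

end Pool.QS
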