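import Pool.Agent.Lib.MP_a3a416_nt.QS.MainC

/-! QS-MainD: bounds for the exceptional sets. -/

set_option autoImplicit false

open Finset Filter Topology

namespace Pool.QS

theorem prod_P5_le (y : ℕ) : ∏ q ∈ P5 y, (q : ℝ) ≤ (4 : ℝ) ^ y := by
  have h1 : ∏ q ∈ P5 y, q ≤ primorial y := by
    unfold primorial
    refine Finset.prod_le_prod_of_subset_of_one_le' ?_ ?_
    · intro q hq
      obtain ⟨h5, hqy, hq⟩ := mem_P5.1 hq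
      rw [mem_filter, mem_range]
      exact ⟨by omega, hq⟩
    · intro q hq _
      exact (mem_filter.1 hq).2.one_le
  have h2 := h1.trans (primorial_le_four_pow y)
  have h3 : ((∏ q ∈ P5 y, q : ℕ) : ℝ) ≤ ((4 ^ y : ℕ) : ℝ) := by exact_mod_cast h2
  push_cast at h3
  exact h3

theorem card_P5_le (y : ℕ) : (P5 y).card ≤ y := by
  refine (Finset.card_filter_le _ _).trans ?_
  rw [Nat.card_Icc]
  omega

theorem card_Om {d y : ℕ} (hd : 1 ≤ d) : (Om d y).card = d ^ (P5 y).card := by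
  unfold Om
  rw [Fintype.card_piFinset, Finset.prod_const, Finset.card_univ, Fintype.card_coe]
  congr 1
  exact (Complex.isPrimitiveRoot_exp d (by omega)).card_nthRootsFinset

open scoped Classical in
/-- final extension to all `X ≥ 2` -/
theorem ev_extend (P : ℕ → ℕ → Prop) (C : ℝ)
    (h : ∀ᶠ X : ℕ in atTop, (((Icc 1 X).filter fun p => P X p).card : ℝ) ≤
      C * X / (Real.log X) ^ (1 + 1 / 25 : ℝ)) :
    ∃ C' : ℝ, ∀ X : ℕ, 2 ≤ X → (((Icc 1 X).filter fun p => P X p).card : ℝ) ≤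
      C' * X / (Real.log X) ^ (1 + 1 / 25 : ℝ) := by
  obtain ⟨X₀, hX₀⟩ := eventually_atTop.1 h
  refine ⟨max C 0 + (Real.log (X₀ + 2)) ^ (1 + 1 / 25 : ℝ), fun X hX => ?_⟩
  have hX1 : (1 : ℝ) < X := by exact_mod_cast hX
  have hl : 0 < Real.log X := Real.log_pos hX1
  have hp : 0 < (Real.log X) ^ (1 + 1 / 25 : ℝ) := Real.rpow_pos_of_pos hl _
  have hX0 : (0 : ℝ) ≤ X := by linarith
  have hL0 : 0 ≤ (Real.log (X₀ + 2)) ^ (1 + 1 / 25 : ℝ) :=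
    Real.rpow_nonneg (Real.log_nonneg (by have : (0 : ℝ) ≤ X₀ := Nat.cast_nonneg _; linarith)) _
  rcases le_or_gt X₀ X with h0 | h0
  · refine (hX₀ X h0).trans ?_
    rw [div_le_div_iff_of_pos_right hp]
    refine mul_le_mul_of_nonneg_right ?_ hX0
    have := le_max_left C 0
    linarith
  · rw [le_div_iff₀ hp]
    have h1 : (((Icc 1 X).filter fun p => P X p).card : ℝ) ≤ X := by
      have := Finset.card_filter_le (Icc 1 X) (fun p => P X p)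
      rw [Nat.card_Icc] at this
      exact_mod_cast (by omega : ((Icc 1 X).filter fun p => P X p).card ≤ X)
    have h2 : (Real.log X) ^ (1 + 1 / 25 : ℝ) ≤ (Real.log (X₀ + 2)) ^ (1 + 1 / 25 : ℝ) := by
      refine Real.rpow_le_rpow hl.le (Real.log_le_log (by linarith) ?_) (by norm_num)
      have : (X : ℝ) ≤ X₀ := by exact_mod_cast h0.le
      linarith
    calc (((Icc 1 X).filter fun p => P X p).card : ℝ) * (Real.log X) ^ (1 + 1 / 25 : ℝ)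
        ≤ X * (Real.log (X₀ + 2)) ^ (1 + 1 / 25 : ℝ) := mul_le_mul h1 h2 hp.le hX0
      _ ≤ (max C 0 + (Real.log (X₀ + 2)) ^ (1 + 1 / 25 : ℝ)) * X := by
          have := le_max_right C 0
          nlinarith [mul_nonneg this hX0]

/-- the parameter `y` -/
theorem y_facts {d : ℕ} (hd3 : 3 ≤ d) {ℓ : ℝ} (hℓ : 2000 * d * (16 : ℝ) ^ (34 : ℕ) ≤ ℓ) :
    (⌊ℓ / (1000 * d)⌋₊ : ℝ) ≤ ℓ / (1000 * d) ∧ (16 : ℝ) ^ (34 : ℕ) ≤ ⌊ℓ / (1000 * d)⌋₊ ∧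
      ℓ / (2000 * d) ≤ ⌊ℓ / (1000 * d)⌋₊ ∧ (⌊ℓ / (1000 * d)⌋₊ : ℝ) ≤ ℓ := by
  have hd' : (3 : ℝ) ≤ d := by exact_mod_cast hd3
  have h16 : (2 : ℝ) ≤ (16 : ℝ) ^ (34 : ℕ) := by norm_num
  have hℓ0 : 0 ≤ ℓ := le_trans (by positivity) hℓ
  have h1 := Nat.floor_le (show 0 ≤ ℓ / (1000 * d) by positivity)
  have h2 := Nat.lt_floor_add_one (ℓ / (1000 * d))
  have e : ℓ / (1000 * d) = 2 * (ℓ / (2000 * d)) := by
    field_simp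
    ring
  have h3 : (16 : ℝ) ^ (34 : ℕ) ≤ ℓ / (2000 * d) := by
    rw [le_div_iff₀ (by positivity)]
    linarith
  have h4 : ℓ / (2000 * d) ≤ ⌊ℓ / (1000 * d)⌋₊ := by linarith
  refine ⟨h1, by linarith, h4, h1.trans ?_⟩
  rw [div_le_iff₀ (by positivity)]
  nlinarith

/-- the count of the four exceptional sets -/
theorem four_bounds {d X y z : ℕ} (hd3 : 3 ≤ d) {ℓ G : ℝ} (hX1 : 1 ≤ X) (hℓX : ℓ = Real.log X)
    (hℓ : 1000000 ≤ ℓ) (hG : ℓ / 1536 ≤ G) (hz : (z : ℝ) ≤ (X : ℝ) ^ (1 / 32 : ℝ))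
    (hy1 : 1 ≤ y) (hyu : (y : ℝ) ≤ ℓ / (1000 * d)) (hyl : ℓ / (2000 * d) ≤ y) (hyℓ : (y : ℝ) ≤ ℓ)
    (h4 : ℓ ^ 4 ≤ (X : ℝ) ^ (1 / 10 : ℝ)) {n : ℕ} (hn : n ≤ y) {C₀ Bc : ℝ} (hC₀ : 0 ≤ C₀)
    (hB1 : Bc ≤ C₀ * (y : ℝ) ^ (-(1 / 25) : ℝ) * (d : ℝ) ^ n) (hB2 : Bc ≤ (d : ℝ) ^ n)
    {K : ℝ} (hK0 : 0 ≤ K) (hK : K ≤ 4 * Real.sqrt X) :
    Real.sqrt X ≤ X / ℓ ^ (1 + 1 / 25 : ℝ) ∧
    ((2 * K) ^ 2 / G * (16 / y) + 8 * K * (z : ℝ) ^ 8 * (z : ℝ) ^ 2) / ((y : ℝ) ^ (-(1 / 4) : ℝ)) ^ 2 ≤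
      (1572864 * (2000 * d : ℝ) ^ (1 / 25 : ℝ) + 1) * (X / ℓ ^ (1 + 1 / 25 : ℝ)) ∧
    Bc / (d : ℝ) ^ n * ((2 * K) ^ 2 / G) + Bc * (8 * K * (z : ℝ) ^ 8 * 4 ^ y) ≤
      (C₀ * (98304 * (2000 * d : ℝ) ^ (1 / 25 : ℝ)) + 1) * (X / ℓ ^ (1 + 1 / 25 : ℝ)) := by
  have hX0 : (0 : ℝ) < X := by exact_mod_cast hX1
  have hd' : (3 : ℝ) ≤ d := by exact_mod_cast hd3
  have hℓ0 : 0 < ℓ := by linarith
  have hs1 : (1000000 : ℝ) * ℓ ≤ ℓ ^ 2 := by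
    rw [sq]
    exact mul_le_mul_of_nonneg_right hℓ hℓ0.le
  have hs2 : 32 * ℓ ≤ ℓ ^ 2 := by linarith
  have hs3 : (32 : ℝ) ≤ ℓ ^ 2 := by linarith
  have hs4 : (1 : ℝ) ≤ ℓ ^ 2 := by linarith
  have hy0 : (0 : ℝ) < y := by exact_mod_cast hy1
  have hy1' : (1 : ℝ) ≤ y := by exact_mod_cast hy1
  have hG0 : 0 < G := lt_of_lt_of_le (by positivity) hG
  set T : ℝ := X / ℓ ^ (1 + 1 / 25 : ℝ) with hT
  have hℓp : 0 < ℓ ^ (1 + 1 / 25 : ℝ) := Real.rpow_pos_of_pos hℓ0 _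
  have hT0 : 0 < T := by positivity
  have hℓ2 : ℓ ^ (1 + 1 / 25 : ℝ) ≤ ℓ ^ 2 := by
    rw [← Real.rpow_natCast]
    exact Real.rpow_le_rpow_of_exponent_le (by linarith) (by norm_num)
  -- any X^a with a small factor is at most T
  have hsmall : ∀ (a c : ℝ), a ≤ 9 / 10 → c ≤ ℓ ^ 2 → c * (X : ℝ) ^ a ≤ T := by
    intro a c ha hc
    rw [hT, le_div_iff₀ hℓp]
    have hXa : 0 < (X : ℝ) ^ a := Real.rpow_pos_of_pos hX0 _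
    have h1 : c * (X : ℝ) ^ a * ℓ ^ (1 + 1 / 25 : ℝ) ≤ ℓ ^ 2 * (X : ℝ) ^ a * ℓ ^ 2 := by
      refine mul_le_mul (mul_le_mul_of_nonneg_right hc hXa.le) hℓ2 hℓp.le (by positivity)
    have h2 : ℓ ^ 2 * (X : ℝ) ^ a * ℓ ^ 2 = (X : ℝ) ^ a * ℓ ^ 4 := by ring
    have h3 : (X : ℝ) ^ a * ℓ ^ 4 ≤ (X : ℝ) ^ a * (X : ℝ) ^ (1 / 10 : ℝ) :=
      mul_le_mul_of_nonneg_left h4 hXa.le
    have h4' : (X : ℝ) ^ a * (X : ℝ) ^ (1 / 10 : ℝ) ≤ X := by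
      rw [← Real.rpow_add hX0]
      calc (X : ℝ) ^ (a + 1 / 10) ≤ (X : ℝ) ^ (1 : ℝ) :=
            Real.rpow_le_rpow_of_exponent_le (by exact_mod_cast hX1) (by linarith)
        _ = X := Real.rpow_one _
    linarith
  have hsq : Real.sqrt X = (X : ℝ) ^ (1 / 2 : ℝ) := Real.sqrt_eq_rpow _
  have hz0 : (0 : ℝ) ≤ z := Nat.cast_nonneg _
  have hz8 : (z : ℝ) ^ 8 ≤ (X : ℝ) ^ (1 / 4 : ℝ) := by
    calc (z : ℝ) ^ 8 ≤ ((X : ℝ) ^ (1 / 32 : ℝ)) ^ 8 := pow_le_pow_left₀ hz0 hz 8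
      _ = (X : ℝ) ^ (1 / 4 : ℝ) := by
          rw [← Real.rpow_natCast, ← Real.rpow_mul hX0.le]
          norm_num
  have hz2 : (z : ℝ) ^ 2 ≤ (X : ℝ) ^ (1 / 16 : ℝ) := by
    calc (z : ℝ) ^ 2 ≤ ((X : ℝ) ^ (1 / 32 : ℝ)) ^ 2 := pow_le_pow_left₀ hz0 hz 2
      _ = (X : ℝ) ^ (1 / 16 : ℝ) := by
          rw [← Real.rpow_natCast, ← Real.rpow_mul hX0.le]
          norm_num
  -- (2K)^2 / G
  have hK2 : (2 * K) ^ 2 / G ≤ 98304 * X / ℓ := by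
    have h1 : (2 * K) ^ 2 ≤ 64 * X := by
      have h2 : (2 * K) ^ 2 ≤ (2 * (4 * Real.sqrt X)) ^ 2 := by
        refine pow_le_pow_left₀ (by positivity) ?_ 2
        linarith
      have h3 : (2 * (4 * Real.sqrt X)) ^ 2 = 64 * (Real.sqrt X) ^ 2 := by ring
      rw [h3, Real.sq_sqrt hX0.le] at h2
      exact h2
    rw [div_le_div_iff₀ hG0 hℓ0]
    have h2 : (2 * K) ^ 2 * ℓ ≤ 64 * X * ℓ := mul_le_mul_of_nonneg_right h1 hℓ0.le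
    have h3 : ℓ ≤ 1536 * G := by linarith
    nlinarith [mul_le_mul_of_nonneg_left h3 (show 0 ≤ 64 * (X : ℝ) by positivity)]
  -- y^{-1/25} / ℓ
  have hy25 : (y : ℝ) ^ (-(1 / 25) : ℝ) * (X / ℓ) ≤ (2000 * d : ℝ) ^ (1 / 25 : ℝ) * T := by
    have h1 : (y : ℝ) ^ (-(1 / 25) : ℝ) ≤ (2000 * d : ℝ) ^ (1 / 25 : ℝ) / ℓ ^ (1 / 25 : ℝ) := by
      rw [Real.rpow_neg hy0.le, ← one_div, div_le_div_iff₀ (Real.rpow_pos_of_pos hy0 _)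
        (Real.rpow_pos_of_pos hℓ0 _), one_mul, ← Real.mul_rpow (by positivity) hy0.le]
      refine Real.rpow_le_rpow hℓ0.le ?_ (by norm_num)
      rw [div_le_iff₀ (by positivity)] at hyl
      linarith
    have h2 : (2000 * d : ℝ) ^ (1 / 25 : ℝ) / ℓ ^ (1 / 25 : ℝ) * (X / ℓ) =
        (2000 * d : ℝ) ^ (1 / 25 : ℝ) * T := by
      rw [hT, Real.rpow_add hℓ0, Real.rpow_one]
      have := (Real.rpow_pos_of_pos hℓ0 (1 / 25 : ℝ)).ne'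
      field_simp
    rw [← h2]
    exact mul_le_mul_of_nonneg_right h1 (by positivity)
  refine ⟨?_, ?_, ?_⟩
  · have := hsmall (1 / 2) 1 (by norm_num) hs4
    rw [hsq]
    linarith
  · have hV : ((y : ℝ) ^ (-(1 / 4) : ℝ)) ^ 2 = ((y : ℝ) ^ (1 / 2 : ℝ))⁻¹ := by
      rw [← Real.rpow_natCast, ← Real.rpow_mul hy0.le, ← Real.rpow_neg hy0.le]
      norm_num
    have hyh : 0 < (y : ℝ) ^ (1 / 2 : ℝ) := Real.rpow_pos_of_pos hy0 _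
    rw [hV, div_inv_eq_mul, add_mul, add_mul]
    refine add_le_add ?_ ?_
    · have h1 : (16 / (y : ℝ)) * (y : ℝ) ^ (1 / 2 : ℝ) ≤ 16 * (y : ℝ) ^ (-(1 / 25) : ℝ) := by
        have h2 : (y : ℝ) ^ (1 / 2 : ℝ) = y * (y : ℝ) ^ (-(1 / 2) : ℝ) := by
          conv_rhs => rw [← Real.rpow_one (y : ℝ), ← Real.rpow_mul hy0.le, ← Real.rpow_add hy0]
          norm_num
        have h3 : (y : ℝ) ^ (-(1 / 2) : ℝ) ≤ (y : ℝ) ^ (-(1 / 25) : ℝ) :=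
          Real.rpow_le_rpow_of_exponent_le hy1' (by norm_num)
        have h4 : (16 / (y : ℝ)) * (y : ℝ) ^ (1 / 2 : ℝ) = 16 * (y : ℝ) ^ (-(1 / 2) : ℝ) := by
          rw [h2]
          field_simp
        rw [h4]
        linarith
      calc (2 * K) ^ 2 / G * (16 / y) * (y : ℝ) ^ (1 / 2 : ℝ)
          = (2 * K) ^ 2 / G * ((16 / y) * (y : ℝ) ^ (1 / 2 : ℝ)) := by ring
        _ ≤ (98304 * X / ℓ) * (16 * (y : ℝ) ^ (-(1 / 25) : ℝ)) :=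
            mul_le_mul hK2 h1 (by positivity) (by positivity)
        _ = 1572864 * ((y : ℝ) ^ (-(1 / 25) : ℝ) * (X / ℓ)) := by ring
        _ ≤ 1572864 * ((2000 * d : ℝ) ^ (1 / 25 : ℝ) * T) :=
            mul_le_mul_of_nonneg_left hy25 (by norm_num)
        _ = 1572864 * (2000 * d : ℝ) ^ (1 / 25 : ℝ) * T := by ring
    · have hyh2 : (y : ℝ) ^ (1 / 2 : ℝ) ≤ ℓ := by
        calc (y : ℝ) ^ (1 / 2 : ℝ) ≤ (y : ℝ) ^ (1 : ℝ) :=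
              Real.rpow_le_rpow_of_exponent_le hy1' (by norm_num)
          _ = y := Real.rpow_one _
          _ ≤ ℓ := hyℓ
      calc 8 * K * (z : ℝ) ^ 8 * (z : ℝ) ^ 2 * (y : ℝ) ^ (1 / 2 : ℝ)
          ≤ 8 * (4 * (X : ℝ) ^ (1 / 2 : ℝ)) * (X : ℝ) ^ (1 / 4 : ℝ) * (X : ℝ) ^ (1 / 16 : ℝ) * ℓ := by
            rw [← hsq]
            gcongr
        _ = 32 * ℓ * (X : ℝ) ^ (1 / 2 + 1 / 4 + 1 / 16 : ℝ) := by
            rw [Real.rpow_add hX0, Real.rpow_add hX0]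
            ring
        _ ≤ T := hsmall _ _ (by norm_num) hs2
        _ = 1 * T := (one_mul _).symm
  · have hdn : (0 : ℝ) < (d : ℝ) ^ n := by positivity
    rw [add_mul]
    refine add_le_add ?_ ?_
    · have h1 : Bc / (d : ℝ) ^ n ≤ C₀ * (y : ℝ) ^ (-(1 / 25) : ℝ) := by
        rw [div_le_iff₀ hdn]
        exact hB1
      calc Bc / (d : ℝ) ^ n * ((2 * K) ^ 2 / G)
          ≤ (C₀ * (y : ℝ) ^ (-(1 / 25) : ℝ)) * (98304 * X / ℓ) :=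
            mul_le_mul h1 hK2 (by positivity) (by positivity)
        _ = C₀ * 98304 * ((y : ℝ) ^ (-(1 / 25) : ℝ) * (X / ℓ)) := by ring
        _ ≤ C₀ * 98304 * ((2000 * d : ℝ) ^ (1 / 25 : ℝ) * T) :=
            mul_le_mul_of_nonneg_left hy25 (by positivity)
        _ = C₀ * (98304 * (2000 * d : ℝ) ^ (1 / 25 : ℝ)) * T := by ring
    · have hBd : Bc ≤ (d : ℝ) ^ y := hB2.trans (pow_le_pow_right₀ (by linarith) hn)
      have hdp := d_pow_le hd3 hX1 (y := y) (by rw [← hℓX]; exact hyu)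
      calc Bc * (8 * K * (z : ℝ) ^ 8 * 4 ^ y)
          ≤ (d : ℝ) ^ y * (8 * (4 * (X : ℝ) ^ (1 / 2 : ℝ)) * (X : ℝ) ^ (1 / 4 : ℝ) * 4 ^ y) := by
            rw [← hsq]
            gcongr
        _ = 32 * (4 * d : ℝ) ^ y * ((X : ℝ) ^ (1 / 2 : ℝ) * (X : ℝ) ^ (1 / 4 : ℝ)) := by
            rw [mul_pow]
            ring
        _ ≤ 32 * (X : ℝ) ^ (1 / 250 : ℝ) * ((X : ℝ) ^ (1 / 2 : ℝ) * (X : ℝ) ^ (1 / 4 : ℝ)) := by
            gcongr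
        _ = 32 * (X : ℝ) ^ (1 / 250 + (1 / 2 + 1 / 4) : ℝ) := by
            rw [Real.rpow_add hX0, Real.rpow_add hX0]
            ring
        _ ≤ T := hsmall _ _ (by norm_num) hs3
        _ = 1 * T := (one_mul _).symm

end Pool.QS
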