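import Pool.Agent.Lib.MP_a3a416_nt.QS.Defs
import Pool.Agent.Lib.MP_a3a416_nt.GapTwo

/-! QS-PowSum: an irregular index kills the half power sum. -/

set_option autoImplicit false

open Finset

namespace Pool.QS

open Pool.Agent.Lib.MP_a3a416_nt in
theorem half_sum_zero {p k : ℕ} (hp : p.Prime) (h5 : 5 ≤ p) (hk : Even k) (hk2 : 2 ≤ k)
    (hkp : k ≤ p - 3) (hdvd : (p : ℤ) ∣ (bernoulli k).num) :
    ∑ a ∈ Icc 1 ((p - 1) / 2), ((a : ℕ) : ZMod p) ^ (k - 1) = 0 := by
  haveI : Fact p.Prime := ⟨hp⟩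
  have hodd : p % 2 = 1 := by
    rcases hp.eq_two_or_odd with h | h
    · omega
    · exact h
  set M : ℕ := (p + 1) / 2 with hM
  have h2M : 2 * M = p + 1 := by omega
  obtain ⟨m, rfl⟩ : ∃ m, k = m + 1 := ⟨k - 1, by omega⟩
  rw [Nat.add_sub_cancel]
  -- the rational identity
  have hQ := sum_range_pow M m
  have hZ : ((primorial (p - 1) : ℤ)) * ((m : ℤ) + 1) * 2 ^ (m + 1) * ∑ a ∈ range M, (a : ℤ) ^ m =
      ∑ i ∈ range (m + 1), ((m + 1).choose i : ℤ) * (2 ^ i * cB p i) * ((p : ℤ) + 1) ^ (m + 1 - i) := by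
    have : ((((primorial (p - 1) : ℤ)) * ((m : ℤ) + 1) * 2 ^ (m + 1) * ∑ a ∈ range M, (a : ℤ) ^ m : ℤ) : ℚ) =
      ((∑ i ∈ range (m + 1), ((m + 1).choose i : ℤ) * (2 ^ i * cB p i) * ((p : ℤ) + 1) ^ (m + 1 - i) : ℤ) : ℚ) := by
      push_cast
      rw [hQ, mul_sum]
      refine sum_congr rfl fun i hi => ?_
      rw [mem_range] at hi
      rw [cB_spec h5 (by omega)]
      have h3 : ((p : ℚ) + 1) = 2 * (M : ℚ) := by
        have : ((2 * M : ℕ) : ℚ) = ((p + 1 : ℕ) : ℚ) := by rw [h2M]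
        push_cast at this
        linarith
      have h4 : (2 : ℚ) ^ (m + 1) = 2 ^ i * 2 ^ (m + 1 - i) := by
        rw [← pow_add]; congr 1; omega
      rw [h3, mul_pow, h4]
      have h6 : ((m : ℚ) + 1) ≠ 0 := by positivity
      field_simp
    exact_mod_cast this
  have hR := sum_choose_two_pow_cB h5 (m := m + 1) (by omega)
  rw [sum_range_succ] at hR
  have hc : ((cB p (m + 1) : ℤ) : ZMod p) = 0 := by
    rw [ZMod.intCast_zmod_eq_zero_iff_dvd]
    exact (dvd_cB_iff hp h5 (by omega)).mpr hdvd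
  have hZp := congrArg (fun z : ℤ => (z : ZMod p)) hZ
  have hRp := congrArg (fun z : ℤ => (z : ZMod p)) hR
  simp only [Int.cast_add, Int.cast_mul, Int.cast_pow, Int.cast_sum, Int.cast_natCast, Int.cast_sub,
    Int.cast_ofNat, hc, mul_zero, add_zero, Int.cast_one, CharP.cast_eq_zero, zero_add, one_pow,
    mul_one] at hZp hRp
  rw [hRp] at hZp
  have hs : ∑ a ∈ range M, ((a : ℕ) : ZMod p) ^ m = 0 := by
    rcases mul_eq_zero.mp hZp with h | h
    · exfalso
      rcases mul_eq_zero.mp h with h | h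
      · rcases mul_eq_zero.mp h with h | h
        · rw [ZMod.natCast_eq_zero_iff] at h
          exact not_dvd_primorial hp h
        · have h7 : ((m + 1 : ℕ) : ZMod p) = 0 := by push_cast; exact h
          rw [ZMod.natCast_eq_zero_iff] at h7
          have := Nat.le_of_dvd (by omega) h7
          omega
      · have h8 : ((2 : ℕ) : ZMod p) = 0 := by
          have := pow_eq_zero_iff (n := m + 1) (by omega) |>.mp h
          exact_mod_cast this
        rw [ZMod.natCast_eq_zero_iff] at h8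
        have := Nat.le_of_dvd (by omega) h8
        omega
    · exact h
  have hM1 : M = (p - 1) / 2 + 1 := by omega
  rw [hM1, range_eq_Ico, sum_eq_sum_Ico_succ_bot (by omega)] at hs
  rw [Nat.cast_zero, zero_pow (by omega), zero_add] at hs
  rw [← hs]
  apply sum_congr _ (fun _ _ => rfl)
  ext a
  simp only [mem_Icc, mem_Ico]
  omega

end Pool.QS
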