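import Pool.Agent.Lib.MP_a3a416_nt.QS.Defs

/-! QS-Selberg: the quadratic form of the Selberg weights.

PROOF.
Write h q = g q/(1-g q) > 0, H(A) = prod_{q in A} h q, G = selG g F = sum_{A in F} H(A).
 * selG_pos: the term A = empty is 1, the others are >= 0 (A ⊆ P).
 * selLam_empty: filter (∅ ⊆ A) is F; card ∅ = 0; so lam ∅ = G⁻¹ * G = 1.
 * selLam_abs: |(-1)^n| = 1 and sum over the filter <= G.
 * selberg: for B, C ⊆ P: prod_{B ∪ C} g = (prod_B g)(prod_C g)/prod_{B ∩ C} g and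
   1/prod_{B∩C} g = prod_{q in B∩C} (1 + 1/h q) = sum_{K ⊆ B ∩ C} 1/H(K)  (Finset.prod_one_add or
   Finset.prod_add; 1/g = 1 + 1/h).
   So the form is  sum_{K ∈ P.powerset} (1/H K) * (T K)^2,  T K = sum_{B ∈ F, K ⊆ B} lam B * prod_B g.
   T K = sum_{B ∈ F, K ⊆ B} (-1)^|B| G⁻¹ sum_{A ∈ F, B ⊆ A} H A = G⁻¹ sum_{A ∈ F, K ⊆ A} H A sum_{K ⊆ B ⊆ A} (-1)^|B|
   (here B ∈ F automatically, because F is closed under subsets), and the inner sum is
   (-1)^|K| if A = K and 0 otherwise (Finset.sum_powerset_neg_one_pow_card on A \ K; write B = K ∪ B').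
   Hence T K = (-1)^|K| G⁻¹ H K if K ∈ F, T K = 0 if K ∉ F, and the form is
   sum_{K ∈ F} (1/H K) (H K / G)^2 = G⁻² * G = 1/G.
-/

set_option autoImplicit false

open Finset

namespace Pool.QS

private theorem alt_sum (K A : Finset ℕ) :
    ∑ B ∈ A.powerset.filter (fun B => K ⊆ B), (-1 : ℝ) ^ B.card =
      if A = K then (-1) ^ K.card else 0 := by
  by_cases hKA : K ⊆ A
  · have h1 : A.powerset.filter (fun B => K ⊆ B) = (A \ K).powerset.image (fun B => K ∪ B) := by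
      ext B
      simp only [mem_filter, mem_powerset, mem_image]
      constructor
      · rintro ⟨h1, h2⟩
        exact ⟨B \ K, sdiff_subset_sdiff h1 (Subset.refl K), union_sdiff_of_subset h2⟩
      · rintro ⟨C, hC, rfl⟩
        exact ⟨union_subset hKA (hC.trans sdiff_subset), subset_union_left⟩
    have hinj : Set.InjOn (fun B => K ∪ B) ((A \ K).powerset : Set (Finset ℕ)) := by
      intro x hx y hy hxy
      simp only [coe_powerset, Set.mem_preimage, Set.mem_powerset_iff, coe_subset] at hx hy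
      have hx' : Disjoint K x := disjoint_sdiff.mono_right hx
      have hy' : Disjoint K y := disjoint_sdiff.mono_right hy
      have h2 : (K ∪ x) \ K = (K ∪ y) \ K := by
        have h3 : K ∪ x = K ∪ y := hxy
        rw [h3]
      rwa [union_sdiff_cancel_left hx', union_sdiff_cancel_left hy'] at h2
    rw [h1, sum_image hinj]
    have h2 : ∀ B ∈ (A \ K).powerset, (-1 : ℝ) ^ (K ∪ B).card = (-1) ^ K.card * (-1) ^ B.card := by
      intro B hB
      rw [mem_powerset] at hB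
      rw [card_union_of_disjoint (disjoint_sdiff.mono_right hB), pow_add]
    rw [sum_congr rfl h2, ← mul_sum]
    have h3 : ∑ B ∈ (A \ K).powerset, (-1 : ℝ) ^ B.card = if A \ K = ∅ then 1 else 0 := by
      have h4 := Finset.sum_powerset_neg_one_pow_card (x := A \ K)
      have h5 : ((∑ m ∈ (A \ K).powerset, (-1 : ℤ) ^ m.card : ℤ) : ℝ) =
          ((if A \ K = ∅ then 1 else 0 : ℤ) : ℝ) := by rw [h4]
      push_cast at h5
      exact h5
    rw [h3]
    by_cases hAK : A = K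
    · subst hAK
      simp
    · have : A \ K ≠ ∅ := by
        intro h
        exact hAK (Subset.antisymm (sdiff_eq_empty_iff_subset.1 h) hKA)
      simp [this, hAK]
  · have h1 : A.powerset.filter (fun B => K ⊆ B) = ∅ := by
      rw [filter_eq_empty_iff]
      intro B hB hKB
      exact hKA (hKB.trans (mem_powerset.1 hB))
    have h2 : A ≠ K := fun h => hKA (h ▸ Subset.refl _)
    rw [h1, sum_empty, if_neg h2]

private theorem hpos {g : ℕ → ℝ} {q : ℕ} (h : 0 < g q ∧ g q < 1) : 0 < g q / (1 - g q) :=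
  div_pos h.1 (by linarith [h.2])

private theorem prod_union_eq (P : Finset ℕ) (g : ℕ → ℝ) (hg : ∀ q ∈ P, 0 < g q ∧ g q < 1)
    {B C : Finset ℕ} (hB : B ⊆ P) (hC : C ⊆ P) :
    ∏ q ∈ B ∪ C, g q = (∏ q ∈ B, g q) * (∏ q ∈ C, g q) *
      ∑ K ∈ P.powerset, if K ⊆ B ∧ K ⊆ C then (∏ q ∈ K, g q / (1 - g q))⁻¹ else 0 := by
  have h1 : ∑ K ∈ P.powerset, (if K ⊆ B ∧ K ⊆ C then (∏ q ∈ K, g q / (1 - g q))⁻¹ else 0) =
      ∑ K ∈ (B ∩ C).powerset, (∏ q ∈ K, g q / (1 - g q))⁻¹ := by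
    rw [← sum_filter]
    congr 1
    ext K
    simp only [mem_filter, mem_powerset, subset_inter_iff]
    exact ⟨fun h => h.2, fun h => ⟨h.1.trans hB, h⟩⟩
  have h2 : ∑ K ∈ (B ∩ C).powerset, (∏ q ∈ K, g q / (1 - g q))⁻¹ = (∏ q ∈ B ∩ C, g q)⁻¹ := by
    have h3 : ∀ K ∈ (B ∩ C).powerset, (∏ q ∈ K, g q / (1 - g q))⁻¹ =
        ∏ q ∈ K, (g q / (1 - g q))⁻¹ := fun K _ => (prod_inv_distrib _).symm
    rw [sum_congr rfl h3, ← Finset.prod_one_add, ← prod_inv_distrib]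
    refine prod_congr rfl fun q hq => ?_
    have hq' := hg q (hB (mem_inter.1 hq).1)
    have h4 : g q ≠ 0 := hq'.1.ne'
    have h5 : 1 - g q ≠ 0 := by linarith [hq'.2]
    field_simp
    ring
  have h6 : ∏ q ∈ B ∩ C, g q ≠ 0 := prod_ne_zero_iff.2 fun q hq =>
    (hg q (hB (mem_inter.1 hq).1)).1.ne'
  rw [h1, h2, ← prod_union_inter, mul_assoc, mul_inv_cancel₀ h6, mul_one]

theorem selG_pos (P : Finset ℕ) (g : ℕ → ℝ) (hg : ∀ q ∈ P, 0 < g q ∧ g q < 1)
    (F : Finset (Finset ℕ)) (hF : F ⊆ P.powerset) (hemp : ∅ ∈ F) : 1 ≤ selG g F := by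
  unfold selG
  have h1 : ∀ A ∈ F, 0 ≤ ∏ q ∈ A, g q / (1 - g q) := fun A hA =>
    prod_nonneg fun q hq => (hpos (hg q (mem_powerset.1 (hF hA) hq))).le
  have h2 := single_le_sum h1 hemp
  simpa using h2

/-- Selberg's diagonalisation: the quadratic form at the optimal weights is `1/G`. -/
theorem selberg (P : Finset ℕ) (g : ℕ → ℝ) (hg : ∀ q ∈ P, 0 < g q ∧ g q < 1)
    (F : Finset (Finset ℕ)) (hF : F ⊆ P.powerset) (hdown : ∀ A ∈ F, ∀ B, B ⊆ A → B ∈ F)
    (hemp : ∅ ∈ F) :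
    ∑ B ∈ F, ∑ C ∈ F, selLam g F B * selLam g F C * ∏ q ∈ B ∪ C, g q = 1 / selG g F := by
  have hG := selG_pos P g hg F hF hemp
  have hG0 : selG g F ≠ 0 := by linarith
  set H : Finset ℕ → ℝ := fun A => ∏ q ∈ A, g q / (1 - g q) with hH
  have hHpos : ∀ K ⊆ P, 0 < H K := fun K hK => prod_pos fun q hq => hpos (hg q (hK hq))
  -- the modified weights
  set u : Finset ℕ → ℝ := fun B => selLam g F B * ∏ q ∈ B, g q with hu
  have huB : ∀ B ⊆ P, u B = (-1) ^ B.card * (selG g F)⁻¹ * ∑ A ∈ F.filter (fun A => B ⊆ A), H A := by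
    intro B hB
    have h1 : ∏ q ∈ B, g q ≠ 0 := prod_ne_zero_iff.2 fun q hq => (hg q (hB hq)).1.ne'
    simp only [hu, selLam, hH]
    field_simp
  have hFP : ∀ B ∈ F, B ⊆ P := fun B hB => mem_powerset.1 (hF hB)
  -- the sum of the weights above `K`
  have hT : ∀ K : Finset ℕ, ∑ B ∈ F, (if K ⊆ B then u B else 0) =
      if K ∈ F then (-1) ^ K.card * (selG g F)⁻¹ * H K else 0 := by
    intro K
    have h1 : ∑ B ∈ F, (if K ⊆ B then u B else 0) =
        ∑ A ∈ F, (selG g F)⁻¹ * H A * ∑ B ∈ A.powerset.filter (fun B => K ⊆ B), (-1 : ℝ) ^ B.card := by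
      have h2 : ∀ B ∈ F, (if K ⊆ B then u B else 0) =
          ∑ A ∈ F, (if K ⊆ B ∧ B ⊆ A then (selG g F)⁻¹ * H A * (-1 : ℝ) ^ B.card else 0) := by
        intro B hB
        by_cases hKB : K ⊆ B
        · simp only [hKB, if_true, true_and]
          rw [huB B (hFP B hB), mul_sum, sum_filter]
          refine sum_congr rfl fun A _ => ?_
          split_ifs
          · ring
          · rfl
        · simp [hKB]
      rw [sum_congr rfl h2, sum_comm]
      refine sum_congr rfl fun A hA => ?_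
      rw [mul_sum, ← sum_filter]
      refine sum_congr ?_ fun _ _ => rfl
      ext B
      simp only [mem_filter, mem_powerset]
      exact ⟨fun h => ⟨h.2.2, h.2.1⟩, fun h => ⟨hdown A hA B h.1, h.2, h.1⟩⟩
    rw [h1]
    have h3 : ∀ A ∈ F, (selG g F)⁻¹ * H A * ∑ B ∈ A.powerset.filter (fun B => K ⊆ B), (-1 : ℝ) ^ B.card
        = if A = K then (-1) ^ K.card * (selG g F)⁻¹ * H K else 0 := by
      intro A _
      rw [alt_sum]
      split_ifs with h
      · rw [h]; ring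
      · ring
    rw [sum_congr rfl h3, sum_ite_eq']
  -- expand
  have h1 : ∀ B ∈ F, ∀ C ∈ F, selLam g F B * selLam g F C * ∏ q ∈ B ∪ C, g q =
      ∑ K ∈ P.powerset, (H K)⁻¹ * ((if K ⊆ B then u B else 0) * (if K ⊆ C then u C else 0)) := by
    intro B hB C hC
    rw [prod_union_eq P g hg (hFP B hB) (hFP C hC), mul_sum, mul_sum]
    refine sum_congr rfl fun K _ => ?_
    by_cases hKB : K ⊆ B <;> by_cases hKC : K ⊆ C <;> simp [hKB, hKC, hu, hH]
    ring
  have h2 : ∑ B ∈ F, ∑ C ∈ F, selLam g F B * selLam g F C * ∏ q ∈ B ∪ C, g q =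
      ∑ K ∈ P.powerset, (H K)⁻¹ * (∑ B ∈ F, (if K ⊆ B then u B else 0)) ^ 2 := by
    rw [sum_congr rfl fun B hB => sum_congr rfl fun C hC => h1 B hB C hC]
    have h3 : ∀ B ∈ F, ∑ C ∈ F, ∑ K ∈ P.powerset,
        (H K)⁻¹ * ((if K ⊆ B then u B else 0) * (if K ⊆ C then u C else 0)) =
        ∑ K ∈ P.powerset, (H K)⁻¹ * ((if K ⊆ B then u B else 0) *
          ∑ C ∈ F, (if K ⊆ C then u C else 0)) := by
      intro B _
      rw [sum_comm]
      refine sum_congr rfl fun K _ => ?_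
      rw [mul_sum, mul_sum]
    rw [sum_congr rfl h3, sum_comm]
    refine sum_congr rfl fun K _ => ?_
    rw [← mul_sum, ← sum_mul, sq]
  rw [h2, sum_congr rfl fun K _ => by rw [hT K]]
  have h4 : ∀ K ∈ P.powerset, (H K)⁻¹ * (if K ∈ F then (-1) ^ K.card * (selG g F)⁻¹ * H K else 0) ^ 2 =
      if K ∈ F then (selG g F)⁻¹ ^ 2 * H K else 0 := by
    intro K hK
    split_ifs
    · have h5 : H K ≠ 0 := (hHpos K (mem_powerset.1 hK)).ne'
      have h6 : ((-1 : ℝ) ^ K.card) ^ 2 = 1 := by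
        rw [← pow_mul, mul_comm, pow_mul]; simp
      rw [mul_pow, mul_pow, h6]
      field_simp
    · simp
  rw [sum_congr rfl h4, ← sum_filter]
  have h5 : P.powerset.filter (fun K => K ∈ F) = F := by
    ext K
    simp only [mem_filter]
    exact ⟨fun h => h.2, fun h => ⟨hF h, h⟩⟩
  rw [h5, ← mul_sum]
  have h6 : ∑ K ∈ F, H K = selG g F := rfl
  rw [h6]
  field_simp

theorem selLam_empty (P : Finset ℕ) (g : ℕ → ℝ) (hg : ∀ q ∈ P, 0 < g q ∧ g q < 1)
    (F : Finset (Finset ℕ)) (hF : F ⊆ P.powerset) (hemp : ∅ ∈ F) : selLam g F ∅ = 1 := by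
  have hG := selG_pos P g hg F hF hemp
  have hG0 : selG g F ≠ 0 := by linarith
  unfold selLam
  have h1 : F.filter (fun A => ∅ ⊆ A) = F := filter_true_of_mem fun A _ => empty_subset A
  rw [h1]
  have h2 : ∑ A ∈ F, ∏ q ∈ A, g q / (1 - g q) = selG g F := rfl
  rw [h2]
  simp [hG0]

theorem selLam_abs (P : Finset ℕ) (g : ℕ → ℝ) (hg : ∀ q ∈ P, 0 < g q ∧ g q < 1)
    (F : Finset (Finset ℕ)) (hF : F ⊆ P.powerset) (hemp : ∅ ∈ F) (B : Finset ℕ) (hB : B ⊆ P) :
    |selLam g F B| ≤ (∏ q ∈ B, g q)⁻¹ := by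
  have hG := selG_pos P g hg F hF hemp
  have hGp : 0 < selG g F := by linarith
  have h0 : 0 < ∏ q ∈ B, g q := prod_pos fun q hq => (hg q (hB hq)).1
  have h1 : ∀ A ∈ F, 0 ≤ ∏ q ∈ A, g q / (1 - g q) := fun A hA =>
    prod_nonneg fun q hq => (hpos (hg q (mem_powerset.1 (hF hA) hq))).le
  have h2 : 0 ≤ ∑ A ∈ F.filter (fun A => B ⊆ A), ∏ q ∈ A, g q / (1 - g q) :=
    sum_nonneg fun A hA => h1 A (mem_filter.1 hA).1
  have h3 : ∑ A ∈ F.filter (fun A => B ⊆ A), ∏ q ∈ A, g q / (1 - g q) ≤ selG g F :=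
    sum_le_sum_of_subset_of_nonneg (filter_subset _ _) fun A hA _ => h1 A hA
  unfold selLam
  rw [abs_mul, abs_mul, abs_mul, abs_pow, abs_neg, abs_one, one_pow, one_mul,
    abs_of_pos (inv_pos.2 h0), abs_of_pos (inv_pos.2 hGp), abs_of_nonneg h2, mul_assoc]
  refine mul_le_of_le_one_right (inv_pos.2 h0).le ?_
  rw [inv_mul_le_iff₀ hGp, mul_one]
  exact h3

end Pool.QS
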