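import Pool.Agent.Lib.MP_a3a416_nt.QS.Defs

/-! QS-Square: truncated Fourier series of the square wave.

PROOF.
Let s(θ) = sum_{j<J} sin((2j+1)θ)/(2j+1); s'(θ) = sum cos((2j+1)θ) = sin(2Jθ)/(2 sin θ).
 By symmetry s(π-θ) = s(θ) we may take θ <= π/2. |π/4 - s(π/2)| = |π/4 - sum (-1)^j/(2j+1)| <= 1/(2J+1) (alternating series, Leibniz).
 s(π/2) - s(θ) = ∫_θ^{π/2} sin(2Jt)/(2 sin t) dt; integrate by parts: = [-cos(2Jt)/(2J) * u] + ∫ cos(2Jt)/(2J) u', u = 1/(2 sin t) decreasing:
 absolute value <= (1/(2J)) (u(π/2) + u(θ) + (u(θ) - u(π/2))) = u(θ)/J = 1/(2J sin θ). Total <= 1/(2J+1) + 1/(2 J sin θ) <= 1/(J sin θ).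
 (Any other proof of the same bound is fine, e.g. Abel summation.)
-/

set_option autoImplicit false

open Finset

namespace Pool.QS
/-- partial sum -/
private noncomputable def sqs (J : ℕ) (t : ℝ) : ℝ := ∑ j ∈ range J, Real.sin ((2 * j + 1) * t) / (2 * j + 1)

private theorem sq_dirichlet (J : ℕ) (t : ℝ) :
    2 * Real.sin t * ∑ j ∈ range J, Real.cos ((2 * j + 1) * t) = Real.sin (2 * J * t) := by
  induction J with
  | zero => simp
  | succ n ih =>
    rw [sum_range_succ, mul_add, ih]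
    have h1 : (2 * ((n + 1 : ℕ) : ℝ) * t) = (2 * n + 1) * t + t := by push_cast; ring
    have h2 : (2 * (n : ℝ) * t) = (2 * n + 1) * t - t := by ring
    rw [h1, h2, Real.sin_add, Real.sin_sub]
    ring

private theorem sq_hasDerivAt (J : ℕ) (t : ℝ) :
    HasDerivAt (sqs J) (∑ j ∈ range J, Real.cos ((2 * j + 1) * t)) t := by
  unfold sqs
  refine HasDerivAt.fun_sum fun j _ => ?_
  have h1 : HasDerivAt (fun t : ℝ => (2 * (j : ℝ) + 1) * t) (2 * (j : ℝ) + 1) t := by
    simpa using (hasDerivAt_id t).const_mul (2 * (j : ℝ) + 1)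
  have h2 := (h1.sin).div_const (2 * (j : ℝ) + 1)
  have h3 : (2 * (j : ℝ) + 1) ≠ 0 := by positivity
  refine h2.congr_deriv ?_
  field_simp

private theorem sq_hasDerivAt' (J : ℕ) (hJ : 1 ≤ J) (c t : ℝ) (ht : 0 < Real.sin t) :
    HasDerivAt (fun t => sqs J t + (Real.cos (2 * J * t) + c) / (4 * J * Real.sin t))
      (-((Real.cos (2 * J * t) + c) * Real.cos t / (4 * J * Real.sin t ^ 2))) t := by
  have hJ' : (0 : ℝ) < J := by exact_mod_cast hJ
  have h1 : HasDerivAt (fun t : ℝ => 2 * (J : ℝ) * t) (2 * (J : ℝ)) t := by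
    simpa using (hasDerivAt_id t).const_mul (2 * (J : ℝ))
  have h2 : HasDerivAt (fun t : ℝ => Real.cos (2 * J * t) + c) (-Real.sin (2 * J * t) * (2 * J)) t := by
    simpa using (h1.cos).add_const c
  have h3 : HasDerivAt (fun t : ℝ => 4 * (J : ℝ) * Real.sin t) (4 * (J : ℝ) * Real.cos t) t :=
    (Real.hasDerivAt_sin t).const_mul _
  have h4 : 4 * (J : ℝ) * Real.sin t ≠ 0 := by positivity
  have h5 := (sq_hasDerivAt J t).add (h2.div h3 h4)
  have h6 : ∑ j ∈ range J, Real.cos ((2 * j + 1) * t) = Real.sin (2 * J * t) / (2 * Real.sin t) := by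
    rw [eq_div_iff (by positivity), ← sq_dirichlet J t]
    ring
  rw [h6] at h5
  have h7 : Real.sin t ≠ 0 := ht.ne'
  have h8 : (J : ℝ) ≠ 0 := hJ'.ne'
  refine HasDerivAt.congr_deriv h5 ?_
  field_simp
  ring

private theorem sq_half (J : ℕ) (hJ : 1 ≤ J) {θ : ℝ} (h0 : 0 < θ) (h2 : θ ≤ Real.pi / 2) :
    |sqs J (Real.pi / 2) - sqs J θ| ≤ 1 / (2 * J * Real.sin θ) := by
  have hJ' : (0 : ℝ) < J := by exact_mod_cast hJ
  have hsin : ∀ t ∈ Set.Icc θ (Real.pi / 2), 0 < Real.sin t := fun t ht =>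
    Real.sin_pos_of_pos_of_lt_pi (h0.trans_le ht.1) (by linarith [ht.2, Real.pi_pos])
  have hcos : ∀ t ∈ Set.Icc θ (Real.pi / 2), 0 ≤ Real.cos t := fun t ht =>
    Real.cos_nonneg_of_neg_pi_div_two_le_of_le (by linarith [ht.1, Real.pi_pos]) ht.2
  have hcont : ∀ c : ℝ, ContinuousOn (fun t => sqs J t + (Real.cos (2 * J * t) + c) / (4 * J * Real.sin t))
      (Set.Icc θ (Real.pi / 2)) := fun c t ht =>
    (sq_hasDerivAt' J hJ c t (hsin t ht)).continuousAt.continuousWithinAt
  have hmem : θ ∈ Set.Icc θ (Real.pi / 2) := ⟨le_refl _, h2⟩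
  have hmem' : Real.pi / 2 ∈ Set.Icc θ (Real.pi / 2) := ⟨h2, le_refl _⟩
  have hanti : AntitoneOn (fun t => sqs J t + (Real.cos (2 * J * t) + 1) / (4 * J * Real.sin t))
      (Set.Icc θ (Real.pi / 2)) := by
    refine antitoneOn_of_deriv_nonpos (convex_Icc _ _) (hcont 1) ?_ ?_
    · intro t ht
      exact (sq_hasDerivAt' J hJ 1 t (hsin t (interior_subset ht))).differentiableAt.differentiableWithinAt
    · intro t ht
      have ht' := interior_subset ht
      rw [(sq_hasDerivAt' J hJ 1 t (hsin t ht')).deriv]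
      have := hcos t ht'
      have h3 := Real.neg_one_le_cos (2 * J * t)
      have h4 := hsin t ht'
      have : 0 ≤ (Real.cos (2 * J * t) + 1) * Real.cos t / (4 * J * Real.sin t ^ 2) := by
        apply div_nonneg (mul_nonneg (by linarith) this) (by positivity)
      linarith
  have hmono : MonotoneOn (fun t => sqs J t + (Real.cos (2 * J * t) + -1) / (4 * J * Real.sin t))
      (Set.Icc θ (Real.pi / 2)) := by
    refine monotoneOn_of_deriv_nonneg (convex_Icc _ _) (hcont (-1)) ?_ ?_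
    · intro t ht
      exact (sq_hasDerivAt' J hJ (-1) t (hsin t (interior_subset ht))).differentiableAt.differentiableWithinAt
    · intro t ht
      have ht' := interior_subset ht
      rw [(sq_hasDerivAt' J hJ (-1) t (hsin t ht')).deriv]
      have := hcos t ht'
      have h3 := Real.cos_le_one (2 * J * t)
      have h4 := hsin t ht'
      have : 0 ≤ (1 - Real.cos (2 * J * t)) * Real.cos t / (4 * J * Real.sin t ^ 2) := by
        apply div_nonneg (mul_nonneg (by linarith) this) (by positivity)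
      have h5 : -((Real.cos (2 * J * t) + -1) * Real.cos t / (4 * J * Real.sin t ^ 2)) =
        (1 - Real.cos (2 * J * t)) * Real.cos t / (4 * J * Real.sin t ^ 2) := by ring
      rw [h5]
      exact this
  have h5 := hanti hmem hmem' h2
  have h6 := hmono hmem hmem' h2
  simp only [Real.sin_pi_div_two, mul_one] at h5 h6
  have hs := hsin θ hmem
  have hs1 := Real.sin_le_one θ
  set C := Real.cos (2 * J * (Real.pi / 2)) with hC
  set D := Real.cos (2 * J * θ) with hD
  have e1 : ∀ x y : ℝ, (x + y) / (4 * J * Real.sin θ) = x / (4 * J * Real.sin θ) + y / (4 * J * Real.sin θ) :=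
    fun x y => add_div x y _
  have e2 : ∀ x y : ℝ, (x + y) / (4 * J) = x / (4 * J) + y / (4 * (J : ℝ)) :=
    fun x y => add_div x y _
  have hC1 : C ≤ 1 := Real.cos_le_one _
  have hC2 : -1 ≤ C := Real.neg_one_le_cos _
  have hD1 : D ≤ 1 := Real.cos_le_one _
  have hD2 : -1 ≤ D := Real.neg_one_le_cos _
  have hden : 0 < 4 * (J : ℝ) * Real.sin θ := by positivity
  have hden' : 0 < 4 * (J : ℝ) := by positivity
  have b1 : (D + 1) / (4 * J * Real.sin θ) ≤ 2 / (4 * J * Real.sin θ) := by gcongr; linarith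
  have b2 : -2 / (4 * J * Real.sin θ) ≤ (D + -1) / (4 * J * Real.sin θ) := by gcongr; linarith
  have b3 : 0 ≤ (C + 1) / (4 * (J : ℝ)) := div_nonneg (by linarith) hden'.le
  have b4 : (C + -1) / (4 * (J : ℝ)) ≤ 0 := div_nonpos_of_nonpos_of_nonneg (by linarith) hden'.le
  have b5 : 2 / (4 * J * Real.sin θ) = 1 / (2 * J * Real.sin θ) := by
    field_simp
    norm_num
  have b6 : -2 / (4 * J * Real.sin θ) = -(1 / (2 * J * Real.sin θ)) := by
    rw [← b5]; ring
  rw [b5] at b1
  rw [b6] at b2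
  rw [abs_le]
  constructor
  · linarith
  · linarith

private theorem sq_leibniz (J : ℕ) :
    |Real.pi / 4 - ∑ j ∈ range J, (-1 : ℝ) ^ j / (2 * j + 1)| ≤ 1 / (2 * J + 1) := by
  have hanti : Antitone fun i : ℕ => (1 : ℝ) / (2 * i + 1) := by
    intro a b hab
    have : (a : ℝ) ≤ b := by exact_mod_cast hab
    simp only
    gcongr
  have hlim : Filter.Tendsto (fun n => ∑ i ∈ range n, (-1 : ℝ) ^ i * (1 / (2 * i + 1))) Filter.atTop
      (nhds (Real.pi / 4)) := by
    have := Real.tendsto_sum_pi_div_four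
    refine this.congr fun n => sum_congr rfl fun i _ => ?_
    ring
  have hS : ∀ n, ∑ i ∈ range n, (-1 : ℝ) ^ i * (1 / (2 * i + 1)) = ∑ j ∈ range n, (-1 : ℝ) ^ j / (2 * j + 1) :=
    fun n => sum_congr rfl fun i _ => by ring
  have hle := fun k => hanti.alternating_series_le_tendsto hlim k
  have hge := fun k => hanti.tendsto_le_alternating_series hlim k
  simp only [hS] at hle hge
  have hpos : (0 : ℝ) ≤ 1 / (2 * J + 1) := by positivity
  rcases Nat.even_or_odd' J with ⟨k, rfl | rfl⟩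
  · have h1 := hle k
    have h2 := hge k
    rw [sum_range_succ, Even.neg_one_pow ⟨k, by ring⟩] at h2
    rw [abs_le]
    constructor <;> linarith
  · have h1 := hle (k + 1)
    have h2 := hge k
    have e : 2 * (k + 1) = (2 * k + 1) + 1 := by ring
    rw [e, sum_range_succ, Odd.neg_one_pow ⟨k, by ring⟩] at h1
    have e3 : (-1 : ℝ) / (2 * ((2 * k + 1 : ℕ) : ℝ) + 1) = -(1 / (2 * ((2 * k + 1 : ℕ) : ℝ) + 1)) := by ring
    rw [e3] at h1
    rw [abs_le]
    constructor <;> linarith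

private theorem sq_pi_div_two (J : ℕ) : sqs J (Real.pi / 2) = ∑ j ∈ range J, (-1 : ℝ) ^ j / (2 * j + 1) := by
  unfold sqs
  refine sum_congr rfl fun j _ => ?_
  congr 1
  have : (2 * (j : ℝ) + 1) * (Real.pi / 2) = Real.pi / 2 + j * Real.pi := by ring
  rw [this, Real.sin_add_nat_mul_pi, Real.sin_pi_div_two]
  ring

private theorem sq_symm (J : ℕ) (θ : ℝ) : sqs J (Real.pi - θ) = sqs J θ := by
  unfold sqs
  refine sum_congr rfl fun j _ => ?_
  congr 1
  have : (2 * (j : ℝ) + 1) * (Real.pi - θ) = (Real.pi - (2 * j + 1) * θ) + j * (2 * Real.pi) := by ring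
  rw [this, Real.sin_add_nat_mul_two_pi, Real.sin_pi_sub]

private theorem sq_main (J : ℕ) (hJ : 1 ≤ J) {θ : ℝ} (h0 : 0 < θ) (h2 : θ ≤ Real.pi / 2) :
    |Real.pi / 4 - sqs J θ| ≤ 1 / (J * Real.sin θ) := by
  have hJ' : (0 : ℝ) < J := by exact_mod_cast hJ
  have hs : 0 < Real.sin θ := Real.sin_pos_of_pos_of_lt_pi h0 (by linarith [Real.pi_pos])
  have h1 := sq_half J hJ h0 h2
  have h3 := sq_leibniz J
  rw [← sq_pi_div_two] at h3
  have h4 : (1 : ℝ) / (2 * J + 1) ≤ 1 / (2 * J * Real.sin θ) := by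
    apply one_div_le_one_div_of_le (by positivity)
    have := Real.sin_le_one θ
    nlinarith
  have h5 : 1 / (2 * J * Real.sin θ) + 1 / (2 * J * Real.sin θ) = 1 / (J * Real.sin θ) := by
    field_simp
    norm_num
  calc |Real.pi / 4 - sqs J θ| = |(Real.pi / 4 - sqs J (Real.pi / 2)) + (sqs J (Real.pi / 2) - sqs J θ)| := by
        congr 1; ring
    _ ≤ _ := abs_add_le _ _
    _ ≤ 1 / (J * Real.sin θ) := by linarith

/-- partial sums of the Fourier series of the square wave, `0 < θ < π` -/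
theorem square_wave (J : ℕ) (hJ : 1 ≤ J) {θ : ℝ} (h0 : 0 < θ) (hπ : θ < Real.pi) :
    |Real.pi / 4 - ∑ j ∈ range J, Real.sin ((2 * j + 1) * θ) / (2 * j + 1)| ≤
      1 / (J * Real.sin θ) := by
  change |Real.pi / 4 - sqs J θ| ≤ _
  rcases le_total θ (Real.pi / 2) with h | h
  · exact sq_main J hJ h0 h
  · have := sq_main J hJ (θ := Real.pi - θ) (by linarith) (by linarith)
    rwa [sq_symm, Real.sin_pi_sub] at this

end Pool.QS
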